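import Mathlib

/-!
# Separated sets in the unit ball of a normed space; dimension of the selfadjoint part
-/

open MeasureTheory Module Set Metric
open scoped ENNReal NNReal Topology

namespace Pool.Agent.T2H01.EK

noncomputable section

/-- A set of points of the unit ball whose mutual distances are at least `ε ≤ 1` has at most
`(3 / ε) ^ d` elements. -/
lemma card_sep {E : Type*} [NormedAddCommGroup E] [NormedSpace ℝ E] [FiniteDimensional ℝ E]
    {ε : ℝ} (h0 : 0 < ε) (h1 : ε ≤ 1) (s : Finset E) (hs : ∀ c ∈ s, ‖c‖ ≤ 1)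
    (h : ∀ c ∈ s, ∀ d ∈ s, c ≠ d → ε ≤ ‖c - d‖) : (s.card : ℝ) ≤ (3 / ε) ^ finrank ℝ E := by
  borelize E
  let μ : Measure E := Measure.addHaar
  have hδ : 0 < ε / 2 := by positivity
  have hρ : (0 : ℝ) < 1 + ε / 2 := by positivity
  set A := ⋃ c ∈ s, ball (c : E) (ε / 2) with hA
  have D : Set.Pairwise (s : Set E) (Function.onFun Disjoint fun c => ball (c : E) (ε / 2)) := by
    rintro c hc d hd hcd
    apply ball_disjoint_ball
    rw [dist_eq_norm]
    have := h c hc d hd hcd
    linarith
  have A_subset : A ⊆ ball (0 : E) (1 + ε / 2) := by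
    refine iUnion₂_subset fun x hx => ?_
    apply ball_subset_ball'
    rw [dist_zero_right]
    have := hs x hx
    linarith
  have I : (s.card : ℝ≥0∞) * ENNReal.ofReal ((ε / 2) ^ finrank ℝ E) * μ (ball 0 1) ≤
      ENNReal.ofReal ((1 + ε / 2) ^ finrank ℝ E) * μ (ball 0 1) :=
    calc (s.card : ℝ≥0∞) * ENNReal.ofReal ((ε / 2) ^ finrank ℝ E) * μ (ball 0 1) = μ A := by
          rw [hA, measure_biUnion_finset D fun c _ => measurableSet_ball]
          simp only [μ.addHaar_ball_of_pos _ hδ]
          simp only [Finset.sum_const, nsmul_eq_mul, mul_assoc]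
      _ ≤ μ (ball (0 : E) (1 + ε / 2)) := measure_mono A_subset
      _ = ENNReal.ofReal ((1 + ε / 2) ^ finrank ℝ E) * μ (ball 0 1) := by
          simp only [μ.addHaar_ball_of_pos _ hρ]
  have J : (s.card : ℝ≥0∞) * ENNReal.ofReal ((ε / 2) ^ finrank ℝ E) ≤
      ENNReal.ofReal ((1 + ε / 2) ^ finrank ℝ E) :=
    (ENNReal.mul_le_mul_iff_left (measure_ball_pos _ _ zero_lt_one).ne' measure_ball_lt_top.ne).1 I
  have K := ENNReal.toReal_le_of_le_ofReal (pow_nonneg hρ.le _) J
  rw [ENNReal.toReal_mul, ENNReal.toReal_natCast, ENNReal.toReal_ofReal (by positivity)] at K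
  have h2 : (1 + ε / 2) ≤ (3 / ε) * (ε / 2) := by
    have : (3 / ε) * (ε / 2) = 3 / 2 := by field_simp
    rw [this]
    linarith
  have h3 : (1 + ε / 2) ^ finrank ℝ E ≤ ((3 / ε) * (ε / 2)) ^ finrank ℝ E :=
    pow_le_pow_left₀ hρ.le h2 _
  rw [mul_pow] at h3
  have h4 : 0 < (ε / 2) ^ finrank ℝ E := by positivity
  exact le_of_mul_le_mul_right (K.trans h3) h4

lemma finrank_sa_aux (A : Type*) [AddCommGroup A] [StarAddMonoid A] [Module ℂ A] [StarModule ℂ A]
    [Module ℝ A] [IsScalarTower ℝ ℂ A] [SMulCommClass ℝ ℂ A] [StarModule ℝ A]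
    [FiniteDimensional ℝ A] :
    2 * finrank ℝ (selfAdjoint.submodule ℝ A) ≤ finrank ℝ A := by
  let f : (selfAdjoint.submodule ℝ A × selfAdjoint.submodule ℝ A) →ₗ[ℝ] A :=
    { toFun := fun p => p.1.1 + Complex.I • p.2.1
      map_add' := by
        intro p q
        simp only [Prod.fst_add, Prod.snd_add, Submodule.coe_add, smul_add]
        abel
      map_smul' := by
        intro c p
        simp only [Prod.smul_fst, Prod.smul_snd, Submodule.coe_smul, smul_add, RingHom.id_apply]
        rw [smul_comm] }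
  have hf : Function.Injective f := by
    rw [injective_iff_map_eq_zero]
    rintro ⟨a, b⟩ h
    have ha : star (a : A) = a := a.2
    have hb : star (b : A) = b := b.2
    have h' : (a : A) + Complex.I • (b : A) = 0 := h
    have h2 : (a : A) - Complex.I • (b : A) = 0 := by
      have := congrArg star h'
      rw [star_add, star_smul, ha, hb, star_zero] at this
      simpa [sub_eq_add_neg] using this
    have h3 : (2 : ℝ) • (a : A) = 0 := by
      rw [two_smul]
      calc _ = ((a : A) + Complex.I • (b : A)) + ((a : A) - Complex.I • (b : A)) := by abel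
        _ = 0 := by rw [h', h2, add_zero]
    have h4 : (a : A) = 0 := (smul_eq_zero.1 h3).resolve_left two_ne_zero
    have h5 : (b : A) = 0 := by
      rw [h4, zero_add] at h'
      have h6 := congrArg (fun x => (-Complex.I) • x) h'
      simpa [smul_smul] using h6
    exact Prod.ext (Subtype.ext h4) (Subtype.ext h5)
  have h2 := LinearMap.finrank_le_finrank_of_injective hf
  rw [Module.finrank_prod] at h2
  omega

lemma finrank_clm (N : ℕ) :
    finrank ℝ (EuclideanSpace ℂ (Fin N) →L[ℂ] EuclideanSpace ℂ (Fin N)) = 2 * N ^ 2 := by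
  rw [← finrank_mul_finrank ℝ ℂ, Complex.finrank_real_complex]
  have : finrank ℂ (EuclideanSpace ℂ (Fin N) →L[ℂ] EuclideanSpace ℂ (Fin N)) = N ^ 2 := by
    rw [← (Matrix.toEuclideanCLM (n := Fin N) (𝕜 := ℂ)).toAlgEquiv.toLinearEquiv.finrank_eq,
      Module.finrank_matrix]
    simp [sq]
  rw [this]

/-- The selfadjoint operators on `ℂ ^ N` have real dimension at most `N ^ 2`. -/
lemma finrank_sa (N : ℕ) : finrank ℝ (selfAdjoint.submodule ℝ
    (EuclideanSpace ℂ (Fin N) →L[ℂ] EuclideanSpace ℂ (Fin N))) ≤ N ^ 2 := by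
  have h1 := finrank_clm N
  have : FiniteDimensional ℝ (EuclideanSpace ℂ (Fin N) →L[ℂ] EuclideanSpace ℂ (Fin N)) :=
    FiniteDimensional.complexToReal _
  have h2 := finrank_sa_aux (EuclideanSpace ℂ (Fin N) →L[ℂ] EuclideanSpace ℂ (Fin N))
  omega

end

end Pool.Agent.T2H01.EK
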