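import Mathlib

/-!
# The Cayley transform near the unit
-/

namespace Pool.Agent.T2H01.EK

variable {A : Type*} [NormedRing A] [CompleteSpace A] [StarRing A] [NormedAlgebra ℂ A]
  [StarModule ℂ A]

/-- The Cayley transform of a unitary element near `1`. -/
lemma cayley (h1 : ‖(1 : A)‖ ≤ 1) {u : A} (hu : star u * u = 1) (hd : ‖1 - u‖ ≤ 1) :
    ∃ H : A, star H = H ∧ ‖H‖ ≤ 1 ∧ H * (1 + u) = Complex.I • (1 - u) ∧
      (1 + u) * H = Complex.I • (1 - u) := by
  obtain ⟨x, hx⟩ : ∃ x : A, x = (1 / 2 : ℂ) • (1 - u) := ⟨_, rfl⟩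
  have hxn : ‖x‖ < 1 := by
    rw [hx, norm_smul]
    have : ‖(1 / 2 : ℂ)‖ = 1 / 2 := by norm_num
    rw [this]
    linarith
  obtain ⟨v, hv⟩ : ∃ v : A, v = (1 / 2 : ℂ) • (((Units.oneSub x hxn)⁻¹ : Aˣ) : A) := ⟨_, rfl⟩
  have hval : ((Units.oneSub x hxn : Aˣ) : A) = (1 / 2 : ℂ) • (1 + u) := by
    rw [Units.val_oneSub, hx]
    have : (1 : A) = (1 / 2 : ℂ) • (1 + u) + (1 / 2 : ℂ) • (1 - u) := by
      rw [← smul_add, add_add_sub_cancel, ← two_smul ℂ (1 : A), smul_smul]
      norm_num
    rw [sub_eq_iff_eq_add]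
    exact this
  have hv1 : (1 + u) * v = 1 := by
    have := Units.mul_inv (Units.oneSub x hxn)
    rw [hval] at this
    rw [hv, mul_smul_comm, ← smul_mul_assoc]
    exact this
  have hv2 : v * (1 + u) = 1 := by
    have := Units.inv_mul (Units.oneSub x hxn)
    rw [hval] at this
    rw [hv, smul_mul_assoc, ← mul_smul_comm]
    exact this
  have hvn : ‖v‖ ≤ 1 := by
    have e : (2 : ℂ) • v = 1 + v * (1 - u) := by
      calc (2 : ℂ) • v = v + v := two_smul _ _
        _ = v * (1 + u) + v * (1 - u) := by noncomm_ring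
        _ = _ := by rw [hv2]
    have e2 : ‖(2 : ℂ) • v‖ ≤ 1 + ‖v‖ := by
      rw [e]
      refine (norm_add_le _ _).trans (add_le_add h1 ((norm_mul_le _ _).trans ?_))
      exact mul_le_of_le_one_right (norm_nonneg _) hd
    rw [norm_smul] at e2
    have : ‖(2 : ℂ)‖ = 2 := by norm_num
    rw [this] at e2
    linarith
  have hcomm : (1 + u) * (1 - u) = (1 - u) * (1 + u) := by noncomm_ring
  have hr : (1 + u) * (Complex.I • ((1 - u) * v)) = Complex.I • (1 - u) := by
    rw [mul_smul_comm, ← mul_assoc, hcomm, mul_assoc, hv1, mul_one]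
  have hl : (Complex.I • ((1 - u) * v)) * (1 + u) = Complex.I • (1 - u) := by
    rw [smul_mul_assoc, mul_assoc, hv2, mul_one]
  refine ⟨Complex.I • ((1 - u) * v), ?_, ?_, hl, hr⟩
  · have s1 : star v * (1 + star u) = 1 := by
      have := congrArg star hv1
      rw [star_mul, star_add, star_one] at this
      exact this
    have s2 : (1 + star u) * star v = 1 := by
      have := congrArg star hv2
      rw [star_mul, star_add, star_one] at this
      exact this
    have s3 : star v * (1 + u) = u := by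
      have e : (1 + star u) * u = 1 + u := by rw [add_mul, hu, one_mul]; abel
      rw [← e, ← mul_assoc, s1, one_mul]
    have s4 : star v * (1 - star u) = (1 - star u) * star v := by
      calc star v * (1 - star u) = star v * (1 - star u) * ((1 + star u) * star v) := by
            rw [s2, mul_one]
        _ = star v * ((1 - star u) * (1 + star u)) * star v := by noncomm_ring
        _ = star v * ((1 + star u) * (1 - star u)) * star v := by
            congr 2; noncomm_ring
        _ = (star v * (1 + star u)) * (1 - star u) * star v := by noncomm_ring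
        _ = (1 - star u) * star v := by rw [s1, one_mul]
    have s5 : star (Complex.I • ((1 - u) * v)) * (1 + u) = Complex.I • (1 - u) := by
      rw [star_smul, star_mul, star_sub, star_one, s4, smul_mul_assoc, mul_assoc, s3, sub_mul, hu,
        one_mul]
      simp only [RCLike.star_def, Complex.conj_I, neg_smul, smul_sub]
      abel
    calc star (Complex.I • ((1 - u) * v)) = star (Complex.I • ((1 - u) * v)) * ((1 + u) * v) := by
          rw [hv1, mul_one]
      _ = (Complex.I • (1 - u)) * v := by rw [← mul_assoc, s5]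
      _ = _ := by rw [smul_mul_assoc]
  · rw [norm_smul, Complex.norm_I, one_mul]
    refine (norm_mul_le _ _).trans ?_
    exact mul_le_one₀ hd (norm_nonneg _) hvn

lemma cayley_diff {u u' H H' : A} (hH : (1 + u) * H = Complex.I • (1 - u))
    (hH' : H' * (1 + u') = Complex.I • (1 - u')) :
    u - u' = (Complex.I / 2) • ((1 + u) * (H - H') * (1 + u')) := by
  have e : (1 + u) * (H - H') * (1 + u') =
      Complex.I • ((1 - u) * (1 + u') - (1 + u) * (1 - u')) := by
    rw [mul_sub, sub_mul, hH, mul_assoc, hH', smul_mul_assoc, mul_smul_comm, smul_sub]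
  have e2 : (1 - u) * (1 + u') - (1 + u) * (1 - u') = (2 : ℂ) • (u' - u) := by
    rw [two_smul]
    noncomm_ring
  rw [e, e2, smul_smul, smul_smul]
  have : Complex.I / 2 * Complex.I * 2 = -1 := by
    linear_combination Complex.I_mul_I
  rw [this, neg_one_smul]
  abel

lemma cayley_norm (h1 : ‖(1 : A)‖ ≤ 1) {u u' H H' : A} (hu : ‖u‖ ≤ 1) (hu' : ‖u'‖ ≤ 1)
    (hH : (1 + u) * H = Complex.I • (1 - u)) (hH' : H' * (1 + u') = Complex.I • (1 - u')) :
    ‖u - u'‖ ≤ 2 * ‖H - H'‖ := by
  have h : ‖Complex.I / 2‖ = 1 / 2 := by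
    rw [norm_div, Complex.norm_I]
    norm_num
  rw [cayley_diff hH hH', norm_smul, h]
  have a : ‖1 + u‖ ≤ 2 := (norm_add_le _ _).trans (by linarith)
  have b : ‖1 + u'‖ ≤ 2 := (norm_add_le _ _).trans (by linarith)
  have c : ‖(1 + u) * (H - H') * (1 + u')‖ ≤ 2 * ‖H - H'‖ * 2 := by
    refine (norm_mul_le _ _).trans ?_
    refine mul_le_mul ((norm_mul_le _ _).trans ?_) b (norm_nonneg _) (by positivity)
    exact mul_le_mul_of_nonneg_right a (norm_nonneg _)
  linarith

end Pool.Agent.T2H01.EK
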