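import Mathlib
import Pool.Agent.T2H01.LN.Zeros
import Pool.Agent.T2H01.EK.BallA
import Pool.Agent.T2H01.EK.BallB

/-!
# A lower bound of the Haar measure of small balls in the operator norm
-/

open MeasureTheory Matrix Filter
open scoped Matrix.Norms.Frobenius Topology
open Pool.Agent.H906R3.YM Pool.Agent.W793.YM Pool.Agent.TH618.YM Pool.Agent.T2H01.YM

namespace Pool.Agent.T2H01.EK

set_option linter.unusedSectionVars false
set_option linter.unusedVariables false

noncomputable section

/-- A maximal family of points with a symmetric relation. -/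
lemma exists_max_sep {α : Type*} (K : ℝ) (r : α → α → Prop) (hr : ∀ x y, r x y → r y x)
    (T : Set α)
    (hb : ∀ s : Finset α, (∀ x ∈ s, x ∈ T) → (∀ x ∈ s, ∀ y ∈ s, x ≠ y → r x y) →
      (s.card : ℝ) ≤ K) :
    ∃ s : Finset α, (s.card : ℝ) ≤ K ∧ ∀ x ∈ T, ∃ y ∈ s, x = y ∨ ¬ r y x := by
  classical
  obtain ⟨P, hP⟩ : ∃ P : ℕ → Prop, P = fun m => ∃ s : Finset α, s.card = m ∧ (∀ x ∈ s, x ∈ T) ∧
    (∀ x ∈ s, ∀ y ∈ s, x ≠ y → r x y) := ⟨_, rfl⟩
  have h0 : P 0 := by
    rw [hP]
    exact ⟨∅, rfl, fun s hs => absurd hs (Finset.notMem_empty s),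
      fun s hs => absurd hs (Finset.notMem_empty s)⟩
  have hspec : P (Nat.findGreatest P ⌊K⌋₊) :=
    Nat.findGreatest_spec (Nat.zero_le _) h0
  obtain ⟨m, hm⟩ : ∃ m, m = Nat.findGreatest P ⌊K⌋₊ := ⟨_, rfl⟩
  rw [← hm] at hspec
  have hmax : ∀ k, P k → k ≤ m := by
    intro k hk
    rw [hm]
    refine Nat.le_findGreatest ?_ hk
    rw [hP] at hk
    obtain ⟨S, h1, h2, h3⟩ := hk
    rw [← h1]
    exact Nat.le_floor (hb S h2 h3)
  rw [hP] at hspec
  obtain ⟨S, h1, h2, h3⟩ := hspec
  refine ⟨S, hb S h2 h3, fun v hv => ?_⟩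
  by_contra hcon
  push Not at hcon
  have hvS : v ∉ S := fun hvS => (hcon v hvS).1 rfl
  have h4 : P (m + 1) := by
    rw [hP]
    refine ⟨insert v S, by rw [Finset.card_insert_of_notMem hvS, h1], ?_, ?_⟩
    · intro s hs
      rcases Finset.mem_insert.1 hs with h | h
      · rw [h]; exact hv
      · exact h2 s h
    · intro c hc d hd hcd
      rcases Finset.mem_insert.1 hc with h | h
      · rcases Finset.mem_insert.1 hd with h' | h'
        · exact absurd (h.trans h'.symm) hcd
        · rw [h]; exact hr _ _ (hcon d h').2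
      · rcases Finset.mem_insert.1 hd with h' | h'
        · rw [h']; exact (hcon c h).2
        · exact h3 c h d h' hcd
  have := hmax _ h4
  omega

section meas

variable {N : ℕ} {G : Subgroup (UN N)}

lemma mt_unit (g : G) : (mt g)ᴴ * mt g = 1 := by
  have := (Matrix.mem_unitaryGroup_iff' (A := ((g : UN N) : Mat N))).1 (g : UN N).2
  exact this

lemma mt_unit' (g : G) : mt g * (mt g)ᴴ = 1 := by
  have := (Matrix.mem_unitaryGroup_iff (A := ((g : UN N) : Mat N))).1 (g : UN N).2
  exact this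

lemma opn_inv_mul (y g : G) : LN.opn (1 - mt (y⁻¹ * g)) = LN.opn (mt y - mt g) := by
  have e : mt (y⁻¹ * g) = (mt y)ᴴ * mt g := rfl
  have e2 : (1 : Mat N) - (mt y)ᴴ * mt g = (mt y)ᴴ * (mt y - mt g) := by
    rw [mul_sub, mt_unit]
  rw [e, e2]
  exact LN.opn_unit_mul (by rw [conjTranspose_conjTranspose]; exact mt_unit' y)
    (by rw [conjTranspose_conjTranspose]; exact mt_unit y)

lemma measurable_ball [MeasurableSpace G] [BorelSpace G] (ρ : ℝ) :
    MeasurableSet {g : G | LN.opn (1 - mt g) ≤ ρ} := by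
  have hc : Continuous fun g : G => LN.opn (1 - mt g) := by
    refine LN.opn_cont.comp (continuous_const.sub ?_)
    exact continuous_subtype_val.comp continuous_subtype_val
  exact (isClosed_le hc continuous_const).measurableSet

lemma cover_bound [MeasurableSpace G] [BorelSpace G] (μ : Measure G) [IsProbabilityMeasure μ]
    [μ.IsMulLeftInvariant] (ρ : ℝ) (T : Set G) (s : Finset G)
    (hs : ∀ g ∈ T, ∃ y ∈ s, LN.opn (mt y - mt g) ≤ ρ) :
    μ.real T ≤ s.card * μ.real {g : G | LN.opn (1 - mt g) ≤ ρ} := by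
  have h1 : T ⊆ ⋃ y ∈ s, (fun g => y⁻¹ * g) ⁻¹' {g : G | LN.opn (1 - mt g) ≤ ρ} := by
    intro g hg
    obtain ⟨y, hy, h⟩ := hs g hg
    refine Set.mem_biUnion hy ?_
    show LN.opn (1 - mt (y⁻¹ * g)) ≤ ρ
    rw [opn_inv_mul]
    exact h
  refine (measureReal_mono h1 (measure_ne_top _ _)).trans
    ((measureReal_biUnion_finset_le s _).trans ?_)
  rw [← nsmul_eq_mul, ← Finset.sum_const]
  refine Finset.sum_le_sum fun y _ => le_of_eq ?_
  rw [measureReal_def, measureReal_def, measure_preimage_mul]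

end meas

/-- The Haar measure of the ball of radius `ρ` in the operator norm is at least
`(ρ / C) ^ (N ^ 2)`. -/
theorem ball : ∃ C : ℝ, 1 ≤ C ∧ ∀ (N : ℕ) (G : Subgroup (UN N)) [MeasurableSpace G] [BorelSpace G]
    (μ : Measure G) [IsProbabilityMeasure μ] [μ.IsMulLeftInvariant],
    IsClosed (G : Set (UN N)) → ∀ ρ : ℝ, 0 < ρ → ρ ≤ 1 →
    (ρ / C) ^ (N ^ 2) ≤ μ.real {g : G | LN.opn (1 - mt g) ≤ ρ} := by
  refine ⟨54, by norm_num, ?_⟩
  intro N G _ _ μ _ _ _ ρ h0 h1
  have hone : ‖(1 : LN.Ec N →L[ℂ] LN.Ec N)‖ ≤ 1 :=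
    ContinuousLinearMap.norm_id_le
  have hun : ∀ g : G, star (LN.op (mt g)) * LN.op (mt g) = 1 := by
    intro g
    unfold LN.op
    rw [← map_star, ← map_mul, Matrix.star_eq_conjTranspose, mt_unit, map_one]
  have hop1 : LN.op (1 : Mat N) = 1 := by
    unfold LN.op
    rw [map_one]
  -- first step
  have s1 : 1 ≤ 9 ^ (N ^ 2) * μ.real {g : G | LN.opn (1 - mt g) ≤ 1} := by
    obtain ⟨s, hs1, hs2⟩ := exists_max_sep (9 ^ (N ^ 2) : ℝ)
      (fun x y : G => 1 ≤ LN.opn (mt x - mt y))
      (fun x y h => by rw [← LN.opn_neg, neg_sub]; exact h) Set.univ (by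
        intro s _ hs
        have hfin : Module.finrank ℝ (LN.Ec N →L[ℂ] LN.Ec N) = 2 * N ^ 2 := finrank_clm N
        have : FiniteDimensional ℝ (LN.Ec N →L[ℂ] LN.Ec N) := FiniteDimensional.complexToReal _
        classical
        have hinj : Set.InjOn (fun x : G => LN.op (mt x)) s := by
          intro x hx y hy hxy
          by_contra hne
          have h3 := hs x hx y hy hne
          have h4 : LN.opn (mt x - mt y) = 0 := by
            unfold LN.opn
            rw [LN.op_sub]
            simp only at hxy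
            rw [hxy, sub_self, norm_zero]
          linarith
        have h3 := card_sep (E := LN.Ec N →L[ℂ] LN.Ec N) one_pos le_rfl
          (s.image fun x : G => LN.op (mt x)) (by
            intro c hc
            obtain ⟨x, hx, rfl⟩ := Finset.mem_image.1 hc
            exact LN.opn_unit (mt_unit x)) (by
            intro c hc d hd hcd
            obtain ⟨x, hx, rfl⟩ := Finset.mem_image.1 hc
            obtain ⟨y, hy, rfl⟩ := Finset.mem_image.1 hd
            have h4 := hs x hx y hy (fun h => hcd (by rw [h]))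
            unfold LN.opn at h4
            rw [LN.op_sub] at h4
            exact h4)
        rw [Finset.card_image_of_injOn hinj, hfin] at h3
        refine h3.trans (le_of_eq ?_)
        rw [pow_mul]
        norm_num)
    have h2 := cover_bound μ 1 Set.univ s (fun g hg => by
      obtain ⟨y, hy, h⟩ := hs2 g hg
      refine ⟨y, hy, ?_⟩
      rcases h with h | h
      · rw [h, sub_self]
        unfold LN.opn LN.op
        rw [map_zero, norm_zero]
        exact zero_le_one
      · exact (not_le.1 h).le)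
    rw [measureReal_def, measure_univ, ENNReal.toReal_one] at h2
    exact h2.trans (mul_le_mul_of_nonneg_right hs1 measureReal_nonneg)
  -- second step
  have s2 : μ.real {g : G | LN.opn (1 - mt g) ≤ 1} ≤
      (6 / ρ) ^ (N ^ 2) * μ.real {g : G | LN.opn (1 - mt g) ≤ ρ} := by
    obtain ⟨s, hs1, hs2⟩ := exists_max_sep ((6 / ρ) ^ (N ^ 2) : ℝ)
      (fun x y : G => ρ ≤ LN.opn (mt x - mt y))
      (fun x y h => by rw [← LN.opn_neg, neg_sub]; exact h)
      {g : G | LN.opn (1 - mt g) ≤ 1} (by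
        intro s hsT hs
        classical
        have hex : ∀ g : G, LN.opn (1 - mt g) ≤ 1 → ∃ H : LN.Ec N →L[ℂ] LN.Ec N, star H = H ∧
            ‖H‖ ≤ 1 ∧ H * (1 + LN.op (mt g)) = Complex.I • (1 - LN.op (mt g)) ∧
            (1 + LN.op (mt g)) * H = Complex.I • (1 - LN.op (mt g)) := by
          intro g hg
          refine cayley hone (hun g) ?_
          unfold LN.opn at hg
          rw [LN.op_sub, hop1] at hg
          exact hg
        have hfin0 : FiniteDimensional ℝ (LN.Ec N →L[ℂ] LN.Ec N) :=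
          FiniteDimensional.complexToReal _
        obtain ⟨f, hf⟩ : ∃ f : G → selfAdjoint.submodule ℝ (LN.Ec N →L[ℂ] LN.Ec N),
            ∀ g : G, LN.opn (1 - mt g) ≤ 1 → ‖(f g : LN.Ec N →L[ℂ] LN.Ec N)‖ ≤ 1 ∧
              (f g : LN.Ec N →L[ℂ] LN.Ec N) * (1 + LN.op (mt g)) =
                Complex.I • (1 - LN.op (mt g)) ∧
              (1 + LN.op (mt g)) * (f g : LN.Ec N →L[ℂ] LN.Ec N) =
                Complex.I • (1 - LN.op (mt g)) := by
          have : ∀ g : G, ∃ F : selfAdjoint.submodule ℝ (LN.Ec N →L[ℂ] LN.Ec N),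
              LN.opn (1 - mt g) ≤ 1 → ‖(F : LN.Ec N →L[ℂ] LN.Ec N)‖ ≤ 1 ∧
              (F : LN.Ec N →L[ℂ] LN.Ec N) * (1 + LN.op (mt g)) =
                Complex.I • (1 - LN.op (mt g)) ∧
              (1 + LN.op (mt g)) * (F : LN.Ec N →L[ℂ] LN.Ec N) =
                Complex.I • (1 - LN.op (mt g)) := by
            intro g
            by_cases hg : LN.opn (1 - mt g) ≤ 1
            · obtain ⟨H, hH1, hH2, hH3, hH4⟩ := hex g hg
              exact ⟨⟨H, hH1⟩, fun _ => ⟨hH2, hH3, hH4⟩⟩
            · exact ⟨0, fun h => absurd h hg⟩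
          choose f hf using this
          exact ⟨f, hf⟩
        have hsep : ∀ x ∈ s, ∀ y ∈ s, x ≠ y → ρ / 2 ≤
            ‖(f x : LN.Ec N →L[ℂ] LN.Ec N) - (f y : LN.Ec N →L[ℂ] LN.Ec N)‖ := by
          intro x hx y hy hxy
          have h3 := hs x hx y hy hxy
          obtain ⟨a1, a2, a3⟩ := hf x (hsT x hx)
          obtain ⟨b1, b2, b3⟩ := hf y (hsT y hy)
          have h4 := cayley_norm hone (LN.opn_unit (mt_unit x)) (LN.opn_unit (mt_unit y)) a3 b2
          unfold LN.opn at h3
          rw [LN.op_sub] at h3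
          linarith
        have hinj : Set.InjOn f s := by
          intro x hx y hy hxy
          by_contra hne
          have h3 := hsep x hx y hy hne
          rw [hxy, sub_self, norm_zero] at h3
          linarith
        have h3 := card_sep (E := selfAdjoint.submodule ℝ (LN.Ec N →L[ℂ] LN.Ec N))
          (ε := ρ / 2) (by positivity) (by linarith) (s.image f) (by
            intro c hc
            obtain ⟨x, hx, rfl⟩ := Finset.mem_image.1 hc
            exact (hf x (hsT x hx)).1) (by
            intro c hc d hd hcd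
            obtain ⟨x, hx, rfl⟩ := Finset.mem_image.1 hc
            obtain ⟨y, hy, rfl⟩ := Finset.mem_image.1 hd
            exact hsep x hx y hy (fun h => hcd (by rw [h])))
        rw [Finset.card_image_of_injOn hinj] at h3
        have e : 3 / (ρ / 2) = 6 / ρ := by field_simp; norm_num
        rw [e] at h3
        refine h3.trans (pow_le_pow_right₀ ?_ (finrank_sa N))
        rw [le_div_iff₀ h0]
        linarith)
    have h2 := cover_bound μ ρ {g : G | LN.opn (1 - mt g) ≤ 1} s (fun g hg => by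
      obtain ⟨y, hy, h⟩ := hs2 g hg
      refine ⟨y, hy, ?_⟩
      rcases h with h | h
      · rw [h, sub_self]
        unfold LN.opn LN.op
        rw [map_zero, norm_zero]
        exact h0.le
      · exact (not_le.1 h).le)
    exact h2.trans (mul_le_mul_of_nonneg_right hs1 measureReal_nonneg)
  have h3 : (1 : ℝ) ≤ (54 / ρ) ^ (N ^ 2) * μ.real {g : G | LN.opn (1 - mt g) ≤ ρ} := by
    calc (1 : ℝ) ≤ 9 ^ (N ^ 2) * μ.real {g : G | LN.opn (1 - mt g) ≤ 1} := s1
      _ ≤ 9 ^ (N ^ 2) * ((6 / ρ) ^ (N ^ 2) * μ.real {g : G | LN.opn (1 - mt g) ≤ ρ}) :=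
          mul_le_mul_of_nonneg_left s2 (by positivity)
      _ = _ := by
          rw [← mul_assoc, ← mul_pow]
          congr 2
          field_simp
          norm_num
  have h4 : (ρ / 54) ^ (N ^ 2) * (54 / ρ) ^ (N ^ 2) = 1 := by
    rw [← mul_pow]
    have : ρ / 54 * (54 / ρ) = 1 := by field_simp
    rw [this, one_pow]
  calc (ρ / 54) ^ (N ^ 2) = (ρ / 54) ^ (N ^ 2) * 1 := (mul_one _).symm
    _ ≤ (ρ / 54) ^ (N ^ 2) * ((54 / ρ) ^ (N ^ 2) * μ.real {g : G | LN.opn (1 - mt g) ≤ ρ}) :=
        mul_le_mul_of_nonneg_left h3 (by positivity)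
    _ = _ := by rw [← mul_assoc, h4, one_mul]

end

end Pool.Agent.T2H01.EK
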