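import Mathlib
import Pool.Agent.T2H01.LN.Anal

/-!
# Zeros of partition functions near a real segment
-/

open MeasureTheory Filter Metric
open scoped Topology

namespace Pool.Agent.T2H01.EK

set_option linter.unusedSectionVars false
set_option linter.unusedVariables false

noncomputable section

/-- a holomorphic power of a function without zeros on a convex set -/
lemma root {Ω : Set ℂ} (hΩ : IsOpen Ω) (hconv : Convex ℝ Ω) {Z : ℂ → ℂ}
    (hd : DifferentiableOn ℂ Z Ω) (hnz : ∀ z ∈ Ω, Z z ≠ 0) {Zr : ℝ → ℝ}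
    (hpos : ∀ b : ℝ, (b : ℂ) ∈ Ω → 0 < Zr b ∧ Z b = Zr b) (hle : ∀ z ∈ Ω, ‖Z z‖ ≤ 1) {m : ℝ}
    (hm : 0 < m) {c₀ : ℝ} (hc₀ : (c₀ : ℂ) ∈ Ω) :
    ∃ g : ℂ → ℂ, DifferentiableOn ℂ g Ω ∧ (∀ z ∈ Ω, ‖g z‖ ≤ 1) ∧
      ∀ b : ℝ, (b : ℂ) ∈ Ω → g b = ((Real.exp (Real.log (Zr b) / m) : ℝ) : ℂ) := by
  have hsc : IsSimplyConnected Ω := by
    have h1 : ContractibleSpace Ω := hconv.contractibleSpace ⟨_, hc₀⟩
    exact (inferInstance : SimplyConnectedSpace Ω)
  obtain ⟨f0, hf0c, hf0⟩ := Complex.exists_continuousOn_eqOn_exp_comp hsc hΩ hd.continuousOn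
    (by rintro ⟨z, hz, h⟩; exact hnz z hz h)
  obtain ⟨f, hf⟩ : ∃ f : ℂ → ℂ, f = fun z => f0 z - (f0 c₀ - (Real.log (Zr c₀) : ℂ)) := ⟨_, rfl⟩
  have hfc : ContinuousOn f Ω := by
    rw [hf]; exact hf0c.sub continuousOn_const
  have hexpc : Complex.exp (f0 c₀ - (Real.log (Zr c₀) : ℂ)) = 1 := by
    have h1 : Complex.exp (f0 c₀) = Z c₀ := hf0 hc₀
    obtain ⟨h2, h3⟩ := hpos c₀ hc₀
    rw [Complex.exp_sub, h1, h3, ← Complex.ofReal_exp, Real.exp_log h2]
    exact div_self (by exact_mod_cast h2.ne')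
  have hfe : ∀ z ∈ Ω, Complex.exp (f z) = Z z := by
    intro z hz
    have h1 : Complex.exp (f0 z) = Z z := hf0 hz
    rw [hf]
    simp only
    rw [Complex.exp_sub, hexpc, h1, div_one]
  have hfc0 : f c₀ = (Real.log (Zr c₀) : ℂ) := by
    rw [hf]; simp
  -- the values on the real axis
  have hreal : ∀ b : ℝ, (b : ℂ) ∈ Ω → f b = (Real.log (Zr b) : ℂ) := by
    intro b hb
    have hre : (f b).re = Real.log (Zr b) := by
      have h1 := hfe b hb
      obtain ⟨h2, h3⟩ := hpos b hb
      have h4 := congrArg (fun w : ℂ => ‖w‖) h1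
      simp only [Complex.norm_exp] at h4
      rw [h3, Complex.norm_real, Real.norm_of_nonneg h2.le] at h4
      rw [← h4, Real.log_exp]
    have him : (f b).im = 0 := by
      by_contra hne
      obtain ⟨S, hS⟩ : ∃ S : Set ℝ, S = (fun t : ℝ => (t : ℂ)) ⁻¹' Ω := ⟨_, rfl⟩
      have hSc : Convex ℝ S := by
        rw [hS]
        exact hconv.is_linear_preimage (f := fun t : ℝ => (t : ℂ))
          (IsLinearMap.mk (fun x y => by push_cast; rfl) (fun c x => by
            rw [smul_eq_mul, Complex.real_smul]; push_cast; rfl))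
      have hSp : IsPreconnected S := hSc.isPreconnected
      have hcont : ContinuousOn (fun t : ℝ => (f t).im) S := by
        refine Complex.continuous_im.comp_continuousOn (hfc.comp
          Complex.continuous_ofReal.continuousOn ?_)
        intro t ht
        rw [hS] at ht
        exact ht
      have hcos : ∀ t ∈ S, Real.cos ((f t).im) = 1 := by
        intro t ht
        rw [hS] at ht
        have ht' : (t : ℂ) ∈ Ω := ht
        have h1 := hfe t ht'
        obtain ⟨h2, h3⟩ := hpos t ht'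
        rw [h3] at h1
        have h4 := congrArg Complex.re h1
        have h5 := congrArg (fun w : ℂ => ‖w‖) h1
        simp only [Complex.norm_exp] at h5
        rw [Complex.norm_real, Real.norm_of_nonneg h2.le] at h5
        rw [Complex.exp_re, Complex.ofReal_re, h5] at h4
        have h6 : Zr t * (Real.cos ((f t).im) - 1) = 0 := by linarith
        rcases mul_eq_zero.1 h6 with h7 | h7
        · exact absurd h7 h2.ne'
        · linarith
      have hc0 : (fun t : ℝ => (f t).im) c₀ = 0 := by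
        simp only [hfc0, Complex.ofReal_im]
      have hcS : c₀ ∈ S := by rw [hS]; exact hc₀
      have hbS : b ∈ S := by rw [hS]; exact hb
      have himg : (((fun t : ℝ => (f t).im) '' S)).OrdConnected :=
        (hSp.image _ hcont).ordConnected
      have key : ∀ v : ℝ, v ∈ (fun t : ℝ => (f t).im) '' S → v < 2 * Real.pi →
          -(2 * Real.pi) < v → v = 0 := by
        rintro v ⟨t, ht, rfl⟩ h1 h2
        exact (Real.cos_eq_one_iff_of_lt_of_lt h2 h1).1 (hcos t ht)
      have h0 : (0 : ℝ) ∈ (fun t : ℝ => (f t).im) '' S := ⟨c₀, hcS, hc0⟩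
      have hy : (f b).im ∈ (fun t : ℝ => (f t).im) '' S := ⟨b, hbS, rfl⟩
      have hpi := Real.pi_gt_three
      rcases lt_or_gt_of_ne hne with hneg | hposi
      · have h1 : max (f b).im (-1) ∈ (fun t : ℝ => (f t).im) '' S :=
          himg.out hy h0 ⟨le_max_left _ _, max_le hneg.le (by norm_num)⟩
        have h2 : max (f b).im (-1) < 0 := max_lt hneg (by norm_num)
        have h3 : -1 ≤ max (f b).im (-1) := le_max_right _ _
        have := key _ h1 (by linarith) (by linarith)
        linarith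
      · have h1 : min (f b).im 1 ∈ (fun t : ℝ => (f t).im) '' S :=
          himg.out h0 hy ⟨le_min hposi.le (by norm_num), min_le_left _ _⟩
        have h2 : 0 < min (f b).im 1 := lt_min hposi (by norm_num)
        have h3 : min (f b).im 1 ≤ 1 := min_le_right _ _
        have := key _ h1 (by linarith) (by linarith)
        linarith
    apply Complex.ext
    · rw [hre, Complex.ofReal_re]
    · rw [him, Complex.ofReal_im]
  -- differentiability
  have hfd : DifferentiableOn ℂ f Ω := by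
    intro z hz
    have hca : ContinuousAt f z := hfc.continuousAt (hΩ.mem_nhds hz)
    have hZd : DifferentiableAt ℂ Z z := (hd z hz).differentiableAt (hΩ.mem_nhds hz)
    have hZz : Z z ≠ 0 := hnz z hz
    have h1 : DifferentiableAt ℂ (fun w => f z + Complex.log (Z w / Z z)) z := by
      refine (DifferentiableAt.clog (hZd.div_const _) ?_).const_add _
      rw [div_self hZz]
      exact Complex.one_mem_slitPlane
    refine (h1.congr_of_eventuallyEq ?_).differentiableWithinAt
    have h2 : ∀ᶠ w in 𝓝 z, ‖f w - f z‖ < 1 := by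
      have := (Metric.continuousAt_iff'.1 hca) 1 one_pos
      filter_upwards [this] with w hw
      rwa [dist_eq_norm] at hw
    filter_upwards [h2, hΩ.mem_nhds hz] with w hw hwΩ
    have h3 : Z w / Z z = Complex.exp (f w - f z) := by
      rw [Complex.exp_sub, hfe w hwΩ, hfe z hz]
    have h4 := Complex.abs_im_le_norm (f w - f z)
    have hpi := Real.pi_gt_three
    rw [abs_le] at h4
    rw [h3, Complex.log_exp (by linarith [h4.1]) (by linarith [h4.2])]
    ring
  refine ⟨fun z => Complex.exp (f z / m), ?_, ?_, ?_⟩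
  · exact (hfd.div_const _).cexp
  · intro z hz
    rw [Complex.norm_exp]
    have h1 : (f z / (m : ℂ)).re = (f z).re / m := by
      rw [Complex.div_ofReal_re]
    rw [h1]
    refine Real.exp_le_one_iff.2 (div_nonpos_of_nonpos_of_nonneg ?_ hm.le)
    have h2 := hle z hz
    rw [← hfe z hz, Complex.norm_exp] at h2
    exact Real.exp_le_one_iff.1 h2
  · intro b hb
    simp only
    rw [hreal b hb]
    push_cast
    rfl

/-- the region near the segment -/
def reg (b₀ b₁ r : ℝ) : Set ℂ := thickening r ((fun t : ℝ => (t : ℂ)) '' Set.Icc b₀ b₁)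

lemma reg_open (b₀ b₁ r : ℝ) : IsOpen (reg b₀ b₁ r) := isOpen_thickening

lemma reg_convex (b₀ b₁ r : ℝ) : Convex ℝ (reg b₀ b₁ r) := by
  unfold reg
  refine Convex.thickening ?_ r
  exact (convex_Icc b₀ b₁).is_linear_image (f := fun t : ℝ => (t : ℂ))
    (IsLinearMap.mk (fun x y => by push_cast; rfl) (fun c x => by
      rw [smul_eq_mul, Complex.real_smul]; push_cast; rfl))

lemma reg_mem {b₀ b₁ r : ℝ} {z : ℂ} : z ∈ reg b₀ b₁ r ↔ ∃ b ∈ Set.Icc b₀ b₁, ‖z - b‖ < r := by
  unfold reg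
  rw [mem_thickening_iff]
  constructor
  · rintro ⟨w, ⟨b, hb, rfl⟩, h⟩
    exact ⟨b, hb, by rwa [dist_eq_norm] at h⟩
  · rintro ⟨b, hb, h⟩
    exact ⟨b, ⟨b, hb, rfl⟩, by rwa [dist_eq_norm]⟩

lemma reg_re {b₀ b₁ r : ℝ} (hr : r ≤ b₀) {z : ℂ} (hz : z ∈ reg b₀ b₁ r) : 0 < z.re := by
  obtain ⟨b, hb, h⟩ := reg_mem.1 hz
  have h1 := Complex.abs_re_le_norm (z - b)
  rw [Complex.sub_re, Complex.ofReal_re, abs_le] at h1
  linarith [hb.1, h1.1]

/-- the partition functions of two theories which agree at strong coupling and disagree at weak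
coupling have zeros near the real segment -/
theorem fisher {b₀ b₁ r A c : ℝ} (hb₀ : 0 < b₀) (hb : b₀ ≤ b₁) (hr : 0 < r) (hrb : r ≤ b₀)
    (hc : 0 < c) {Z Z' : ℕ → ℂ → ℂ} {Y Y' : ℕ → ℝ → ℝ} {m m' : ℕ → ℝ}
    (hm : ∀ k, 0 < m k) (hm' : ∀ k, 0 < m' k)
    (hd : ∀ k, Differentiable ℂ (Z k)) (hd' : ∀ k, Differentiable ℂ (Z' k))
    (hY : ∀ k b, 0 < Y k b ∧ Z k b = Y k b) (hY' : ∀ k b, 0 < Y' k b ∧ Z' k b = Y' k b)
    (hle : ∀ k (z : ℂ), 0 < z.re → ‖Z k z‖ ≤ 1) (hle' : ∀ k (z : ℂ), 0 < z.re → ‖Z' k z‖ ≤ 1)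
    (hst : ∀ b, 0 < b → b ≤ b₀ →
      Tendsto (fun k => Real.log (Y k b) / m k - Real.log (Y' k b) / m' k) atTop (𝓝 0))
    (hwk : ∀ k, c ≤ Real.log (Y' k b₁) / m' k - Real.log (Y k b₁) / m k)
    (hlo : ∀ k, -A ≤ Real.log (Y' k b₁) / m' k)
    (hnz : ∀ k, ∀ z ∈ reg b₀ b₁ r, Z k z ≠ 0) (hnz' : ∀ k, ∀ z ∈ reg b₀ b₁ r, Z' k z ≠ 0) :
    False := by
  have hmem0 : (b₀ : ℂ) ∈ reg b₀ b₁ r := reg_mem.2 ⟨b₀, ⟨le_rfl, hb⟩, by simpa using hr⟩
  have hmem1 : (b₁ : ℂ) ∈ reg b₀ b₁ r := reg_mem.2 ⟨b₁, ⟨hb, le_rfl⟩, by simpa using hr⟩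
  have hg := fun k => root (reg_open b₀ b₁ r) (reg_convex b₀ b₁ r)
    ((hd k).differentiableOn) (hnz k) (fun b _ => hY k b)
    (fun z hz => hle k z (reg_re hrb hz)) (hm k) hmem0
  have hg' := fun k => root (reg_open b₀ b₁ r) (reg_convex b₀ b₁ r)
    ((hd' k).differentiableOn) (hnz' k) (fun b _ => hY' k b)
    (fun z hz => hle' k z (reg_re hrb hz)) (hm' k) hmem0
  choose g g1 g2 g3 using hg
  choose g' g1' g2' g3' using hg'
  -- the reflected functions
  obtain ⟨Ω, hΩ⟩ : ∃ Ω : Set ℂ, Ω = (fun z : ℂ => -z) ⁻¹' (reg b₀ b₁ r) := ⟨_, rfl⟩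
  have hΩo : IsOpen Ω := by
    rw [hΩ]; exact (reg_open b₀ b₁ r).preimage continuous_neg
  have hΩc : IsPreconnected Ω := by
    have h1 : Convex ℝ Ω := by
      rw [hΩ]
      exact (reg_convex b₀ b₁ r).is_linear_preimage (f := fun z : ℂ => -z)
        (IsLinearMap.mk (fun x y => by ring) (fun c x => by rw [smul_neg]))
    exact h1.isPreconnected
  have hv := LN.vitali hΩo hΩc (h := fun k z => g k (-z) - g' k (-z)) (M := 2)
    (fun k => ?_) (fun k z hz => ?_) (b1 := -b₀) ?_ (fun b hb1 hbΩ => ?_)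
    (z0 := -(b₁ : ℂ)) ?_
  · -- the contradiction
    simp only [neg_neg] at hv
    have h1 : ∀ k, Real.exp (-A) * (1 - Real.exp (-c)) ≤ ‖g k b₁ - g' k b₁‖ := by
      intro k
      rw [g3 k b₁ hmem1, g3' k b₁ hmem1, ← Complex.ofReal_sub, Complex.norm_real, norm_sub_rev]
      refine le_trans ?_ (le_abs_self _)
      have e1 := hwk k
      have e2 := hlo k
      have e3 : Real.exp (Real.log (Y k b₁) / m k) ≤
          Real.exp (Real.log (Y' k b₁) / m' k) * Real.exp (-c) := by
        rw [← Real.exp_add]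
        exact Real.exp_le_exp.2 (by linarith)
      have e4 : Real.exp (-A) ≤ Real.exp (Real.log (Y' k b₁) / m' k) := Real.exp_le_exp.2 e2
      have e5 : 0 ≤ 1 - Real.exp (-c) := by
        have := Real.exp_le_one_iff.2 (show -c ≤ 0 by linarith)
        linarith
      have e6 := mul_le_mul_of_nonneg_right e4 e5
      linarith
    have h2 : 0 < Real.exp (-A) * (1 - Real.exp (-c)) := by
      have : Real.exp (-c) < 1 := by
        rw [← Real.exp_zero]; exact Real.exp_lt_exp.2 (by linarith)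
      have e5 : 0 < 1 - Real.exp (-c) := by linarith
      positivity
    have h3 := ge_of_tendsto hv.norm (Eventually.of_forall h1)
    rw [norm_zero] at h3
    linarith
  · have e1 : Set.MapsTo (fun z : ℂ => -z) Ω (reg b₀ b₁ r) := by
      intro z hz; rw [hΩ] at hz; exact hz
    have e2 : DifferentiableOn ℂ (fun z : ℂ => -z) Ω := differentiable_neg.differentiableOn
    exact ((g1 k).comp e2 e1).sub ((g1' k).comp e2 e1)
  · rw [hΩ] at hz
    refine (norm_sub_le _ _).trans ?_
    have e1 := g2 k (-z) hz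
    have e2 := g2' k (-z) hz
    linarith
  · rw [hΩ]
    show -(((-b₀ : ℝ)) : ℂ) ∈ reg b₀ b₁ r
    push_cast
    rw [neg_neg]
    exact hmem0
  · rw [hΩ] at hbΩ
    have e0 : (((-b : ℝ)) : ℂ) ∈ reg b₀ b₁ r := by
      have : -((b : ℝ) : ℂ) ∈ reg b₀ b₁ r := hbΩ
      push_cast
      exact this
    have e1 : 0 < -b := by
      have := reg_re hrb e0
      rwa [Complex.ofReal_re] at this
    have e2 := hst (-b) e1 (by linarith)
    have e3 : ∀ k, ‖g k (-(b : ℂ)) - g' k (-(b : ℂ))‖ ≤
        |Real.log (Y k (-b)) / m k - Real.log (Y' k (-b)) / m' k| := by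
      intro k
      have e4 : (-(b : ℂ)) = ((-b : ℝ) : ℂ) := by push_cast; rfl
      rw [e4, g3 k _ e0, g3' k _ e0, ← Complex.ofReal_sub, Complex.norm_real, Real.norm_eq_abs]
      have hY0 : Real.log (Y k (-b)) / m k ≤ 0 := by
        refine div_nonpos_of_nonpos_of_nonneg (Real.log_nonpos (hY k (-b)).1.le ?_) (hm k).le
        have h1 := hle k (((-b : ℝ)) : ℂ) (by rw [Complex.ofReal_re]; exact e1)
        rw [(hY k (-b)).2, Complex.norm_real, Real.norm_of_nonneg (hY k (-b)).1.le] at h1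
        exact h1
      have hY0' : Real.log (Y' k (-b)) / m' k ≤ 0 := by
        refine div_nonpos_of_nonpos_of_nonneg (Real.log_nonpos (hY' k (-b)).1.le ?_) (hm' k).le
        have h1 := hle' k (((-b : ℝ)) : ℂ) (by rw [Complex.ofReal_re]; exact e1)
        rw [(hY' k (-b)).2, Complex.norm_real, Real.norm_of_nonneg (hY' k (-b)).1.le] at h1
        exact h1
      obtain ⟨u, hu⟩ : ∃ u, u = Real.log (Y k (-b)) / m k := ⟨_, rfl⟩
      obtain ⟨v, hv⟩ : ∃ v, v = Real.log (Y' k (-b)) / m' k := ⟨_, rfl⟩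
      rw [← hu] at hY0 ⊢
      rw [← hv] at hY0' ⊢
      -- the exponential is a contraction on the negative axis
      have key : ∀ s t : ℝ, s ≤ 0 → t ≤ s → Real.exp s - Real.exp t ≤ s - t := by
        intro s t hs hts
        have h1 : Real.exp s * (1 - Real.exp (t - s)) = Real.exp s - Real.exp t := by
          rw [mul_sub, mul_one, ← Real.exp_add]
          congr 2
          ring
        have h2 : 1 - Real.exp (t - s) ≤ s - t := by
          have := Real.add_one_le_exp (t - s)
          linarith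
        have h3 : 0 ≤ 1 - Real.exp (t - s) := by
          have := Real.exp_le_one_iff.2 (show t - s ≤ 0 by linarith)
          linarith
        have h4 : Real.exp s ≤ 1 := Real.exp_le_one_iff.2 hs
        rw [← h1]
        nlinarith [Real.exp_pos s]
      rcases le_total u v with h | h
      · have h1 := key v u hY0' h
        have h2 := Real.exp_le_exp.2 h
        rw [abs_sub_comm, abs_of_nonneg (by linarith), abs_sub_comm u v,
          abs_of_nonneg (by linarith)]
        exact h1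
      · have h1 := key u v hY0 h
        have h2 := Real.exp_le_exp.2 h
        rw [abs_of_nonneg (by linarith), abs_of_nonneg (by linarith)]
        exact h1
    rw [tendsto_zero_iff_norm_tendsto_zero]
    refine squeeze_zero (fun k => norm_nonneg _) e3 ?_
    have := e2.norm
    simpa using this
  · rw [hΩ]
    show - -(b₁ : ℂ) ∈ reg b₀ b₁ r
    rw [neg_neg]
    exact hmem1

end

end Pool.Agent.T2H01.EK
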