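import Mathlib
import Pool.Agent.T2H01.LN.Zeros

/-!
# Generators of `su(N)` and their completeness relation
-/

open MeasureTheory Matrix Filter
open scoped Matrix.Norms.Frobenius Topology
open Pool.Agent.H906R3.YM Pool.Agent.W793.YM Pool.Agent.TH618.YM Pool.Agent.T2H01.YM

namespace Pool.Agent.T2H01.EK

set_option linter.unusedSectionVars false
set_option linter.unusedVariables false

noncomputable section

variable {N : ℕ}

/-- the index set of the generators -/
abbrev Qi (N : ℕ) := (Fin N × Fin N) × Fin 3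

/-- the generators `E_jk - E_kj`, `i (E_jk + E_kj)` and `i (E_jj - E_kk)` -/
def gX (q : Qi N) : Mat N :=
  if q.2 = 0 then Matrix.single q.1.1 q.1.2 1 - Matrix.single q.1.2 q.1.1 1
  else if q.2 = 1 then Complex.I • (Matrix.single q.1.1 q.1.2 1 + Matrix.single q.1.2 q.1.1 1)
  else Complex.I • (Matrix.single q.1.1 q.1.1 1 - Matrix.single q.1.2 q.1.2 1)

/-- the weights of the generators -/
def cw (q : Qi N) : ℝ :=
  if q.2 = 0 then 1 else if q.2 = 1 then (if q.1.1 = q.1.2 then 0 else 1) else 2 / N

lemma cw_nonneg (q : Qi N) : 0 ≤ cw q := by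
  unfold cw
  split_ifs <;> positivity

/-- the Kronecker symbol -/
def dl (i j : Fin N) : ℂ := if i = j then 1 else 0

lemma single_dl (p q i j : Fin N) : Matrix.single p q (1 : ℂ) i j = dl p i * dl q j := by
  unfold dl
  rw [Matrix.single_apply]
  by_cases h1 : p = i <;> by_cases h2 : q = j <;> simp [h1, h2]

lemma sum_dl (i : Fin N) (f : Fin N → ℂ) : ∑ p, dl p i * f p = f i := by
  unfold dl
  simp

lemma dl_comm (i j : Fin N) : dl i j = dl j i := by
  unfold dl
  simp only [eq_comm]

lemma sum_dl' (i : Fin N) (f : Fin N → ℂ) : ∑ p, dl i p * f p = f i := by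
  unfold dl
  simp

lemma sum4 (f g : Fin N → Fin N → Fin N → Fin N → ℂ) (a c : ℂ) :
    ∑ i : Fin N, ∑ j : Fin N, ∑ k : Fin N, ∑ l : Fin N, (a * f i j k l + c * g i j k l) =
      a * (∑ i : Fin N, ∑ j : Fin N, ∑ k : Fin N, ∑ l : Fin N, f i j k l) +
        c * (∑ i : Fin N, ∑ j : Fin N, ∑ k : Fin N, ∑ l : Fin N, g i j k l) := by
  simp only [Finset.sum_add_distrib, Finset.mul_sum]

lemma sum_one : ∑ p : Fin N, (1 : ℂ) = N := by simp

lemma comp (hN : 0 < N) (i j k l : Fin N) :
    ∑ q : Qi N, (cw q : ℂ) * (gX q i j * gX q k l) =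
      -4 * (dl i l * dl j k) + 4 / N * (dl i j * dl k l) := by
  have hN' : (N : ℂ) ≠ 0 := by exact_mod_cast hN.ne'
  have e1 : ∑ q : Qi N, (cw q : ℂ) * (gX q i j * gX q k l) =
      ∑ p : Fin N, ∑ q : Fin N,
        ((dl p i * dl q j - dl q i * dl p j) * (dl p k * dl q l - dl q k * dl p l) -
          (1 - dl p q) * ((dl p i * dl q j + dl q i * dl p j) *
            (dl p k * dl q l + dl q k * dl p l)) -
          2 / N * ((dl p i * dl p j - dl q i * dl q j) * (dl p k * dl p l - dl q k * dl q l))) := by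
    rw [Fintype.sum_prod_type, Fintype.sum_prod_type]
    refine Finset.sum_congr rfl fun p _ => Finset.sum_congr rfl fun q _ => ?_
    rw [Fin.sum_univ_three]
    have f0 : ∀ a b : Fin N, gX ((p, q), (0 : Fin 3)) a b = dl p a * dl q b - dl q a * dl p b := by
      intro a b
      unfold gX
      rw [if_pos rfl, Matrix.sub_apply, single_dl, single_dl]
    have f1 : ∀ a b : Fin N, gX ((p, q), (1 : Fin 3)) a b =
        Complex.I * (dl p a * dl q b + dl q a * dl p b) := by
      intro a b
      unfold gX
      rw [if_neg (fun h => absurd h (by decide : ¬ (1 : Fin 3) = 0)), if_pos rfl, Matrix.smul_apply,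
        Matrix.add_apply, single_dl, single_dl, smul_eq_mul]
    have f2 : ∀ a b : Fin N, gX ((p, q), (2 : Fin 3)) a b =
        Complex.I * (dl p a * dl p b - dl q a * dl q b) := by
      intro a b
      unfold gX
      rw [if_neg (fun h => absurd h (by decide : ¬ (2 : Fin 3) = 0)),
        if_neg (fun h => absurd h (by decide : ¬ (2 : Fin 3) = 1)), Matrix.smul_apply,
        Matrix.sub_apply, single_dl, single_dl, smul_eq_mul]
    have w0 : (cw ((p, q), (0 : Fin 3)) : ℂ) = 1 := by
      unfold cw; rw [if_pos rfl]; simp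
    have w1 : (cw ((p, q), (1 : Fin 3)) : ℂ) = 1 - dl p q := by
      unfold cw dl
      rw [if_neg (fun h => absurd h (by decide : ¬ (1 : Fin 3) = 0)), if_pos rfl]
      split_ifs <;> simp_all
    have w2 : (cw ((p, q), (2 : Fin 3)) : ℂ) = 2 / N := by
      unfold cw
      rw [if_neg (fun h => absurd h (by decide : ¬ (2 : Fin 3) = 0)),
        if_neg (fun h => absurd h (by decide : ¬ (2 : Fin 3) = 1))]
      push_cast
      rfl
    rw [f0, f0, f1, f1, f2, f2, w0, w1, w2]
    linear_combination ((1 - dl p q) * ((dl p i * dl q j + dl q i * dl p j) *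
            (dl p k * dl q l + dl q k * dl p l)) +
          2 / N * ((dl p i * dl p j - dl q i * dl q j) * (dl p k * dl p l - dl q k * dl q l))) *
            Complex.I_sq
  rw [e1]
  -- expand all the sums
  have s1 : ∀ (a b c e : Fin N), ∑ p : Fin N, ∑ q : Fin N, dl p a * dl q b * (dl p c * dl q e) =
      dl a c * dl b e := by
    intro a b c e
    have : ∀ p : Fin N, ∑ q : Fin N, dl p a * dl q b * (dl p c * dl q e) =
        dl p a * (dl p c * dl b e) := by
      intro p
      rw [← sum_dl b fun q => dl p a * (dl p c * dl q e)]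
      exact Finset.sum_congr rfl fun q _ => by ring
    simp only [this]
    rw [sum_dl a fun p => dl p c * dl b e]
  have s2 : ∀ (a b c e : Fin N), ∑ p : Fin N, ∑ q : Fin N,
      dl p q * (dl p a * dl q b * (dl p c * dl q e)) = dl a b * dl a c * dl a e := by
    intro a b c e
    have : ∀ p : Fin N, ∑ q : Fin N, dl p q * (dl p a * dl q b * (dl p c * dl q e)) =
        dl p a * (dl p b * dl p c * dl p e) := by
      intro p
      rw [← Finset.sum_congr rfl fun q _ => congrArg (· * (dl p a * dl q b * (dl p c * dl q e)))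
        (dl_comm q p)]
      rw [sum_dl p fun q => dl p a * dl q b * (dl p c * dl q e)]
      ring
    simp only [this]
    rw [sum_dl a fun p => dl p b * dl p c * dl p e]
  have s3 : ∀ (a b c e : Fin N), ∑ p : Fin N, ∑ q : Fin N, dl p a * dl p b * (dl p c * dl p e) =
      N * (dl a b * dl a c * dl a e) := by
    intro a b c e
    rw [Finset.sum_comm]
    have : ∀ q : Fin N, ∑ p : Fin N, dl p a * dl p b * (dl p c * dl p e) =
        dl a b * dl a c * dl a e := by
      intro q
      simp only [mul_assoc]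
      rw [sum_dl a fun p => dl p b * (dl p c * dl p e)]
    rw [Finset.sum_congr rfl fun q _ => this q, Finset.sum_const, Finset.card_univ,
      Fintype.card_fin, nsmul_eq_mul]
  have s4 : ∀ (a b c e : Fin N), ∑ p : Fin N, ∑ q : Fin N, dl q a * dl q b * (dl q c * dl q e) =
      N * (dl a b * dl a c * dl a e) := by
    intro a b c e
    rw [Finset.sum_comm]
    exact s3 a b c e
  have e2 : ∀ p q : Fin N,
      ((dl p i * dl q j - dl q i * dl p j) * (dl p k * dl q l - dl q k * dl p l) -
          (1 - dl p q) * ((dl p i * dl q j + dl q i * dl p j) *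
            (dl p k * dl q l + dl q k * dl p l)) -
          2 / N * ((dl p i * dl p j - dl q i * dl q j) * (dl p k * dl p l - dl q k * dl q l))) =
      -2 * (dl p i * dl q j * (dl p l * dl q k)) - 2 * (dl p j * dl q i * (dl p k * dl q l)) +
      (dl p q * (dl p i * dl q j * (dl p k * dl q l)) +
        dl p q * (dl p i * dl q j * (dl p l * dl q k)) +
        dl p q * (dl p j * dl q i * (dl p k * dl q l)) +
        dl p q * (dl p j * dl q i * (dl p l * dl q k))) -
      2 / N * (dl p i * dl p j * (dl p k * dl p l)) - 2 / N * (dl q i * dl q j * (dl q k * dl q l)) +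
      2 / N * (dl p i * dl q k * (dl p j * dl q l)) + 2 / N * (dl p k * dl q i * (dl p l * dl q j)) := by
    intro p q
    ring
  have s5 : dl j i * dl j k * dl j l = dl i j * dl i k * dl i l := by
    unfold dl
    by_cases h1 : i = j
    · subst h1; rfl
    · rw [if_neg h1, if_neg (fun h => h1 h.symm)]; ring
  have s6 : ∑ p : Fin N, ∑ q : Fin N, ((dl p i * dl q j - dl q i * dl p j) *
      (dl p k * dl q l - dl q k * dl p l) -
          (1 - dl p q) * ((dl p i * dl q j + dl q i * dl p j) *
            (dl p k * dl q l + dl q k * dl p l)) -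
          2 / N * ((dl p i * dl p j - dl q i * dl q j) * (dl p k * dl p l - dl q k * dl q l))) =
      -2 * (dl i l * dl j k) - 2 * (dl j k * dl i l) +
      (dl i j * dl i k * dl i l + dl i j * dl i l * dl i k + dl j i * dl j k * dl j l +
        dl j i * dl j l * dl j k) -
      2 / N * (N * (dl i j * dl i k * dl i l)) - 2 / N * (N * (dl i j * dl i k * dl i l)) +
      2 / N * (dl i j * dl k l) + 2 / N * (dl k l * dl i j) := by
    have t : ∑ p : Fin N, ∑ q : Fin N, ((dl p i * dl q j - dl q i * dl p j) *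
      (dl p k * dl q l - dl q k * dl p l) -
          (1 - dl p q) * ((dl p i * dl q j + dl q i * dl p j) *
            (dl p k * dl q l + dl q k * dl p l)) -
          2 / N * ((dl p i * dl p j - dl q i * dl q j) * (dl p k * dl p l - dl q k * dl q l))) =
        -2 * (∑ p : Fin N, ∑ q : Fin N, dl p i * dl q j * (dl p l * dl q k)) -
          2 * (∑ p : Fin N, ∑ q : Fin N, dl p j * dl q i * (dl p k * dl q l)) +
        ((∑ p : Fin N, ∑ q : Fin N, dl p q * (dl p i * dl q j * (dl p k * dl q l))) +
          (∑ p : Fin N, ∑ q : Fin N, dl p q * (dl p i * dl q j * (dl p l * dl q k))) +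
          (∑ p : Fin N, ∑ q : Fin N, dl p q * (dl p j * dl q i * (dl p k * dl q l))) +
          (∑ p : Fin N, ∑ q : Fin N, dl p q * (dl p j * dl q i * (dl p l * dl q k)))) -
        2 / N * (∑ p : Fin N, ∑ q : Fin N, dl p i * dl p j * (dl p k * dl p l)) -
        2 / N * (∑ p : Fin N, ∑ q : Fin N, dl q i * dl q j * (dl q k * dl q l)) +
        2 / N * (∑ p : Fin N, ∑ q : Fin N, dl p i * dl q k * (dl p j * dl q l)) +
        2 / N * (∑ p : Fin N, ∑ q : Fin N, dl p k * dl q i * (dl p l * dl q j)) := by
      simp only [e2, Finset.sum_add_distrib, Finset.sum_sub_distrib, Finset.mul_sum]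
    rw [t, s1, s1, s1, s1, s2, s2, s2, s2, s3, s4]
  rw [s6]
  have s7 : dl j i * dl j l * dl j k = dl i j * dl i k * dl i l := by rw [← s5]; ring
  rw [s5, s7]
  field_simp
  ring

/-- the completeness relation, two traces -/
lemma comp_tr (hN : 0 < N) (M A : Mat N) :
    ∑ q : Qi N, (cw q : ℂ) * (trace (gX q * M) * trace (gX q * A)) =
      -4 * trace (M * A) + 4 / N * (trace M * trace A) := by
  have e1 : ∀ (X Y : Mat N), trace (X * Y) = ∑ a : Fin N × Fin N, X a.1 a.2 * Y a.2 a.1 := by
    intro X Y
    rw [Fintype.sum_prod_type, trace]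
    simp only [Matrix.diag_apply, Matrix.mul_apply]
  have e2 : ∑ q : Qi N, (cw q : ℂ) * (trace (gX q * M) * trace (gX q * A)) =
      ∑ a : Fin N × Fin N, ∑ c : Fin N × Fin N,
        (∑ q : Qi N, (cw q : ℂ) * (gX q a.1 a.2 * gX q c.1 c.2)) * (M a.2 a.1 * A c.2 c.1) := by
    have e3 : ∀ q : Qi N, (cw q : ℂ) * (trace (gX q * M) * trace (gX q * A)) =
        ∑ a : Fin N × Fin N, ∑ c : Fin N × Fin N,
          (cw q : ℂ) * (gX q a.1 a.2 * gX q c.1 c.2) * (M a.2 a.1 * A c.2 c.1) := by
      intro q
      rw [e1, e1, Finset.sum_mul_sum, Finset.mul_sum]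
      refine Finset.sum_congr rfl fun a _ => ?_
      rw [Finset.mul_sum]
      exact Finset.sum_congr rfl fun c _ => by ring
    simp only [e3]
    rw [Finset.sum_comm]
    refine Finset.sum_congr rfl fun a _ => ?_
    rw [Finset.sum_comm]
    refine Finset.sum_congr rfl fun c _ => ?_
    rw [Finset.sum_mul]
  rw [e2]
  simp only [comp hN]
  simp only [Fintype.sum_prod_type]
  have e3 : ∀ i j k l : Fin N, (-4 * (dl i l * dl j k) + 4 / N * (dl i j * dl k l)) *
      (M j i * A l k) = -4 * (dl i l * (dl j k * (M j i * A l k))) +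
        4 / N * (dl i j * M j i * (dl k l * A l k)) := by
    intro i j k l; ring
  simp only [e3]
  rw [sum4]
  have e4 : ∑ i : Fin N, ∑ j : Fin N, ∑ k : Fin N, ∑ l : Fin N,
      dl i l * (dl j k * (M j i * A l k)) = trace (M * A) := by
    have f1 : ∀ i j : Fin N, ∑ k : Fin N, ∑ l : Fin N, dl i l * (dl j k * (M j i * A l k)) =
        M j i * A i j := by
      intro i j
      have f2 : ∀ k : Fin N, ∑ l : Fin N, dl i l * (dl j k * (M j i * A l k)) =
          dl j k * (M j i * A i k) := fun k => sum_dl' i fun l => dl j k * (M j i * A l k)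
      simp only [f2]
      exact sum_dl' j fun k => M j i * A i k
    simp only [f1]
    rw [e1, Fintype.sum_prod_type, Finset.sum_comm]
  have e5 : ∑ i : Fin N, ∑ j : Fin N, ∑ k : Fin N, ∑ l : Fin N,
      dl i j * M j i * (dl k l * A l k) = trace M * trace A := by
    have f1 : ∀ B : Mat N, ∑ i : Fin N, ∑ j : Fin N, dl i j * B j i = trace B := by
      intro B
      rw [trace]
      exact Finset.sum_congr rfl fun i _ => sum_dl' i fun j => B j i
    rw [← f1 M, ← f1 A, Finset.sum_mul]
    refine Finset.sum_congr rfl fun i _ => ?_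
    rw [Finset.sum_mul]
    refine Finset.sum_congr rfl fun j _ => ?_
    rw [Finset.mul_sum]
    refine Finset.sum_congr rfl fun k _ => ?_
    rw [Finset.mul_sum]
  rw [e4, e5]

/-- the completeness relation, one trace -/
lemma comp_sw (hN : 0 < N) (M A : Mat N) :
    ∑ q : Qi N, (cw q : ℂ) * trace (gX q * M * gX q * A) =
      -4 * (trace M * trace A) + 4 / N * trace (M * A) := by
  have e1 : ∀ X : Mat N, trace (X * M * X * A) =
      ∑ i, ∑ j, ∑ k, ∑ l, X i j * X k l * (M j k * A l i) := by
    intro X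
    rw [trace]
    refine Finset.sum_congr rfl fun i _ => ?_
    rw [Matrix.diag_apply, Matrix.mul_apply]
    have f1 : ∀ l, (X * M * X) i l = ∑ j, ∑ k, X i j * X k l * M j k := by
      intro l
      rw [Matrix.mul_apply]
      simp only [Matrix.mul_apply, Finset.sum_mul]
      rw [Finset.sum_comm]
      exact Finset.sum_congr rfl fun j _ => Finset.sum_congr rfl fun k _ => by ring
    simp only [f1, Finset.sum_mul]
    rw [Finset.sum_comm]
    refine Finset.sum_congr rfl fun j _ => ?_
    rw [Finset.sum_comm]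
    exact Finset.sum_congr rfl fun k _ => Finset.sum_congr rfl fun l _ => by ring
  have e2 : ∑ q : Qi N, (cw q : ℂ) * trace (gX q * M * gX q * A) =
      ∑ i, ∑ j, ∑ k, ∑ l, (∑ q : Qi N, (cw q : ℂ) * (gX q i j * gX q k l)) * (M j k * A l i) := by
    simp only [e1, Finset.mul_sum, Finset.sum_mul]
    rw [Finset.sum_comm]
    refine Finset.sum_congr rfl fun i _ => ?_
    rw [Finset.sum_comm]
    refine Finset.sum_congr rfl fun j _ => ?_
    rw [Finset.sum_comm]
    refine Finset.sum_congr rfl fun k _ => ?_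
    rw [Finset.sum_comm]
    refine Finset.sum_congr rfl fun l _ => ?_
    exact Finset.sum_congr rfl fun q _ => by ring
  rw [e2]
  simp only [comp hN]
  have e3 : ∀ i j k l : Fin N, (-4 * (dl i l * dl j k) + 4 / N * (dl i j * dl k l)) *
      (M j k * A l i) = -4 * (dl j k * M j k * (dl i l * A l i)) +
        4 / N * (dl i j * (dl k l * (M j k * A l i))) := by
    intro i j k l; ring
  simp only [e3]
  rw [sum4]
  have e4 : ∑ i : Fin N, ∑ j : Fin N, ∑ k : Fin N, ∑ l : Fin N,
      dl j k * M j k * (dl i l * A l i) = trace M * trace A := by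
    have f1 : ∑ i : Fin N, ∑ l : Fin N, dl i l * A l i = trace A := by
      rw [trace]
      exact Finset.sum_congr rfl fun i _ => sum_dl' i fun j => A j i
    have f2 : ∑ i : Fin N, ∑ l : Fin N, dl i l * M i l = trace M := by
      rw [trace]
      exact Finset.sum_congr rfl fun i _ => sum_dl' i fun j => M i j
    rw [← f1, ← f2, mul_comm, Finset.sum_mul]
    refine Finset.sum_congr rfl fun i _ => ?_
    rw [Finset.mul_sum]
    refine Finset.sum_congr rfl fun j _ => ?_
    rw [Finset.mul_sum]
    refine Finset.sum_congr rfl fun k _ => ?_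
    rw [Finset.sum_mul]
    exact Finset.sum_congr rfl fun l _ => by ring
  have e5 : ∑ i : Fin N, ∑ j : Fin N, ∑ k : Fin N, ∑ l : Fin N,
      dl i j * (dl k l * (M j k * A l i)) = trace (M * A) := by
    rw [trace]
    refine Finset.sum_congr rfl fun i _ => ?_
    rw [Matrix.diag_apply, Matrix.mul_apply]
    simp only [← Finset.mul_sum]
    rw [sum_dl' i fun j => ∑ k, ∑ l, dl k l * (M j k * A l i)]
    refine Finset.sum_congr rfl fun k _ => ?_
    exact sum_dl' k fun l => M i k * A l i
  rw [e4, e5]

/-- the Casimir element -/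
lemma comp_sq (hN : 0 < N) (A : Mat N) :
    ∑ q : Qi N, (cw q : ℂ) * trace (gX q * gX q * A) = -(4 * N - 4 / N) * trace A := by
  have h := comp_sw hN 1 A
  rw [one_mul, trace_one, Fintype.card_fin] at h
  simp only [mul_one] at h
  rw [h]
  ring

/-! ### one-parameter groups -/

lemma gX_zero (j k : Fin N) : gX ((j, k), (0 : Fin 3)) = LN.gen ((j, k), false) := by
  unfold gX LN.gen
  rw [if_pos rfl]
  simp

lemma gX_one (j k : Fin N) : gX ((j, k), (1 : Fin 3)) = LN.gen ((j, k), true) := by
  unfold gX LN.gen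
  rw [if_neg (fun h => absurd h (by decide : ¬ (1 : Fin 3) = 0)), if_pos rfl]
  simp

lemma gX_two (j k : Fin N) : gX ((j, k), (2 : Fin 3)) =
    Complex.I • (Matrix.single j j 1 - Matrix.single k k 1) := by
  unfold gX
  rw [if_neg (fun h => absurd h (by decide : ¬ (2 : Fin 3) = 0)),
    if_neg (fun h => absurd h (by decide : ¬ (2 : Fin 3) = 1))]

lemma gX_diag (j k : Fin N) : gX ((j, k), (2 : Fin 3)) =
    Matrix.diagonal fun a => Complex.I * (dl j a - dl k a) := by
  rw [gX_two]
  ext a b
  rw [Matrix.smul_apply, Matrix.sub_apply, single_dl, single_dl, Matrix.diagonal_apply]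
  by_cases h : a = b
  · subst h
    rw [if_pos rfl, smul_eq_mul]
    unfold dl
    by_cases h1 : j = a <;> by_cases h2 : k = a <;> simp [h1, h2]
  · rw [if_neg h, smul_eq_mul]
    have h3 : ∀ c, dl c a * dl c b = 0 := by
      intro c
      unfold dl
      by_cases h1 : c = a
      · subst h1; simp [h]
      · simp [h1]
    rw [h3, h3]
    simp

lemma gX_skew (q : Qi N) : (gX q)ᴴ = -gX q := by
  obtain ⟨⟨j, k⟩, t⟩ := q
  fin_cases t
  · show (gX ((j, k), (0 : Fin 3)))ᴴ = -gX ((j, k), (0 : Fin 3))
    rw [gX_zero]; exact LN.gen_skew _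
  · show (gX ((j, k), (1 : Fin 3)))ᴴ = -gX ((j, k), (1 : Fin 3))
    rw [gX_one]; exact LN.gen_skew _
  · show (gX ((j, k), (2 : Fin 3)))ᴴ = -gX ((j, k), (2 : Fin 3))
    rw [gX_diag, Matrix.diagonal_conjTranspose]
    ext a b
    rw [Matrix.neg_apply, Matrix.diagonal_apply, Matrix.diagonal_apply]
    split_ifs
    · rw [Pi.star_apply, star_mul', star_sub]
      have h1 : star Complex.I = -Complex.I := Complex.conj_I
      have h2 : ∀ c, star (dl c a) = dl c a := by
        intro c; unfold dl; split_ifs <;> simp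
      rw [h1, h2, h2]
      ring
    · simp

lemma gX_det (q : Qi N) (hq : cw q ≠ 0) (t : ℝ) : (NormedSpace.exp (t • gX q) : Mat N).det = 1 := by
  obtain ⟨⟨j, k⟩, s⟩ := q
  fin_cases s
  · show (NormedSpace.exp (t • gX ((j, k), (0 : Fin 3))) : Mat N).det = 1
    by_cases h : j = k
    · subst h
      have : gX ((j, j), (0 : Fin 3)) = 0 := by
        unfold gX; rw [if_pos rfl]; simp
      rw [this, smul_zero, NormedSpace.exp_zero, det_one]
    · rw [gX_zero]; exact LN.det_exp_gen h _ t
  · show (NormedSpace.exp (t • gX ((j, k), (1 : Fin 3))) : Mat N).det = 1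
    have h : j ≠ k := by
      intro h
      apply hq
      subst h
      show cw ((j, j), (1 : Fin 3)) = 0
      unfold cw
      rw [if_neg (fun h => absurd h (by decide : ¬ (1 : Fin 3) = 0)), if_pos rfl, if_pos rfl]
    rw [gX_one]; exact LN.det_exp_gen h _ t
  · show (NormedSpace.exp (t • gX ((j, k), (2 : Fin 3))) : Mat N).det = 1
    rw [gX_diag]
    have h1 : t • (Matrix.diagonal fun a => Complex.I * (dl j a - dl k a) : Mat N) =
        Matrix.diagonal fun a => (t : ℂ) * (Complex.I * (dl j a - dl k a)) := by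
      ext a b
      rw [Matrix.smul_apply, Matrix.diagonal_apply, Matrix.diagonal_apply]
      split_ifs
      · rw [Complex.real_smul]
      · rw [smul_zero]
    rw [h1, Matrix.exp_diagonal, Matrix.det_diagonal]
    have h2 : ∀ a : Fin N, NormedSpace.exp (fun a : Fin N => (t : ℂ) * (Complex.I *
        (dl j a - dl k a))) a = Complex.exp ((t : ℂ) * (Complex.I * (dl j a - dl k a))) := by
      intro a
      rw [Pi.coe_exp, Complex.exp_eq_exp_ℂ]
    simp only [h2]
    rw [← Complex.exp_sum, ← Finset.mul_sum, ← Finset.mul_sum, Finset.sum_sub_distrib]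
    have h3 : ∀ c : Fin N, ∑ a : Fin N, dl c a = 1 := by
      intro c
      have := sum_dl' c fun _ => 1
      simpa using this
    rw [h3, h3]
    simp

/-- the one-parameter groups of the generators -/
def HG {G : Type*} [Group G] [TopologicalSpace G] {n : ℕ} (L : LD G N n) : Prop :=
  ∀ q : Qi N, cw q ≠ 0 → ∃ c : ℝ → G, (∀ s t, c (s + t) = c s * c t) ∧
    HasDerivAt (fun t => L.rho (c t)) (gX q) 0

lemma hg_of {G : Subgroup (UN N)} {n : ℕ} (B : Frame G n)
    (hSU : ∀ U : UN N, (U : Mat N).det = 1 → U ∈ G) : HG B.toLD := by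
  intro q hq
  refine ⟨fun t => ⟨⟨NormedSpace.exp (t • gX q), LN.exp_skew_unit (gX_skew _) t⟩,
    hSU _ (gX_det q hq t)⟩, fun s t => ?_, ?_⟩
  · apply Subtype.ext
    apply Subtype.ext
    exact LN.exp_gen_mul _ s t
  · exact LN.exp_deriv _

end

end Pool.Agent.T2H01.EK
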