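import Mathlib
import Pool.Agent.T2H01.LN.Zeros

/-!
# Paths on the lattice `ℤ^d`, their holonomies, and the splittings of a closed path
-/

open MeasureTheory Matrix Filter
open scoped Matrix.Norms.Frobenius Topology
open Pool.Agent.H906R3.YM Pool.Agent.W793.YM Pool.Agent.TH618.YM Pool.Agent.T2H01.YM

namespace Pool.Agent.T2H01.EK

set_option linter.unusedSectionVars false
set_option linter.unusedVariables false

noncomputable section

/-- steps: a direction and an orientation (`true` is forward) -/
abbrev Stp (d : ℕ) := Fin d × Bool

/-- paths: a starting point and a list of steps -/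
abbrev Lp (d : ℕ) := (Fin d → ℤ) × List (Stp d)

variable {d : ℕ}

/-- the end point of one step -/
def nx (x : Fin d → ℤ) (s : Stp d) : Fin d → ℤ :=
  if s.2 then x + Pi.single s.1 1 else x - Pi.single s.1 1

/-- the end point of a path -/
def en : (Fin d → ℤ) → List (Stp d) → (Fin d → ℤ)
  | x, [] => x
  | x, s :: w => en (nx x s) w

/-- the base point of the link of a step -/
def bs (x : Fin d → ℤ) (s : Stp d) : Fin d → ℤ := if s.2 then x else x - Pi.single s.1 1

/-- the reversed path -/
def rf (w : List (Stp d)) : List (Stp d) := (w.map fun s => (s.1, !s.2)).reverse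

/-- the reversed loop -/
def iv (a : Lp d) : Lp d := (en a.1 a.2, rf a.2)

/-- the path is closed modulo `l` (`l = 0`: closed on the lattice `ℤ^d`) -/
def Cl (l : ℕ) (a : Lp d) : Prop := ∀ i, ((en a.1 a.2 i : ℤ) : ZMod l) = ((a.1 i : ℤ) : ZMod l)

/-- the two elementary squares over the first step `(k, true)`, for the second direction `j` -/
def sqs (k j : Fin d) : List (List (Stp d)) :=
  [[(k, true), (j, true), (k, false), (j, false)], [(k, true), (j, false), (k, false), (j, true)]]

/-- all the elementary squares over the first step `(k, true)` -/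
def plq (k : Fin d) : List (List (Stp d)) :=
  ((List.finRange d).filter fun j => j ≠ k).flatMap (sqs k)

open Classical in
/-- The splittings of the closed path which starts in `x` with the step `(k, true)`: the remaining
path is `pre ++ A`, where `pre` goes from `x + e_k` to `y`. For every step of `A` along the same link
modulo `l` the two loops which arise; the first component is the orientation of the step. -/
def spl (l : ℕ) (x : Fin d → ℤ) (k : Fin d) : (Fin d → ℤ) → List (Stp d) → List (Stp d) →
    List (Bool × Lp d × Lp d)
  | _, _, [] => []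
  | y, pre, s :: A =>
    (if s.1 = k ∧ (∀ i, ((bs y s i : ℤ) : ZMod l) = ((x i : ℤ) : ZMod l)) then
      (if s.2 then [(true, (x, (k, true) :: pre), (y, s :: A))]
        else [(false, (x + Pi.single k 1, pre), (nx y s, A))]) else []) ++
      spl l x k (nx y s) (pre ++ [s]) A

/-- all the splittings of `(x, (k, true) :: A)` -/
def spls (l : ℕ) (x : Fin d → ℤ) (k : Fin d) (A : List (Stp d)) : List (Bool × Lp d × Lp d) :=
  spl l x k (x + Pi.single k 1) [] A

/-- the sign of a splitting -/
def sg (t : Bool) : ℂ := if t then -1 else 1

/-- The right hand side of the equation of Makeenko and Migdal for the functional `φ` of several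
loops, at the first step of the first loop `(x, (k, true) :: A)`, `r` being the other loops. -/
def mm (l : ℕ) (b : ℝ) (φ : List (Lp d) → ℂ) (x : Fin d → ℤ) (k : Fin d) (A : List (Stp d))
    (r : List (Lp d)) : ℂ :=
  ((spls l x k A).map fun t => sg t.1 * φ (t.2.1 :: t.2.2 :: r)).sum +
    (b / 2 : ℂ) * ((plq k).map fun p =>
      -φ ((x, (k, true) :: A ++ p) :: r) + φ ((x, (k, true) :: A ++ rf p) :: r) +
        φ ((x, (k, true) :: A) :: (x, p) :: r) - φ ((x, (k, true) :: A) :: (x, rf p) :: r)).sum

end

end Pool.Agent.T2H01.EK
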