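import Mathlib
import Pool.Agent.T2H01.EK.Defs

/-!
# The holonomy of a path and its derivative
-/

open MeasureTheory Matrix Filter
open scoped Matrix.Norms.Frobenius Topology
open Pool.Agent.H906R3.YM Pool.Agent.W793.YM Pool.Agent.TH618.YM Pool.Agent.T2H01.YM

namespace Pool.Agent.T2H01.EK

set_option linter.unusedSectionVars false
set_option linter.unusedVariables false

noncomputable section

/-! ### paths -/

section paths

variable {d : ℕ}

lemma nx_true (x : Fin d → ℤ) (k : Fin d) : nx x (k, true) = x + Pi.single k 1 := rfl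

lemma nx_false (x : Fin d → ℤ) (k : Fin d) : nx x (k, false) = x - Pi.single k 1 := by
  unfold nx; simp

lemma bs_true (x : Fin d → ℤ) (k : Fin d) : bs x (k, true) = x := rfl

lemma bs_false (x : Fin d → ℤ) (k : Fin d) : bs x (k, false) = x - Pi.single k 1 := by
  unfold bs; simp

lemma en_nil (x : Fin d → ℤ) : en x [] = x := rfl

lemma en_cons (x : Fin d → ℤ) (s : Stp d) (w : List (Stp d)) : en x (s :: w) = en (nx x s) w := rfl

lemma en_append (x : Fin d → ℤ) (w w' : List (Stp d)) : en x (w ++ w') = en (en x w) w' := by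
  induction w generalizing x with
  | nil => rfl
  | cons s w ih => rw [List.cons_append, en_cons, en_cons, ih]

lemma nx_sub (x y : Fin d → ℤ) (s : Stp d) : nx x s - x = nx y s - y := by
  unfold nx
  split_ifs <;> abel

lemma en_sub (x y : Fin d → ℤ) (w : List (Stp d)) : en x w - x = en y w - y := by
  induction w generalizing x y with
  | nil => rw [en_nil, en_nil, sub_self, sub_self]
  | cons s w ih =>
    rw [en_cons, en_cons]
    have h1 := ih (nx x s) (nx y s)
    have h2 := nx_sub x y s
    have e1 : en (nx x s) w - x = (en (nx x s) w - nx x s) + (nx x s - x) := by abel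
    have e2 : en (nx y s) w - y = (en (nx y s) w - nx y s) + (nx y s - y) := by abel
    rw [e1, e2, h1, h2]

lemma rf_nil : rf ([] : List (Stp d)) = [] := rfl

lemma rf_cons (s : Stp d) (w : List (Stp d)) : rf (s :: w) = rf w ++ [(s.1, !s.2)] := by
  unfold rf
  rw [List.map_cons, List.reverse_cons]

lemma rf_append (w w' : List (Stp d)) : rf (w ++ w') = rf w' ++ rf w := by
  unfold rf
  rw [List.map_append, List.reverse_append]

lemma rf_rf (w : List (Stp d)) : rf (rf w) = w := by
  induction w with
  | nil => rfl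
  | cons s w ih =>
    rw [rf_cons, rf_append, ih]
    simp [rf]

lemma nx_flip (x : Fin d → ℤ) (s : Stp d) : nx (nx x s) (s.1, !s.2) = x := by
  unfold nx
  rcases s with ⟨k, b⟩
  cases b <;> simp

lemma en_rf (x : Fin d → ℤ) (w : List (Stp d)) : en (en x w) (rf w) = x := by
  induction w generalizing x with
  | nil => rfl
  | cons s w ih =>
    rw [rf_cons, en_append, en_cons x, ih, en_cons, en_nil, nx_flip]

lemma iv_iv (a : Lp d) : iv (iv a) = a := by
  unfold iv
  simp only
  rw [en_rf, rf_rf]

lemma rf_length (w : List (Stp d)) : (rf w).length = w.length := by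
  unfold rf; simp

end paths

/-! ### holonomies -/

section hol

variable {d : ℕ} {G : Type*} [Group G]

/-- the group element of a step -/
def stG (V : LZ d → G) (x : Fin d → ℤ) (s : Stp d) : G :=
  if s.2 then V (x, s.1) else (V (x - Pi.single s.1 1, s.1))⁻¹

/-- the holonomy of a path -/
def hol (V : LZ d → G) : (Fin d → ℤ) → List (Stp d) → G
  | _, [] => 1
  | x, s :: w => stG V x s * hol V (nx x s) w

lemma hol_nil (V : LZ d → G) (x : Fin d → ℤ) : hol V x [] = 1 := rfl

lemma hol_cons (V : LZ d → G) (x : Fin d → ℤ) (s : Stp d) (w : List (Stp d)) :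
    hol V x (s :: w) = stG V x s * hol V (nx x s) w := rfl

lemma hol_append (V : LZ d → G) (x : Fin d → ℤ) (w w' : List (Stp d)) :
    hol V x (w ++ w') = hol V x w * hol V (en x w) w' := by
  induction w generalizing x with
  | nil => rw [List.nil_append, hol_nil, one_mul, en_nil]
  | cons s w ih => rw [List.cons_append, hol_cons, hol_cons, ih, en_cons, mul_assoc]

lemma stG_flip (V : LZ d → G) (x : Fin d → ℤ) (s : Stp d) :
    stG V (nx x s) (s.1, !s.2) = (stG V x s)⁻¹ := by
  unfold stG nx
  rcases s with ⟨k, b⟩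
  cases b <;> simp

lemma hol_rf (V : LZ d → G) (x : Fin d → ℤ) (w : List (Stp d)) :
    hol V (en x w) (rf w) = (hol V x w)⁻¹ := by
  induction w generalizing x with
  | nil => rw [rf_nil, hol_nil, hol_nil, inv_one]
  | cons s w ih =>
    rw [rf_cons, hol_append, en_cons x, ih, en_rf, hol_cons, hol_nil, mul_one, stG_flip, hol_cons,
      _root_.mul_inv_rev]

variable {l : ℕ}

/-- the link of a step, modulo `l` -/
def lkT (l : ℕ) (x : Fin d → ℤ) (s : Stp d) : Ed d l := (cs l (bs x s), s.1)

lemma stG_pe (U : Ed d l → G) (x : Fin d → ℤ) (s : Stp d) :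
    stG (pe U) x s = if s.2 then U (lkT l x s) else (U (lkT l x s))⁻¹ := by
  unfold stG lkT bs
  rcases s with ⟨k, b⟩
  cases b
  · simp only [Bool.false_eq_true, if_false]
    rfl
  · simp only [if_true]
    rfl

lemma cs_sub (x y : Fin d → ℤ) : cs l (x - y) = cs l x - cs l y := by
  funext i; simp [cs]

lemma cs_nx {x y : Fin d → ℤ} (h : cs l x = cs l y) (s : Stp d) : cs l (nx x s) = cs l (nx y s) := by
  unfold nx
  split_ifs
  · rw [cs_add, cs_add, h]
  · rw [cs_sub, cs_sub, h]

lemma cs_bs {x y : Fin d → ℤ} (h : cs l x = cs l y) (s : Stp d) : cs l (bs x s) = cs l (bs y s) := by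
  unfold bs
  split_ifs
  · exact h
  · rw [cs_sub, cs_sub, h]

lemma cs_en {x y : Fin d → ℤ} (h : cs l x = cs l y) (w : List (Stp d)) :
    cs l (en x w) = cs l (en y w) := by
  induction w generalizing x y with
  | nil => exact h
  | cons s w ih => exact ih (cs_nx h s)

lemma stG_per (U : Ed d l → G) {x y : Fin d → ℤ} (h : cs l x = cs l y) (s : Stp d) :
    stG (pe U) x s = stG (pe U) y s := by
  rw [stG_pe, stG_pe]
  unfold lkT
  rw [cs_bs h]

lemma hol_per (U : Ed d l → G) {x y : Fin d → ℤ} (h : cs l x = cs l y) (w : List (Stp d)) :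
    hol (pe U) x w = hol (pe U) y w := by
  induction w generalizing x y with
  | nil => rfl
  | cons s w ih => rw [hol_cons, hol_cons, stG_per U h, ih (cs_nx h s)]

lemma cl_iff (a : Lp d) : Cl l a ↔ cs l (en a.1 a.2) = cs l a.1 := by
  unfold Cl cs
  constructor
  · intro h; funext i; exact h i
  · intro h i; exact congrFun h i

end hol

/-! ### the derivative -/

section deriv

variable {G : Type*} [Group G] [TopologicalSpace G] {N n d l : ℕ} (L : LD G N n)

/-- the derivative of a step -/
def dst (U : Ed d l → G) (e : Ed d l) (X : Mat N) (x : Fin d → ℤ) (s : Stp d) : Mat N :=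
  if lkT l x s = e then (if s.2 then X * L.rho (U e) else -((L.rho (U e))ᴴ * X)) else 0

/-- the derivative of a holonomy -/
def dhol (U : Ed d l → G) (e : Ed d l) (X : Mat N) : (Fin d → ℤ) → List (Stp d) → Mat N
  | _, [] => 0
  | x, s :: w => dst L U e X x s * L.rho (hol (pe U) (nx x s) w) +
      L.rho (stG (pe U) x s) * dhol U e X (nx x s) w

lemma dhol_nil (U : Ed d l → G) (e : Ed d l) (X : Mat N) (x : Fin d → ℤ) :
    dhol L U e X x [] = 0 := rfl

lemma dhol_cons (U : Ed d l → G) (e : Ed d l) (X : Mat N) (x : Fin d → ℤ) (s : Stp d)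
    (w : List (Stp d)) : dhol L U e X x (s :: w) = dst L U e X x s * L.rho (hol (pe U) (nx x s) w) +
      L.rho (stG (pe U) x s) * dhol L U e X (nx x s) w := rfl

variable {L}

lemma dst_deriv {c : ℝ → G} {X : Mat N} (hc0 : c 0 = 1) (hXs : Xᴴ = -X)
    (hX : HasDerivAt (fun t => L.rho (c t)) X 0) (e : Ed d l) (U : Ed d l → G) (x : Fin d → ℤ)
    (s : Stp d) : HasDerivAt (fun t => L.rho (stG (pe (LN.sh e (c t) U)) x s)) (dst L U e X x s)
      0 := by
  have h1 := LN.link_deriv hc0 hX e (lkT l x s) U
  rcases hs : s.2 with _ | _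
  · have h2 := hasDeriv_ct h1
    have h3 : (fun t => L.rho (stG (pe (LN.sh e (c t) U)) x s)) =
        fun t => (L.rho (LN.sh e (c t) U (lkT l x s)))ᴴ := by
      funext t
      rw [stG_pe, hs, ← L.rho_inv]
      simp
    rw [h3]
    convert h2 using 1
    unfold dst
    rw [hs]
    by_cases h : lkT l x s = e
    · rw [if_pos h, if_pos h, h, conjTranspose_mul, hXs]
      simp
    · rw [if_neg h, if_neg h, conjTranspose_zero]
  · have h3 : (fun t => L.rho (stG (pe (LN.sh e (c t) U)) x s)) =
        fun t => L.rho (LN.sh e (c t) U (lkT l x s)) := by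
      funext t
      rw [stG_pe, hs]
      simp
    rw [h3]
    convert h1 using 1
    unfold dst
    rw [hs]
    by_cases h : lkT l x s = e
    · rw [if_pos h, if_pos h, h]
      simp
    · rw [if_neg h, if_neg h]

lemma dhol_deriv {c : ℝ → G} {X : Mat N} (hc0 : c 0 = 1) (hXs : Xᴴ = -X)
    (hX : HasDerivAt (fun t => L.rho (c t)) X 0) (e : Ed d l) (U : Ed d l → G) (x : Fin d → ℤ)
    (w : List (Stp d)) :
    HasDerivAt (fun t => L.rho (hol (pe (LN.sh e (c t) U)) x w)) (dhol L U e X x w) 0 := by
  induction w generalizing x with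
  | nil =>
    rw [dhol_nil]
    simp only [hol_nil]
    exact hasDerivAt_const _ _
  | cons s w ih =>
    have h1 := (dst_deriv hc0 hXs hX e U x s).mul (ih (nx x s))
    rw [dhol_cons]
    have h2 : LN.sh e (c 0) U = U := by rw [hc0, LN.sh_one]
    rw [h2] at h1
    refine h1.congr_of_eventuallyEq (Eventually.of_forall fun t => ?_)
    show L.rho (hol _ x (s :: w)) = _
    rw [hol_cons, map_mul]
    rfl

/-- the trace of a loop -/
def wr (L : LD G N n) (V : LZ d → G) (a : Lp d) : ℂ := trace (L.rho (hol V a.1 a.2)) / N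

/-- the product of the traces of the loops of a list -/
def ws (L : LD G N n) (V : LZ d → G) (s : List (Lp d)) : ℂ := (s.map (wr L V)).prod

lemma ws_nil (V : LZ d → G) : ws L V [] = 1 := rfl

lemma ws_cons (V : LZ d → G) (a : Lp d) (s : List (Lp d)) : ws L V (a :: s) = wr L V a * ws L V s := by
  unfold ws; rw [List.map_cons, List.prod_cons]

lemma norm_tr (g : G) : ‖trace (L.rho g)‖ ≤ N := by
  rw [trace]
  refine (norm_sum_le _ _).trans ?_
  calc ∑ i, ‖diag (L.rho g) i‖ ≤ ∑ _i : Fin N, (1 : ℝ) := by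
        refine Finset.sum_le_sum fun i _ => ?_
        have h1 : L.rho g ∈ Matrix.unitaryGroup (Fin N) ℂ :=
          Matrix.mem_unitaryGroup_iff.2 (L.unit g)
        exact entry_norm_bound_of_unitary h1 i i
    _ = N := by simp

lemma norm_wr (V : LZ d → G) (a : Lp d) : ‖wr L V a‖ ≤ 1 := by
  unfold wr
  rw [norm_div, Complex.norm_natCast]
  exact div_le_one_of_le₀ (norm_tr _) (Nat.cast_nonneg N)

lemma norm_ws (V : LZ d → G) (s : List (Lp d)) : ‖ws L V s‖ ≤ 1 := by
  induction s with
  | nil => rw [ws_nil, norm_one]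
  | cons a s ih =>
    rw [ws_cons, norm_mul]
    exact mul_le_one₀ (norm_wr V a) (norm_nonneg _) ih

/-- the derivative of a product of traces -/
def dws (L : LD G N n) (U : Ed d l → G) (e : Ed d l) (X : Mat N) : List (Lp d) → ℂ
  | [] => 0
  | a :: s => trace (dhol L U e X a.1 a.2) / N * ws L (pe U) s + wr L (pe U) a * dws L U e X s

lemma dws_cons (U : Ed d l → G) (e : Ed d l) (X : Mat N) (a : Lp d) (s : List (Lp d)) :
    dws L U e X (a :: s) = trace (dhol L U e X a.1 a.2) / N * ws L (pe U) s +
      wr L (pe U) a * dws L U e X s := rfl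

/-- the trace as a real linear map -/
def trL (N : ℕ) : Mat N →L[ℝ] ℂ :=
  LinearMap.toContinuousLinearMap
    { toFun := fun A => trace A
      map_add' := fun A A' => trace_add A A'
      map_smul' := fun c A => by
        rw [RingHom.id_apply, trace_smul] }

lemma trL_apply (A : Mat N) : trL N A = trace A := rfl

lemma tr_deriv {f : ℝ → Mat N} {f' : Mat N} (h : HasDerivAt f f' 0) :
    HasDerivAt (fun t => trace (f t)) (trace f') 0 :=
  (trL N).hasFDerivAt.comp_hasDerivAt (0 : ℝ) h

lemma wr_deriv {c : ℝ → G} {X : Mat N} (hc0 : c 0 = 1) (hXs : Xᴴ = -X)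
    (hX : HasDerivAt (fun t => L.rho (c t)) X 0) (e : Ed d l) (U : Ed d l → G) (a : Lp d) :
    HasDerivAt (fun t => wr L (pe (LN.sh e (c t) U)) a) (trace (dhol L U e X a.1 a.2) / N) 0 :=
  (tr_deriv (dhol_deriv hc0 hXs hX e U a.1 a.2)).div_const _

lemma ws_deriv {c : ℝ → G} {X : Mat N} (hc0 : c 0 = 1) (hXs : Xᴴ = -X)
    (hX : HasDerivAt (fun t => L.rho (c t)) X 0) (e : Ed d l) (U : Ed d l → G) (s : List (Lp d)) :
    HasDerivAt (fun t => ws L (pe (LN.sh e (c t) U)) s) (dws L U e X s) 0 := by
  induction s with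
  | nil =>
    simp only [ws_nil]
    exact hasDerivAt_const _ _
  | cons a s ih =>
    have h1 := (wr_deriv hc0 hXs hX e U a).mul ih
    have h2 : LN.sh e (c 0) U = U := by rw [hc0, LN.sh_one]
    rw [h2] at h1
    rw [dws_cons]
    refine h1.congr_of_eventuallyEq (Eventually.of_forall fun t => ?_)
    show ws L _ (a :: s) = _
    rw [ws_cons]
    rfl

end deriv

end

end Pool.Agent.T2H01.EK
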