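import Mathlib
import Pool.Agent.T2H01.EK.Words
import Pool.Agent.T2H01.EK.Gen

/-!
# The integral over one link: upper bounds with the optimal power of the coupling
-/

open MeasureTheory Matrix Filter
open scoped Matrix.Norms.Frobenius Topology
open Pool.Agent.H906R3.YM Pool.Agent.W793.YM Pool.Agent.TH618.YM Pool.Agent.T2H01.YM

namespace Pool.Agent.T2H01.EK

set_option linter.unusedSectionVars false
set_option linter.unusedVariables false

noncomputable section

/-! ### a differential inequality -/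

lemma ode {κ : ℝ} {z z' : ℝ → ℝ} (hd : ∀ t, HasDerivAt z (z' t) t)
    (h : ∀ t, 0 ≤ t → κ * z t ≤ -((1 + 2 * t) * z' t)) {t : ℝ} (ht : 0 ≤ t) :
    z t ≤ z 0 * Real.exp (-(κ / 2 * Real.log (1 + 2 * t))) := by
  have hder : ∀ s, 0 < s → HasDerivAt (fun s => z s * Real.exp (κ / 2 * Real.log (1 + 2 * s)))
      (z' s * Real.exp (κ / 2 * Real.log (1 + 2 * s)) +
        z s * (Real.exp (κ / 2 * Real.log (1 + 2 * s)) * (κ / (1 + 2 * s)))) s := by
    intro s hs
    have h1 : HasDerivAt (fun s : ℝ => 1 + 2 * s) 2 s := by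
      have := ((hasDerivAt_id s).const_mul 2).const_add 1
      simpa using this
    have h2 := (h1.log (by positivity)).const_mul (κ / 2)
    have h3 := (hd s).mul h2.exp
    refine h3.congr_deriv ?_
    field_simp
  have hcont : ContinuousOn (fun s => z s * Real.exp (κ / 2 * Real.log (1 + 2 * s)))
      (Set.Ici 0) := by
    intro s hs
    have hs' : (0 : ℝ) ≤ s := hs
    refine ((hd s).continuousAt.mul ?_).continuousWithinAt
    refine Real.continuous_exp.continuousAt.comp (continuousAt_const.mul ?_)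
    refine ContinuousAt.log ?_ (by positivity)
    fun_prop
  have hanti : AntitoneOn (fun s => z s * Real.exp (κ / 2 * Real.log (1 + 2 * s)))
      (Set.Ici 0) := by
    refine antitoneOn_of_deriv_nonpos (convex_Ici 0) hcont ?_ ?_
    · intro s hs
      rw [interior_Ici] at hs
      exact (hder s hs).differentiableAt.differentiableWithinAt
    · intro s hs
      rw [interior_Ici] at hs
      have hs' : (0 : ℝ) < s := hs
      rw [(hder s hs).deriv]
      have h1 := h s hs'.le
      have h2 := Real.exp_pos (κ / 2 * Real.log (1 + 2 * s))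
      have h3 : (0 : ℝ) < 1 + 2 * s := by positivity
      have h4 : z' s * Real.exp (κ / 2 * Real.log (1 + 2 * s)) +
          z s * (Real.exp (κ / 2 * Real.log (1 + 2 * s)) * (κ / (1 + 2 * s))) =
          Real.exp (κ / 2 * Real.log (1 + 2 * s)) / (1 + 2 * s) *
            ((1 + 2 * s) * z' s + κ * z s) := by
        field_simp
      rw [h4]
      have h5 : 0 ≤ Real.exp (κ / 2 * Real.log (1 + 2 * s)) / (1 + 2 * s) := by positivity
      nlinarith
  have h1 := hanti (Set.mem_Ici.2 le_rfl) (Set.mem_Ici.2 ht) ht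
  simp only [mul_zero, add_zero, Real.log_one, Real.exp_zero, mul_one] at h1
  rw [Real.exp_neg, ← div_eq_mul_inv, le_div_iff₀ (Real.exp_pos _)]
  exact h1

variable {G : Type*} [Group G] [TopologicalSpace G] [IsTopologicalGroup G] [CompactSpace G]
  [SecondCountableTopology G] [MeasurableSpace G] [BorelSpace G] (μ : Measure G)
  [IsProbabilityMeasure μ] [μ.IsMulLeftInvariant] {N n : ℕ} {L : LD G N n}

lemma int_exp_deriv {q : G → ℝ} (hq : Continuous q) (t : ℝ) :
    HasDerivAt (fun t => ∫ g, Real.exp (-(N * t * q g)) ∂μ)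
      (-(N * ∫ g, q g * Real.exp (-(N * t * q g)) ∂μ)) t := by
  have hc : ∀ s : ℝ, Continuous fun g => Real.exp (-(N * s * q g)) := fun s =>
    Real.continuous_exp.comp (continuous_const.mul hq).neg
  obtain ⟨C, hC⟩ : ∃ C, ∀ g, |q g| ≤ C := by
    obtain ⟨C, hC⟩ := (isCompact_univ.image hq.norm).bddAbove
    exact ⟨C, fun U => hC ⟨U, trivial, rfl⟩⟩
  have h := hasDerivAt_integral_of_dominated_loc_of_deriv_le (μ := μ)
    (F := fun t g => Real.exp (-(N * t * q g)))
    (F' := fun t g => Real.exp (-(N * t * q g)) * (-(N * q g))) (x₀ := t)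
    (s := Metric.ball t 1)
    (bound := fun _ => Real.exp (N * (|t| + 1) * C) * (N * C))
    (Metric.ball_mem_nhds t one_pos)
    (Eventually.of_forall fun s => (hc s).aestronglyMeasurable)
    (LN.intG μ (hc t))
    (((hc t).mul (continuous_const.mul hq).neg).aestronglyMeasurable)
    (Eventually.of_forall fun g s hs => ?_) (integrable_const _)
    (Eventually.of_forall fun g s hs => ?_)
  · refine h.2.congr_deriv ?_
    rw [← integral_const_mul, ← integral_neg]
    exact integral_congr_ae (Eventually.of_forall fun g => by simp only; ring)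
  · have hs1 : |s| ≤ |t| + 1 := by
      have h1 : |s - t| < 1 := by
        have := Metric.mem_ball.1 hs
        rwa [Real.dist_eq] at this
      have h2 : |s| = |(s - t) + t| := by ring_nf
      rw [h2]
      exact (abs_add_le _ _).trans (by linarith)
    have hC0 : 0 ≤ C := (abs_nonneg _).trans (hC g)
    rw [norm_mul, Real.norm_of_nonneg (Real.exp_pos _).le, norm_neg, Real.norm_eq_abs, abs_mul,
      abs_of_nonneg (Nat.cast_nonneg N)]
    refine mul_le_mul (Real.exp_le_exp.2 ?_) (mul_le_mul_of_nonneg_left (hC g)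
      (Nat.cast_nonneg N)) (by positivity) (Real.exp_pos _).le
    refine (le_abs_self _).trans ?_
    rw [abs_neg, abs_mul, abs_mul, abs_of_nonneg (Nat.cast_nonneg N : (0 : ℝ) ≤ N)]
    exact mul_le_mul (mul_le_mul_of_nonneg_left hs1 (Nat.cast_nonneg N)) (hC g) (abs_nonneg _)
      (by positivity)
  · have h1 : HasDerivAt (fun t : ℝ => -(N * t * q g)) (-(N * q g)) s := by
      have h2 := (((hasDerivAt_id s).const_mul (N : ℝ)).mul_const (q g)).neg
      refine (h2.congr_deriv (by ring)).congr_of_eventuallyEq (Eventually.of_forall fun t => ?_)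
      simp
    exact h1.exp

/-- the integral over one link -/
lemma link_main (hg : HG L) {q : G → ℝ} (hq : Continuous q)
    {q1 q2 : Qi N → G → ℝ} (h1c : ∀ X, Continuous (q1 X)) (h2c : ∀ X, Continuous (q2 X))
    (hd : ∀ X (c : ℝ → G), c 0 = 1 → HasDerivAt (fun t => L.rho (c t)) (gX X) 0 → ∀ g,
      HasDerivAt (fun t => q (c t * g)) (q1 X g) 0 ∧
        HasDerivAt (fun t => q1 X (c t * g)) (q2 X g) 0) {κ m : ℝ} (hm : 0 < m)
    (hΔ : ∀ g, 4 * m * (κ - N * q g) ≤ ∑ X, cw X * q2 X g)
    (hΓ : ∀ g, ∑ X, cw X * q1 X g ^ 2 ≤ 8 * m * q g) {t : ℝ} (ht : 0 ≤ t) :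
    ∫ g, Real.exp (-(N * t * q g)) ∂μ ≤ Real.exp (-(κ / 2 * Real.log (1 + 2 * t))) := by
  have hN : (0 : ℝ) ≤ N := Nat.cast_nonneg N
  have h0 := ode (κ := κ) (fun t => int_exp_deriv (N := N) μ hq t) ?_ ht
  · simp only [mul_zero, zero_mul, neg_zero, Real.exp_zero, integral_const, probReal_univ,
      smul_eq_mul, mul_one, one_mul] at h0
    exact h0
  intro s hs
  have hec : Continuous fun g => Real.exp (-(N * s * q g)) :=
    Real.continuous_exp.comp (continuous_const.mul hq).neg
  have hibp : ∀ X : Qi N, cw X ≠ 0 → ∫ g, (q2 X g * Real.exp (-(N * s * q g)) -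
      N * s * q1 X g ^ 2 * Real.exp (-(N * s * q g))) ∂μ = 0 := by
    intro X hX
    obtain ⟨c, hc1, hc2⟩ := hg X hX
    have c0 : c 0 = 1 := by
      have := hc1 0 0
      rw [add_zero] at this
      exact (mul_eq_left.mp this.symm)
    refine LN.ibpG μ hc1 (F := fun g => q1 X g * Real.exp (-(N * s * q g)))
      ((h1c X).mul hec) (((h2c X).mul hec).sub ((continuous_const.mul ((h1c X).pow 2)).mul hec))
      fun g => ?_
    obtain ⟨e1, e2⟩ := hd X c c0 hc2 g
    have e3 := e2.mul ((e1.const_mul (N * s)).neg).exp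
    simp only [Pi.neg_apply, c0, one_mul] at e3
    refine e3.congr_deriv ?_
    ring
  have hsum : ∫ g, ∑ X, cw X * (q2 X g * Real.exp (-(N * s * q g)) -
      N * s * q1 X g ^ 2 * Real.exp (-(N * s * q g))) ∂μ = 0 := by
    rw [integral_finsetSum]
    · refine Finset.sum_eq_zero fun X _ => ?_
      rw [integral_const_mul]
      by_cases hX : cw X = 0
      · rw [hX, zero_mul]
      · rw [hibp X hX, mul_zero]
    · intro X _
      exact (LN.intG μ (((h2c X).mul hec).sub ((continuous_const.mul
        ((h1c X).pow 2)).mul hec))).const_mul _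
  have hle : ∫ g, (4 * m * (κ * Real.exp (-(N * s * q g)) -
      N * (1 + 2 * s) * (q g * Real.exp (-(N * s * q g))))) ∂μ ≤ 0 := by
    rw [← hsum]
    refine integral_mono (LN.intG μ ?_) (LN.intG μ ?_) fun g => ?_
    · exact continuous_const.mul ((continuous_const.mul hec).sub
        (continuous_const.mul (hq.mul hec)))
    · exact continuous_finsetSum _ fun X _ => continuous_const.mul
        (((h2c X).mul hec).sub ((continuous_const.mul ((h1c X).pow 2)).mul hec))
    · have e1 : ∑ X, cw X * (q2 X g * Real.exp (-(N * s * q g)) -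
          N * s * q1 X g ^ 2 * Real.exp (-(N * s * q g))) =
          (∑ X, cw X * q2 X g - N * s * ∑ X, cw X * q1 X g ^ 2) *
            Real.exp (-(N * s * q g)) := by
        rw [Finset.mul_sum, ← Finset.sum_sub_distrib, Finset.sum_mul]
        exact Finset.sum_congr rfl fun X _ => by ring
      simp only
      rw [e1]
      have e2 := hΔ g
      have e3 := mul_le_mul_of_nonneg_left (hΓ g) (mul_nonneg hN hs)
      have e4 : 4 * m * (κ - N * q g) - N * s * (8 * m * q g) ≤
          ∑ X, cw X * q2 X g - N * s * ∑ X, cw X * q1 X g ^ 2 := by linarith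
      refine le_trans (le_of_eq ?_) (mul_le_mul_of_nonneg_right e4 (Real.exp_pos _).le)
      ring
  rw [integral_const_mul, integral_sub, integral_const_mul, integral_const_mul] at hle
  · have h1 : κ * ∫ g, Real.exp (-(N * s * q g)) ∂μ -
        N * (1 + 2 * s) * ∫ g, q g * Real.exp (-(N * s * q g)) ∂μ ≤ 0 := by
      by_contra hlt
      push Not at hlt
      have : 0 < 4 * m * (κ * ∫ g, Real.exp (-(N * s * q g)) ∂μ -
        N * (1 + 2 * s) * ∫ g, q g * Real.exp (-(N * s * q g)) ∂μ) := by positivity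
      linarith
    linarith
  · exact (LN.intG μ hec).const_mul _
  · exact (LN.intG μ (hq.mul hec)).const_mul _

/-! ### derivatives and quadratic forms -/

lemma ip_deriv {f g : ℝ → Mat N} {f' g' : Mat N} (hf : HasDerivAt f f' 0)
    (hg : HasDerivAt g g' 0) :
    HasDerivAt (fun t => ip (f t) (g t)) (ip f' (g 0) + ip (f 0) g') 0 := by
  have h1 := tr_deriv ((hasDeriv_ct hf).mul hg)
  have h2 := Complex.reCLM.hasFDerivAt.comp_hasDerivAt (0 : ℝ) h1
  refine h2.congr_deriv ?_
  show (trace (f'ᴴ * g 0 + (f 0)ᴴ * g')).re = _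
  rw [trace_add, Complex.add_re, ip_apply, ip_apply]

lemma sum_re {ι : Type*} (s : Finset ι) (c : ι → ℝ) (f : ι → ℂ) :
    ∑ X ∈ s, c X * (f X).re = (∑ X ∈ s, (c X : ℂ) * f X).re := by
  rw [Complex.re_sum]
  exact Finset.sum_congr rfl fun X _ => by rw [Complex.re_ofReal_mul]

/-- the square of the gradient of a linear function -/
lemma grad_sq (hN : 0 < N) (M : Mat N) :
    ∑ X : Qi N, cw X * (trace (gX X * M)).re ^ 2 ≤ ‖M - Mᴴ‖ ^ 2 := by
  have hN' : (0 : ℝ) < N := by exact_mod_cast hN
  obtain ⟨D, hD⟩ : ∃ D : Mat N, D = M - Mᴴ := ⟨_, rfl⟩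
  have hDs : Dᴴ = -D := by
    rw [hD, conjTranspose_sub, conjTranspose_conjTranspose]; abel
  have h1 : ∀ X : Qi N, (((trace (gX X * M)).re : ℝ) : ℂ) = (1 / 2) * trace (gX X * D) := by
    intro X
    have h2 : trace (gX X * Mᴴ) = -(starRingEnd ℂ) (trace (gX X * M)) := by
      rw [starRingEnd_apply, ← trace_conjTranspose, conjTranspose_mul, gX_skew, mul_neg,
        trace_neg, neg_neg, trace_mul_comm]
    rw [hD, mul_sub, trace_sub, h2, Complex.re_eq_add_conj]
    ring
  have h2 : ∑ X : Qi N, (cw X : ℂ) * (trace (gX X * D) * trace (gX X * D)) =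
      -4 * trace (D * D) + 4 / N * (trace D * trace D) := comp_tr hN D D
  have h3 : ((∑ X : Qi N, cw X * (trace (gX X * M)).re ^ 2 : ℝ) : ℂ) =
      (1 / 4) * (-4 * trace (D * D) + 4 / N * (trace D * trace D)) := by
    rw [← h2, Finset.mul_sum]
    push_cast
    refine Finset.sum_congr rfl fun X _ => ?_
    rw [h1]
    ring
  have h4 : ∑ X : Qi N, cw X * (trace (gX X * M)).re ^ 2 =
      -(trace (D * D)).re + 1 / N * (trace D * trace D).re := by
    have h5 := congrArg Complex.re h3
    rw [Complex.ofReal_re] at h5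
    rw [h5]
    have h6 : (1 / 4 : ℂ) * (-4 * trace (D * D) + 4 / N * (trace D * trace D)) =
        -trace (D * D) + ((1 / N : ℝ) : ℂ) * (trace D * trace D) := by
      push_cast; ring
    rw [h6, Complex.add_re, Complex.neg_re, Complex.re_ofReal_mul]
  have h5 : (trace D).re = 0 := by
    have : trace D = -(starRingEnd ℂ) (trace D) := by
      rw [starRingEnd_apply, ← trace_conjTranspose, hDs, trace_neg, neg_neg]
    have h6 := congrArg Complex.re this
    simp at h6
    linarith
  have h6 : (trace D * trace D).re ≤ 0 := by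
    rw [Complex.mul_re, h5]
    nlinarith [sq_nonneg (trace D).im]
  have h7 : ‖D‖ ^ 2 = -(trace (D * D)).re := by
    rw [norm_sq_ip, ip_apply, hDs, neg_mul, trace_neg, Complex.neg_re]
  rw [h4, ← hD, h7]
  have h8 : 1 / (N : ℝ) * (trace D * trace D).re ≤ 0 :=
    mul_nonpos_of_nonneg_of_nonpos (by positivity) h6
  linarith

lemma skew_bound {M R : Mat N} (g : G) (hM : M = L.rho g * Rᴴ) :
    ‖M - Mᴴ‖ ^ 2 ≤ 4 * ‖R - L.rho g‖ ^ 2 := by
  have h1 : M - Mᴴ = L.rho g * (R - L.rho g)ᴴ - (R - L.rho g) * (L.rho g)ᴴ := by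
    rw [hM, conjTranspose_mul, conjTranspose_conjTranspose, conjTranspose_sub, mul_sub, sub_mul]
    abel
  have h2 : ‖M - Mᴴ‖ ≤ 2 * ‖R - L.rho g‖ := by
    rw [h1]
    refine (norm_sub_le _ _).trans ?_
    rw [norm_lmul, norm_ct, ← L.rho_inv, norm_rmul]
    linarith
  have h3 := norm_nonneg (M - Mᴴ)
  nlinarith

/-! ### the plaquette weight -/

lemma rho_deriv {c : ℝ → G} {X : Mat N} (hX : HasDerivAt (fun t => L.rho (c t)) X 0) (g : G) :
    HasDerivAt (fun t => L.rho (c t * g)) (X * L.rho g) 0 := by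
  have h1 := hX.mul_const (L.rho g)
  refine h1.congr_of_eventuallyEq (Eventually.of_forall fun t => ?_)
  show L.rho (c t * g) = _
  rw [map_mul]

theorem link_plq (hN : 0 < N) (hg : HG L) {t : ℝ} (ht : 0 ≤ t) :
    ∫ g, Real.exp (-(N * t * we L g)) ∂μ ≤
      Real.exp (-(((N : ℝ) ^ 2 - 1) / 2 * Real.log (1 + 2 * t))) := by
  have hN' : (0 : ℝ) < N := by exact_mod_cast hN
  have hNc : (N : ℂ) ≠ 0 := by exact_mod_cast hN.ne'
  have hrc : Continuous fun g : G => L.rho g := L.cont
  refine link_main μ hg (q := we L) we_cont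
    (q1 := fun X g => -(trace (gX X * L.rho g)).re)
    (q2 := fun X g => -(trace (gX X * (gX X * L.rho g))).re) (fun X => ?_) (fun X => ?_)
    (fun X c hc0 hc g => ⟨?_, ?_⟩) (m := 1) one_pos (fun g => ?_) (fun g => ?_) ht
  · exact (Complex.continuous_re.comp (Continuous.matrix_trace (continuous_const.mul hrc))).neg
  · exact (Complex.continuous_re.comp (Continuous.matrix_trace (continuous_const.mul
      (continuous_const.mul hrc)))).neg
  · have h1 := (Complex.reCLM.hasFDerivAt.comp_hasDerivAt (0 : ℝ)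
      (tr_deriv (rho_deriv hc g))).const_sub (N : ℝ)
    refine h1.congr_of_eventuallyEq (Eventually.of_forall fun t => ?_)
    show we L (c t * g) = _
    rw [we_tr]
    rfl
  · exact (Complex.reCLM.hasFDerivAt.comp_hasDerivAt (0 : ℝ)
      (tr_deriv ((rho_deriv hc g).const_mul (gX X)))).neg
  · have h1 : ∑ X : Qi N, cw X * -(trace (gX X * (gX X * L.rho g))).re =
        (4 * N - 4 / N) * (trace (L.rho g)).re := by
      have h2 : ∑ X : Qi N, cw X * -(trace (gX X * (gX X * L.rho g))).re =
          -∑ X : Qi N, cw X * (trace (gX X * gX X * L.rho g)).re := by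
        rw [← Finset.sum_neg_distrib]
        exact Finset.sum_congr rfl fun X _ => by rw [Matrix.mul_assoc]; ring
      rw [h2, sum_re, comp_sq hN]
      have h3 : -(4 * (N : ℂ) - 4 / N) * trace (L.rho g) =
          ((-(4 * N - 4 / N) : ℝ) : ℂ) * trace (L.rho g) := by push_cast; ring
      rw [h3, Complex.re_ofReal_mul]
      ring
    rw [h1]
    have h2 := we_tr (L := L) g
    have h3 : (trace (L.rho g)).re = N - we L g := by linarith
    rw [h3]
    have h4 := we_nonneg (L := L) g
    have h5 : (4 * (N : ℝ) - 4 / N) * (N - we L g) =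
        4 * (N ^ 2 - 1) - 4 * N * we L g + 4 / N * we L g := by
      field_simp
      ring
    rw [h5]
    have h6 : 0 ≤ 4 / (N : ℝ) * we L g := by positivity
    linarith
  · simp only [neg_sq]
    refine (grad_sq hN (L.rho g)).trans ?_
    have h1 := skew_bound (L := L) (M := L.rho g) (R := 1) g (by rw [conjTranspose_one, mul_one])
    refine h1.trans ?_
    rw [LN.frob_tr (L.unit' g), we_tr]
    linarith

end

end Pool.Agent.T2H01.EK
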