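import Mathlib
import Pool.Agent.T2H01.EK.Ode

/-!
# The integral over one link: the commutator with a given holonomy
-/

open MeasureTheory Matrix Filter
open scoped Matrix.Norms.Frobenius Topology
open Pool.Agent.H906R3.YM Pool.Agent.W793.YM Pool.Agent.TH618.YM Pool.Agent.T2H01.YM

namespace Pool.Agent.T2H01.EK

set_option linter.unusedSectionVars false
set_option linter.unusedVariables false

noncomputable section

variable {G : Type*} [Group G] [TopologicalSpace G] [IsTopologicalGroup G] [CompactSpace G]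
  [SecondCountableTopology G] [MeasurableSpace G] [BorelSpace G] (μ : Measure G)
  [IsProbabilityMeasure μ] [μ.IsMulLeftInvariant] {N n K : ℕ} {L : LD G N n}

variable (L) in
/-- the average over the conjugations by the elements `A i` -/
def SL (A : Fin K → G) : Mat N →L[ℝ] Mat N :=
  LinearMap.toContinuousLinearMap
    { toFun := fun M => (1 / K : ℝ) • ∑ i, L.rho (A i) * M * (L.rho (A i))ᴴ
      map_add' := fun M M' => by
        rw [← smul_add, ← Finset.sum_add_distrib]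
        congr 1
        exact Finset.sum_congr rfl fun i _ => by rw [mul_add, add_mul]
      map_smul' := fun c M => by
        rw [RingHom.id_apply, smul_comm c]
        congr 1
        rw [Finset.smul_sum]
        refine Finset.sum_congr rfl fun i _ => ?_
        rw [mul_smul_comm, smul_mul_assoc] }

lemma SL_apply (A : Fin K → G) (M : Mat N) :
    SL L A M = (1 / K : ℝ) • ∑ i, L.rho (A i) * M * (L.rho (A i))ᴴ := rfl

lemma SL_adj (A : Fin K → G) (V M : Mat N) : ip V (SL L A M) = ip (SL L (fun i => (A i)⁻¹) V) M := by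
  rw [SL_apply, SL_apply, map_smul, map_sum, ip_comm _ M, map_smul, map_sum]
  congr 2
  funext i
  rw [ip_conj, ip_comm]
  simp only [L.rho_inv, conjTranspose_conjTranspose]

lemma SL_norm (hK : 0 < K) (A : Fin K → G) (M : Mat N) : ‖SL L A M‖ ≤ ‖M‖ := by
  have hK' : (0 : ℝ) < K := by exact_mod_cast hK
  rw [SL_apply, norm_smul, Real.norm_of_nonneg (by positivity)]
  have h1 : ‖∑ i, L.rho (A i) * M * (L.rho (A i))ᴴ‖ ≤ K * ‖M‖ := by
    refine (norm_sum_le _ _).trans ?_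
    calc ∑ i : Fin K, ‖L.rho (A i) * M * (L.rho (A i))ᴴ‖ ≤ ∑ _i : Fin K, ‖M‖ := by
          refine Finset.sum_le_sum fun i _ => ?_
          rw [← L.rho_inv, norm_rmul, norm_lmul]
      _ = K * ‖M‖ := by simp
  rw [one_div, inv_mul_le_iff₀ hK']
  exact h1

variable (L) in
/-- the clumping of the family -/
def clp (A : Fin K → G) : ℝ := 1 / (K : ℝ) ^ 2 *
  ∑ i, ∑ j, ‖trace ((L.rho (A i))ᴴ * L.rho (A j)) / N‖ ^ 2

variable (L) in
/-- the distance of `g` to the matrices commuting with the family -/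
def qp (A : Fin K → G) (g : G) : ℝ := N - ip (SL L A (L.rho g)) (SL L A (L.rho g))

lemma qp_cont (A : Fin K → G) : Continuous (qp L A) := by
  have h1 : Continuous fun g => SL L A (L.rho g) := (SL L A).continuous.comp L.cont
  unfold qp
  have h2 : (fun g => (N : ℝ) - ip (SL L A (L.rho g)) (SL L A (L.rho g))) =
      fun g => N - ‖SL L A (L.rho g)‖ ^ 2 := by
    funext g; rw [norm_sq_ip]
  rw [h2]
  exact continuous_const.sub (h1.norm.pow 2)

lemma rho_nsq (g : G) : ip (L.rho g) (L.rho g) = N := by rw [← norm_sq_ip]; exact LN.rho_frob g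

lemma ip_sm (c : ℝ) (A B : Mat N) : ip (c • A) B = c * ip A B := by
  rw [ip_comm, map_smul, ip_comm, smul_eq_mul]

lemma ip_sums {ι : Type*} (s : Finset ι) (f g : ι → Mat N) :
    ip (∑ i ∈ s, f i) (∑ j ∈ s, g j) = ∑ i ∈ s, ∑ j ∈ s, ip (f i) (g j) := by
  rw [ip_comm, map_sum]
  refine Finset.sum_congr rfl fun i _ => ?_
  rw [ip_comm, map_sum]

lemma ip_SL (A : Fin K → G) (V M : Mat N) : ip (SL L A V) (SL L A M) = 1 / (K : ℝ) ^ 2 *
    ∑ i, ∑ j, ip (L.rho (A i) * V * (L.rho (A i))ᴴ) (L.rho (A j) * M * (L.rho (A j))ᴴ) := by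
  rw [SL_apply, SL_apply, ip_sm, map_smul, ip_sums, smul_eq_mul, ← mul_assoc]
  congr 1
  ring

/-- the square of the gradient -/
lemma qp_grad (hN : 0 < N) (hK : 0 < K) (A : Fin K → G) (g : G) :
    ∑ X : Qi N, cw X * (-2 * ip (SL L A (L.rho g)) (SL L A (gX X * L.rho g))) ^ 2 ≤
      8 * 2 * qp L A g := by
  obtain ⟨R, hR⟩ : ∃ R : Mat N, R = SL L (fun i => (A i)⁻¹) (SL L A (L.rho g)) := ⟨_, rfl⟩
  obtain ⟨M, hM⟩ : ∃ M : Mat N, M = L.rho g * Rᴴ := ⟨_, rfl⟩
  have h1 : ∀ X : Qi N, ip (SL L A (L.rho g)) (SL L A (gX X * L.rho g)) =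
      (trace (gX X * M)).re := by
    intro X
    rw [SL_adj, ← hR, ip_apply, hM, trace_mul_comm, Matrix.mul_assoc]
  have h2 : ∑ X : Qi N, cw X * (-2 * ip (SL L A (L.rho g)) (SL L A (gX X * L.rho g))) ^ 2 =
      4 * ∑ X : Qi N, cw X * (trace (gX X * M)).re ^ 2 := by
    rw [Finset.mul_sum]
    exact Finset.sum_congr rfl fun X _ => by rw [h1]; ring
  rw [h2]
  have h3 := grad_sq hN M
  have h4 := skew_bound g hM
  have h5 : ‖R - L.rho g‖ ^ 2 ≤ qp L A g := by
    rw [norm_sq_ip]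
    have e1 : ip (R - L.rho g) (R - L.rho g) = ip R R - 2 * ip R (L.rho g) +
        ip (L.rho g) (L.rho g) := by
      rw [map_sub, ip_comm (R - L.rho g) R, ip_comm (R - L.rho g) (L.rho g), map_sub, map_sub,
        ip_comm (L.rho g) R]
      ring
    have e2 : ip R (L.rho g) = ip (SL L A (L.rho g)) (SL L A (L.rho g)) := by
      rw [SL_adj, hR]
    have e3 : ip R R ≤ ip (SL L A (L.rho g)) (SL L A (L.rho g)) := by
      rw [← norm_sq_ip, ← norm_sq_ip, hR]
      exact pow_le_pow_left₀ (norm_nonneg _) (SL_norm hK _ _) 2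
    rw [e1, e2, rho_nsq]
    unfold qp
    linarith
  linarith

lemma qp_lap_term (hN : 0 < N) (P Q : G) (U : Mat N) (hU : U * Uᴴ = 1) :
    ∑ X : Qi N, cw X * ip (L.rho P * (gX X * U) * (L.rho P)ᴴ) (L.rho Q * (gX X * U) * (L.rho Q)ᴴ) =
      4 * N ^ 2 * ‖trace ((L.rho P)ᴴ * L.rho Q) / N‖ ^ 2 -
        4 / N * ip (L.rho P * U * (L.rho P)ᴴ) (L.rho Q * U * (L.rho Q)ᴴ) := by
  have hN' : (0 : ℝ) < N := by exact_mod_cast hN
  obtain ⟨M, hM⟩ : ∃ M : Mat N, M = (L.rho P)ᴴ * L.rho Q := ⟨_, rfl⟩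
  have hMc : Mᴴ = (L.rho Q)ᴴ * L.rho P := by
    rw [hM, conjTranspose_mul, conjTranspose_conjTranspose]
  have h1 : ∀ X : Qi N, ip (L.rho P * (gX X * U) * (L.rho P)ᴴ)
      (L.rho Q * (gX X * U) * (L.rho Q)ᴴ) = -(trace (gX X * M * gX X * (U * Mᴴ * Uᴴ))).re := by
    intro X
    rw [ip_apply]
    have e1 : (L.rho P * (gX X * U) * (L.rho P)ᴴ)ᴴ * (L.rho Q * (gX X * U) * (L.rho Q)ᴴ) =
        -(L.rho P * Uᴴ * (gX X * M * gX X * (U * (L.rho Q)ᴴ))) := by
      rw [conjTranspose_mul, conjTranspose_mul, conjTranspose_mul, conjTranspose_conjTranspose,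
        gX_skew, hM]
      noncomm_ring
    rw [e1, trace_neg, trace_mul_comm, hMc, Complex.neg_re]
    congr 3
    noncomm_ring
  simp only [h1]
  have h2 : ∑ X : Qi N, cw X * -(trace (gX X * M * gX X * (U * Mᴴ * Uᴴ))).re =
      -(∑ X : Qi N, (cw X : ℂ) * trace (gX X * M * gX X * (U * Mᴴ * Uᴴ))).re := by
    rw [← sum_re, ← Finset.sum_neg_distrib]
    exact Finset.sum_congr rfl fun X _ => by ring
  rw [h2, comp_sw hN]
  have h3 : trace (U * Mᴴ * Uᴴ) = trace Mᴴ := by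
    have h0 : Uᴴ * U = 1 := mul_eq_one_comm.1 hU
    rw [trace_mul_comm, ← Matrix.mul_assoc, h0, one_mul]
  have h4 : (trace (M * (U * Mᴴ * Uᴴ))).re =
      ip (L.rho P * U * (L.rho P)ᴴ) (L.rho Q * U * (L.rho Q)ᴴ) := by
    rw [ip_apply]
    have e1 : (L.rho P * U * (L.rho P)ᴴ)ᴴ * (L.rho Q * U * (L.rho Q)ᴴ) =
        L.rho P * (Uᴴ * M * U * (L.rho Q)ᴴ) := by
      rw [conjTranspose_mul, conjTranspose_mul, conjTranspose_conjTranspose, hM]
      noncomm_ring
    rw [e1, trace_mul_comm (L.rho P)]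
    have e2 : Uᴴ * M * U * (L.rho Q)ᴴ * L.rho P = Uᴴ * (M * U * Mᴴ) := by
      rw [hMc]; noncomm_ring
    rw [e2, trace_mul_comm Uᴴ]
    congr 2
    noncomm_ring
  rw [h3, ← h4]
  have h5 : trace M * trace Mᴴ = ((‖trace M‖ ^ 2 : ℝ) : ℂ) := by
    rw [trace_conjTranspose]
    have := Complex.mul_conj (trace M)
    rw [Complex.normSq_eq_norm_sq] at this
    exact this
  rw [h5]
  have h6 : (-4 * ((‖trace M‖ ^ 2 : ℝ) : ℂ) + 4 / N * trace (M * (U * Mᴴ * Uᴴ))).re =
      -4 * ‖trace M‖ ^ 2 + 4 / N * (trace (M * (U * Mᴴ * Uᴴ))).re := by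
    have e1 : (-4 * ((‖trace M‖ ^ 2 : ℝ) : ℂ) + 4 / N * trace (M * (U * Mᴴ * Uᴴ))) =
        ((-4 * ‖trace M‖ ^ 2 : ℝ) : ℂ) + ((4 / N : ℝ) : ℂ) * trace (M * (U * Mᴴ * Uᴴ)) := by
      push_cast; ring
    rw [e1, Complex.add_re, Complex.ofReal_re, Complex.re_ofReal_mul]
  rw [h6, ← hM, norm_div, Complex.norm_natCast, div_pow]
  field_simp
  ring

/-- the Laplacian -/
lemma qp_lap (hN : 0 < N) (hK : 0 < K) (A : Fin K → G) (g : G) :
    ∑ X : Qi N, cw X * (-2 * (ip (SL L A (gX X * L.rho g)) (SL L A (gX X * L.rho g)) +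
      ip (SL L A (L.rho g)) (SL L A (gX X * (gX X * L.rho g))))) =
      4 * 2 * ((N : ℝ) ^ 2 * (1 - clp L A) - N * qp L A g) := by
  have hN' : (0 : ℝ) < N := by exact_mod_cast hN
  obtain ⟨R, hR⟩ : ∃ R : Mat N, R = SL L (fun i => (A i)⁻¹) (SL L A (L.rho g)) := ⟨_, rfl⟩
  have h1 : ∑ X : Qi N, cw X * ip (SL L A (L.rho g)) (SL L A (gX X * (gX X * L.rho g))) =
      -(4 * N - 4 / N) * ip (SL L A (L.rho g)) (SL L A (L.rho g)) := by
    have e1 : ∀ X : Qi N, ip (SL L A (L.rho g)) (SL L A (gX X * (gX X * L.rho g))) =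
        (trace (gX X * gX X * (L.rho g * Rᴴ))).re := by
      intro X
      rw [SL_adj, ← hR, ip_apply, trace_mul_comm]
      congr 2
      noncomm_ring
    simp only [e1]
    rw [sum_re, comp_sq hN]
    have e2 : -(4 * (N : ℂ) - 4 / N) * trace (L.rho g * Rᴴ) =
        ((-(4 * N - 4 / N) : ℝ) : ℂ) * trace (L.rho g * Rᴴ) := by push_cast; ring
    rw [e2, Complex.re_ofReal_mul, trace_mul_comm, SL_adj, ← hR, ip_apply]
  have h2 : ∑ X : Qi N, cw X * ip (SL L A (gX X * L.rho g)) (SL L A (gX X * L.rho g)) =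
      4 * N ^ 2 * clp L A - 4 / N * ip (SL L A (L.rho g)) (SL L A (L.rho g)) := by
    simp only [ip_SL]
    have e1 : ∑ X : Qi N, cw X * (1 / (K : ℝ) ^ 2 * ∑ i, ∑ j,
        ip (L.rho (A i) * (gX X * L.rho g) * (L.rho (A i))ᴴ)
          (L.rho (A j) * (gX X * L.rho g) * (L.rho (A j))ᴴ)) =
        1 / (K : ℝ) ^ 2 * ∑ i, ∑ j, ∑ X : Qi N, cw X *
        ip (L.rho (A i) * (gX X * L.rho g) * (L.rho (A i))ᴴ)
          (L.rho (A j) * (gX X * L.rho g) * (L.rho (A j))ᴴ) := by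
      simp only [Finset.mul_sum]
      rw [Finset.sum_comm]
      refine Finset.sum_congr rfl fun i _ => ?_
      rw [Finset.sum_comm]
      refine Finset.sum_congr rfl fun j _ => ?_
      exact Finset.sum_congr rfl fun X _ => by ring
    rw [e1]
    have e2 : ∀ i j, ∑ X : Qi N, cw X *
        ip (L.rho (A i) * (gX X * L.rho g) * (L.rho (A i))ᴴ)
          (L.rho (A j) * (gX X * L.rho g) * (L.rho (A j))ᴴ) =
        4 * N ^ 2 * ‖trace ((L.rho (A i))ᴴ * L.rho (A j)) / N‖ ^ 2 -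
        4 / N * ip (L.rho (A i) * L.rho g * (L.rho (A i))ᴴ)
          (L.rho (A j) * L.rho g * (L.rho (A j))ᴴ) := fun i j =>
      qp_lap_term hN (A i) (A j) (L.rho g) (L.unit g)
    simp only [e2, Finset.sum_sub_distrib, ← Finset.mul_sum]
    unfold clp
    ring
  have h3 : ∑ X : Qi N, cw X * (-2 * (ip (SL L A (gX X * L.rho g)) (SL L A (gX X * L.rho g)) +
      ip (SL L A (L.rho g)) (SL L A (gX X * (gX X * L.rho g))))) =
      -2 * (∑ X : Qi N, cw X * ip (SL L A (gX X * L.rho g)) (SL L A (gX X * L.rho g)) +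
        ∑ X : Qi N, cw X * ip (SL L A (L.rho g)) (SL L A (gX X * (gX X * L.rho g)))) := by
    rw [← Finset.sum_add_distrib, Finset.mul_sum]
    exact Finset.sum_congr rfl fun X _ => by ring
  rw [h3, h1, h2]
  unfold qp
  field_simp
  ring

lemma qp_nonneg (hK : 0 < K) (A : Fin K → G) (g : G) : 0 ≤ qp L A g := by
  unfold qp
  have h1 : ip (SL L A (L.rho g)) (SL L A (L.rho g)) ≤ N := by
    rw [← norm_sq_ip]
    have := pow_le_pow_left₀ (norm_nonneg _) (SL_norm (L := L) hK A (L.rho g)) 2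
    rwa [LN.rho_frob] at this
  linarith

theorem link_pol (hN : 0 < N) (hK : 0 < K) (hg : HG L) (A : Fin K → G) {t : ℝ} (ht : 0 ≤ t) :
    ∫ g, Real.exp (-(N * t * qp L A g)) ∂μ ≤
      Real.exp (-((N : ℝ) ^ 2 * (1 - clp L A) / 2 * Real.log (1 + 2 * t))) := by
  have hS : Continuous fun M : Mat N => SL L A M := (SL L A).continuous
  have hip : ∀ {f g : G → Mat N}, Continuous f → Continuous g →
      Continuous fun x => ip (f x) (g x) := by
    intro f g hf hg
    simp only [ip_apply]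
    exact Complex.continuous_re.comp (Continuous.matrix_trace
      ((continuous_star.comp hf).mul hg))
  have hrc : Continuous fun g : G => L.rho g := L.cont
  have k0 : Continuous fun g : G => SL L A (L.rho g) := hS.comp hrc
  have k1 : ∀ X : Qi N, Continuous fun g : G => SL L A (gX X * L.rho g) := fun X =>
    hS.comp (continuous_const.mul hrc)
  have k2 : ∀ X : Qi N, Continuous fun g : G => SL L A (gX X * (gX X * L.rho g)) := fun X =>
    hS.comp (continuous_const.mul (continuous_const.mul hrc))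
  have hSd : ∀ {f : ℝ → Mat N} {f' : Mat N}, HasDerivAt f f' 0 →
      HasDerivAt (fun t => SL L A (f t)) (SL L A f') 0 := fun h =>
    (SL L A).hasFDerivAt.comp_hasDerivAt (0 : ℝ) h
  refine link_main μ hg (q := qp L A) (qp_cont A)
    (q1 := fun X g => -2 * ip (SL L A (L.rho g)) (SL L A (gX X * L.rho g)))
    (q2 := fun X g => -2 * (ip (SL L A (gX X * L.rho g)) (SL L A (gX X * L.rho g)) +
      ip (SL L A (L.rho g)) (SL L A (gX X * (gX X * L.rho g))))) (fun X => ?_) (fun X => ?_)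
    (fun X c hc0 hc g => ⟨?_, ?_⟩) (m := 2) two_pos (fun g => ?_) (fun g => ?_) ht
  · exact continuous_const.mul (hip k0 (k1 X))
  · exact continuous_const.mul ((hip (k1 X) (k1 X)).add (hip k0 (k2 X)))
  · have h1 := hSd (rho_deriv hc g)
    have h2 := (ip_deriv h1 h1).const_sub (N : ℝ)
    simp only [hc0, one_mul] at h2
    refine h2.congr_deriv ?_
    rw [ip_comm (SL L A (gX X * L.rho g))]
    ring
  · have h1 := hSd (rho_deriv hc g)
    have h2 := hSd ((rho_deriv hc g).const_mul (gX X))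
    have h3 := (ip_deriv h1 h2).const_mul (-2)
    simp only [hc0, one_mul] at h3
    exact h3
  · exact (qp_lap hN hK A g).ge
  · exact qp_grad hN hK A g

lemma norm_mul_ct (g : G) (A : Mat N) : ‖A * (L.rho g)ᴴ‖ = ‖A‖ := by
  rw [← L.rho_inv, norm_rmul]

/-- comparison with the commutator -/
lemma qp_le_comm (hK : 0 < K) (P g : G) :
    qp L (fun j : Fin K => P ^ (j : ℕ)) g ≤ 2 * (K : ℝ) ^ 2 *
      ‖1 - L.rho (P * g * P⁻¹ * g⁻¹)‖ ^ 2 := by
  have hK' : (0 : ℝ) < K := by exact_mod_cast hK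
  obtain ⟨δ, hδ⟩ : ∃ δ : ℝ, δ = ‖1 - L.rho (P * g * P⁻¹ * g⁻¹)‖ := ⟨_, rfl⟩
  have hδ0 : 0 ≤ δ := by rw [hδ]; exact norm_nonneg _
  obtain ⟨V, hV⟩ : ∃ V : ℕ → Mat N, V = fun j => L.rho (P ^ j) * L.rho g * (L.rho (P ^ j))ᴴ :=
    ⟨_, rfl⟩
  have hV0 : V 0 = L.rho g := by
    rw [hV]; simp
  have hV1 : ‖V 1 - L.rho g‖ = δ := by
    have e1 : V 1 - L.rho g = (L.rho (P * g * P⁻¹ * g⁻¹) - 1) * L.rho g := by
      rw [sub_mul, one_mul, ← map_mul, inv_mul_cancel_right, hV]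
      simp only [pow_one]
      rw [← L.rho_inv, ← map_mul, ← map_mul]
    rw [e1, norm_rmul, norm_sub_rev, hδ]
  have hVs : ∀ j, V (j + 1) = L.rho P * V j * (L.rho P)ᴴ := by
    intro j
    rw [hV]
    simp only
    rw [pow_succ', map_mul, conjTranspose_mul]
    noncomm_ring
  have hVd : ∀ j : ℕ, ‖V j - L.rho g‖ ≤ j * δ := by
    intro j
    induction j with
    | zero => rw [hV0]; simp
    | succ j ih =>
      have e1 : V (j + 1) - L.rho g = L.rho P * (V j - L.rho g) * (L.rho P)ᴴ +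
          (V 1 - L.rho g) := by
        rw [hVs, ← zero_add 1, hVs, hV0, mul_sub, sub_mul]
        abel
      rw [e1]
      refine (norm_add_le _ _).trans ?_
      rw [norm_mul_ct, norm_lmul, hV1]
      push_cast
      linarith
  have hVn : ∀ i : ℕ, ip (V i) (V i) = N := by
    intro i
    rw [← norm_sq_ip, hV]
    simp only
    rw [norm_mul_ct, norm_lmul, LN.rho_frob]
  have hVij : ∀ i j : Fin K, N - 2 * (K : ℝ) ^ 2 * δ ^ 2 ≤ ip (V i) (V j) := by
    intro i j
    have e1 : ‖V i - V j‖ ^ 2 = 2 * N - 2 * ip (V i) (V j) := by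
      rw [norm_sq_ip, map_sub, ip_comm (V i - V j) (V i), ip_comm (V i - V j) (V j), map_sub,
        map_sub, hVn, hVn, ip_comm (V j) (V i)]
      ring
    have e2 : ‖V i - V j‖ ≤ 2 * K * δ := by
      have e3 : V i - V j = (V i - L.rho g) - (V j - L.rho g) := by abel
      rw [e3]
      refine (norm_sub_le _ _).trans ?_
      have e4 := hVd i
      have e5 := hVd j
      have e6 : ((i : ℕ) : ℝ) ≤ K := by exact_mod_cast i.2.le
      have e7 : ((j : ℕ) : ℝ) ≤ K := by exact_mod_cast j.2.le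
      have e8 := mul_le_mul_of_nonneg_right e6 hδ0
      have e9 := mul_le_mul_of_nonneg_right e7 hδ0
      linarith
    have e3 := pow_le_pow_left₀ (norm_nonneg _) e2 2
    have e4 : (2 * (K : ℝ) * δ) ^ 2 = 4 * (K ^ 2 * δ ^ 2) := by ring
    rw [e1, e4] at e3
    linarith
  unfold qp
  rw [ip_SL]
  have h1 : ∑ i : Fin K, ∑ j : Fin K, (N - 2 * (K : ℝ) ^ 2 * δ ^ 2) ≤
      ∑ i : Fin K, ∑ j : Fin K, ip (L.rho (P ^ (i : ℕ)) * L.rho g * (L.rho (P ^ (i : ℕ)))ᴴ)
        (L.rho (P ^ (j : ℕ)) * L.rho g * (L.rho (P ^ (j : ℕ)))ᴴ) := by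
    refine Finset.sum_le_sum fun i _ => Finset.sum_le_sum fun j _ => ?_
    have := hVij i j
    rw [hV] at this
    exact this
  simp only [Finset.sum_const, Finset.card_univ, Fintype.card_fin, nsmul_eq_mul] at h1
  have h2 := mul_le_mul_of_nonneg_left h1 (show 0 ≤ 1 / (K : ℝ) ^ 2 by positivity)
  have h3 : 1 / (K : ℝ) ^ 2 * (K * (K * (N - 2 * (K : ℝ) ^ 2 * δ ^ 2))) =
      N - 2 * (K : ℝ) ^ 2 * δ ^ 2 := by
    field_simp
  rw [h3] at h2
  rw [← hδ]
  linarith

end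

end Pool.Agent.T2H01.EK
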