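import Mathlib
import Pool.Agent.T2H01.LN.Zeros

/-!
# A maximal tree on the torus and the plaquettes which determine the remaining links
-/

open MeasureTheory Matrix Filter
open scoped Matrix.Norms.Frobenius Topology
open Pool.Agent.H906R3.YM Pool.Agent.W793.YM Pool.Agent.TH618.YM Pool.Agent.T2H01.YM

namespace Pool.Agent.T2H01.EK

set_option linter.unusedSectionVars false
set_option linter.unusedVariables false

noncomputable section

variable {d l : ℕ}

/-- the four links of a plaquette -/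
def lks (p : (Fin d → ZMod l) × Fin d × Fin d) : Finset (Ed d l) :=
  {(p.1, p.2.1), (p.1 + eT p.2.1, p.2.2), (p.1 + eT p.2.2, p.2.1), (p.1, p.2.2)}

namespace Tr

lemma val_pred [NeZero l] {x : ZMod l} (hx : x ≠ 0) : (x - 1).val + 1 = x.val := by
  have h0 : 0 < x.val := Nat.pos_of_ne_zero (by rwa [Ne, ZMod.val_eq_zero])
  have h1 : x - 1 = ((x.val - 1 : ℕ) : ZMod l) := by
    rw [Nat.cast_sub h0, ZMod.natCast_zmod_val]
    simp
  rw [h1, ZMod.val_natCast_of_lt (by have := ZMod.val_lt x; omega)]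
  omega

lemma sub_self' (x : Fin d → ZMod l) (i : Fin d) : (x - eT i : Fin d → ZMod l) i = x i - 1 := by simp [eT]

lemma sub_ne (x : Fin d → ZMod l) {i j : Fin d} (h : j ≠ i) :
    (x - eT i : Fin d → ZMod l) j = x j := by
  simp [eT, h]

lemma add_self' (x : Fin d → ZMod l) (i : Fin d) : (x + eT i : Fin d → ZMod l) i = x i + 1 := by simp [eT]

lemma add_ne (x : Fin d → ZMod l) {i j : Fin d} (h : j ≠ i) :
    (x + eT i : Fin d → ZMod l) j = x j := by
  simp [eT, h]

lemma sum_pred [NeZero l] (s : Finset (Fin d)) (x : Fin d → ZMod l) {i : Fin d} (hi : i ∈ s)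
    (hx : x i ≠ 0) : ∑ j ∈ s, ((x - eT i : Fin d → ZMod l) j).val + 1 = ∑ j ∈ s, (x j).val := by
  rw [← Finset.add_sum_erase s _ hi, ← Finset.add_sum_erase s (fun j => (x j).val) hi]
  have h1 : ∑ j ∈ s.erase i, ((x - eT i : Fin d → ZMod l) j).val = ∑ j ∈ s.erase i, (x j).val :=
    Finset.sum_congr rfl fun j hj => by rw [sub_ne x (Finset.mem_erase.1 hj).1]
  have h2 := val_pred hx
  rw [h1, sub_self']
  omega

lemma sum_le [NeZero l] (s : Finset (Fin d)) (x : Fin d → ZMod l) :
    ∑ j ∈ s, (x j).val ≤ d * l := by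
  have h1 : ∑ j ∈ s, (x j).val ≤ s.card • l :=
    Finset.sum_le_card_nsmul _ _ _ fun j _ => (ZMod.val_lt _).le
  refine h1.trans ?_
  rw [smul_eq_mul]
  refine Nat.mul_le_mul_right _ ?_
  simpa using s.card_le_univ

/-- the directions in which a link can be moved back -/
def dirs (e : Ed d l) : Finset (Fin d) :=
  Finset.univ.filter fun i => e.1 i ≠ 0 ∧ (e.2 < i ∨ (e.1 e.2 + 1 = 0 ∧ i ≠ e.2))

/-- the links of the tree -/
def Tree (e : Ed d l) : Prop := e.1 e.2 + 1 ≠ 0 ∧ ∀ i, e.2 < i → e.1 i = 0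

/-- the special links -/
def Spec (e : Ed d l) : Prop := e.1 e.2 + 1 = 0 ∧ ∀ i, i ≠ e.2 → e.1 i = 0

lemma not_dirs (e : Ed d l) : ¬ (dirs e).Nonempty ↔ Tree e ∨ Spec e := by
  unfold dirs Tree Spec
  rw [Finset.not_nonempty_iff_eq_empty, Finset.filter_eq_empty_iff]
  by_cases h : e.1 e.2 + 1 = 0
  · simp only [h, Finset.mem_univ, true_and, forall_const, ne_eq, not_true_eq_false, false_and,
      false_or]
    constructor
    · intro H i hi
      by_contra hc
      exact H ⟨hc, Or.inr hi⟩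
    · rintro H i ⟨h1, h2⟩
      rcases h2 with h2 | h2
      · exact h1 (H i h2.ne')
      · exact h1 (H i h2)
  · simp only [h, Finset.mem_univ, false_and, or_false, forall_const, ne_eq, not_false_eq_true,
      true_and]
    constructor
    · intro H i hi
      by_contra hc
      exact H ⟨hc, hi⟩
    · rintro H i ⟨h1, h2⟩
      exact h1 (H i h2)

/-! ### the tree and the sites -/

/-- the support of a site -/
def supp (z : Fin d → ZMod l) : Finset (Fin d) := Finset.univ.filter fun i => z i ≠ 0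

lemma supp_ne {z : Fin d → ZMod l} (h : ¬ z = 0) : (supp z).Nonempty := by
  by_contra hc
  rw [Finset.not_nonempty_iff_eq_empty, supp, Finset.filter_eq_empty_iff] at hc
  apply h
  funext i
  have := hc (Finset.mem_univ i)
  simpa using this

/-- the largest index in the support -/
def top (z : Fin d → ZMod l) (h : ¬ z = 0) : Fin d := (supp z).max' (supp_ne h)

lemma top_ne (z : Fin d → ZMod l) (h : ¬ z = 0) : z (top z h) ≠ 0 :=
  (Finset.mem_filter.1 ((supp z).max'_mem (supp_ne h))).2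

lemma top_gt (z : Fin d → ZMod l) (h : ¬ z = 0) {i : Fin d} (hi : top z h < i) : z i = 0 := by
  by_contra hc
  have h1 : i ≤ top z h := (supp z).le_max' i (Finset.mem_filter.2 ⟨Finset.mem_univ _, hc⟩)
  exact absurd hi (not_lt.2 h1)

lemma top_eq (z : Fin d → ZMod l) (h : ¬ z = 0) {k : Fin d} (h1 : z k ≠ 0)
    (h2 : ∀ i, k < i → z i = 0) : top z h = k := by
  rcases lt_trichotomy (top z h) k with h3 | h3 | h3
  · exact absurd (top_gt z h h3) h1
  · exact h3
  · exact absurd (h2 _ h3) (top_ne z h)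

lemma tree_ne {e : Ed d l} (h : Tree e) : ¬ e.1 + eT e.2 = 0 := by
  intro h1
  have h2 := congrFun h1 e.2
  rw [add_self'] at h2
  exact h.1 h2

lemma tree_top {e : Ed d l} (h : Tree e) : top (e.1 + eT e.2) (tree_ne h) = e.2 := by
  apply top_eq
  · rw [add_self']
    exact h.1
  · intro i hi
    rw [add_ne _ hi.ne']
    exact h.2 i hi

open Classical in
lemma card_tree [NeZero l] :
    (Finset.univ.filter fun e : Ed d l => Tree e).card = l ^ d - 1 := by
  have h0 : (Finset.univ.erase (0 : Fin d → ZMod l)).card = l ^ d - 1 := by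
    rw [Finset.card_erase_of_mem (Finset.mem_univ _), Finset.card_univ]
    simp [ZMod.card]
  rw [← h0]
  refine Finset.card_bij' (fun e _ => e.1 + eT e.2)
    (fun z hz => (z - eT (top z (Finset.ne_of_mem_erase hz)), top z (Finset.ne_of_mem_erase hz)))
    ?_ ?_ ?_ ?_
  · intro e he
    exact Finset.mem_erase.2 ⟨tree_ne (Finset.mem_filter.1 he).2, Finset.mem_univ _⟩
  · intro z hz
    refine Finset.mem_filter.2 ⟨Finset.mem_univ _, ?_, ?_⟩
    · simp only
      rw [sub_self', sub_add_cancel]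
      exact top_ne _ _
    · intro i hi
      simp only at hi ⊢
      rw [sub_ne _ hi.ne']
      exact top_gt _ _ hi
  · intro e he
    have h1 := tree_top (Finset.mem_filter.1 he).2
    refine Prod.ext ?_ ?_
    · simp only
      rw [h1]
      exact add_sub_cancel_right _ _
    · exact h1
  · intro z hz
    exact sub_add_cancel _ _

open Classical in
lemma card_spec [NeZero l] : (Finset.univ.filter fun e : Ed d l => Spec e).card = d := by
  have h0 : (Finset.univ : Finset (Fin d)).card = d := by simp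
  conv_rhs => rw [← h0]
  refine Finset.card_bij' (fun e _ => e.2) (fun k _ => (-eT k, k)) ?_ ?_ ?_ ?_
  · intro e he
    exact Finset.mem_univ _
  · intro k _
    refine Finset.mem_filter.2 ⟨Finset.mem_univ _, ?_, ?_⟩
    · simp [eT]
    · intro i hi
      simp only at hi ⊢
      simp [eT, hi]
  · intro e he
    have h1 := (Finset.mem_filter.1 he).2
    refine Prod.ext ?_ rfl
    funext i
    simp only
    by_cases hi : i = e.2
    · subst hi
      have := h1.1
      rw [Pi.neg_apply]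
      simp only [eT, Pi.single_eq_same]
      exact (eq_neg_of_add_eq_zero_left this).symm
    · rw [h1.2 i hi]
      simp [eT, hi]
  · intro k _
    rfl

open Classical in
lemma card_O [NeZero l] :
    (Finset.univ.filter fun e : Ed d l => (dirs e).Nonempty).card = (d - 1) * (l ^ d - 1) := by
  have h1 := Finset.card_filter_add_card_filter_not (s := (Finset.univ : Finset (Ed d l)))
    (fun e : Ed d l => (dirs e).Nonempty)
  have h2 : (Finset.univ.filter fun e : Ed d l => ¬ (dirs e).Nonempty)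
      = (Finset.univ.filter fun e : Ed d l => Tree e) ∪
        (Finset.univ.filter fun e : Ed d l => Spec e) := by
    rw [← Finset.filter_or]
    exact Finset.filter_congr fun e _ => not_dirs e
  have h3 : Disjoint (Finset.univ.filter fun e : Ed d l => Tree e)
      (Finset.univ.filter fun e : Ed d l => Spec e) := by
    rw [Finset.disjoint_filter]
    intro e _ h4 h5
    exact h4.1 h5.1
  rw [h2, Finset.card_union_of_disjoint h3, card_tree, card_spec] at h1
  have h4 : (Finset.univ : Finset (Ed d l)).card = l ^ d * d := by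
    rw [Finset.card_univ]
    simp [ZMod.card]
  rw [h4] at h1
  set c := (Finset.univ.filter fun e : Ed d l => (dirs e).Nonempty).card
  have hl : 0 < l ^ d := pow_pos (Nat.pos_of_ne_zero (NeZero.ne l)) _
  obtain ⟨m, hm⟩ : ∃ m, l ^ d = m + 1 := ⟨l ^ d - 1, by omega⟩
  rw [hm] at h1 ⊢
  rcases Nat.eq_zero_or_pos d with hd | hd
  · rw [hd] at h1 ⊢
    simp at h1 ⊢
    omega
  · obtain ⟨n, hn⟩ : ∃ n, d = n + 1 := ⟨d - 1, by omega⟩
    rw [hn] at h1 ⊢
    simp only [Nat.add_sub_cancel] at h1 ⊢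
    nlinarith

/-! ### the plaquettes -/

/-- the plaquette of an ordinary link -/
def pdl (e : Ed d l) : (Fin d → ZMod l) × Fin d × Fin d :=
  if h : (dirs e).Nonempty then (e.1 - eT ((dirs e).max' h), (dirs e).max' h, e.2)
    else (0, e.2, e.2)

/-- the rank of an ordinary link -/
def rk (e : Ed d l) : ℕ :=
  if e.1 e.2 + 1 = 0 then d * l + 1 + ∑ j ∈ Finset.univ.erase e.2, (e.1 j).val
    else 1 + ∑ j ∈ Finset.Ioi e.2, (e.1 j).val

lemma rk_nowrap_le [NeZero l] {e : Ed d l} (h : e.1 e.2 + 1 ≠ 0) : rk e ≤ 1 + d * l := by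
  unfold rk
  rw [if_neg h]
  exact Nat.add_le_add_left (sum_le _ _) _

/-- the data of an ordinary link -/
lemma data {e : Ed d l} (h : (dirs e).Nonempty) : ∃ i, pdl e = (e.1 - eT i, i, e.2) ∧ i ≠ e.2 ∧
    e.1 i ≠ 0 ∧ (e.1 e.2 + 1 ≠ 0 → e.2 < i ∧ ∀ j, i < j → e.1 j = 0) := by
  refine ⟨(dirs e).max' h, ?_, ?_, ?_, ?_⟩
  · unfold pdl
    rw [dif_pos h]
  · have := (Finset.mem_filter.1 ((dirs e).max'_mem h)).2.2
    rcases this with h1 | h1
    · exact h1.ne'
    · exact h1.2
  · exact (Finset.mem_filter.1 ((dirs e).max'_mem h)).2.1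
  · intro h1
    have h2 := (Finset.mem_filter.1 ((dirs e).max'_mem h)).2.2
    have h3 : e.2 < (dirs e).max' h := by
      rcases h2 with h2 | h2
      · exact h2
      · exact absurd h2.1 h1
    refine ⟨h3, fun j hj => ?_⟩
    by_contra hc
    have : j ≤ (dirs e).max' h := (dirs e).le_max' j
      (Finset.mem_filter.2 ⟨Finset.mem_univ _, hc, Or.inl (h3.trans hj)⟩)
    exact absurd hj (not_lt.2 this)

lemma rank_lt [NeZero l] {e : Ed d l} (h : (dirs e).Nonempty) {e' : Ed d l}
    (he' : e' ∈ lks (pdl e)) (hne : e' ≠ e) (hO : (dirs e').Nonempty) : rk e' < rk e := by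
  obtain ⟨i, h1, h2, h3, h4⟩ := data h
  obtain ⟨x, k⟩ := e
  simp only at h1 h2 h3 h4
  rw [h1] at he'
  unfold lks at he'
  simp only [Finset.mem_insert, Finset.mem_singleton] at he'
  have hcase : e' = (x - eT i, i) ∨ e' = (x - eT i + eT k, i) ∨ e' = (x - eT i, k) := by
    rcases he' with h5 | h5 | h5 | h5
    · exact Or.inl h5
    · rw [sub_add_cancel] at h5
      exact absurd h5 hne
    · exact Or.inr (Or.inl h5)
    · exact Or.inr (Or.inr h5)
  by_cases hw : x k + 1 = 0
  · -- the link wraps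
    have hrk : d * l + 1 ≤ ∑ j ∈ Finset.univ.erase k, (x j).val + (d * l + 1) := by omega
    have hpos : 1 ≤ ∑ j ∈ Finset.univ.erase k, (x j).val := by
      have := sum_pred (Finset.univ.erase k) x (Finset.mem_erase.2 ⟨h2, Finset.mem_univ _⟩) h3
      omega
    have hrke : rk (x, k) = d * l + 1 + ∑ j ∈ Finset.univ.erase k, (x j).val := by
      unfold rk
      rw [if_pos hw]
    rcases hcase with h5 | h5 | h5
    · have h6 : e'.1 e'.2 + 1 ≠ 0 := by
        rw [h5]
        simp only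
        rw [sub_self', sub_add_cancel]
        exact h3
      have := rk_nowrap_le h6
      omega
    · have h6 : e'.1 e'.2 + 1 ≠ 0 := by
        rw [h5]
        simp only
        rw [add_ne _ h2, sub_self', sub_add_cancel]
        exact h3
      have := rk_nowrap_le h6
      omega
    · have h6 : rk e' = d * l + 1 + ∑ j ∈ Finset.univ.erase k,
          ((x - eT i : Fin d → ZMod l) j).val := by
        rw [h5]
        unfold rk
        rw [if_pos]
        simp only
        rw [sub_ne _ (Ne.symm h2)]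
        exact hw
      have := sum_pred (Finset.univ.erase k) x (Finset.mem_erase.2 ⟨h2, Finset.mem_univ _⟩) h3
      omega
  · obtain ⟨h7, h8⟩ := h4 hw
    rcases hcase with h5 | h5 | h5
    · exfalso
      refine (not_dirs e').2 (Or.inl ?_) hO
      rw [h5]
      refine ⟨?_, ?_⟩
      · simp only
        rw [sub_self', sub_add_cancel]
        exact h3
      · intro j hj
        simp only at hj ⊢
        rw [sub_ne _ hj.ne']
        exact h8 j hj
    · exfalso
      refine (not_dirs e').2 (Or.inl ?_) hO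
      rw [h5]
      refine ⟨?_, ?_⟩
      · simp only
        rw [add_ne _ h2, sub_self', sub_add_cancel]
        exact h3
      · intro j hj
        simp only at hj ⊢
        rw [add_ne _ (h7.trans hj).ne', sub_ne _ hj.ne']
        exact h8 j hj
    · have h6 : rk e' = 1 + ∑ j ∈ Finset.Ioi k,
          ((x - eT i : Fin d → ZMod l) j).val := by
        rw [h5]
        unfold rk
        rw [if_neg]
        simp only
        rw [sub_ne _ (Ne.symm h2)]
        exact hw
      have h9 : rk (x, k) = 1 + ∑ j ∈ Finset.Ioi k, (x j).val := by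
        unfold rk
        rw [if_neg hw]
      have := sum_pred (Finset.Ioi k) x (Finset.mem_Ioi.2 h7) h3
      omega

/-! ### the holonomies -/

section hol

variable {G : Type*} [Group G]

/-- the holonomy of the path in the tree from the origin to a site -/
def hol [NeZero l] (U : Ed d l → G) (z : Fin d → ZMod l) : G :=
  if h : z = 0 then 1 else hol U (z - eT (top z h)) * U (z - eT (top z h), top z h)
termination_by ∑ i, (z i).val
decreasing_by
  have := sum_pred Finset.univ z (Finset.mem_univ (top z h)) (top_ne z h)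
  omega

variable [NeZero l]

lemma hol_zero (U : Ed d l → G) : hol U 0 = 1 := by
  rw [hol, dif_pos rfl]

lemma hol_tree (U : Ed d l → G) {e : Ed d l} (h : Tree e) :
    hol U (e.1 + eT e.2) = hol U e.1 * U e := by
  rw [hol, dif_neg (tree_ne h)]
  rw [tree_top h, add_sub_cancel_right]

/-- the link variable in the gauge of the tree -/
def B (U : Ed d l → G) (e : Ed d l) : G := hol U e.1 * U e * (hol U (e.1 + eT e.2))⁻¹

lemma B_tree (U : Ed d l → G) {e : Ed d l} (h : Tree e) : B U e = 1 := by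
  unfold B
  rw [hol_tree U h, mul_inv_cancel]

lemma plq_conj (U : Ed d l → G) (y : Fin d → ZMod l) (i k : Fin d) :
    hol U y * plqT U y i k * (hol U y)⁻¹
      = B U (y, i) * B U (y + eT i, k) * (B U (y + eT k, i))⁻¹ * (B U (y, k))⁻¹ := by
  unfold B plqT
  simp only
  rw [show y + eT k + eT i = y + eT i + eT k by abel]
  group

lemma hol_line (U : Ed d l → G) (k : Fin d) (a : ℕ) (ha : a < l) :
    hol U (a • eT k) = ln U k a 0 := by
  induction a with
  | zero => rw [zero_smul, hol_zero, ln_zero]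
  | succ a ih =>
    have ht : Tree ((a • (eT k : Fin d → ZMod l), k) : Ed d l) := by
      refine ⟨?_, ?_⟩
      · simp only [Pi.smul_apply, eT, Pi.single_eq_same, nsmul_eq_mul, mul_one]
        intro h
        have h1 : ((a + 1 : ℕ) : ZMod l) = 0 := by
          push_cast
          exact h
        rw [ZMod.natCast_eq_zero_iff] at h1
        exact absurd (Nat.le_of_dvd (by omega) h1) (by omega)
      · intro i hi
        simp only at hi ⊢
        simp [eT, hi.ne']
    have h1 := hol_tree U ht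
    simp only at h1
    rw [add_smul, one_smul, h1, ih (by omega), ln_succ', zero_add]

lemma B_spec (U : Ed d l → G) {e : Ed d l} (h : Spec e) : B U e = ln U e.2 l 0 := by
  obtain ⟨x, k⟩ := e
  have hl : 0 < l := Nat.pos_of_ne_zero (NeZero.ne l)
  have hx : x = (l - 1) • (eT k : Fin d → ZMod l) := by
    funext i
    by_cases hi : i = k
    · subst hi
      have h1 := h.1
      simp only at h1
      simp only [Pi.smul_apply, eT, Pi.single_eq_same, nsmul_eq_mul, mul_one]
      rw [Nat.cast_sub hl, ZMod.natCast_self, Nat.cast_one, zero_sub]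
      exact eq_neg_of_add_eq_zero_left h1
    · have h1 := h.2 i hi
      simp only at h1
      rw [h1]
      simp [eT, hi]
  have h2 : x + eT k = 0 := by
    funext i
    by_cases hi : i = k
    · subst hi
      rw [add_self']
      exact h.1
    · rw [add_ne _ hi]
      exact h.2 i hi
  unfold B
  simp only
  rw [h2, hol_zero, inv_one, mul_one]
  have h3 := ln_succ' U k (l - 1) 0
  rw [zero_add, ← hx, Nat.sub_add_cancel hl] at h3
  rw [h3, ← hol_line U k (l - 1) (by omega), ← hx]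

end hol

/-! ### lengths -/

section len

variable {G : Type} [Group G]

/-- a conjugation invariant length -/
structure Len (D : G → ℝ) : Prop where
  one : D 1 = 0
  mul : ∀ g h, D (g * h) ≤ D g + D h
  inv : ∀ g, D g⁻¹ = D g
  conj : ∀ g h, D (h * g * h⁻¹) = D g

variable {D : G → ℝ}

lemma Len.nonneg (hD : Len D) (g : G) : 0 ≤ D g := by
  have := hD.mul g g⁻¹
  rw [mul_inv_cancel, hD.one, hD.inv] at this
  linarith

lemma Len.step (hD : Len D) (a b c e : G) :
    D (b * e⁻¹) ≤ D a + D (a * b * c⁻¹ * e⁻¹) + D c := by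
  have e1 : b * e⁻¹ = a⁻¹ * (a * b * c⁻¹ * e⁻¹) * (e * c * e⁻¹) := by group
  rw [e1]
  refine (hD.mul _ _).trans ?_
  rw [hD.conj]
  have h := hD.mul a⁻¹ (a * b * c⁻¹ * e⁻¹)
  rw [hD.inv a] at h
  linarith

/-- the commutator of perturbed elements -/
lemma Len.comm (hD : Len D) {a b c e p q : G} {δ : ℝ} (ha : D (a * p⁻¹) ≤ δ)
    (hb : D (b * q⁻¹) ≤ δ) (hc : D (c * p⁻¹) ≤ δ) (he : D (e * q⁻¹) ≤ δ) :
    D (a * b * c⁻¹ * e⁻¹) ≤ 4 * δ + D (p * q * p⁻¹ * q⁻¹) := by
  have e1 : a * b * c⁻¹ * e⁻¹ = (a * p⁻¹) * (p * (b * q⁻¹) * p⁻¹) * (p * q * p⁻¹ * q⁻¹)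
      * (q * (p * c⁻¹) * q⁻¹) * (q * e⁻¹) := by group
  have h1 : D (p * c⁻¹) ≤ δ := by
    rw [← hD.inv]
    simpa using hc
  have h2 : D (q * e⁻¹) ≤ δ := by
    rw [← hD.inv]
    simpa using he
  rw [e1]
  have m1 := hD.mul ((a * p⁻¹) * (p * (b * q⁻¹) * p⁻¹) * (p * q * p⁻¹ * q⁻¹)
      * (q * (p * c⁻¹) * q⁻¹)) (q * e⁻¹)
  have m2 := hD.mul ((a * p⁻¹) * (p * (b * q⁻¹) * p⁻¹) * (p * q * p⁻¹ * q⁻¹))
    (q * (p * c⁻¹) * q⁻¹)
  have m3 := hD.mul ((a * p⁻¹) * (p * (b * q⁻¹) * p⁻¹)) (p * q * p⁻¹ * q⁻¹)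
  have m4 := hD.mul (a * p⁻¹) (p * (b * q⁻¹) * p⁻¹)
  rw [hD.conj] at m2 m4
  linarith

variable [NeZero l] {U : Ed d l → G} {ρ : ℝ}

lemma move (hD : Len D) (hρ : ∀ e : Ed d l, (dirs e).Nonempty →
    D (plqT U (pdl e).1 (pdl e).2.1 (pdl e).2.2) ≤ ρ) {e : Ed d l} (h : (dirs e).Nonempty)
    {i : Fin d} (hi : pdl e = (e.1 - eT i, i, e.2)) :
    D (B U e * (B U (e.1 - eT i, e.2))⁻¹) ≤ D (B U (e.1 - eT i, i)) + ρ
      + D (B U (e.1 - eT i + eT e.2, i)) := by
  have h1 := hρ e h
  rw [hi] at h1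
  simp only at h1
  have h2 := plq_conj U (e.1 - eT i) i e.2
  rw [sub_add_cancel] at h2
  have h3 := hD.conj (plqT U (e.1 - eT i) i e.2) (hol U (e.1 - eT i))
  rw [h2] at h3
  have h4 := hD.step (B U (e.1 - eT i, i)) (B U e) (B U (e.1 - eT i + eT e.2, i))
    (B U (e.1 - eT i, e.2))
  have h5 : ((e.1, e.2) : Ed d l) = e := rfl
  rw [h5] at h3
  linarith

lemma tri (hD : Len D) (a b c : G) : D (a * c⁻¹) ≤ D (a * b⁻¹) + D (b * c⁻¹) := by
  have := hD.mul (a * b⁻¹) (b * c⁻¹)
  rwa [show a * b⁻¹ * (b * c⁻¹) = a * c⁻¹ by group] at this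

lemma nowrap (hD : Len D) (hρ0 : 0 ≤ ρ) (hρ : ∀ e : Ed d l, (dirs e).Nonempty →
    D (plqT U (pdl e).1 (pdl e).2.1 (pdl e).2.2) ≤ ρ) : ∀ (n : ℕ) (e : Ed d l),
    e.1 e.2 + 1 ≠ 0 → ∑ j ∈ Finset.Ioi e.2, (e.1 j).val = n → D (B U e) ≤ n * ρ := by
  intro n
  induction n with
  | zero =>
    intro e he hn
    have ht : Tree e := by
      refine ⟨he, fun i hi => ?_⟩
      have := (Finset.sum_eq_zero_iff.1 hn) i (Finset.mem_Ioi.2 hi)
      rwa [ZMod.val_eq_zero] at this
    rw [B_tree U ht, hD.one]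
    simp
  | succ n ih =>
    intro e he hn
    by_cases h : (dirs e).Nonempty
    · obtain ⟨i, h1, h2, h3, h4⟩ := data h
      obtain ⟨h7, h8⟩ := h4 he
      have h5 := move hD hρ h h1
      have t1 : Tree ((e.1 - eT i, i) : Ed d l) := by
        refine ⟨?_, ?_⟩
        · simp only
          rw [sub_self', sub_add_cancel]
          exact h3
        · intro j hj
          simp only at hj ⊢
          rw [sub_ne _ hj.ne']
          exact h8 j hj
      have t2 : Tree ((e.1 - eT i + eT e.2, i) : Ed d l) := by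
        refine ⟨?_, ?_⟩
        · simp only
          rw [add_ne _ h2, sub_self', sub_add_cancel]
          exact h3
        · intro j hj
          simp only at hj ⊢
          rw [add_ne _ (h7.trans hj).ne', sub_ne _ hj.ne']
          exact h8 j hj
      rw [B_tree U t1, B_tree U t2, hD.one] at h5
      have h9 := ih ((e.1 - eT i, e.2) : Ed d l) (by
        simp only
        rw [sub_ne _ (Ne.symm h2)]
        exact he) (by
        have := sum_pred (Finset.Ioi e.2) e.1 (Finset.mem_Ioi.2 h7) h3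
        simp only
        omega)
      have h10 := hD.mul (B U e * (B U (e.1 - eT i, e.2))⁻¹) (B U (e.1 - eT i, e.2))
      rw [inv_mul_cancel_right] at h10
      push_cast
      linarith
    · rcases (not_dirs e).1 h with h1 | h1
      · rw [B_tree U h1, hD.one]
        positivity
      · exact absurd h1.1 he

lemma nowrap' (hD : Len D) (hρ0 : 0 ≤ ρ) (hρ : ∀ e : Ed d l, (dirs e).Nonempty →
    D (plqT U (pdl e).1 (pdl e).2.1 (pdl e).2.2) ≤ ρ) (e : Ed d l)
    (h : e.1 e.2 + 1 ≠ 0) : D (B U e) ≤ (d : ℝ) * l * ρ := by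
  refine (nowrap hD hρ0 hρ _ e h rfl).trans ?_
  have h1 : ((∑ j ∈ Finset.Ioi e.2, (e.1 j).val : ℕ) : ℝ) ≤ (d : ℝ) * l := by
    exact_mod_cast sum_le (Finset.Ioi e.2) e.1
  exact mul_le_mul_of_nonneg_right h1 hρ0

lemma wrap (hD : Len D) (hρ0 : 0 ≤ ρ) (hρ : ∀ e : Ed d l, (dirs e).Nonempty →
    D (plqT U (pdl e).1 (pdl e).2.1 (pdl e).2.2) ≤ ρ) : ∀ (n : ℕ) (e : Ed d l),
    e.1 e.2 + 1 = 0 → ∑ j ∈ Finset.univ.erase e.2, (e.1 j).val = n →
      D (B U e * (ln U e.2 l 0)⁻¹) ≤ n * ((1 + 2 * ((d : ℝ) * l)) * ρ) := by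
  intro n
  induction n with
  | zero =>
    intro e he hn
    have ht : Spec e := by
      refine ⟨he, fun i hi => ?_⟩
      have := (Finset.sum_eq_zero_iff.1 hn) i (Finset.mem_erase.2 ⟨hi, Finset.mem_univ _⟩)
      rwa [ZMod.val_eq_zero] at this
    rw [B_spec U ht, mul_inv_cancel, hD.one]
    simp
  | succ n ih =>
    intro e he hn
    by_cases h : (dirs e).Nonempty
    · obtain ⟨i, h1, h2, h3, -⟩ := data h
      have h5 := move hD hρ h h1
      have t1 := nowrap' hD hρ0 hρ ((e.1 - eT i, i) : Ed d l) (by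
        simp only
        rw [sub_self', sub_add_cancel]
        exact h3)
      have t2 := nowrap' hD hρ0 hρ ((e.1 - eT i + eT e.2, i) : Ed d l) (by
        simp only
        rw [add_ne _ h2, sub_self', sub_add_cancel]
        exact h3)
      have h9 := ih ((e.1 - eT i, e.2) : Ed d l) (by
        simp only
        rw [sub_ne _ (Ne.symm h2)]
        exact he) (by
        have := sum_pred (Finset.univ.erase e.2) e.1
          (Finset.mem_erase.2 ⟨h2, Finset.mem_univ _⟩) h3
        simp only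
        omega)
      simp only at h9
      have h10 := tri hD (B U e) (B U (e.1 - eT i, e.2)) (ln U e.2 l 0)
      push_cast
      linarith
    · rcases (not_dirs e).1 h with h1 | h1
      · exact absurd he h1.1
      · rw [B_spec U h1, mul_inv_cancel, hD.one]
        positivity

lemma wrap' (hD : Len D) (hρ0 : 0 ≤ ρ) (hρ : ∀ e : Ed d l, (dirs e).Nonempty →
    D (plqT U (pdl e).1 (pdl e).2.1 (pdl e).2.2) ≤ ρ) (e : Ed d l) (h : e.1 e.2 + 1 = 0) :
    D (B U e * (ln U e.2 l 0)⁻¹) ≤ 3 * ((d : ℝ) * l) ^ 2 * ρ := by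
  refine (wrap hD hρ0 hρ _ e h rfl).trans ?_
  have h1 : ((∑ j ∈ Finset.univ.erase e.2, (e.1 j).val : ℕ) : ℝ) ≤ (d : ℝ) * l := by
    exact_mod_cast sum_le (Finset.univ.erase e.2) e.1
  have hd : 0 < d := lt_of_le_of_lt (Nat.zero_le _) e.2.2
  have hl : 0 < l := Nat.pos_of_ne_zero (NeZero.ne l)
  have h2 : (1 : ℝ) ≤ (d : ℝ) * l := by
    have : 1 ≤ d * l := Nat.mul_pos hd hl
    exact_mod_cast this
  set t := (d : ℝ) * l
  refine (mul_le_mul_of_nonneg_right h1 (by positivity)).trans ?_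
  have : t * ((1 + 2 * t) * ρ) ≤ t * ((3 * t) * ρ) := by
    refine mul_le_mul_of_nonneg_left (mul_le_mul_of_nonneg_right ?_ hρ0) (by positivity)
    linarith
  refine this.trans (le_of_eq ?_)
  ring

/-- all the plaquettes are controlled -/
lemma control (hD : Len D) (hρ0 : 0 ≤ ρ) (hρ : ∀ e : Ed d l, (dirs e).Nonempty →
    D (plqT U (pdl e).1 (pdl e).2.1 (pdl e).2.2) ≤ ρ) (x : Fin d → ZMod l) (i j : Fin d) :
    D (plqT U x i j) ≤ 12 * ((d : ℝ) * l) ^ 2 * ρ +
      D (ln U i l 0 * ln U j l 0 * (ln U i l 0)⁻¹ * (ln U j l 0)⁻¹) := by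
  have hnn := hD.nonneg
  by_cases hij : i = j
  · subst hij
    have h1 : plqT U x i i = 1 := by
      unfold plqT
      group
    rw [h1, hD.one]
    have := hnn (ln U i l 0 * ln U i l 0 * (ln U i l 0)⁻¹ * (ln U i l 0)⁻¹)
    positivity
  have hd : 0 < d := lt_of_le_of_lt (Nat.zero_le _) i.2
  have hl : 0 < l := Nat.pos_of_ne_zero (NeZero.ne l)
  have ht : (1 : ℝ) ≤ (d : ℝ) * l := by
    have : 1 ≤ d * l := Nat.mul_pos hd hl
    exact_mod_cast this
  set δ : ℝ := 3 * ((d : ℝ) * l) ^ 2 * ρ with hδ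
  have hδ1 : (d : ℝ) * l * ρ ≤ δ := by
    rw [hδ]
    refine mul_le_mul_of_nonneg_right ?_ hρ0
    nlinarith
  -- the nearest element
  have key : ∀ (k : Fin d) (w : Prop), ∃ W : G, (W = 1 ∨ W = ln U k l 0) ∧
      ∀ y : Fin d → ZMod l, (y k + 1 = 0 ↔ w) → D (B U (y, k) * W⁻¹) ≤ δ := by
    intro k w
    by_cases hw : w
    · refine ⟨ln U k l 0, Or.inr rfl, fun y hy => wrap' hD hρ0 hρ (y, k) (hy.2 hw)⟩
    · refine ⟨1, Or.inl rfl, fun y hy => ?_⟩
      rw [inv_one, mul_one]
      exact (nowrap' hD hρ0 hρ (y, k) fun h => hw (hy.1 h)).trans hδ1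
  obtain ⟨P, hP, hPd⟩ := key i (x i + 1 = 0)
  obtain ⟨Q, hQ, hQd⟩ := key j (x j + 1 = 0)
  have a1 := hPd x Iff.rfl
  have a2 := hQd (x + eT i) (by rw [add_ne _ (Ne.symm hij)])
  have a3 := hPd (x + eT j) (by rw [add_ne _ hij])
  have a4 := hQd x Iff.rfl
  have h1 := hD.comm a1 a2 a3 a4
  rw [← plq_conj, hD.conj] at h1
  refine h1.trans ?_
  have h2 : D (P * Q * P⁻¹ * Q⁻¹) ≤ D (ln U i l 0 * ln U j l 0 * (ln U i l 0)⁻¹ *
      (ln U j l 0)⁻¹) := by
    rcases hP with rfl | rfl
    · rw [show (1 : G) * Q * 1⁻¹ * Q⁻¹ = 1 by group, hD.one]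
      exact hnn _
    · rcases hQ with rfl | rfl
      · rw [show ln U i l 0 * 1 * (ln U i l 0)⁻¹ * (1 : G)⁻¹ = 1 by group, hD.one]
        exact hnn _
      · exact le_rfl
  have h3 : 4 * δ = 12 * ((d : ℝ) * l) ^ 2 * ρ := by
    rw [hδ]
    ring
  linarith

end len

end Tr

/-- The `(d - 1) (l ^ d - 1)` ordinary links of the torus, the plaquette and the rank of an ordinary
link. -/
theorem tree (d l : ℕ) [NeZero l] : ∃ (O : Finset (Ed d l))
    (pd : Ed d l → (Fin d → ZMod l) × Fin d × Fin d) (rk : Ed d l → ℕ),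
    O.card = (d - 1) * (l ^ d - 1) ∧
    (∀ e ∈ O, (pd e).2.1 ≠ (pd e).2.2 ∧ e ∈ lks (pd e) ∧ 1 ≤ rk e ∧
      ∀ e' ∈ lks (pd e), e' ≠ e → e' ∈ O → rk e' < rk e) ∧
    (∀ (k : Fin d) (a : ℕ), ((a • (eT k : Fin d → ZMod l), k) : Ed d l) ∉ O) ∧
    ∀ (G : Type) [Group G] (D : G → ℝ), D 1 = 0 → (∀ g h, D (g * h) ≤ D g + D h) →
      (∀ g, D g⁻¹ = D g) → (∀ g h, D (h * g * h⁻¹) = D g) →
      ∀ (U : Ed d l → G) (ρ : ℝ), 0 ≤ ρ →
      (∀ e ∈ O, D (plqT U (pd e).1 (pd e).2.1 (pd e).2.2) ≤ ρ) →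
      ∀ x i j, D (plqT U x i j) ≤ 12 * ((d : ℝ) * l) ^ 2 * ρ +
        D (ln U i l 0 * ln U j l 0 * (ln U i l 0)⁻¹ * (ln U j l 0)⁻¹) := by
  classical
  refine ⟨Finset.univ.filter fun e : Ed d l => (Tr.dirs e).Nonempty, Tr.pdl, Tr.rk, Tr.card_O,
    ?_, ?_, ?_⟩
  · intro e he
    have h := (Finset.mem_filter.1 he).2
    obtain ⟨i, h1, h2, h3, h4⟩ := Tr.data h
    refine ⟨?_, ?_, ?_, ?_⟩
    · rw [h1]
      exact h2
    · rw [h1]
      unfold lks
      simp only [Finset.mem_insert, Finset.mem_singleton, sub_add_cancel]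
      exact Or.inr (Or.inl trivial)
    · unfold Tr.rk
      split_ifs <;> omega
    · intro e' h5 h6 h7
      exact Tr.rank_lt h h5 h6 (Finset.mem_filter.1 h7).2
  · intro k a h
    have h1 := (Finset.mem_filter.1 h).2
    refine (Tr.not_dirs _).2 ?_ h1
    have h2 : ∀ i, i ≠ k → (a • (eT k : Fin d → ZMod l)) i = 0 := by
      intro i hi
      simp [eT, hi]
    by_cases h3 : (a • (eT k : Fin d → ZMod l)) k + 1 = 0
    · exact Or.inr ⟨h3, h2⟩
    · exact Or.inl ⟨h3, fun i hi => h2 i hi.ne'⟩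
  · intro G _ D d1 d2 d3 d4 U ρ hρ0 hρ x i j
    exact Tr.control ⟨d1, d2, d3, d4⟩ hρ0
      (fun e he => hρ e (Finset.mem_filter.2 ⟨Finset.mem_univ _, he⟩)) x i j

end

end Pool.Agent.T2H01.EK
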