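import Mathlib
import Pool.Agent.T2H01.EK.Tree

/-!
# Integrating the links one after the other
-/

open MeasureTheory Matrix Filter
open scoped Matrix.Norms.Frobenius Topology
open Pool.Agent.H906R3.YM Pool.Agent.W793.YM Pool.Agent.TH618.YM Pool.Agent.T2H01.YM

namespace Pool.Agent.T2H01.EK

set_option linter.unusedSectionVars false
set_option linter.unusedVariables false

noncomputable section

variable {G : Type*} [Group G] [TopologicalSpace G] [IsTopologicalGroup G] [CompactSpace G]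
  [SecondCountableTopology G] [MeasurableSpace G] [BorelSpace G] (μ : Measure G)
  [IsProbabilityMeasure μ] [μ.IsMulLeftInvariant] [μ.IsMulRightInvariant] [μ.IsInvInvariant]
  {N n d l : ℕ} [NeZero l] {L : LD G N n}

lemma intE {F : (Ed d l → G) → ℝ} (hF : Continuous F) : Integrable F (ME μ (Ed d l)) :=
  hF.integrable_of_hasCompactSupport (HasCompactSupport.of_compactSpace _)

/-- successive integration, upper bound -/
lemma seq_le {ι : Type*} [DecidableEq ι] (s : Finset ι) (e : ι → Ed d l) (rk : ι → ℕ)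
    (f : ι → (Ed d l → G) → ℝ) (F : (Ed d l → G) → ℝ) (c : ι → ℝ)
    (hf : ∀ i, Continuous (f i)) (hf0 : ∀ i U, 0 ≤ f i U) (hF : Continuous F)
    (hF0 : ∀ U, 0 ≤ F U) (hint : ∀ i ∈ s, ∀ U, ∫ g, f i (LN.sh (e i) g U) ∂μ ≤ c i)
    (hind : ∀ i ∈ s, ∀ j ∈ s, j ≠ i → rk j ≤ rk i → ∀ g U, f j (LN.sh (e i) g U) = f j U)
    (hFi : ∀ i ∈ s, ∀ g U, F (LN.sh (e i) g U) = F U) :
    ∫ U, (∏ i ∈ s, f i U) * F U ∂ME μ (Ed d l) ≤ (∏ i ∈ s, c i) * ∫ U, F U ∂ME μ (Ed d l) := by
  induction h : s.card generalizing s with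
  | zero =>
    rw [Finset.card_eq_zero] at h
    subst h
    simp
  | succ m ih =>
    have hne : s.Nonempty := by
      rw [← Finset.card_pos]; omega
    obtain ⟨i, hi, hmax⟩ := Finset.exists_max_image s rk hne
    have hc : 0 ≤ c i := by
      refine le_trans ?_ (hint i hi (fun _ => 1))
      exact integral_nonneg fun g => hf0 i _
    have hs : insert i (s.erase i) = s := Finset.insert_erase hi
    have hni : i ∉ s.erase i := Finset.notMem_erase i s
    have hpc : Continuous fun U => ∏ j ∈ s.erase i, f j U :=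
      continuous_finsetProd _ fun j _ => hf j
    have hp0 : ∀ U, 0 ≤ ∏ j ∈ s.erase i, f j U := fun U => Finset.prod_nonneg fun j _ => hf0 j U
    have e1 : ∀ U, (∏ j ∈ s, f j U) * F U = f i U * ((∏ j ∈ s.erase i, f j U) * F U) := by
      intro U
      rw [← hs, Finset.prod_insert hni, Finset.erase_insert hni, mul_assoc]
    have e2 : ∫ U, (∏ j ∈ s, f j U) * F U ∂ME μ (Ed d l) ≤
        c i * ∫ U, (∏ j ∈ s.erase i, f j U) * F U ∂ME μ (Ed d l) := by
      simp only [e1]
      rw [LN.avg μ (e i) (F := fun U => f i U * ((∏ j ∈ s.erase i, f j U) * F U))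
        ((hf i).mul (hpc.mul hF)), ← integral_const_mul]
      refine integral_mono_of_nonneg (Eventually.of_forall fun U => ?_)
        ((intE μ (hpc.mul hF)).const_mul _) (Eventually.of_forall fun U => ?_)
      · exact integral_nonneg fun g => mul_nonneg (hf0 i _) (mul_nonneg (hp0 _) (hF0 _))
      · have e3 : ∀ g, f i (LN.sh (e i) g U) * ((∏ j ∈ s.erase i, f j (LN.sh (e i) g U)) *
            F (LN.sh (e i) g U)) = f i (LN.sh (e i) g U) *
              ((∏ j ∈ s.erase i, f j U) * F U) := by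
          intro g
          rw [hFi i hi, Finset.prod_congr rfl fun j hj => hind i hi j (Finset.mem_of_mem_erase hj)
            (Finset.ne_of_mem_erase hj) (hmax j (Finset.mem_of_mem_erase hj)) g U]
        simp only [e3]
        rw [integral_mul_const]
        exact mul_le_mul_of_nonneg_right (hint i hi U) (mul_nonneg (hp0 _) (hF0 _))
    have e3 := ih (s.erase i) (fun j hj => hint j (Finset.mem_of_mem_erase hj))
      (fun j hj k hk => hind j (Finset.mem_of_mem_erase hj) k (Finset.mem_of_mem_erase hk))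
      (fun j hj => hFi j (Finset.mem_of_mem_erase hj)) (by rw [Finset.card_erase_of_mem hi]; omega)
    have e4 : ∏ j ∈ s, c j = c i * ∏ j ∈ s.erase i, c j := by
      rw [← hs, Finset.prod_insert hni, Finset.erase_insert hni]
    rw [e4, mul_assoc]
    exact e2.trans (mul_le_mul_of_nonneg_left e3 hc)

/-- successive integration, lower bound -/
lemma seq_ge {ι : Type*} [DecidableEq ι] (s : Finset ι) (e : ι → Ed d l) (rk : ι → ℕ)
    (f : ι → (Ed d l → G) → ℝ) (F : (Ed d l → G) → ℝ) (c : ι → ℝ)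
    (hf : ∀ i, Continuous (f i)) (hf0 : ∀ i U, 0 ≤ f i U) (hF : Continuous F)
    (hF0 : ∀ U, 0 ≤ F U) (hc : ∀ i ∈ s, 0 ≤ c i)
    (hint : ∀ i ∈ s, ∀ U, c i ≤ ∫ g, f i (LN.sh (e i) g U) ∂μ)
    (hind : ∀ i ∈ s, ∀ j ∈ s, j ≠ i → rk j ≤ rk i → ∀ g U, f j (LN.sh (e i) g U) = f j U)
    (hFi : ∀ i ∈ s, ∀ g U, F (LN.sh (e i) g U) = F U) :
    (∏ i ∈ s, c i) * ∫ U, F U ∂ME μ (Ed d l) ≤ ∫ U, (∏ i ∈ s, f i U) * F U ∂ME μ (Ed d l) := by
  induction h : s.card generalizing s with
  | zero =>
    rw [Finset.card_eq_zero] at h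
    subst h
    simp
  | succ m ih =>
    have hne : s.Nonempty := by
      rw [← Finset.card_pos]; omega
    obtain ⟨i, hi, hmax⟩ := Finset.exists_max_image s rk hne
    have hs : insert i (s.erase i) = s := Finset.insert_erase hi
    have hni : i ∉ s.erase i := Finset.notMem_erase i s
    have hpc : Continuous fun U => ∏ j ∈ s.erase i, f j U :=
      continuous_finsetProd _ fun j _ => hf j
    have hp0 : ∀ U, 0 ≤ ∏ j ∈ s.erase i, f j U := fun U => Finset.prod_nonneg fun j _ => hf0 j U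
    have e1 : ∀ U, (∏ j ∈ s, f j U) * F U = f i U * ((∏ j ∈ s.erase i, f j U) * F U) := by
      intro U
      rw [← hs, Finset.prod_insert hni, Finset.erase_insert hni, mul_assoc]
    have e2 : c i * ∫ U, (∏ j ∈ s.erase i, f j U) * F U ∂ME μ (Ed d l) ≤
        ∫ U, (∏ j ∈ s, f j U) * F U ∂ME μ (Ed d l) := by
      simp only [e1]
      rw [LN.avg μ (e i) (F := fun U => f i U * ((∏ j ∈ s.erase i, f j U) * F U))
        ((hf i).mul (hpc.mul hF)), ← integral_const_mul]
      refine integral_mono_of_nonneg (Eventually.of_forall fun U => ?_) ?_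
        (Eventually.of_forall fun U => ?_)
      · exact mul_nonneg (hc i hi) (mul_nonneg (hp0 _) (hF0 _))
      · refine intE μ ?_
        have h2 : Continuous (Function.uncurry fun (U : Ed d l → G) (g : G) =>
            f i (LN.sh (e i) g U) * ((∏ j ∈ s.erase i, f j (LN.sh (e i) g U)) *
            F (LN.sh (e i) g U))) := by
          have hsh : Continuous fun p : (Ed d l → G) × G => LN.sh (e i) p.2 p.1 := by
            unfold LN.sh
            refine Continuous.mul ?_ continuous_fst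
            exact (continuous_mulSingle (e i)).comp continuous_snd
          exact ((hf i).mul (hpc.mul hF)).comp hsh
        have h3 := continuous_parametric_integral_of_continuous (μ := μ) h2 isCompact_univ
        simpa only [Measure.restrict_univ] using h3
      · have e3 : ∀ g, f i (LN.sh (e i) g U) * ((∏ j ∈ s.erase i, f j (LN.sh (e i) g U)) *
            F (LN.sh (e i) g U)) = f i (LN.sh (e i) g U) *
              ((∏ j ∈ s.erase i, f j U) * F U) := by
          intro g
          rw [hFi i hi, Finset.prod_congr rfl fun j hj => hind i hi j (Finset.mem_of_mem_erase hj)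
            (Finset.ne_of_mem_erase hj) (hmax j (Finset.mem_of_mem_erase hj)) g U]
        simp only [e3]
        rw [integral_mul_const]
        exact mul_le_mul_of_nonneg_right (hint i hi U) (mul_nonneg (hp0 _) (hF0 _))
    have e3 := ih (s.erase i) (fun j hj => hc j (Finset.mem_of_mem_erase hj))
      (fun j hj => hint j (Finset.mem_of_mem_erase hj))
      (fun j hj k hk => hind j (Finset.mem_of_mem_erase hj) k (Finset.mem_of_mem_erase hk))
      (fun j hj => hFi j (Finset.mem_of_mem_erase hj)) (by rw [Finset.card_erase_of_mem hi]; omega)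
    have e4 : ∏ j ∈ s, c j = c i * ∏ j ∈ s.erase i, c j := by
      rw [← hs, Finset.prod_insert hni, Finset.erase_insert hni]
    rw [e4, mul_assoc]
    exact (mul_le_mul_of_nonneg_left e3 (hc i hi)).trans e2

/-! ### the links of a plaquette -/

lemma plq_sh_not {p : (Fin d → ZMod l) × Fin d × Fin d} {e : Ed d l} (he : e ∉ lks p) (g : G)
    (U : Ed d l → G) : plqT (LN.sh e g U) p.1 p.2.1 p.2.2 = plqT U p.1 p.2.1 p.2.2 := by
  unfold lks at he
  simp only [Finset.mem_insert, Finset.mem_singleton, not_or] at he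
  obtain ⟨h1, h2, h3, h4⟩ := he
  unfold plqT
  rw [LN.sh_ne (Ne.symm h1), LN.sh_ne (Ne.symm h2), LN.sh_ne (Ne.symm h3), LN.sh_ne (Ne.symm h4)]

lemma int_lr (φ : G → ℝ) (a b : G) : ∫ g, φ (a * g * b) ∂μ = ∫ g, φ g ∂μ := by
  have h1 := integral_mul_left_eq_self (μ := μ) (fun g => φ (g * b)) a
  have h2 := integral_mul_right_eq_self (μ := μ) φ b
  exact h1.trans h2

lemma int_lir (φ : G → ℝ) (a b : G) : ∫ g, φ (a * g⁻¹ * b) ∂μ = ∫ g, φ g ∂μ := by
  have h1 := integral_inv_eq_self (fun g => φ (a * g * b)) μ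
  exact h1.trans (int_lr μ φ a b)

/-- the integral over one link of a plaquette -/
lemma plq_int (hl : 2 ≤ l) {p : (Fin d → ZMod l) × Fin d × Fin d} (hp : p.2.1 ≠ p.2.2)
    {e : Ed d l} (he : e ∈ lks p) (φ : G → ℝ) (U : Ed d l → G) :
    ∫ g, φ (plqT (LN.sh e g U) p.1 p.2.1 p.2.2) ∂μ = ∫ g, φ g ∂μ := by
  obtain ⟨x, i, j⟩ := p
  simp only at hp ⊢
  unfold lks at he
  simp only [Finset.mem_insert, Finset.mem_singleton] at he
  have n1 : ∀ {a b : Fin d → ZMod l}, ((a, i) : Ed d l) ≠ (b, j) := fun h => hp (Prod.ext_iff.1 h).2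
  have n2 : ∀ {a b : Fin d → ZMod l}, ((a, j) : Ed d l) ≠ (b, i) := fun h =>
    hp (Prod.ext_iff.1 h).2.symm
  have n3 : ∀ k m : Fin d, ((x + eT k, m) : Ed d l) ≠ (x, m) := fun k m h =>
    LN.eT_ne hl x k (Prod.ext_iff.1 h).1
  unfold plqT
  rcases he with rfl | rfl | rfl | rfl
  · have h1 : ∀ g : G, LN.sh (x, i) g U (x, i) * LN.sh (x, i) g U (x + eT i, j) *
        (LN.sh (x, i) g U (x + eT j, i))⁻¹ * (LN.sh (x, i) g U (x, j))⁻¹ =
        1 * g * (U (x, i) * U (x + eT i, j) * (U (x + eT j, i))⁻¹ * (U (x, j))⁻¹) := by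
      intro g
      rw [LN.sh_same, LN.sh_ne n2, LN.sh_ne (n3 j i), LN.sh_ne n2]
      group
    simp only [h1]
    exact int_lr μ φ _ _
  · have h1 : ∀ g : G, LN.sh (x + eT i, j) g U (x, i) * LN.sh (x + eT i, j) g U (x + eT i, j) *
        (LN.sh (x + eT i, j) g U (x + eT j, i))⁻¹ * (LN.sh (x + eT i, j) g U (x, j))⁻¹ =
        U (x, i) * g * (U (x + eT i, j) * (U (x + eT j, i))⁻¹ * (U (x, j))⁻¹) := by
      intro g
      rw [LN.sh_same, LN.sh_ne n1, LN.sh_ne n1, LN.sh_ne (n3 i j).symm]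
      group
    simp only [h1]
    exact int_lr μ φ _ _
  · have h1 : ∀ g : G, LN.sh (x + eT j, i) g U (x, i) * LN.sh (x + eT j, i) g U (x + eT i, j) *
        (LN.sh (x + eT j, i) g U (x + eT j, i))⁻¹ * (LN.sh (x + eT j, i) g U (x, j))⁻¹ =
        (U (x, i) * U (x + eT i, j) * (U (x + eT j, i))⁻¹) * g⁻¹ * (U (x, j))⁻¹ := by
      intro g
      rw [LN.sh_same, LN.sh_ne (n3 j i).symm, LN.sh_ne n2, LN.sh_ne n2]
      group
    simp only [h1]
    exact int_lir μ φ _ _
  · have h1 : ∀ g : G, LN.sh (x, j) g U (x, i) * LN.sh (x, j) g U (x + eT i, j) *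
        (LN.sh (x, j) g U (x + eT j, i))⁻¹ * (LN.sh (x, j) g U (x, j))⁻¹ =
        (U (x, i) * U (x + eT i, j) * (U (x + eT j, i))⁻¹ * (U (x, j))⁻¹) * g⁻¹ * 1 := by
      intro g
      rw [LN.sh_same, LN.sh_ne n1, LN.sh_ne (n3 i j), LN.sh_ne n1]
      group
    simp only [h1]
    exact int_lir μ φ _ _

/-! ### the lines around the torus -/

variable (U : Ed d l → G) in
lemma ln_sh_not {e : Ed d l} {k : Fin d} (he : ∀ a : ℕ, e ≠ ((a • (eT k : Fin d → ZMod l), k) : Ed d l))
    (g : G) (m a : ℕ) : ln (LN.sh e g U) k m (a • (eT k : Fin d → ZMod l)) =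
      ln U k m (a • (eT k : Fin d → ZMod l)) := by
  induction m generalizing a with
  | zero => rfl
  | succ m ih =>
    show LN.sh e g U (a • eT k, k) * ln (LN.sh e g U) k m (a • eT k + eT k) =
      U (a • eT k, k) * ln U k m (a • eT k + eT k)
    have h1 : (a • eT k + eT k : Fin d → ZMod l) = (a + 1) • eT k := by
      rw [add_smul, one_smul]
    rw [h1, ih, LN.sh_ne (he a).symm]

/-- the holonomy of the line around the torus -/
def pol (U : Ed d l → G) (k : Fin d) : G := ln U k l 0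

lemma pol_sh_not {e : Ed d l} {k : Fin d}
    (he : ∀ a : ℕ, e ≠ ((a • (eT k : Fin d → ZMod l), k) : Ed d l)) (g : G) (U : Ed d l → G) :
    pol (LN.sh e g U) k = pol U k := by
  have := ln_sh_not U he g l 0
  rwa [zero_smul] at this

lemma ln_sh_rest (U : Ed d l → G) (k : Fin d) (g : G) (m a : ℕ) (ha : 1 ≤ a) (hm : a + m ≤ l) :
    ln (LN.sh ((0, k) : Ed d l) g U) k m (a • (eT k : Fin d → ZMod l)) =
      ln U k m (a • (eT k : Fin d → ZMod l)) := by
  induction m generalizing a with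
  | zero => rfl
  | succ m ih =>
    show LN.sh ((0, k) : Ed d l) g U (a • eT k, k) *
      ln (LN.sh ((0, k) : Ed d l) g U) k m (a • eT k + eT k) =
      U (a • eT k, k) * ln U k m (a • eT k + eT k)
    have h1 : (a • eT k + eT k : Fin d → ZMod l) = (a + 1) • eT k := by
      rw [add_smul, one_smul]
    have h2 : ((a • (eT k : Fin d → ZMod l), k) : Ed d l) ≠ ((0, k) : Ed d l) := by
      intro h
      have h3 := congrFun (Prod.ext_iff.1 h).1 k
      simp only [Pi.zero_apply] at h3
      rw [LN.nsmul_eT_apply, if_pos rfl, ZMod.natCast_eq_zero_iff] at h3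
      have := Nat.le_of_dvd (by omega) h3
      omega
    rw [h1, ih (a + 1) (by omega) (by omega), LN.sh_ne h2]

lemma pol_sh (U : Ed d l → G) (k : Fin d) (g : G) :
    pol (LN.sh ((0, k) : Ed d l) g U) k = g * pol U k := by
  have hl : l ≠ 0 := NeZero.ne l
  obtain ⟨m, rfl⟩ : ∃ m, l = m + 1 := ⟨l - 1, by omega⟩
  unfold pol
  show LN.sh ((0, k) : Ed d (m + 1)) g U (0, k) *
    ln (LN.sh ((0, k) : Ed d (m + 1)) g U) k m (0 + eT k) = g * (U (0, k) * ln U k m (0 + eT k))
  have h1 : (0 + eT k : Fin d → ZMod (m + 1)) = 1 • eT k := by simp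
  rw [h1, ln_sh_rest U k g m 1 le_rfl (by omega), LN.sh_same, mul_assoc]

lemma pol_sh_other (U : Ed d l → G) {k j : Fin d} (h : j ≠ k) (g : G) :
    pol (LN.sh ((0, k) : Ed d l) g U) j = pol U j :=
  pol_sh_not (fun a ha => h (Prod.ext_iff.1 ha).2.symm) g U

lemma pol_int (U : Ed d l → G) (k : Fin d) (φ : G → ℝ) :
    ∫ g, φ (pol (LN.sh ((0, k) : Ed d l) g U) k) ∂μ = ∫ g, φ g ∂μ := by
  simp only [pol_sh]
  exact integral_mul_right_eq_self (μ := μ) φ _

lemma ln_contT (k : Fin d) (m : ℕ) (x : Fin d → ZMod l) :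
    Continuous fun U : Ed d l → G => ln U k m x := LN.ln_cont k m x

lemma pol_cont (k : Fin d) : Continuous fun U : Ed d l → G => pol U k := ln_contT k l 0

end

end Pool.Agent.T2H01.EK
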