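import Mathlib
import Pool.Agent.T2H01.EK.Seq
import Pool.Agent.T2H01.EK.Ode2

/-!
# Weak coupling: lower bounds of the action
-/

open MeasureTheory Matrix Filter
open scoped Matrix.Norms.Frobenius Topology
open Pool.Agent.H906R3.YM Pool.Agent.W793.YM Pool.Agent.TH618.YM Pool.Agent.T2H01.YM

namespace Pool.Agent.T2H01.EK

set_option linter.unusedSectionVars false
set_option linter.unusedVariables false

noncomputable section

variable {G : Type*} [Group G] [TopologicalSpace G] [IsTopologicalGroup G] [CompactSpace G]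
  [SecondCountableTopology G] [MeasurableSpace G] [BorelSpace G] {N n d l : ℕ} [NeZero l]
  {L : LD G N n}

/-- the normal form of a plaquette -/
def nrm (p : (Fin d → ZMod l) × Fin d × Fin d) : (Fin d → ZMod l) × Fin d × Fin d :=
  if p.2.1 < p.2.2 then p else (p.1, p.2.2, p.2.1)

lemma we_swap (U : Ed d l → G) (x : Fin d → ZMod l) (i j : Fin d) :
    we L (plqT U x j i) = we L (plqT U x i j) := by
  rw [plqT_swap, we_inv]

/-- distinct plaquettes -/
lemma sum_plq_le {ι : Type*} [DecidableEq ι] (s : Finset ι)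
    (p : ι → (Fin d → ZMod l) × Fin d × Fin d) (hne : ∀ a ∈ s, (p a).2.1 ≠ (p a).2.2)
    (hinj : ∀ a ∈ s, ∀ c ∈ s, nrm (p a) = nrm (p c) → a = c) (U : Ed d l → G) :
    ∑ a ∈ s, we L (plqT U (p a).1 (p a).2.1 (p a).2.2) ≤ act L U := by
  obtain ⟨W, hW⟩ : ∃ W : (Fin d → ZMod l) × Fin d × Fin d → ℝ, W = fun q =>
    if q.2.1 < q.2.2 then we L (plqT U q.1 q.2.1 q.2.2) else 0 := ⟨_, rfl⟩
  have hW0 : ∀ q, 0 ≤ W q := by
    intro q
    rw [hW]
    simp only
    split_ifs
    · exact we_nonneg _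
    · exact le_rfl
  have h1 : ∀ a ∈ s, we L (plqT U (p a).1 (p a).2.1 (p a).2.2) = W (nrm (p a)) := by
    intro a ha
    rw [hW]
    unfold nrm
    by_cases h : (p a).2.1 < (p a).2.2
    · simp only [if_pos h]
    · have h2 : (p a).2.2 < (p a).2.1 := lt_of_le_of_ne (not_lt.1 h) (hne a ha).symm
      simp only [if_neg h, if_pos h2]
      rw [we_swap]
  rw [Finset.sum_congr rfl h1, ← Finset.sum_image (f := W) (g := fun a => nrm (p a))]
  · have h2 : act L U = ∑ q : (Fin d → ZMod l) × Fin d × Fin d, W q := by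
      rw [Fintype.sum_prod_type]
      unfold act
      refine Finset.sum_congr rfl fun x _ => ?_
      rw [Fintype.sum_prod_type, hW]
    rw [h2]
    exact Finset.sum_le_sum_of_subset_of_nonneg (Finset.subset_univ _) fun q _ _ => hW0 q
  · intro a ha c hc h
    exact hinj a ha c hc h

/-- the planes through one direction -/
lemma planes_le (i : Fin d) (U : Ed d l → G) :
    ∑ j ∈ Finset.univ.erase i, ∑ x, we L (plqT U x i j) ≤ act L U := by
  classical
  have h1 := sum_plq_le (L := L) ((Finset.univ.erase i) ×ˢ (Finset.univ : Finset (Fin d → ZMod l)))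
    (fun a => (a.2, i, a.1)) (fun a ha => ?_) (fun a ha c hc h => ?_) U
  · rw [Finset.sum_product] at h1
    exact h1
  · have := (Finset.mem_product.1 ha).1
    exact (Finset.ne_of_mem_erase this).symm
  · have ha' : a.1 ≠ i := Finset.ne_of_mem_erase (Finset.mem_product.1 ha).1
    have hc' : c.1 ≠ i := Finset.ne_of_mem_erase (Finset.mem_product.1 hc).1
    unfold nrm at h
    simp only at h
    split_ifs at h
    · simp only [Prod.mk.injEq, true_and] at h
      exact Prod.ext h.2 h.1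
    · simp only [Prod.mk.injEq] at h
      exact absurd h.2.1.symm hc'
    · simp only [Prod.mk.injEq] at h
      exact absurd h.2.1 ha'
    · simp only [Prod.mk.injEq, and_true] at h
      exact Prod.ext h.2 h.1

lemma lks_nrm (p : (Fin d → ZMod l) × Fin d × Fin d) : lks (nrm p) = lks p := by
  unfold nrm
  split_ifs
  · rfl
  · unfold lks
    ext e
    simp only [Finset.mem_insert, Finset.mem_singleton]
    tauto

/-- the plaquettes of the ordinary links -/
lemma ord_le {O : Finset (Ed d l)} {pd : Ed d l → (Fin d → ZMod l) × Fin d × Fin d}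
    {rk : Ed d l → ℕ} (hO : ∀ e ∈ O, (pd e).2.1 ≠ (pd e).2.2 ∧ e ∈ lks (pd e) ∧ 1 ≤ rk e ∧
      ∀ e' ∈ lks (pd e), e' ≠ e → e' ∈ O → rk e' < rk e) (U : Ed d l → G) :
    ∑ e ∈ O, we L (plqT U (pd e).1 (pd e).2.1 (pd e).2.2) ≤ act L U := by
  classical
  refine sum_plq_le O pd (fun e he => (hO e he).1) (fun e he e' he' h => ?_) U
  by_contra hne
  have h1 : lks (pd e) = lks (pd e') := by rw [← lks_nrm, h, lks_nrm]
  have h2 := (hO e he).2.2.2 e' (by rw [h1]; exact (hO e' he').2.1) (Ne.symm hne) he'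
  have h3 := (hO e' he').2.2.2 e (by rw [← h1]; exact (hO e he).2.1) hne he
  omega

/-! ### the commutator of two lines around the torus -/

section surf

variable (D : G → ℝ) (h1 : D 1 = 0) (hmul : ∀ g h, D (g * h) ≤ D g + D h)
  (hconj : ∀ g h, D (g * h * g⁻¹) = D h)

include h1 hmul hconj in
lemma D_lp1 (V : LZ d → G) (x : Fin d → ℤ) (i j : Fin d) (T : ℕ) :
    D (LN.lpZ V x i j 1 T) ≤ ∑ b ∈ Finset.range T, D (plZ V (x + Pi.single j (b : ℤ)) i j) := by
  induction T with
  | zero =>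
    rw [Finset.range_zero, Finset.sum_empty]
    have : LN.lpZ V x i j 1 0 = 1 := by
      unfold LN.lpZ
      simp [LN.lnZ]
    rw [this, h1]
  | succ T ih =>
    rw [LN.lpZ_T, Finset.sum_range_succ]
    refine (hmul _ _).trans ?_
    rw [hconj]
    exact add_le_add_left ih _

include h1 hmul hconj in
lemma D_lp (V : LZ d → G) (x : Fin d → ℤ) (i j : Fin d) (R T : ℕ) :
    D (LN.lpZ V x i j R T) ≤ ∑ a ∈ Finset.range R, ∑ b ∈ Finset.range T,
      D (plZ V (x + Pi.single i (a : ℤ) + Pi.single j (b : ℤ)) i j) := by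
  induction R with
  | zero =>
    rw [Finset.range_zero, Finset.sum_empty]
    have : LN.lpZ V x i j 0 T = 1 := by
      unfold LN.lpZ
      simp [LN.lnZ]
    rw [this, h1]
  | succ R ih =>
    rw [LN.lpZ_R, Finset.sum_range_succ]
    refine (hmul _ _).trans ?_
    rw [hconj, add_comm]
    exact add_le_add ih (D_lp1 D h1 hmul hconj V _ i j T)

end surf

lemma l_eT (i : Fin d) : (l • (eT i : Fin d → ZMod l)) = 0 := by
  funext k
  rw [LN.nsmul_eT_apply, Pi.zero_apply]
  split_ifs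
  · exact ZMod.natCast_self l
  · rfl

lemma rect_comm (U : Ed d l → G) (i j : Fin d) :
    LN.lpZ (pe U) 0 i j l l = pol U i * pol U j * (pol U i)⁻¹ * (pol U j)⁻¹ := by
  rw [LN.lpZ_pe]
  unfold rect pol
  have h0 : (cs l (0 : Fin d → ℤ) : Fin d → ZMod l) = 0 := by
    funext k; simp [Pool.Agent.T2H01.YM.cs]
  rw [h0, l_eT, l_eT, add_zero]

/-- the square of the distance of the commutator to 1 -/
lemma comm_le {i j : Fin d} (hij : i ≠ j) (U : Ed d l → G) :
    ‖1 - L.rho (pol U i * pol U j * (pol U i)⁻¹ * (pol U j)⁻¹)‖ ^ 2 ≤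
      2 * (l : ℝ) ^ 2 * ∑ x, we L (plqT U x i j) := by
  classical
  obtain ⟨D, hD⟩ : ∃ D : G → ℝ, D = fun g => ‖1 - L.rho g‖ := ⟨_, rfl⟩
  have hmul : ∀ g h, D (g * h) ≤ D g + D h := by
    intro g h
    rw [hD]
    have e1 : (1 : Mat N) - L.rho (g * h) = (1 - L.rho g) + L.rho g * (1 - L.rho h) := by
      rw [map_mul, mul_sub, mul_one]; abel
    simp only
    rw [e1]
    refine (norm_add_le _ _).trans ?_
    have : ‖L.rho g * (1 - L.rho h)‖ = ‖1 - L.rho h‖ := by
      have h2 : ‖L.rho g * (1 - L.rho h)‖ ^ 2 = ‖1 - L.rho h‖ ^ 2 := by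
        rw [norm_sq_ip, norm_sq_ip, ip_apply, ip_apply, conjTranspose_mul, mul_assoc,
          ← mul_assoc (L.rho g)ᴴ, L.unit', one_mul]
      have h3 := norm_nonneg (L.rho g * (1 - L.rho h))
      have h4 := norm_nonneg (1 - L.rho h)
      nlinarith
    rw [this]
  have hsq : ∀ g, D g ^ 2 = 2 * we L g := by
    intro g
    rw [hD]
    simp only
    rw [LN.frob_tr (L.unit' g), we_tr]
  have hD0 : ∀ g, 0 ≤ D g := by
    intro g; rw [hD]; exact norm_nonneg _
  have hconj : ∀ g h, D (g * h * g⁻¹) = D h := by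
    intro g h
    have e1 : D (g * h * g⁻¹) ^ 2 = D h ^ 2 := by rw [hsq, hsq, we_conj]
    have := hD0 (g * h * g⁻¹)
    have := hD0 h
    nlinarith
  have h1 : D 1 = 0 := by rw [hD]; simp
  have hs := D_lp D h1 hmul hconj (pe U) 0 i j l l
  rw [rect_comm] at hs
  simp only [plZ_pe] at hs
  obtain ⟨S, hS⟩ : ∃ S : ℕ × ℕ → Fin d → ZMod l, S = fun p =>
    cs l (0 + Pi.single i (p.1 : ℤ) + Pi.single j (p.2 : ℤ)) := ⟨_, rfl⟩
  have h2 : ∑ a ∈ Finset.range l, ∑ b ∈ Finset.range l,
      D (plqT U (cs l (0 + Pi.single i (a : ℤ) + Pi.single j (b : ℤ))) i j) =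
      ∑ p ∈ Finset.range l ×ˢ Finset.range l, D (plqT U (S p) i j) := by
    rw [Finset.sum_product, hS]
  rw [h2] at hs
  have h3 := sq_sum_le_card_mul_sum_sq (s := Finset.range l ×ˢ Finset.range l)
    (f := fun p => D (plqT U (S p) i j))
  have h4 : ‖1 - L.rho (pol U i * pol U j * (pol U i)⁻¹ * (pol U j)⁻¹)‖ ^ 2 ≤
      (∑ p ∈ Finset.range l ×ˢ Finset.range l, D (plqT U (S p) i j)) ^ 2 := by
    have e1 : ‖1 - L.rho (pol U i * pol U j * (pol U i)⁻¹ * (pol U j)⁻¹)‖ =
        D (pol U i * pol U j * (pol U i)⁻¹ * (pol U j)⁻¹) := by rw [hD]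
    rw [e1]
    exact pow_le_pow_left₀ (hD0 _) hs 2
  refine h4.trans (h3.trans ?_)
  have hcard : ((Finset.range l ×ˢ Finset.range l).card : ℝ) = (l : ℝ) ^ 2 := by
    rw [Finset.card_product, Finset.card_range]; push_cast; ring
  rw [hcard]
  simp only [hsq]
  rw [← Finset.mul_sum, ← mul_assoc, mul_comm ((l : ℝ) ^ 2) 2]
  refine mul_le_mul_of_nonneg_left ?_ (by positivity)
  have hinj : Set.InjOn S (Finset.range l ×ˢ Finset.range l : Finset (ℕ × ℕ)) := by
    intro p hp q hq h
    rw [Finset.mem_coe, Finset.mem_product, Finset.mem_range, Finset.mem_range] at hp hq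
    rw [hS] at h
    simp only [zero_add] at h
    have e1 := congrFun h i
    have e2 := congrFun h j
    unfold Pool.Agent.T2H01.YM.cs at e1 e2
    simp only [Pi.add_apply, Pi.single_eq_same, Pi.single_eq_of_ne hij, Pi.single_eq_of_ne hij.symm,
      add_zero, zero_add, Int.cast_natCast] at e1 e2
    have e3 := (ZMod.natCast_eq_natCast_iff _ _ _).1 e1
    have e4 := (ZMod.natCast_eq_natCast_iff _ _ _).1 e2
    have e5 := Nat.ModEq.eq_of_lt_of_lt e3 hp.1 hq.1
    have e6 := Nat.ModEq.eq_of_lt_of_lt e4 hp.2 hq.2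
    exact Prod.ext e5 e6
  rw [← Finset.sum_image (f := fun x => we L (plqT U x i j)) (g := S) hinj]
  exact Finset.sum_le_sum_of_subset_of_nonneg (Finset.subset_univ _) fun q _ _ => we_nonneg _

end

end Pool.Agent.T2H01.EK
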