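import Mathlib
import Pool.Agent.T2H01.EK.WkA

/-!
# Weak coupling: the upper bound
-/

open MeasureTheory Matrix Filter
open scoped Matrix.Norms.Frobenius Topology
open Pool.Agent.H906R3.YM Pool.Agent.W793.YM Pool.Agent.TH618.YM Pool.Agent.T2H01.YM

namespace Pool.Agent.T2H01.EK

set_option linter.unusedSectionVars false
set_option linter.unusedVariables false

noncomputable section

variable {G : Type*} [Group G] [TopologicalSpace G] [IsTopologicalGroup G] [CompactSpace G]
  [SecondCountableTopology G] [MeasurableSpace G] [BorelSpace G] (μ : Measure G)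
  [IsProbabilityMeasure μ] [μ.IsMulLeftInvariant] [μ.IsMulRightInvariant] [μ.IsInvInvariant]
  {N n d l K : ℕ} [NeZero l] {L : LD G N n}

variable (L) in
/-- the clumping of the eigenvalues of `P` -/
def cl2 (K : ℕ) (P : G) : ℝ := clp L (fun j : Fin K => P ^ (j : ℕ))

lemma cl2_cont (K : ℕ) : Continuous (cl2 L K) := by
  unfold cl2 clp
  refine continuous_const.mul (continuous_finsetSum _ fun i _ => continuous_finsetSum _ fun j _ => ?_)
  have h : ∀ k : ℕ, Continuous fun P : G => L.rho (P ^ k) := fun k =>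
    L.cont.comp (continuous_pow k)
  have h2 : Continuous fun P : G => (L.rho (P ^ (i : ℕ)))ᴴ := continuous_star.comp (h _)
  exact (((Continuous.matrix_trace (h2.mul (h _))).div_const _).norm).pow 2

lemma qp_cont2 {X : Type*} [TopologicalSpace X] {P g : X → G} (hP : Continuous P)
    (hg : Continuous g) : Continuous fun x => qp L (fun j : Fin K => P x ^ (j : ℕ)) (g x) := by
  unfold qp
  have h1 : Continuous fun x => SL L (fun j : Fin K => P x ^ (j : ℕ)) (L.rho (g x)) := by
    simp only [SL_apply]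
    have h3 : ∀ i : Fin K, Continuous fun x => L.rho (P x ^ (i : ℕ)) * L.rho (g x) *
        (L.rho (P x ^ (i : ℕ)))ᴴ := by
      intro i
      have h2 : Continuous fun x => L.rho (P x ^ (i : ℕ)) := L.cont.comp (hP.pow _)
      have h4 : Continuous fun x => (L.rho (P x ^ (i : ℕ)))ᴴ := continuous_star.comp h2
      exact (h2.mul (L.cont.comp hg)).mul h4
    have h4 : Continuous fun x => ∑ i : Fin K, L.rho (P x ^ (i : ℕ)) * L.rho (g x) *
        (L.rho (P x ^ (i : ℕ)))ᴴ := continuous_finsetSum _ fun i _ => h3 i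
    exact h4.const_smul (1 / K : ℝ)
  have h2 : (fun x => (N : ℝ) - ip (SL L (fun j : Fin K => P x ^ (j : ℕ)) (L.rho (g x)))
      (SL L (fun j : Fin K => P x ^ (j : ℕ)) (L.rho (g x)))) =
      fun x => N - ‖SL L (fun j : Fin K => P x ^ (j : ℕ)) (L.rho (g x))‖ ^ 2 := by
    funext x; rw [norm_sq_ip]
  rw [h2]
  exact continuous_const.sub (h1.norm.pow 2)

/-- the bound of the action from below -/
lemma act_lower {O : Finset (Ed d l)} {pd : Ed d l → (Fin d → ZMod l) × Fin d × Fin d}
    {rk : Ed d l → ℕ} (hO : ∀ e ∈ O, (pd e).2.1 ≠ (pd e).2.2 ∧ e ∈ lks (pd e) ∧ 1 ≤ rk e ∧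
      ∀ e' ∈ lks (pd e), e' ≠ e → e' ∈ O → rk e' < rk e) (hK : 0 < K) (i : Fin d)
    (U : Ed d l → G) :
    1 / 2 * ∑ e ∈ O, we L (plqT U (pd e).1 (pd e).2.1 (pd e).2.2) +
      1 / (8 * (l : ℝ) ^ 2 * K ^ 2) * ∑ j ∈ Finset.univ.erase i,
        qp L (fun k : Fin K => pol U i ^ (k : ℕ)) (pol U j) ≤ act L U := by
  have hl' : (0 : ℝ) < l := by
    have := NeZero.pos l
    exact_mod_cast this
  have hK' : (0 : ℝ) < K := by exact_mod_cast hK
  have h1 := ord_le (L := L) hO U
  have h2 := planes_le (L := L) i U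
  have h3 : 1 / (8 * (l : ℝ) ^ 2 * K ^ 2) * ∑ j ∈ Finset.univ.erase i,
      qp L (fun k : Fin K => pol U i ^ (k : ℕ)) (pol U j) ≤
      1 / 2 * ∑ j ∈ Finset.univ.erase i, ∑ x, we L (plqT U x i j) := by
    rw [Finset.mul_sum, Finset.mul_sum]
    refine Finset.sum_le_sum fun j hj => ?_
    have hij : i ≠ j := (Finset.ne_of_mem_erase hj).symm
    have e1 := qp_le_comm (L := L) hK (pol U i) (pol U j)
    have e2 := comm_le (L := L) hij U
    have e3 := mul_le_mul_of_nonneg_left e2 (show 0 ≤ 2 * (K : ℝ) ^ 2 by positivity)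
    have e4 := mul_le_mul_of_nonneg_left (e1.trans e3)
      (show 0 ≤ 1 / (8 * (l : ℝ) ^ 2 * K ^ 2) by positivity)
    refine e4.trans (le_of_eq ?_)
    field_simp
    ring
  linarith

/-- the weight of the commutator -/
def kap (L : LD G N n) (K : ℕ) (t : ℝ) (P g : G) : ℝ :=
  Real.exp (-(N * t * qp L (fun k : Fin K => P ^ (k : ℕ)) g))

/-- the upper bound -/
theorem weak_upper (hN : 0 < N) (hg : HG L) (hK : 0 < K) {b : ℝ} (hb : 0 ≤ b) (i : Fin d)
    {W : G → ℝ} (hW : Continuous W) (hW0 : ∀ P, 0 ≤ W P) {w : ℝ}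
    (hw : ∀ P, W P * Real.exp (-((N : ℝ) ^ 2 * (1 - cl2 L K P) / 2 *
      Real.log (1 + b / (4 * (l : ℝ) ^ 2 * K ^ 2)))) ^ (d - 1) ≤ w) :
    Zt μ L (N * b) (fun U : Ed d l → G => W (pol U i)) ≤
      Real.exp (-(((N : ℝ) ^ 2 - 1) / 2 * Real.log (1 + b))) ^ ((d - 1) * (l ^ d - 1)) * w := by
  classical
  obtain ⟨O, pd, rk, hcard, hO, hax, -⟩ := tree d l
  have hl' : (0 : ℝ) < l := by
    have := NeZero.pos l
    exact_mod_cast this
  have hK' : (0 : ℝ) < K := by exact_mod_cast hK
  have hN' : (0 : ℝ) < N := by exact_mod_cast hN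
  have hOc : ∀ e ∈ O, ∀ (k : Fin d) (a : ℕ), e ≠ ((a • (eT k : Fin d → ZMod l), k) : Ed d l) := by
    intro e he k a h
    exact hax k a (h ▸ he)
  have hl2 : ∀ e ∈ O, 2 ≤ l := by
    intro e he
    have h1 : 0 < O.card := Finset.card_pos.2 ⟨e, he⟩
    rw [hcard] at h1
    by_contra hlt
    have h2 : l = 1 := by
      have := NeZero.pos l
      omega
    subst h2
    simp at h1
  obtain ⟨t, ht⟩ : ∃ t : ℝ, t = b / (8 * (l : ℝ) ^ 2 * K ^ 2) := ⟨_, rfl⟩
  have ht0 : 0 ≤ t := by rw [ht]; positivity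
  have h2t : 1 + 2 * t = 1 + b / (4 * (l : ℝ) ^ 2 * K ^ 2) := by
    rw [ht]; field_simp; ring
  obtain ⟨B, hB⟩ : ∃ B : G → ℝ, B = fun P =>
    Real.exp (-((N : ℝ) ^ 2 * (1 - cl2 L K P) / 2 * Real.log (1 + 2 * t))) := ⟨_, rfl⟩
  have hBpos : ∀ P, 0 < B P := by intro P; rw [hB]; exact Real.exp_pos _
  have hBc : Continuous B := by
    rw [hB]
    refine Real.continuous_exp.comp (Continuous.neg (Continuous.mul_const ?_ _))
    exact ((continuous_const.mul (continuous_const.sub (cl2_cont K))).div_const _)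
  have hpc : ∀ k, Continuous fun U : Ed d l → G => pol U k := fun k => pol_cont k
  have hkc : ∀ j, Continuous fun U : Ed d l → G => kap L K t (pol U i) (pol U j) := fun j =>
    Real.continuous_exp.comp (continuous_const.mul (qp_cont2 (hpc i) (hpc j))).neg
  have hk0 : ∀ P g, 0 < kap L K t P g := fun P g => Real.exp_pos _
  have hplc : ∀ e : Ed d l, Continuous fun U : Ed d l → G =>
      plqT U (pd e).1 (pd e).2.1 (pd e).2.2 := by
    intro e
    unfold plqT
    have h : ∀ e, Continuous fun U : Ed d l → G => U e := fun e => continuous_apply e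
    exact (((h _).mul (h _)).mul (h _).inv).mul (h _).inv
  -- step 1: the pointwise bound
  obtain ⟨F1, hF1⟩ : ∃ F1 : (Ed d l → G) → ℝ, F1 = fun U =>
    (∏ j ∈ Finset.univ.erase i, kap L K t (pol U i) (pol U j)) * W (pol U i) := ⟨_, rfl⟩
  have hF1c : Continuous F1 := by
    rw [hF1]
    exact (continuous_finsetProd _ fun j _ => hkc j).mul (hW.comp (hpc i))
  have hF10 : ∀ U, 0 ≤ F1 U := by
    intro U
    rw [hF1]
    exact mul_nonneg (Finset.prod_nonneg fun j _ => (hk0 _ _).le) (hW0 _)
  obtain ⟨f, hf⟩ : ∃ f : Ed d l → (Ed d l → G) → ℝ, f = fun e U =>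
    Real.exp (-(N * (b / 2) * we L (plqT U (pd e).1 (pd e).2.1 (pd e).2.2))) := ⟨_, rfl⟩
  have hfc : ∀ e, Continuous (f e) := by
    intro e
    rw [hf]
    exact Real.continuous_exp.comp (continuous_const.mul (we_cont.comp (hplc e))).neg
  have hf0 : ∀ e U, 0 ≤ f e U := by
    intro e U
    rw [hf]
    exact (Real.exp_pos _).le
  have s1 : Zt μ L (N * b) (fun U : Ed d l → G => W (pol U i)) ≤
      ∫ U, (∏ e ∈ O, f e U) * F1 U ∂ME μ (Ed d l) := by
    unfold Zt
    refine integral_mono (intE μ ?_) (intE μ ?_) fun U => ?_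
    · exact (hW.comp (hpc i)).mul (Real.continuous_exp.comp
        (continuous_const.mul (act_cont : Continuous (act L : (Ed d l → G) → ℝ))).neg)
    · exact (continuous_finsetProd _ fun e _ => hfc e).mul hF1c
    · show W (pol U i) * Real.exp (-(N * b * act L U)) ≤ (∏ e ∈ O, f e U) * F1 U
      rw [hF1, hf]
      simp only
      unfold kap
      rw [← Real.exp_sum, ← Real.exp_sum, ← mul_assoc, ← Real.exp_add, mul_comm]
      refine mul_le_mul_of_nonneg_right (Real.exp_le_exp.2 ?_) (hW0 _)
      rw [Finset.sum_neg_distrib, Finset.sum_neg_distrib, ← Finset.mul_sum, ← Finset.mul_sum,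
        ← neg_add]
      refine neg_le_neg ?_
      have e1 := mul_le_mul_of_nonneg_left (act_lower (L := L) hO hK i U)
        (show 0 ≤ (N : ℝ) * b by positivity)
      refine le_trans (le_of_eq ?_) e1
      rw [ht]
      field_simp
  -- step 2: the ordinary links
  have s2 : ∫ U, (∏ e ∈ O, f e U) * F1 U ∂ME μ (Ed d l) ≤
      (∏ e ∈ O, Real.exp (-(((N : ℝ) ^ 2 - 1) / 2 * Real.log (1 + b)))) *
        ∫ U, F1 U ∂ME μ (Ed d l) := by
    refine seq_le μ O id rk f F1 _ hfc hf0 hF1c hF10 ?_ ?_ ?_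
    · intro e he U
      rw [hf]
      simp only [id]
      rw [plq_int μ (hl2 e he) (hO e he).1 (hO e he).2.1
        (fun g => Real.exp (-(N * (b / 2) * we L g))) U]
      have e1 := link_plq μ (L := L) hN hg (t := b / 2) (by linarith)
      have e2 : 1 + 2 * (b / 2) = 1 + b := by ring
      rwa [e2] at e1
    · intro e he e' he' hne hrk g U
      rw [hf]
      simp only [id]
      rw [plq_sh_not]
      intro hmem
      have := (hO e' he').2.2.2 e hmem hne.symm he
      omega
    · intro e he g U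
      rw [hF1]
      simp only [id]
      have e1 : ∀ k, pol (LN.sh e g U) k = pol U k := fun k => pol_sh_not (hOc e he k) g U
      simp only [e1]
  -- step 3: the lines around the torus
  have s3 : ∫ U, F1 U ∂ME μ (Ed d l) ≤ w := by
    have e1 : ∀ U, F1 U = (∏ j ∈ Finset.univ.erase i,
        (kap L K t (pol U i) (pol U j) / B (pol U i))) *
          (B (pol U i) ^ (d - 1) * W (pol U i)) := by
      intro U
      have hc : (Finset.univ.erase i : Finset (Fin d)).card = d - 1 := by
        rw [Finset.card_erase_of_mem (Finset.mem_univ i), Finset.card_univ, Fintype.card_fin]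
      rw [Finset.prod_div_distrib, Finset.prod_const, hc, hF1]
      have := (pow_pos (hBpos (pol U i)) (d - 1)).ne'
      field_simp
    simp only [e1]
    have e2 := seq_le μ (Finset.univ.erase i) (fun j => ((0, j) : Ed d l)) (fun _ => 0)
      (fun j U => kap L K t (pol U i) (pol U j) / B (pol U i))
      (fun U => B (pol U i) ^ (d - 1) * W (pol U i)) (fun _ => 1)
      (fun j => (hkc j).div (hBc.comp (hpc i)) fun U => (hBpos _).ne')
      (fun j U => div_nonneg (hk0 _ _).le (hBpos _).le)
      (((hBc.comp (hpc i)).pow _).mul (hW.comp (hpc i)))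
      (fun U => mul_nonneg (pow_nonneg (hBpos _).le _) (hW0 _)) ?_ ?_ ?_
    · refine e2.trans ?_
      rw [Finset.prod_const_one, one_mul]
      have e3 : ∀ U : Ed d l → G, B (pol U i) ^ (d - 1) * W (pol U i) ≤ w := by
        intro U
        have := hw (pol U i)
        rw [← h2t] at this
        rw [mul_comm, hB]
        exact this
      have e4 : ∫ U, B (pol U i) ^ (d - 1) * W (pol U i) ∂ME μ (Ed d l) ≤
          ∫ _U, w ∂ME μ (Ed d l) :=
        integral_mono (intE μ (((hBc.comp (hpc i)).pow _).mul (hW.comp (hpc i))))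
          (integrable_const _) e3
      refine e4.trans (le_of_eq ?_)
      rw [integral_const, probReal_univ, one_smul]
    · intro j hj U
      have hij : i ≠ j := (Finset.ne_of_mem_erase hj).symm
      simp only [pol_sh_other U hij, pol_sh]
      rw [integral_div, div_le_one (hBpos _)]
      have e3 := integral_mul_right_eq_self (μ := μ) (fun g => kap L K t (pol U i) g) (pol U j)
      rw [e3]
      have e4 := link_pol μ (L := L) hN hK hg (fun k : Fin K => pol U i ^ (k : ℕ)) ht0
      rw [hB]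
      exact e4
    · intro j hj j' hj' hne _ g U
      have hij : i ≠ j := (Finset.ne_of_mem_erase hj).symm
      simp only [pol_sh_other U hij, pol_sh_other U hne]
    · intro j hj g U
      have hij : i ≠ j := (Finset.ne_of_mem_erase hj).symm
      simp only [pol_sh_other U hij]
  refine s1.trans (s2.trans ?_)
  rw [Finset.prod_const, hcard]
  exact mul_le_mul_of_nonneg_left s3 (by positivity)

end

end Pool.Agent.T2H01.EK
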