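import Mathlib
import Pool.Agent.T2H01.EK.WkA

/-!
# Weak coupling: the lower bound of the partition function
-/

open MeasureTheory Matrix Filter
open scoped Matrix.Norms.Frobenius Topology
open Pool.Agent.H906R3.YM Pool.Agent.W793.YM Pool.Agent.TH618.YM Pool.Agent.T2H01.YM

namespace Pool.Agent.T2H01.EK

set_option linter.unusedSectionVars false
set_option linter.unusedVariables false

noncomputable section

variable {G : Type} [Group G] [TopologicalSpace G] [IsTopologicalGroup G] [CompactSpace G]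
  [SecondCountableTopology G] [MeasurableSpace G] [BorelSpace G] (μ : Measure G)
  [IsProbabilityMeasure μ] [μ.IsMulLeftInvariant] [μ.IsMulRightInvariant] [μ.IsInvInvariant]
  {N n d l : ℕ} [NeZero l] {L : LD G N n}

lemma D1c : Continuous (LN.D1 L) := by
  unfold LN.D1
  exact LN.opn_cont.comp (continuous_const.sub L.cont)

lemma D1_invg (g : G) : LN.D1 L g⁻¹ = LN.D1 L g := by
  unfold LN.D1
  have e1 : (1 : Mat N) - L.rho g⁻¹ = -(L.rho g⁻¹ * (1 - L.rho g)) := by
    rw [mul_sub, mul_one, ← map_mul, inv_mul_cancel, map_one]; abel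
  rw [e1, LN.opn_neg, LN.opn_unit_mul (L.unit' _) (L.unit _)]

lemma D1_comm (g h : G) : LN.D1 L (g * h * g⁻¹ * h⁻¹) ≤ 2 * (LN.D1 L g * LN.D1 L h) := by
  unfold LN.D1
  have e1 : (1 : Mat N) - L.rho (g * h * g⁻¹ * h⁻¹) =
      ((1 - L.rho h) * (1 - L.rho g) + -((1 - L.rho g) * (1 - L.rho h))) * L.rho (g⁻¹ * h⁻¹) := by
    have e2 : (1 - L.rho h) * (1 - L.rho g) + -((1 - L.rho g) * (1 - L.rho h)) =
        L.rho (h * g) - L.rho (g * h) := by
      rw [map_mul, map_mul]; noncomm_ring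
    rw [e2, sub_mul, ← map_mul, ← map_mul]
    congr 1
    · have : h * g * (g⁻¹ * h⁻¹) = 1 := by group
      rw [this, map_one]
    · congr 1
      group
  rw [e1, LN.opn_mul_unit (L.unit' _) (L.unit _)]
  refine (LN.opn_add _ _).trans ?_
  rw [LN.opn_neg]
  have h1 := LN.opn_mul (1 - L.rho h) (1 - L.rho g)
  have h2 := LN.opn_mul (1 - L.rho g) (1 - L.rho h)
  have h3 : LN.opn (1 - L.rho h) * LN.opn (1 - L.rho g) =
    LN.opn (1 - L.rho g) * LN.opn (1 - L.rho h) := mul_comm _ _
  linarith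

variable (L) in
/-- the tent function -/
def tent (r : ℝ) (g : G) : ℝ := max 0 (1 - LN.D1 L g / r)

lemma tent_cont (r : ℝ) : Continuous (tent L r) :=
  continuous_const.max (continuous_const.sub (D1c.div_const _))

lemma tent_nonneg (r : ℝ) (g : G) : 0 ≤ tent L r g := le_max_left _ _

lemma tent_le_one {r : ℝ} (hr : 0 < r) (g : G) : tent L r g ≤ 1 := by
  unfold tent
  refine max_le zero_le_one ?_
  have := div_nonneg (LN.D1_nonneg L g) hr.le
  linarith

lemma tent_supp {r : ℝ} (hr : 0 < r) {g : G} (h : tent L r g ≠ 0) : LN.D1 L g ≤ r := by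
  by_contra hlt
  push Not at hlt
  apply h
  unfold tent
  apply max_eq_left
  have : 1 ≤ LN.D1 L g / r := by rw [le_div_iff₀ hr]; linarith
  linarith

lemma tent_int {C : ℝ} (hC : 1 ≤ C) (hN : 0 < N)
    (hball : ∀ ρ : ℝ, 0 < ρ → ρ ≤ 1 → (ρ / C) ^ (N ^ 2) ≤ μ.real {g | LN.D1 L g ≤ ρ}) {r : ℝ}
    (hr : 0 < r) (hr1 : r ≤ 1) : (r / (4 * C)) ^ (N ^ 2) ≤ ∫ g, tent L r g ∂μ := by
  have hC0 : 0 < C := by linarith
  have h1 := hball (r / 2) (by linarith) (by linarith)
  have hm : MeasurableSet {g : G | LN.D1 L g ≤ r / 2} :=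
    (isClosed_le D1c continuous_const).measurableSet
  have h2 : 1 / 2 * μ.real {g : G | LN.D1 L g ≤ r / 2} ≤ ∫ g, tent L r g ∂μ := by
    have h3 : ∫ g, Set.indicator {g : G | LN.D1 L g ≤ r / 2} (fun _ => (1 / 2 : ℝ)) g ∂μ =
        1 / 2 * μ.real {g : G | LN.D1 L g ≤ r / 2} := by
      rw [integral_indicator_const _ hm, smul_eq_mul, mul_comm]
    rw [← h3]
    refine integral_mono ((integrable_const _).indicator hm) (LN.intG μ (tent_cont r)) fun g => ?_
    by_cases hg : LN.D1 L g ≤ r / 2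
    · rw [Set.indicator_of_mem (show g ∈ {g : G | LN.D1 L g ≤ r / 2} from hg)]
      refine le_max_of_le_right ?_
      have : LN.D1 L g / r ≤ 1 / 2 := by rw [div_le_iff₀ hr]; linarith
      linarith
    · rw [Set.indicator_of_notMem (show g ∉ {g : G | LN.D1 L g ≤ r / 2} from hg)]
      exact tent_nonneg _ _
  have h3 : (r / (4 * C)) ^ (N ^ 2) ≤ 1 / 2 * (r / 2 / C) ^ (N ^ 2) := by
    have e1 : r / (4 * C) = 1 / 2 * (r / 2 / C) := by field_simp; norm_num
    rw [e1, mul_pow]
    refine mul_le_mul_of_nonneg_right ?_ (by positivity)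
    have hN2 : 1 ≤ N ^ 2 := Nat.one_le_pow _ _ hN
    calc (1 / 2 : ℝ) ^ (N ^ 2) ≤ (1 / 2) ^ 1 :=
          pow_le_pow_of_le_one (by norm_num) (by norm_num) hN2
      _ = 1 / 2 := pow_one _
  refine h3.trans (le_trans ?_ h2)
  exact mul_le_mul_of_nonneg_left h1 (by norm_num)

/-- the constant -/
def c1 (d l : ℕ) : ℝ := (l : ℝ) ^ d * d ^ 2 * (12 * ((d : ℝ) * l) ^ 2 + 2) ^ 2 / 2

lemma we_opn (g : G) : we L g ≤ N / 2 * LN.D1 L g ^ 2 := by
  have h1 := LN.frob_opn (1 - L.rho g)
  rw [LN.frob_tr (L.unit' g)] at h1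
  rw [we_tr]
  unfold LN.D1
  linarith

lemma act_upper {s : ℝ} (hs : 0 < s) {U : Ed d l → G}
    (h : ∀ x i j, LN.D1 L (plqT U x i j) ≤ (12 * ((d : ℝ) * l) ^ 2 + 2) * s ^ 2) :
    act L U ≤ N * c1 d l * s ^ 4 := by
  have h1 : ∀ x i j, we L (plqT U x i j) ≤
      N / 2 * ((12 * ((d : ℝ) * l) ^ 2 + 2) * s ^ 2) ^ 2 := fun x i j =>
    (we_opn _).trans (mul_le_mul_of_nonneg_left
      (pow_le_pow_left₀ (LN.D1_nonneg L _) (h x i j) 2) (by positivity))
  unfold act
  calc ∑ x, ∑ i, ∑ j, (if i < j then we L (plqT U x i j) else 0) ≤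
      ∑ _x : Fin d → ZMod l, ∑ _i : Fin d, ∑ _j : Fin d,
        N / 2 * ((12 * ((d : ℝ) * l) ^ 2 + 2) * s ^ 2) ^ 2 := by
        refine Finset.sum_le_sum fun x _ => Finset.sum_le_sum fun i _ =>
          Finset.sum_le_sum fun j _ => ?_
        split_ifs
        · exact h1 x i j
        · positivity
    _ = N * c1 d l * s ^ 4 := by
        simp only [Finset.sum_const, Finset.card_univ, Fintype.card_fin, nsmul_eq_mul,
          Fintype.card_pi, ZMod.card, Finset.prod_const, Nat.cast_pow]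
        unfold c1
        ring

/-- the lower bound -/
theorem weak_lower {C : ℝ} (hC : 1 ≤ C) (hN : 0 < N)
    (hball : ∀ ρ : ℝ, 0 < ρ → ρ ≤ 1 → (ρ / C) ^ (N ^ 2) ≤ μ.real {g | LN.D1 L g ≤ ρ}) {b s : ℝ}
    (hs : 0 < s) (hs1 : s ≤ 1) (hb : b * s ^ 4 = 1) :
    Real.exp (-(N ^ 2 * c1 d l)) * (((s ^ 2 / (4 * C)) ^ (N ^ 2)) ^ ((d - 1) * (l ^ d - 1)) *
      ((s / (4 * C)) ^ (N ^ 2)) ^ d) ≤ Zt μ L (N * b) (fun _ : Ed d l → G => 1) := by
  classical
  obtain ⟨O, pd, rk, hcard, hO, hax, hctl⟩ := tree d l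
  have hC0 : 0 < C := by linarith
  have hb0 : 0 < b := by
    by_contra hlt
    push Not at hlt
    have := mul_nonpos_of_nonpos_of_nonneg hlt (pow_nonneg hs.le 4)
    linarith
  have hN' : (0 : ℝ) < N := by exact_mod_cast hN
  have hOc : ∀ e ∈ O, ∀ (k : Fin d) (a : ℕ), e ≠ ((a • (eT k : Fin d → ZMod l), k) : Ed d l) := by
    intro e he k a h
    exact hax k a (h ▸ he)
  have hl2 : ∀ e ∈ O, 2 ≤ l := by
    intro e he
    have h1 : 0 < O.card := Finset.card_pos.2 ⟨e, he⟩
    rw [hcard] at h1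
    by_contra hlt
    have h2 : l = 1 := by
      have := NeZero.pos l
      omega
    subst h2
    simp at h1
  have hplc : ∀ e : Ed d l, Continuous fun U : Ed d l → G =>
      plqT U (pd e).1 (pd e).2.1 (pd e).2.2 := by
    intro e
    unfold plqT
    have h : ∀ e, Continuous fun U : Ed d l → G => U e := fun e => continuous_apply e
    exact (((h _).mul (h _)).mul (h _).inv).mul (h _).inv
  have hpc : ∀ k, Continuous fun U : Ed d l → G => pol U k := fun k => pol_cont k
  obtain ⟨F, hF⟩ : ∃ F : (Ed d l → G) → ℝ, F = fun U => ∏ k, tent L s (pol U k) := ⟨_, rfl⟩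
  have hFc : Continuous F := by
    rw [hF]
    exact continuous_finsetProd _ fun k _ => (tent_cont s).comp (hpc k)
  have hF0 : ∀ U, 0 ≤ F U := by
    intro U; rw [hF]; exact Finset.prod_nonneg fun k _ => tent_nonneg _ _
  obtain ⟨f, hf⟩ : ∃ f : Ed d l → (Ed d l → G) → ℝ, f = fun e U =>
    tent L (s ^ 2) (plqT U (pd e).1 (pd e).2.1 (pd e).2.2) := ⟨_, rfl⟩
  have hfc : ∀ e, Continuous (f e) := by
    intro e; rw [hf]; exact (tent_cont _).comp (hplc e)
  have hf0 : ∀ e U, 0 ≤ f e U := by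
    intro e U; rw [hf]; exact tent_nonneg _ _
  have hs2 : 0 < s ^ 2 := by positivity
  have hs21 : s ^ 2 ≤ 1 := pow_le_one₀ hs.le hs1
  -- step 1
  have s1 : Real.exp (-(N ^ 2 * c1 d l)) * ∫ U, (∏ e ∈ O, f e U) * F U ∂ME μ (Ed d l) ≤
      Zt μ L (N * b) (fun _ : Ed d l → G => 1) := by
    unfold Zt
    rw [← integral_const_mul]
    refine integral_mono ((intE μ ((continuous_finsetProd _ fun e _ => hfc e).mul
      hFc)).const_mul _) (intE μ ?_) fun U => ?_
    · exact continuous_const.mul (Real.continuous_exp.comp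
        (continuous_const.mul (act_cont : Continuous (act L : (Ed d l → G) → ℝ))).neg)
    · show Real.exp (-(N ^ 2 * c1 d l)) * ((∏ e ∈ O, f e U) * F U) ≤
        1 * Real.exp (-(N * b * act L U))
      have hle : (∏ e ∈ O, f e U) * F U ≤ 1 := by
        have e1 : ∏ e ∈ O, f e U ≤ 1 := Finset.prod_le_one (fun e _ => hf0 e U) fun e _ => by
          rw [hf]; exact tent_le_one hs2 _
        have e2 : F U ≤ 1 := by
          rw [hF]
          exact Finset.prod_le_one (fun k _ => tent_nonneg _ _) fun k _ => tent_le_one hs _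
        exact mul_le_one₀ e1 (hF0 U) e2
      by_cases hz : (∏ e ∈ O, f e U) * F U = 0
      · rw [hz, mul_zero]; positivity
      · have hz1 : (∏ e ∈ O, f e U) ≠ 0 := left_ne_zero_of_mul hz
        have hz2 : F U ≠ 0 := right_ne_zero_of_mul hz
        have d1 : ∀ e ∈ O, LN.D1 L (plqT U (pd e).1 (pd e).2.1 (pd e).2.2) ≤ s ^ 2 := by
          intro e he
          have := Finset.prod_ne_zero_iff.1 hz1 e he
          rw [hf] at this
          exact tent_supp hs2 this
        have d2 : ∀ k, LN.D1 L (pol U k) ≤ s := by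
          intro k
          rw [hF] at hz2
          exact tent_supp hs (Finset.prod_ne_zero_iff.1 hz2 k (Finset.mem_univ k))
        have d3 := hctl G (LN.D1 L) (LN.D1_one L) (LN.D1_mul L) D1_invg
          (fun g h => LN.D1_conj L h g) U (s ^ 2) hs2.le d1
        have d4 : ∀ x i j, LN.D1 L (plqT U x i j) ≤ (12 * ((d : ℝ) * l) ^ 2 + 2) * s ^ 2 := by
          intro x i j
          refine (d3 x i j).trans ?_
          have e1 := D1_comm (L := L) (pol U i) (pol U j)
          have e2 : LN.D1 L (pol U i) * LN.D1 L (pol U j) ≤ s * s :=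
            mul_le_mul (d2 i) (d2 j) (LN.D1_nonneg L _) hs.le
          have e3 : LN.D1 L (ln U i l 0 * ln U j l 0 * (ln U i l 0)⁻¹ * (ln U j l 0)⁻¹) ≤
              2 * (s * s) := e1.trans (mul_le_mul_of_nonneg_left e2 (by norm_num))
          calc _ ≤ 12 * ((d : ℝ) * l) ^ 2 * s ^ 2 + 2 * (s * s) := add_le_add le_rfl e3
            _ = _ := by ring
        have d5 := act_upper hs d4
        have d6 : (N : ℝ) * b * act L U ≤ N ^ 2 * c1 d l := by
          have e1 := mul_le_mul_of_nonneg_left d5 (show 0 ≤ (N : ℝ) * b by positivity)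
          refine e1.trans (le_of_eq ?_)
          calc (N : ℝ) * b * (N * c1 d l * s ^ 4) = N ^ 2 * c1 d l * (b * s ^ 4) := by ring
            _ = _ := by rw [hb, mul_one]
        calc Real.exp (-(N ^ 2 * c1 d l)) * ((∏ e ∈ O, f e U) * F U) ≤
            Real.exp (-(N ^ 2 * c1 d l)) * 1 :=
              mul_le_mul_of_nonneg_left hle (Real.exp_pos _).le
          _ ≤ 1 * Real.exp (-(N * b * act L U)) := by
              rw [mul_one, one_mul]
              exact Real.exp_le_exp.2 (neg_le_neg d6)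
  -- step 2
  have s2 : (∏ e ∈ O, (s ^ 2 / (4 * C)) ^ (N ^ 2)) * ∫ U, F U ∂ME μ (Ed d l) ≤
      ∫ U, (∏ e ∈ O, f e U) * F U ∂ME μ (Ed d l) := by
    refine seq_ge μ O id rk f F _ hfc hf0 hFc hF0 (fun e _ => by positivity) ?_ ?_ ?_
    · intro e he U
      rw [hf]
      simp only [id]
      rw [plq_int μ (hl2 e he) (hO e he).1 (hO e he).2.1 (fun g => tent L (s ^ 2) g) U]
      exact tent_int μ hC hN hball hs2 hs21
    · intro e he e' he' hne hrk g U
      rw [hf]
      simp only [id]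
      rw [plq_sh_not]
      intro hmem
      have := (hO e' he').2.2.2 e hmem hne.symm he
      omega
    · intro e he g U
      rw [hF]
      simp only [id]
      have e1 : ∀ k, pol (LN.sh e g U) k = pol U k := fun k => pol_sh_not (hOc e he k) g U
      simp only [e1]
  -- step 3
  have s3 : ((s / (4 * C)) ^ (N ^ 2)) ^ d ≤ ∫ U, F U ∂ME μ (Ed d l) := by
    have e1 := seq_ge μ (Finset.univ : Finset (Fin d)) (fun j => ((0, j) : Ed d l)) (fun _ => 0)
      (fun j U => tent L s (pol U j)) (fun _ => 1) (fun _ => (s / (4 * C)) ^ (N ^ 2))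
      (fun j => (tent_cont s).comp (hpc j)) (fun j U => tent_nonneg _ _) continuous_const
      (fun _ => zero_le_one) (fun j _ => by positivity) ?_ ?_ ?_
    · rw [Finset.prod_const, Finset.card_univ, Fintype.card_fin, integral_const, probReal_univ,
        one_smul, mul_one] at e1
      refine e1.trans (le_of_eq ?_)
      rw [hF]
      exact integral_congr_ae (Eventually.of_forall fun U => by simp only [mul_one])
    · intro j _ U
      simp only [pol_sh]
      have e3 := integral_mul_right_eq_self (μ := μ) (fun g => tent L s g) (pol U j)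
      rw [e3]
      exact tent_int μ hC hN hball hs hs1
    · intro j _ j' _ hne _ g U
      simp only [pol_sh_other U hne]
    · intro j _ g U
      rfl
  refine le_trans ?_ s1
  refine mul_le_mul_of_nonneg_left ?_ (Real.exp_pos _).le
  refine le_trans ?_ s2
  rw [Finset.prod_const, hcard]
  exact mul_le_mul_of_nonneg_left s3 (by positivity)

end

end Pool.Agent.T2H01.EK
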