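import Mathlib
import Pool.Agent.T2H01.EK.WkB
import Pool.Agent.T2H01.EK.WkC

/-!
# Weak coupling: clumping of the eigenvalues and the free energy
-/

open MeasureTheory Matrix Filter
open scoped Matrix.Norms.Frobenius Topology
open Pool.Agent.H906R3.YM Pool.Agent.W793.YM Pool.Agent.TH618.YM Pool.Agent.T2H01.YM

namespace Pool.Agent.T2H01.EK

set_option linter.unusedSectionVars false
set_option linter.unusedVariables false

noncomputable section

variable {G : Type} [Group G] [TopologicalSpace G] [IsTopologicalGroup G] [CompactSpace G]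
  [SecondCountableTopology G] [MeasurableSpace G] [BorelSpace G] (μ : Measure G)
  [IsProbabilityMeasure μ] [μ.IsMulLeftInvariant] [μ.IsMulRightInvariant] [μ.IsInvInvariant]
  {N n d l K : ℕ} {L : LD G N n}

lemma cl2_nonneg (K : ℕ) (P : G) : 0 ≤ cl2 L K P := by
  unfold cl2 clp
  positivity

lemma cl2_le_one (hN : 0 < N) (hK : 0 < K) (P : G) : cl2 L K P ≤ 1 := by
  have hN' : (0 : ℝ) < N := by exact_mod_cast hN
  have hK' : (0 : ℝ) < K := by exact_mod_cast hK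
  unfold cl2 clp
  have h1 : ∑ i : Fin K, ∑ j : Fin K,
      ‖trace ((L.rho (P ^ (i : ℕ)))ᴴ * L.rho (P ^ (j : ℕ))) / N‖ ^ 2 ≤
      ∑ _i : Fin K, ∑ _j : Fin K, (1 : ℝ) := by
    refine Finset.sum_le_sum fun i _ => Finset.sum_le_sum fun j _ => ?_
    rw [← L.rho_inv, ← map_mul, norm_div, Complex.norm_natCast]
    refine pow_le_one₀ (by positivity) ?_
    rw [div_le_one hN']
    exact norm_tr _
  simp only [Finset.sum_const, Finset.card_univ, Fintype.card_fin, nsmul_eq_mul, mul_one] at h1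
  rw [one_div, inv_mul_le_iff₀ (by positivity)]
  refine h1.trans (le_of_eq ?_)
  ring

/-- the second constant -/
def c2 (C : ℝ) (d l : ℕ) : ℝ := c1 d l + (((d - 1) * (l ^ d - 1) : ℕ) + d) * Real.log (4 * C)

lemma c2_nonneg {C : ℝ} (hC : 1 ≤ C) (d l : ℕ) : 0 ≤ c2 C d l := by
  unfold c2 c1
  have : 0 ≤ Real.log (4 * C) := Real.log_nonneg (by linarith)
  positivity

/-- the lower bound in exponential form -/
lemma lower_exp [NeZero l] {C : ℝ} (hC : 1 ≤ C) (hN : 0 < N)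
    (hball : ∀ ρ : ℝ, 0 < ρ → ρ ≤ 1 → (ρ / C) ^ (N ^ 2) ≤ μ.real {g | LN.D1 L g ≤ ρ}) {b : ℝ}
    (hb : 1 ≤ b) :
    Real.exp (-((N : ℝ) ^ 2 * (c2 C d l + (((d - 1) * (l ^ d - 1) : ℕ) / 2 + d / 4) *
      Real.log b))) ≤ Zt μ L (N * b) (fun _ : Ed d l → G => 1) := by
  have hC0 : 0 < C := by linarith
  have hb0 : 0 < b := by linarith
  obtain ⟨x, hx⟩ : ∃ x : ℝ, x = Real.log b := ⟨_, rfl⟩
  have hx0 : 0 ≤ x := by rw [hx]; exact Real.log_nonneg hb
  have hbx : b = Real.exp x := by rw [hx, Real.exp_log hb0]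
  have h1 := weak_lower μ (L := L) (d := d) (l := l) hC hN hball (b := b)
    (s := Real.exp (-(x / 4))) (Real.exp_pos _) (Real.exp_le_one_iff.2 (by linarith)) (by
      rw [hbx, ← Real.exp_nat_mul, ← Real.exp_add]
      have : x + ((4 : ℕ) : ℝ) * -(x / 4) = 0 := by push_cast; ring
      rw [this, Real.exp_zero])
  refine le_trans (le_of_eq ?_) h1
  have h4C : 4 * C = Real.exp (Real.log (4 * C)) := (Real.exp_log (by positivity)).symm
  obtain ⟨A, hA⟩ : ∃ A : ℝ, A = Real.log (4 * C) := ⟨_, rfl⟩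
  obtain ⟨M, hM⟩ : ∃ M : ℕ, M = (d - 1) * (l ^ d - 1) := ⟨_, rfl⟩
  unfold c2
  rw [← hx, ← hM, ← hA]
  rw [← hA] at h4C
  rw [h4C, ← Real.exp_nat_mul, ← Real.exp_sub, ← Real.exp_sub, ← Real.exp_nat_mul,
    ← Real.exp_nat_mul, ← Real.exp_nat_mul, ← Real.exp_nat_mul, ← Real.exp_add, ← Real.exp_add]
  congr 1
  push_cast
  ring

/-- the tilting parameter -/
def lam (d l K : ℕ) (b : ℝ) : ℝ := ((d : ℝ) - 1) / 2 * Real.log (1 + b / (4 * (l : ℝ) ^ 2 * K ^ 2))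

lemma lam_nonneg (hd : 1 ≤ d) {b : ℝ} (hb : 0 ≤ b) : 0 ≤ lam d l K b := by
  unfold lam
  have hd' : (1 : ℝ) ≤ d := by exact_mod_cast hd
  have : 0 ≤ Real.log (1 + b / (4 * (l : ℝ) ^ 2 * K ^ 2)) := by
    refine Real.log_nonneg ?_
    have : 0 ≤ b / (4 * (l : ℝ) ^ 2 * K ^ 2) := by positivity
    linarith
  have h2 : 0 ≤ ((d : ℝ) - 1) / 2 := by linarith
  positivity

lemma lam_ge (hd : 1 ≤ d) (hl : 0 < l) (hK : 0 < K) {b : ℝ} (hb : 1 ≤ b) :
    ((d : ℝ) - 1) / 2 * (Real.log b - Real.log (4 * (l : ℝ) ^ 2 * K ^ 2)) ≤ lam d l K b := by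
  unfold lam
  have hd' : (1 : ℝ) ≤ d := by exact_mod_cast hd
  have hl' : (0 : ℝ) < l := by exact_mod_cast hl
  have hK' : (0 : ℝ) < K := by exact_mod_cast hK
  refine mul_le_mul_of_nonneg_left ?_ (by linarith)
  rw [← Real.log_div (by positivity) (by positivity)]
  refine Real.log_le_log (by positivity) ?_
  linarith

/-- the upper bound with the tilt -/
lemma upper_exp [NeZero l] (hN : 0 < N) (hg : HG L) (hd : 1 ≤ d) (hK : 0 < K) {b : ℝ} (hb : 0 ≤ b)
    (i : Fin d) (a : ℝ) :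
    Zt μ L (N * b) (fun U : Ed d l → G =>
      Real.exp (lam d l K b * ((N : ℝ) ^ 2 * (a - cl2 L K (pol U i))))) ≤
    Real.exp (-(((N : ℝ) ^ 2 - 1) / 2 * Real.log (1 + b)) * ((d - 1) * (l ^ d - 1) : ℕ) -
      (N : ℝ) ^ 2 * lam d l K b * (1 - a)) := by
  have hc : Continuous fun P : G => Real.exp (lam d l K b * ((N : ℝ) ^ 2 * (a - cl2 L K P))) :=
    Real.continuous_exp.comp (continuous_const.mul (continuous_const.mul
      (continuous_const.sub (cl2_cont K))))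
  have h1 := weak_upper μ (L := L) (l := l) hN hg hK hb i hc (fun P => (Real.exp_pos _).le)
    (w := Real.exp (-((N : ℝ) ^ 2 * lam d l K b * (1 - a)))) (fun P => le_of_eq ?_)
  · refine h1.trans (le_of_eq ?_)
    rw [← Real.exp_nat_mul, ← Real.exp_add]
    congr 1
    ring
  · rw [← Real.exp_nat_mul, ← Real.exp_add]
    congr 1
    unfold lam
    rw [Nat.cast_sub hd]
    push_cast
    ring

/-- the upper bound of the partition function -/
lemma upper_one [NeZero l] (hN : 0 < N) (hg : HG L) (hd : 1 ≤ d) {b : ℝ} (hb : 0 ≤ b)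
    (i : Fin d) :
    Zt μ L (N * b) (fun _ : Ed d l → G => 1) ≤
    Real.exp (-(((N : ℝ) ^ 2 - 1) / 2 * Real.log (1 + b)) * ((d - 1) * (l ^ d - 1) : ℕ)) := by
  have h1 := weak_upper μ (L := L) (l := l) hN hg (K := 1) one_pos hb i
    (W := fun _ => 1) continuous_const (fun P => zero_le_one) (w := 1) (fun P => ?_)
  · refine h1.trans (le_of_eq ?_)
    rw [← Real.exp_nat_mul, mul_one]
    congr 1
    ring
  · rw [one_mul]
    refine pow_le_one₀ (Real.exp_pos _).le (Real.exp_le_one_iff.2 ?_)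
    have e1 : 0 ≤ 1 - cl2 L 1 P := by linarith [cl2_le_one (L := L) (K := 1) hN one_pos P]
    have e2 : 0 ≤ Real.log (1 + b / (4 * (l : ℝ) ^ 2 * ((1 : ℕ) : ℝ) ^ 2)) := by
      refine Real.log_nonneg ?_
      have : 0 ≤ b / (4 * (l : ℝ) ^ 2 * ((1 : ℕ) : ℝ) ^ 2) := by positivity
      linarith
    have e3 : 0 ≤ (N : ℝ) ^ 2 * (1 - cl2 L 1 P) / 2 *
      Real.log (1 + b / (4 * (l : ℝ) ^ 2 * ((1 : ℕ) : ℝ) ^ 2)) := by positivity
    linarith

lemma log_one_add {b : ℝ} (hb : 1 ≤ b) : Real.log b ≤ Real.log (1 + b) ∧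
    Real.log (1 + b) ≤ Real.log b + 1 := by
  constructor
  · exact Real.log_le_log (by linarith) (by linarith)
  · have h1 : Real.log (1 + b) ≤ Real.log (2 * b) := Real.log_le_log (by linarith) (by linarith)
    rw [Real.log_mul (by norm_num) (by linarith)] at h1
    have h2 : Real.log 2 ≤ 2 - 1 := Real.log_le_sub_one_of_pos (by norm_num)
    linarith

/-- the exponent -/
def eta (d : ℕ) (a : ℝ) : ℝ := ((d : ℝ) - 1) * (1 - a) / 2 - d / 4

/-- the third constant -/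
def c3 (C : ℝ) (d l K : ℕ) : ℝ := c2 C d l + ((d : ℝ) - 1) / 2 * Real.log (4 * (l : ℝ) ^ 2 * K ^ 2)

/-- the estimate of the exponents -/
lemma exps {x y q M m k c d a : ℝ} (hx0 : 0 ≤ x) (hy1 : x ≤ y) (hy2 : y ≤ x + 1) (hq : 0 ≤ q)
    (hM : 0 ≤ M) (hm : 1 ≤ m) (hd : 1 ≤ d) (ha0 : 0 ≤ a) (ha1 : a ≤ 1)
    (hk : (d - 1) / 2 * (x - q) ≤ k)
    (h1 : 2 * (M + (c + (d - 1) / 2 * q) + 1) ≤ ((d - 1) * (1 - a) / 2 - d / 4) * x)
    (h2 : M ≤ m * ((d - 1) * (1 - a) / 2 - d / 4)) :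
    -((m - 1) / 2 * y) * M - m * k * (1 - a) ≤ -m + -(m * (c + (M / 2 + d / 4) * x)) := by
  obtain ⟨D, hD⟩ : ∃ D : ℝ, D = d - 1 := ⟨_, rfl⟩
  have hd2 : d = D + 1 := by rw [hD]; ring
  rw [hd2] at hk h1 h2 ⊢
  have hD0 : 0 ≤ D := by linarith
  clear hD hd2 hd
  rw [add_sub_cancel_right] at hk h1 h2
  have ha : 0 ≤ 1 - a := by linarith
  have t1 : -((m - 1) / 2 * y) * M ≤ -(m / 2) * (M * x) + M / 2 * (x + 1) := by
    have e1 : (m - 1) * M * x ≤ (m - 1) * M * y :=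
      mul_le_mul_of_nonneg_left hy1 (mul_nonneg (by linarith) hM)
    linarith
  have t2 : -(m * k * (1 - a)) ≤ -(m * (1 - a) * (D / 2 * x)) + m * (D / 2 * q) := by
    have e1 : m * (1 - a) * (D / 2 * (x - q)) ≤ m * (1 - a) * k :=
      mul_le_mul_of_nonneg_left hk (mul_nonneg (by linarith) ha)
    have e2 : 0 ≤ m * a * (D / 2 * q) := by positivity
    linarith
  have t3 : M / 2 * x ≤ m * ((D * (1 - a) / 2 - (D + 1) / 4) * x / 2) := by
    have := mul_le_mul_of_nonneg_right h2 hx0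
    linarith
  have t4 : M / 2 ≤ m * M := by nlinarith
  have t5 := mul_le_mul_of_nonneg_left h1 (show 0 ≤ m / 2 by linarith)
  linarith

/-- clumping of the eigenvalues of the lines around the torus -/
theorem weak_clump [NeZero l] {C : ℝ} (hC : 1 ≤ C) (hN : 0 < N) (hg : HG L)
    (hball : ∀ ρ : ℝ, 0 < ρ → ρ ≤ 1 → (ρ / C) ^ (N ^ 2) ≤ μ.real {g | LN.D1 L g ≤ ρ})
    (hd : 1 ≤ d) (hK : 0 < K) {a b : ℝ} (ha0 : 0 ≤ a) (ha1 : a ≤ 1) (hη : 0 < eta d a)
    (hb : 1 ≤ b) (h1 : 2 * (((d - 1) * (l ^ d - 1) : ℕ) + c3 C d l K + 1) ≤ eta d a * Real.log b)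
    (h2 : (((d - 1) * (l ^ d - 1) : ℕ) : ℝ) ≤ (N : ℝ) ^ 2 * eta d a) (i : Fin d) :
    EX μ L (N * b) (fun U : Ed d l → G =>
      Real.exp (lam d l K b * ((N : ℝ) ^ 2 * (a - cl2 L K (pol U i))))) ≤
        Real.exp (-(N : ℝ) ^ 2) := by
  have hl : 0 < l := NeZero.pos l
  have hd' : (1 : ℝ) ≤ d := by exact_mod_cast hd
  have hl' : (1 : ℝ) ≤ l := by exact_mod_cast hl
  have hK' : (1 : ℝ) ≤ K := by exact_mod_cast hK
  have hN' : (1 : ℝ) ≤ N := by exact_mod_cast hN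
  have hZ : 0 < Zt μ L (N * b) (fun _ : Ed d l → G => 1) := Zt_pos μ _
  have hup := upper_exp μ (L := L) (l := l) hN hg hd hK (b := b) (by linarith) i a
  have hlo := lower_exp μ (L := L) (d := d) (l := l) hC hN hball hb
  unfold EX
  rw [div_le_iff₀ hZ]
  refine hup.trans ?_
  refine le_trans ?_ (mul_le_mul_of_nonneg_left hlo (Real.exp_pos _).le)
  rw [← Real.exp_add]
  refine Real.exp_le_exp.2 ?_
  obtain ⟨hy1, hy2⟩ := log_one_add hb
  have hx0 : 0 ≤ Real.log b := Real.log_nonneg hb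
  have hlam := lam_ge (d := d) (l := l) (K := K) hd hl hK hb
  have hlam0 := lam_nonneg (d := d) (l := l) (K := K) hd (b := b) (by linarith)
  have hq0 : 0 ≤ Real.log (4 * (l : ℝ) ^ 2 * K ^ 2) := by
    refine Real.log_nonneg ?_
    have e1 : (1 : ℝ) ≤ (l : ℝ) ^ 2 := one_le_pow₀ hl'
    have e2 : (1 : ℝ) ≤ (K : ℝ) ^ 2 := one_le_pow₀ hK'
    nlinarith
  have hn1 : (1 : ℝ) ≤ (N : ℝ) ^ 2 := one_le_pow₀ hN'
  unfold c3 eta at h1
  unfold eta at h2
  exact exps hx0 hy1 hy2 hq0 (Nat.cast_nonneg _) hn1 hd' ha0 ha1 hlam h1 h2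

/-- the free energy -/
def fe2 (μ : Measure G) (L : LD G N n) (d l : ℕ) [NeZero l] (b : ℝ) : ℝ :=
  Real.log (Zt μ L (N * b) (fun _ : Ed d l → G => 1)) / ((N : ℝ) ^ 2 * (l : ℝ) ^ d)

/-- the free energies of two tori at weak coupling -/
theorem weak_free {l' : ℕ} [NeZero l] [NeZero l'] {C : ℝ} (hC : 1 ≤ C) (hN : 0 < N) (hg : HG L)
    (hball : ∀ ρ : ℝ, 0 < ρ → ρ ≤ 1 → (ρ / C) ^ (N ^ 2) ≤ μ.real {g | LN.D1 L g ≤ ρ})
    (hd : 3 ≤ d) {b : ℝ} (hb : 1 ≤ b) (hll : 2 * l' ≤ l) (hNl : 8 * d * l' ^ d ≤ N ^ 2) :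
    Real.log b / (16 * (l' : ℝ) ^ d) - c2 C d l' ≤ fe2 μ L d l' b - fe2 μ L d l b := by
  have hl : 0 < l := NeZero.pos l
  have hl' : 0 < l' := NeZero.pos l'
  have hup := upper_one μ (L := L) (d := d) (l := l) hN hg (by omega) (b := b) (by linarith)
    ⟨0, by omega⟩
  have hlo := lower_exp μ (L := L) (d := d) (l := l') hC hN hball hb
  have hZ : 0 < Zt μ L (N * b) (fun _ : Ed d l → G => 1) := Zt_pos μ _
  have hZ' : 0 < Zt μ L (N * b) (fun _ : Ed d l' → G => 1) := Zt_pos μ _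
  have h1 := (Real.log_le_iff_le_exp hZ).2 hup
  have h2 := (Real.le_log_iff_exp_le hZ').2 hlo
  obtain ⟨hy1, -⟩ := log_one_add hb
  have hx0 : 0 ≤ Real.log b := Real.log_nonneg hb
  have hNr : (1 : ℝ) ≤ N := by exact_mod_cast hN
  obtain ⟨x, hx⟩ : ∃ x : ℝ, x = Real.log b := ⟨_, rfl⟩
  obtain ⟨m, hm⟩ : ∃ m : ℝ, m = (N : ℝ) ^ 2 := ⟨_, rfl⟩
  obtain ⟨V, hV⟩ : ∃ V : ℝ, V = (l : ℝ) ^ d := ⟨_, rfl⟩
  obtain ⟨V', hV'⟩ : ∃ V' : ℝ, V' = (l' : ℝ) ^ d := ⟨_, rfl⟩
  have hc0 := c2_nonneg hC d l'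
  have hV'1 : 1 ≤ V' := by
    rw [hV']; exact one_le_pow₀ (by exact_mod_cast hl')
  have hVV : 8 * V' ≤ V := by
    have e1 : ((2 : ℝ) * l') ^ d ≤ (l : ℝ) ^ d :=
      pow_le_pow_left₀ (by positivity) (by exact_mod_cast hll) d
    have e2 : (8 : ℝ) ≤ 2 ^ d := by
      calc (8 : ℝ) = 2 ^ 3 := by norm_num
        _ ≤ 2 ^ d := pow_le_pow_right₀ (by norm_num) hd
    rw [mul_pow] at e1
    rw [hV, hV']
    refine le_trans ?_ e1
    exact mul_le_mul_of_nonneg_right e2 (by positivity)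
  have hmV : 8 * d * V' ≤ m := by
    rw [hm, hV']
    exact_mod_cast hNl
  have hcast : ∀ k : ℕ, 0 < k → (((d - 1) * (k ^ d - 1) : ℕ) : ℝ) = (d - 1) * ((k : ℝ) ^ d - 1) := by
    intro k hk
    have hk1 : 1 ≤ k ^ d := Nat.one_le_pow _ _ hk
    rw [Nat.cast_mul, Nat.cast_sub (by omega), Nat.cast_sub hk1]
    push_cast
    ring
  rw [hcast l hl, ← hV, ← hm] at h1
  rw [hcast l' hl', ← hV', ← hm, ← hx] at h2
  unfold fe2
  rw [← hm, ← hV, ← hV', ← hx]
  obtain ⟨D, hD⟩ : ∃ D : ℝ, D = (d : ℝ) := ⟨_, rfl⟩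
  have hD3 : 3 ≤ D := by rw [hD]; exact_mod_cast hd
  rw [← hD] at h1 h2 hmV
  rw [← hx] at hy1 hx0
  have hm1 : 1 ≤ m := by rw [hm]; exact one_le_pow₀ hNr
  have hV1 : 1 ≤ V := by linarith
  obtain ⟨c, hc⟩ : ∃ c : ℝ, c = c2 C d l' := ⟨_, rfl⟩
  rw [← hc] at h2 hc0 ⊢
  -- the two bounds
  have b1 : Real.log (Zt μ L (N * b) (fun _ : Ed d l → G => 1)) / (m * V) ≤
      -((m - 1) / (2 * m) * x * ((D - 1) * (V - 1) / V)) := by
    rw [div_le_iff₀ (by positivity)]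
    refine h1.trans ?_
    have e1 : (m - 1) / 2 * x * ((D - 1) * (V - 1)) ≤
        (m - 1) / 2 * Real.log (1 + b) * ((D - 1) * (V - 1)) := by
      refine mul_le_mul_of_nonneg_right (mul_le_mul_of_nonneg_left hy1 (by linarith)) ?_
      exact mul_nonneg (by linarith) (by linarith)
    have e2 : -((m - 1) / (2 * m) * x * ((D - 1) * (V - 1) / V)) * (m * V) =
        -((m - 1) / 2 * x * ((D - 1) * (V - 1))) := by
      have : m ≠ 0 := by positivity
      have : V ≠ 0 := by positivity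
      field_simp
    rw [e2]
    linarith
  have b2 : -(c / V' + ((D - 1) * (V' - 1) / (2 * V') + D / (4 * V')) * x) ≤
      Real.log (Zt μ L (N * b) (fun _ : Ed d l' → G => 1)) / (m * V') := by
    rw [le_div_iff₀ (by positivity)]
    refine le_trans (le_of_eq ?_) h2
    have : V' ≠ 0 := by positivity
    field_simp
  have b3 : c / V' ≤ c := div_le_self hc0 hV'1
  have b4 : x / (16 * V') + ((D - 1) * (V' - 1) / (2 * V') + D / (4 * V')) * x ≤
      (m - 1) / (2 * m) * x * ((D - 1) * (V - 1) / V) := by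
    have e0 : 1 / (16 * V') + ((D - 1) * (V' - 1) / (2 * V') + D / (4 * V')) ≤
        (m - 1) / (2 * m) * ((D - 1) * (V - 1) / V) := by
      have f1 : (m - 1) / (2 * m) = 1 / 2 - 1 / (2 * m) := by
        have : m ≠ 0 := by positivity
        field_simp
      have f2 : (D - 1) * (V - 1) / V = (D - 1) - (D - 1) / V := by
        have : V ≠ 0 := by positivity
        field_simp
      have f3 : (D - 1) * (V' - 1) / (2 * V') = (D - 1) / 2 - (D - 1) / 2 * (1 / V') := by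
        have : V' ≠ 0 := by positivity
        field_simp
      have f4 : 1 / V ≤ 1 / 8 * (1 / V') := by
        rw [one_div_mul_one_div]
        exact one_div_le_one_div_of_le (by positivity) hVV
      have f5 : 1 / m ≤ 1 / (8 * D) * (1 / V') := by
        rw [one_div_mul_one_div]
        exact one_div_le_one_div_of_le (by positivity) hmV
      have f6 : D / (4 * V') = D / 4 * (1 / V') := by field_simp
      have f7 : 1 / (16 * V') = 1 / 16 * (1 / V') := by field_simp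
      have f8 : 1 / (2 * m) = 1 / 2 * (1 / m) := by field_simp
      have f9 : (D - 1) / V = (D - 1) * (1 / V) := by field_simp
      rw [f1, f2, f3, f6, f7, f8, f9]
      obtain ⟨v, hv⟩ : ∃ v : ℝ, v = 1 / V' := ⟨_, rfl⟩
      obtain ⟨u, hu⟩ : ∃ u : ℝ, u = 1 / V := ⟨_, rfl⟩
      obtain ⟨r, hr⟩ : ∃ r : ℝ, r = 1 / m := ⟨_, rfl⟩
      rw [← hv] at f4 f5 ⊢
      rw [← hu] at f4 ⊢
      rw [← hr] at f5 ⊢
      have hv0 : 0 < v := by rw [hv]; positivity
      have hu0 : 0 < u := by rw [hu]; positivity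
      have hr0 : 0 < r := by rw [hr]; positivity
      have f10 : D * r ≤ 1 / 8 * v := by
        have := mul_le_mul_of_nonneg_left f5 (show 0 ≤ D by linarith)
        have e : D * (1 / (8 * D) * v) = 1 / 8 * v := by
          have : D ≠ 0 := by positivity
          field_simp
        rwa [e] at this
      have f11 : (D - 1) * u ≤ (D - 1) * (1 / 8 * v) :=
        mul_le_mul_of_nonneg_left f4 (by linarith)
      have f12 : (1 / 2 - 1 / 2 * r) * (D - 1 - (D - 1) * u) =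
          (D - 1) / 2 - (D - 1) * u / 2 - (D - 1) * r / 2 + (D - 1) * (r * u) / 2 := by ring
      rw [f12]
      have f13 : 0 ≤ (D - 1) * (r * u) := by
        have : 0 ≤ D - 1 := by linarith
        positivity
      have f14 : 3 * v ≤ D * v := mul_le_mul_of_nonneg_right hD3 hv0.le
      clear hv hu hr f1 f2 f3 f4 f5 f6 f7 f8 f9 f12 b1 b2 b3 hVV hmV hx0 hy1 h1 h2 hup hlo
      linarith
    have := mul_le_mul_of_nonneg_right e0 hx0
    refine le_trans (le_of_eq ?_) (this.trans (le_of_eq ?_))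
    · have : V' ≠ 0 := by positivity
      field_simp
    · ring
  linarith

end

end Pool.Agent.T2H01.EK
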