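import Mathlib
import Pool.Agent.T2H01.EK.Words
import Pool.Agent.T2H01.EK.Gen

/-!
# The sums over the generators in the Schwinger-Dyson equation
-/

open MeasureTheory Matrix Filter
open scoped Matrix.Norms.Frobenius Topology
open Pool.Agent.H906R3.YM Pool.Agent.W793.YM Pool.Agent.TH618.YM Pool.Agent.T2H01.YM

namespace Pool.Agent.T2H01.EK

set_option linter.unusedSectionVars false
set_option linter.unusedVariables false

noncomputable section

variable {G : Type*} [Group G] [TopologicalSpace G] {N n d l : ℕ} {L : LD G N n}

lemma spl_nil (l : ℕ) (x : Fin d → ℤ) (k : Fin d) (y : Fin d → ℤ) (pre : List (Stp d)) :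
    spl l x k y pre [] = [] := rfl

lemma spl_pos {l : ℕ} {x : Fin d → ℤ} {k : Fin d} {y : Fin d → ℤ} (pre A : List (Stp d))
    (h : cs l (bs y (k, true)) = cs l x) : spl l x k y pre ((k, true) :: A) =
      (true, (x, (k, true) :: pre), (y, (k, true) :: A)) ::
        spl l x k (nx y (k, true)) (pre ++ [(k, true)]) A := by
  rw [spl, if_pos ⟨rfl, fun i => congrFun h i⟩]
  rfl

lemma spl_neg {l : ℕ} {x : Fin d → ℤ} {k : Fin d} {y : Fin d → ℤ} (pre A : List (Stp d))
    (h : cs l (bs y (k, false)) = cs l x) : spl l x k y pre ((k, false) :: A) =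
      (false, (x + Pi.single k 1, pre), (nx y (k, false), A)) ::
        spl l x k (nx y (k, false)) (pre ++ [(k, false)]) A := by
  rw [spl, if_pos ⟨rfl, fun i => congrFun h i⟩]
  rfl

lemma spl_ne {l : ℕ} {x : Fin d → ℤ} {k : Fin d} {y : Fin d → ℤ} (pre A : List (Stp d))
    {s : Stp d} (h : lkT l y s ≠ (cs l x, k)) : spl l x k y pre (s :: A) =
        spl l x k (nx y s) (pre ++ [s]) A := by
  rw [spl, if_neg, List.nil_append]
  rintro ⟨h1, h2⟩
  apply h
  unfold lkT
  rw [h1]
  congr 1
  funext i
  exact h2 i

/-- the main term of the splittings -/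
def spS (L : LD G N n) (V : LZ d → G) (s : List (Bool × Lp d × Lp d)) : ℂ :=
  (s.map fun t => sg t.1 * (wr L V t.2.1 * wr L V t.2.2)).sum

lemma spS_nil (V : LZ d → G) : spS L V [] = 0 := rfl

lemma spS_cons (V : LZ d → G) (t : Bool × Lp d × Lp d) (s : List (Bool × Lp d × Lp d)) :
    spS L V (t :: s) = sg t.1 * (wr L V t.2.1 * wr L V t.2.2) + spS L V s := by
  unfold spS
  rw [List.map_cons, List.sum_cons]

lemma wr_mul (hN : 0 < N) (V : LZ d → G) (a : Lp d) : trace (L.rho (hol V a.1 a.2)) = N * wr L V a := by
  unfold wr
  have : (N : ℂ) ≠ 0 := by exact_mod_cast hN.ne'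
  field_simp

lemma spl_sum (hN : 0 < N) (U : Ed d l → G) (x : Fin d → ℤ) (k : Fin d) (A : List (Stp d)) :
    ∀ (y : Fin d → ℤ) (pre : List (Stp d)), en (x + Pi.single k 1) pre = y →
    ‖∑ q : Qi N, (cw q : ℂ) * trace (gX q * (L.rho (hol (pe U) x ((k, true) :: pre)) *
      dhol L U (cs l x, k) (gX q) y A)) - 4 * (N : ℂ) ^ 2 * spS L (pe U) (spl l x k y pre A)‖ ≤
      4 * A.length := by
  have hN' : (N : ℂ) ≠ 0 := by exact_mod_cast hN.ne'
  induction A with
  | nil =>
    intro y pre hy
    simp only [dhol_nil, mul_zero, trace_zero, Finset.sum_const_zero, spl_nil, spS_nil, sub_zero,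
      norm_zero, List.length_nil, Nat.cast_zero]
    exact le_rfl
  | cons s A ih =>
    intro y pre hy
    set P : Mat N := L.rho (hol (pe U) x ((k, true) :: pre)) with hP
    set e : Ed d l := (cs l x, k) with he
    have hen : en x ((k, true) :: pre) = y := by rw [en_cons, nx_true, hy]
    have hP' : P * L.rho (stG (pe U) y s) = L.rho (hol (pe U) x ((k, true) :: (pre ++ [s]))) := by
      rw [hP, ← map_mul, ← List.cons_append, hol_append, hen, hol_cons (pe U) y, hol_nil, mul_one]
    have h1 := ih (nx y s) (pre ++ [s]) (by rw [en_append, hy, en_cons, en_nil])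
    have e1 : ∀ X : Mat N, P * dhol L U e X y (s :: A) =
        P * (dst L U e X y s * L.rho (hol (pe U) (nx y s) A)) +
          L.rho (hol (pe U) x ((k, true) :: (pre ++ [s]))) * dhol L U e X (nx y s) A := by
      intro X
      rw [dhol_cons, mul_add, ← Matrix.mul_assoc P (L.rho _), hP']
    have e2 : ∑ q : Qi N, (cw q : ℂ) * trace (gX q * (P * dhol L U e (gX q) y (s :: A))) =
        ∑ q : Qi N, (cw q : ℂ) * trace (gX q * (P * (dst L U e (gX q) y s *
          L.rho (hol (pe U) (nx y s) A)))) +
        ∑ q : Qi N, (cw q : ℂ) * trace (gX q * (L.rho (hol (pe U) x ((k, true) :: (pre ++ [s]))) *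
          dhol L U e (gX q) (nx y s) A)) := by
      rw [← Finset.sum_add_distrib]
      refine Finset.sum_congr rfl fun q _ => ?_
      rw [e1, mul_add, trace_add, mul_add]
    rw [e2]
    have hlen : 4 * ((s :: A).length : ℝ) = 4 * A.length + 4 := by
      rw [List.length_cons]; push_cast; ring
    rw [hlen]
    by_cases h : lkT l y s = e
    · obtain ⟨h2, h3⟩ := Prod.ext_iff.1 h
      obtain ⟨k', b⟩ := s
      change k' = k at h3
      subst h3
      change cs l (bs y (k', b)) = cs l x at h2
      rcases b with _ | _
      · -- negative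
        rw [spl_neg pre A h2, spS_cons]
        have f1 : ∀ q : Qi N, trace (gX q * (P * (dst L U e (gX q) y (k', false) *
            L.rho (hol (pe U) (nx y (k', false)) A)))) =
            -trace (gX q * (P * (L.rho (U e))ᴴ) * gX q *
              L.rho (hol (pe U) (nx y (k', false)) A)) := by
          intro q
          unfold dst
          rw [if_pos h]
          simp only [Bool.false_eq_true, if_false]
          rw [neg_mul, mul_neg, mul_neg, trace_neg]
          simp only [Matrix.mul_assoc]
        have f2 : ∑ q : Qi N, (cw q : ℂ) * trace (gX q * (P * (dst L U e (gX q) y (k', false) *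
            L.rho (hol (pe U) (nx y (k', false)) A)))) =
            4 * (trace (P * (L.rho (U e))ᴴ) * trace (L.rho (hol (pe U) (nx y (k', false)) A))) -
              4 / N * trace (P * (L.rho (U e))ᴴ * L.rho (hol (pe U) (nx y (k', false)) A)) := by
          simp only [f1, mul_neg, Finset.sum_neg_distrib]
          rw [comp_sw hN]
          ring
        have f3 : trace (P * (L.rho (U e))ᴴ) = N * wr L (pe U) (x + Pi.single k' 1, pre) := by
          rw [← wr_mul hN, hP, hol_cons, map_mul, nx_true, stG_pe]
          have : lkT l x (k', true) = e := rfl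
          rw [this]
          simp only [if_true]
          rw [Matrix.mul_assoc, trace_mul_comm, Matrix.mul_assoc, L.unit', mul_one]
        have f4 : P * (L.rho (U e))ᴴ * L.rho (hol (pe U) (nx y (k', false)) A) =
            L.rho (hol (pe U) x ((k', true) :: pre) * (U e)⁻¹ * hol (pe U) (nx y (k', false)) A) := by
          rw [map_mul, map_mul, L.rho_inv]
        rw [f2, f3, f4, wr_mul hN (pe U) (nx y (k', false), A)]
        have hsg : sg (false, (x + Pi.single k' 1, pre), (nx y (k', false), A)).1 = 1 := by
          simp [sg]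
        rw [hsg]
        have f5 : ‖(4 / N : ℂ) * trace (L.rho (hol (pe U) x ((k', true) :: pre) * (U e)⁻¹ *
            hol (pe U) (nx y (k', false)) A))‖ ≤ 4 := by
          rw [norm_mul, norm_div, Complex.norm_natCast]
          have h5 := norm_tr (L := L) (hol (pe U) x ((k', true) :: pre) * (U e)⁻¹ *
            hol (pe U) (nx y (k', false)) A)
          have hN2 : (0 : ℝ) < N := by exact_mod_cast hN
          calc ‖(4 : ℂ)‖ / (N : ℝ) * _ ≤ ‖(4 : ℂ)‖ / (N : ℝ) * N := by gcongr
            _ = 4 := by
              rw [div_mul_cancel₀ _ hN2.ne']; simp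
        refine (le_trans (le_of_eq ?_) ((norm_sub_le _ _).trans (add_le_add h1 f5)))
        congr 1
        ring
      · -- positive
        rw [spl_pos pre A h2, spS_cons]
        have f1 : ∀ q : Qi N, trace (gX q * (P * (dst L U e (gX q) y (k', true) *
            L.rho (hol (pe U) (nx y (k', true)) A)))) =
            trace (gX q * P * gX q * L.rho (hol (pe U) y ((k', true) :: A))) := by
          intro q
          unfold dst
          rw [if_pos h]
          simp only [if_true]
          rw [hol_cons, map_mul, stG_pe, h]
          simp only [if_true]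
          simp only [Matrix.mul_assoc]
        have f2 : ∑ q : Qi N, (cw q : ℂ) * trace (gX q * (P * (dst L U e (gX q) y (k', true) *
            L.rho (hol (pe U) (nx y (k', true)) A)))) =
            -4 * (trace P * trace (L.rho (hol (pe U) y ((k', true) :: A)))) +
              4 / N * trace (P * L.rho (hol (pe U) y ((k', true) :: A))) := by
          simp only [f1]
          rw [comp_sw hN]
        have f4 : P * L.rho (hol (pe U) y ((k', true) :: A)) =
            L.rho (hol (pe U) x ((k', true) :: pre) * hol (pe U) y ((k', true) :: A)) := by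
          rw [map_mul]
        rw [f2, f4, wr_mul hN (pe U) (y, (k', true) :: A), hP,
          wr_mul hN (pe U) (x, (k', true) :: pre)]
        have hsg : sg (true, (x, (k', true) :: pre), (y, (k', true) :: A)).1 = -1 := by
          simp [sg]
        rw [hsg]
        have f5 : ‖(4 / N : ℂ) * trace (L.rho (hol (pe U) x ((k', true) :: pre) *
            hol (pe U) y ((k', true) :: A)))‖ ≤ 4 := by
          rw [norm_mul, norm_div, Complex.norm_natCast]
          have h5 := norm_tr (L := L) (hol (pe U) x ((k', true) :: pre) *
            hol (pe U) y ((k', true) :: A))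
          have hN2 : (0 : ℝ) < N := by exact_mod_cast hN
          calc ‖(4 : ℂ)‖ / (N : ℝ) * _ ≤ ‖(4 : ℂ)‖ / (N : ℝ) * N := by gcongr
            _ = 4 := by
              rw [div_mul_cancel₀ _ hN2.ne']; simp
        refine (le_trans (le_of_eq ?_) ((norm_add_le _ _).trans (add_le_add h1 f5)))
        congr 1
        ring
    · rw [spl_ne pre A h]
      have f1 : ∀ q : Qi N, trace (gX q * (P * (dst L U e (gX q) y s *
            L.rho (hol (pe U) (nx y s) A)))) = 0 := by
        intro q
        unfold dst
        rw [if_neg h]
        simp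
      simp only [f1, mul_zero, Finset.sum_const_zero, zero_add]
      linarith

/-- The generators in one trace paired with the derivative of another one. -/
lemma mrg_hol (hN : 0 < N) (U : Ed d l → G) (e : Ed d l) (g : G) (A : List (Stp d)) :
    ∀ (y : Fin d → ℤ) (p : G),
    ‖∑ q : Qi N, (cw q : ℂ) * (trace (gX q * L.rho g) *
      trace (L.rho p * dhol L U e (gX q) y A))‖ ≤ 8 * N * A.length := by
  have hN2 : (0 : ℝ) < N := by exact_mod_cast hN
  have key : ∀ p' : G, ‖∑ q : Qi N, (cw q : ℂ) * (trace (gX q * L.rho g) *
      trace (gX q * L.rho p'))‖ ≤ 8 * N := by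
    intro p'
    rw [comp_tr hN]
    refine (norm_add_le _ _).trans ?_
    have h1 : ‖(-4 : ℂ) * trace (L.rho g * L.rho p')‖ ≤ 4 * N := by
      rw [← map_mul, norm_mul]
      have := norm_tr (L := L) (g * p')
      simp only [norm_neg, Complex.norm_ofNat]
      linarith
    have h2 : ‖(4 / N : ℂ) * (trace (L.rho g) * trace (L.rho p'))‖ ≤ 4 * N := by
      rw [norm_mul, norm_mul, norm_div, Complex.norm_natCast]
      have h3 := norm_tr (L := L) g
      have h4 := norm_tr (L := L) p'
      calc ‖(4 : ℂ)‖ / (N : ℝ) * (‖trace (L.rho g)‖ * ‖trace (L.rho p')‖)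
          ≤ ‖(4 : ℂ)‖ / (N : ℝ) * (N * N) := by gcongr
        _ = 4 * N := by
          simp only [Complex.norm_ofNat]
          field_simp
    linarith
  induction A with
  | nil =>
    intro y p
    simp [dhol_nil]
  | cons s A ih =>
    intro y p
    have e1 : ∀ X : Mat N, trace (L.rho p * dhol L U e X y (s :: A)) =
        trace (L.rho p * (dst L U e X y s * L.rho (hol (pe U) (nx y s) A))) +
          trace (L.rho (p * stG (pe U) y s) * dhol L U e X (nx y s) A) := by
      intro X
      rw [dhol_cons, mul_add, trace_add, map_mul, Matrix.mul_assoc]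
    have e2 : ∑ q : Qi N, (cw q : ℂ) * (trace (gX q * L.rho g) *
        trace (L.rho p * dhol L U e (gX q) y (s :: A))) =
        ∑ q : Qi N, (cw q : ℂ) * (trace (gX q * L.rho g) *
          trace (L.rho p * (dst L U e (gX q) y s * L.rho (hol (pe U) (nx y s) A)))) +
        ∑ q : Qi N, (cw q : ℂ) * (trace (gX q * L.rho g) *
          trace (L.rho (p * stG (pe U) y s) * dhol L U e (gX q) (nx y s) A)) := by
      rw [← Finset.sum_add_distrib]
      refine Finset.sum_congr rfl fun q _ => ?_
      rw [e1]
      ring
    rw [e2]
    have h1 := ih (nx y s) (p * stG (pe U) y s)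
    have h2 : ‖∑ q : Qi N, (cw q : ℂ) * (trace (gX q * L.rho g) *
          trace (L.rho p * (dst L U e (gX q) y s * L.rho (hol (pe U) (nx y s) A))))‖ ≤ 8 * N := by
      by_cases h : lkT l y s = e
      · rcases hs : s.2 with _ | _
        · have f1 : ∀ q : Qi N, trace (L.rho p * (dst L U e (gX q) y s *
              L.rho (hol (pe U) (nx y s) A))) =
              -trace (gX q * L.rho (hol (pe U) (nx y s) A * p * (U e)⁻¹)) := by
            intro q
            unfold dst
            rw [if_pos h, hs]
            simp only [Bool.false_eq_true, if_false]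
            rw [map_mul, map_mul, L.rho_inv, neg_mul, mul_neg, trace_neg, ← Matrix.mul_assoc,
              trace_mul_comm, ← Matrix.mul_assoc, ← Matrix.mul_assoc, ← Matrix.mul_assoc,
              trace_mul_comm]
            simp only [Matrix.mul_assoc]
          simp only [f1, mul_neg, Finset.sum_neg_distrib, norm_neg]
          exact key _
        · have f1 : ∀ q : Qi N, trace (L.rho p * (dst L U e (gX q) y s *
              L.rho (hol (pe U) (nx y s) A))) =
              trace (gX q * L.rho (U e * hol (pe U) (nx y s) A * p)) := by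
            intro q
            unfold dst
            rw [if_pos h, hs]
            simp only [if_true]
            rw [map_mul, map_mul, trace_mul_comm]
            simp only [Matrix.mul_assoc]
          simp only [f1]
          exact key _
      · have f1 : ∀ q : Qi N, trace (L.rho p * (dst L U e (gX q) y s *
            L.rho (hol (pe U) (nx y s) A))) = 0 := by
          intro q
          unfold dst
          rw [if_neg h]
          simp
        simp only [f1, mul_zero, Finset.sum_const_zero, norm_zero]
        positivity
    refine (norm_add_le _ _).trans ((add_le_add h2 h1).trans (le_of_eq ?_))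
    rw [List.length_cons]
    push_cast
    ring

/-- the total length of a list of loops -/
def len (r : List (Lp d)) : ℕ := (r.map fun a => a.2.length).sum

lemma len_cons (a : Lp d) (r : List (Lp d)) : len (a :: r) = a.2.length + len r := by
  unfold len; rw [List.map_cons, List.sum_cons]

/-- the generators in one trace paired with the derivative of a product of traces -/
lemma mrg (hN : 0 < N) (U : Ed d l → G) (e : Ed d l) (g : G) (r : List (Lp d)) :
    ‖∑ q : Qi N, (cw q : ℂ) * (trace (gX q * L.rho g) * dws L U e (gX q) r)‖ ≤ 8 * len r := by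
  have hN2 : (0 : ℝ) < N := by exact_mod_cast hN
  induction r with
  | nil => simp [dws, len]
  | cons a r ih =>
    have e1 : ∑ q : Qi N, (cw q : ℂ) * (trace (gX q * L.rho g) * dws L U e (gX q) (a :: r)) =
        (∑ q : Qi N, (cw q : ℂ) * (trace (gX q * L.rho g) *
          trace (L.rho 1 * dhol L U e (gX q) a.1 a.2))) * (ws L (pe U) r / N) +
        wr L (pe U) a * ∑ q : Qi N, (cw q : ℂ) * (trace (gX q * L.rho g) *
          dws L U e (gX q) r) := by
      rw [Finset.sum_mul, Finset.mul_sum, ← Finset.sum_add_distrib]
      refine Finset.sum_congr rfl fun q _ => ?_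
      rw [dws_cons, map_one, one_mul]
      ring
    rw [e1]
    have h1 := mrg_hol (L := L) hN U e g a.2 a.1 1
    refine (norm_add_le _ _).trans ?_
    rw [norm_mul, norm_mul, norm_div, Complex.norm_natCast]
    have h2 := norm_ws (L := L) (pe U) r
    have h3 := norm_wr (L := L) (pe U) a
    have h4 : ‖∑ q : Qi N, (cw q : ℂ) * (trace (gX q * L.rho g) *
          trace (L.rho 1 * dhol L U e (gX q) a.1 a.2))‖ * (‖ws L (pe U) r‖ / N) ≤
        8 * N * a.2.length * (1 / N) := by gcongr
    have h5 : ‖wr L (pe U) a‖ * ‖∑ q : Qi N, (cw q : ℂ) * (trace (gX q * L.rho g) *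
          dws L U e (gX q) r)‖ ≤ 1 * (8 * len r) := by gcongr
    have h6 : 8 * (N : ℝ) * a.2.length * (1 / N) = 8 * a.2.length := by field_simp
    rw [len_cons]
    push_cast
    linarith

end

end Pool.Agent.T2H01.EK
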