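import Mathlib
import Pool.Agent.T2H01.EK.SDa

/-!
# The staples as paths
-/

open MeasureTheory Matrix Filter
open scoped Matrix.Norms.Frobenius Topology
open Pool.Agent.H906R3.YM Pool.Agent.W793.YM Pool.Agent.TH618.YM Pool.Agent.T2H01.YM

namespace Pool.Agent.T2H01.EK

set_option linter.unusedSectionVars false
set_option linter.unusedVariables false

noncomputable section

variable {G : Type*} [Group G] [TopologicalSpace G] {N n d l : ℕ} {L : LD G N n}

lemma pick [NeZero l] (a : Fin d → ZMod l) (i : Fin d) (e : Ed d l) (f : (Fin d → ZMod l) → Mat N) :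
    ∑ y : Fin d → ZMod l, (if ((y + a, i) : Ed d l) = e then f y else 0) =
      if i = e.2 then f (e.1 - a) else 0 := by
  obtain ⟨z, k⟩ := e
  rw [Finset.sum_eq_single (z - a)]
  · rw [sub_add_cancel]
    by_cases h : i = k
    · subst h
      simp
    · simp [h]
  · intro x _ hx
    rw [if_neg]
    intro h1
    have h2 := (Prod.ext_iff.1 h1).1
    simp only at h2
    exact hx (by rw [← h2, add_sub_cancel_right])
  · intro h; exact absurd (Finset.mem_univ _) h

/-- the staple in the plane of the directions `k`, `j` on the positive side -/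
def Fp (L : LD G N n) (U : Ed d l → G) (X : Fin d → ZMod l) (k j : Fin d) : Mat N :=
  L.rho (U (X, k) * U (X + eT k, j) * (U (X + eT j, k))⁻¹ * (U (X, j))⁻¹)

/-- the staple on the negative side -/
def Fm' (L : LD G N n) (U : Ed d l → G) (X : Fin d → ZMod l) (k j : Fin d) : Mat N :=
  L.rho (U (X, k) * (U (X - eT j + eT k, j))⁻¹ * (U (X - eT j, k))⁻¹ * U (X - eT j, j))

lemma stS_sum [NeZero l] (U : Ed d l → G) (X : Fin d → ZMod l) (k : Fin d) :
    LN.stS L (X, k) U = ∑ j, if j ≠ k then Fp L U X k j + Fm' L U X k j else 0 := by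
  have e1 : LN.stS L (X, k) U = ∑ i, ∑ j, if i < j then
      ((if i = k then Fp L U X k j + Fm' L U X k j else 0) +
        (if j = k then Fp L U X k i + Fm' L U X k i else 0)) else 0 := by
    unfold LN.stS
    rw [Finset.sum_comm]
    refine Finset.sum_congr rfl fun i _ => ?_
    rw [Finset.sum_comm]
    refine Finset.sum_congr rfl fun j _ => ?_
    by_cases hij : i < j
    · simp only [if_pos hij]
      unfold LN.stp
      simp only [Finset.sum_add_distrib]
      have p1 := pick (N := N) (0 : Fin d → ZMod l) i ((X, k) : Ed d l) fun y =>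
        L.rho (U (y, i) * U (y + eT i, j) * (U (y + eT j, i))⁻¹ * (U (y, j))⁻¹)
      have p2 := pick (N := N) (eT i : Fin d → ZMod l) j ((X, k) : Ed d l) fun y =>
        L.rho (U (y + eT i, j) * (U (y + eT j, i))⁻¹ * (U (y, j))⁻¹ * U (y, i))
      have p3 := pick (N := N) (eT j : Fin d → ZMod l) i ((X, k) : Ed d l) fun y =>
        L.rho (U (y + eT j, i) * (U (y + eT i, j))⁻¹ * (U (y, i))⁻¹ * U (y, j))
      have p4 := pick (N := N) (0 : Fin d → ZMod l) j ((X, k) : Ed d l) fun y =>
        L.rho (U (y, j) * U (y + eT j, i) * (U (y + eT i, j))⁻¹ * (U (y, i))⁻¹)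
      simp only [add_zero, sub_zero] at p1 p4
      rw [p1, p2, p3, p4]
      have hne : i ≠ j := hij.ne
      by_cases h1 : i = k
      · subst h1
        have h2 : j ≠ i := hne.symm
        rw [if_pos rfl, if_neg h2, if_pos rfl, if_neg h2, if_pos rfl, if_neg h2]
        unfold Fp Fm'
        rw [sub_add_cancel]
        simp
      · rw [if_neg h1, if_neg h1, if_neg h1]
        by_cases h2 : j = k
        · subst h2
          rw [if_pos rfl, if_pos rfl, if_pos rfl]
          unfold Fp Fm'
          rw [sub_add_cancel]
          simp only [zero_add, add_zero]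
          rw [add_comm]
        · rw [if_neg h2, if_neg h2, if_neg h2]
          simp
    · simp only [if_neg hij]
      simp
  rw [e1]
  have e2 : ∀ i j : Fin d, (if i < j then
      ((if i = k then Fp L U X k j + Fm' L U X k j else 0) +
        (if j = k then Fp L U X k i + Fm' L U X k i else 0)) else 0) =
      (if i = k then (if i < j then Fp L U X k j + Fm' L U X k j else 0) else 0) +
        (if j = k then (if i < j then Fp L U X k i + Fm' L U X k i else 0) else 0) := by
    intro i j
    split_ifs <;> simp
  simp only [e2, Finset.sum_add_distrib]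
  have e3 : ∑ i : Fin d, ∑ j : Fin d, (if i = k then (if i < j then Fp L U X k j +
      Fm' L U X k j else 0) else 0) = ∑ j, if k < j then Fp L U X k j + Fm' L U X k j else 0 := by
    rw [Finset.sum_comm]
    refine Finset.sum_congr rfl fun j _ => ?_
    rw [Finset.sum_ite_eq' Finset.univ k]
    simp
  have e4 : ∑ i : Fin d, ∑ j : Fin d, (if j = k then (if i < j then Fp L U X k i +
      Fm' L U X k i else 0) else 0) = ∑ j, if j < k then Fp L U X k j + Fm' L U X k j else 0 := by
    refine Finset.sum_congr rfl fun j _ => ?_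
    rw [Finset.sum_ite_eq' Finset.univ k]
    simp
  rw [e3, e4, ← Finset.sum_add_distrib]
  refine Finset.sum_congr rfl fun j _ => ?_
  rcases lt_trichotomy j k with h | h | h
  · rw [if_neg (not_lt.2 h.le), if_pos h, if_pos h.ne, zero_add]
  · subst h; simp
  · rw [if_pos h, if_neg (not_lt.2 h.le), if_pos h.ne', add_zero]

lemma stG_true (U : Ed d l → G) (x : Fin d → ℤ) (k : Fin d) :
    stG (pe U) x (k, true) = U (cs l x, k) := by
  rw [stG_pe]; rfl

lemma stG_false (U : Ed d l → G) (x : Fin d → ℤ) (k : Fin d) :
    stG (pe U) x (k, false) = (U (cs l x - eT k, k))⁻¹ := by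
  rw [stG_pe]
  unfold lkT
  rw [bs_false, cs_sub, cs_single]
  simp

lemma sq_pos (U : Ed d l → G) (x : Fin d → ℤ) (k j : Fin d) :
    L.rho (hol (pe U) x [(k, true), (j, true), (k, false), (j, false)]) =
      Fp L U (cs l x) k j := by
  unfold Fp
  congr 1
  rw [hol_cons, hol_cons, hol_cons, hol_cons, hol_nil, mul_one, stG_true, stG_true, stG_false,
    stG_false, nx_true, nx_true, nx_false]
  simp only [cs_add, cs_sub, cs_single]
  rw [add_sub_right_comm, add_sub_cancel_right]
  have h1 : cs l x + eT j - eT j = cs l x := by abel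
  rw [h1]
  group

lemma sq_neg (U : Ed d l → G) (x : Fin d → ℤ) (k j : Fin d) :
    L.rho (hol (pe U) x [(k, true), (j, false), (k, false), (j, true)]) =
      Fm' L U (cs l x) k j := by
  unfold Fm'
  congr 1
  rw [hol_cons, hol_cons, hol_cons, hol_cons, hol_nil, mul_one, stG_true, stG_true, stG_false,
    stG_false, nx_true, nx_false, nx_false]
  simp only [cs_add, cs_sub, cs_single]
  have h1 : cs l x + eT k - eT j = cs l x - eT j + eT k := by abel
  have h2 : cs l x - eT j + eT k - eT k = cs l x - eT j := by abel
  rw [h1, h2]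
  group

lemma plq_sum {M : Type*} [AddCommMonoid M] (k : Fin d) (f : List (Stp d) → M) :
    ((plq k).map f).sum = ∑ j, if j ≠ k then
      f [(k, true), (j, true), (k, false), (j, false)] +
        f [(k, true), (j, false), (k, false), (j, true)] else 0 := by
  unfold plq
  have h1 : ∀ s : List (Fin d), ((s.flatMap (sqs k)).map f).sum =
      (s.map fun j => f [(k, true), (j, true), (k, false), (j, false)] +
        f [(k, true), (j, false), (k, false), (j, true)]).sum := by
    intro s
    induction s with
    | nil => rfl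
    | cons j s ih =>
      rw [List.flatMap_cons, List.map_append, List.sum_append, ih, List.map_cons, List.sum_cons]
      congr 1
      simp [sqs]
  rw [h1, ← Finset.sum_filter]
  have h2 : (List.filter (fun j => decide (j ≠ k)) (List.finRange d)).Nodup :=
    (List.nodup_finRange d).filter _
  have h3 : (Finset.univ.filter fun j => j ≠ k) =
      (List.filter (fun j => decide (j ≠ k)) (List.finRange d)).toFinset := by
    ext j; simp
  rw [h3, List.sum_toFinset _ h2]

lemma stS_plq [NeZero l] (U : Ed d l → G) (x : Fin d → ℤ) (k : Fin d) :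
    LN.stS L (cs l x, k) U = ((plq k).map fun p => L.rho (hol (pe U) x p)).sum := by
  rw [stS_sum, plq_sum]
  refine Finset.sum_congr rfl fun j _ => ?_
  rw [sq_pos, sq_neg]

lemma sq_en (x : Fin d → ℤ) (k j : Fin d) :
    en x [(k, true), (j, true), (k, false), (j, false)] = x ∧
      en x [(k, true), (j, false), (k, false), (j, true)] = x := by
  simp only [en_cons, en_nil, nx_true, nx_false]
  constructor <;> abel

lemma plq_mem {k : Fin d} {p : List (Stp d)} (hp : p ∈ plq k) : (∀ x, en x p = x) ∧ p.length = 4 := by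
  unfold plq at hp
  rw [List.mem_flatMap] at hp
  obtain ⟨j, _, hj⟩ := hp
  unfold sqs at hj
  rcases List.mem_cons.1 hj with rfl | hj
  · exact ⟨fun x => (sq_en x k j).1, rfl⟩
  · rcases List.mem_cons.1 hj with rfl | hj
    · exact ⟨fun x => (sq_en x k j).2, rfl⟩
    · exact absurd hj (List.not_mem_nil)

lemma hol_rf' {p : List (Stp d)} (hp : ∀ x, en x p = x) (V : LZ d → G) (x : Fin d → ℤ) :
    hol V x (rf p) = (hol V x p)⁻¹ := by
  have := hol_rf V x p
  rwa [hp] at this

lemma list_sum_ct (s : List (Mat N)) : (s.sum)ᴴ = (s.map fun A => Aᴴ).sum := by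
  induction s with
  | nil => simp
  | cons a s ih => rw [List.sum_cons, conjTranspose_add, ih, List.map_cons, List.sum_cons]

lemma stS_plq_ct [NeZero l] (U : Ed d l → G) (x : Fin d → ℤ) (k : Fin d) :
    (LN.stS L (cs l x, k) U)ᴴ = ((plq k).map fun p => L.rho (hol (pe U) x (rf p))).sum := by
  rw [stS_plq, list_sum_ct, List.map_map]
  congr 1
  refine List.map_congr_left fun p hp => ?_
  rw [Function.comp_apply, hol_rf' (plq_mem hp).1, L.rho_inv]

end

end Pool.Agent.T2H01.EK
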