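import Mathlib
import Pool.Agent.T2H01.EK.SDb

/-!
# The equation of Makeenko and Migdal at finite `N`
-/

open MeasureTheory Matrix Filter
open scoped Matrix.Norms.Frobenius Topology
open Pool.Agent.H906R3.YM Pool.Agent.W793.YM Pool.Agent.TH618.YM Pool.Agent.T2H01.YM

namespace Pool.Agent.T2H01.EK

set_option linter.unusedSectionVars false
set_option linter.unusedVariables false

noncomputable section

variable {G : Type*} [Group G] [TopologicalSpace G] [IsTopologicalGroup G] [CompactSpace G]
  [SecondCountableTopology G] [MeasurableSpace G] [BorelSpace G] (μ : Measure G)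
  [IsProbabilityMeasure μ] [μ.IsMulLeftInvariant] [μ.IsMulRightInvariant] [μ.IsInvInvariant]
  {N n d l : ℕ}
  [NeZero l] {L : LD G N n}

/-! ### integration by parts for complex functions -/

lemma intC {E : Type*} [Fintype E] {F : (E → G) → ℂ} (hF : Continuous F) :
    Integrable F (ME μ E) :=
  hF.integrable_of_hasCompactSupport (HasCompactSupport.of_compactSpace _)

lemma ibpC {E : Type*} [DecidableEq E] [Fintype E] {c : ℝ → G}
    (hc : ∀ s t, c (s + t) = c s * c t) (e : E) {F F' : (E → G) → ℂ}
    (hF : Continuous F) (hF' : Continuous F')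
    (hd : ∀ U, HasDerivAt (fun t => F (LN.sh e (c t) U)) (F' U) 0) : ∫ U, F' U ∂ME μ E = 0 := by
  have h1 : ∫ U, (F' U).re ∂ME μ E = 0 :=
    LN.ibp μ hc e (Complex.continuous_re.comp hF) (Complex.continuous_re.comp hF') fun U =>
      Complex.reCLM.hasFDerivAt.comp_hasDerivAt (0 : ℝ) (hd U)
  have h2 : ∫ U, (F' U).im ∂ME μ E = 0 :=
    LN.ibp μ hc e (Complex.continuous_im.comp hF) (Complex.continuous_im.comp hF') fun U =>
      Complex.imCLM.hasFDerivAt.comp_hasDerivAt (0 : ℝ) (hd U)
  have h3 := integral_re_add_im (intC μ hF')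
  rw [← h3]
  have h4 : ∫ U, RCLike.re (F' U) ∂ME μ E = 0 := h1
  have h5 : ∫ U, RCLike.im (F' U) ∂ME μ E = 0 := h2
  rw [h4, h5]
  simp

/-! ### continuity -/

lemma stG_cont (x : Fin d → ℤ) (s : Stp d) : Continuous fun V : LZ d → G => stG V x s := by
  unfold stG
  split_ifs
  · exact continuous_apply _
  · exact (continuous_apply _).inv

lemma hol_cont (x : Fin d → ℤ) (w : List (Stp d)) : Continuous fun V : LZ d → G => hol V x w := by
  induction w generalizing x with
  | nil => exact continuous_const
  | cons s w ih => exact (stG_cont x s).mul (ih (nx x s))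

lemma rhol_cont (x : Fin d → ℤ) (w : List (Stp d)) :
    Continuous fun U : Ed d l → G => L.rho (hol (pe U) x w) :=
  L.cont.comp ((hol_cont x w).comp pe_cont)

lemma dst_cont (e : Ed d l) (X : Mat N) (x : Fin d → ℤ) (s : Stp d) :
    Continuous fun U : Ed d l → G => dst L U e X x s := by
  unfold dst
  have h1 : Continuous fun U : Ed d l → G => L.rho (U e) := L.cont.comp (continuous_apply e)
  split_ifs
  · exact continuous_const.mul h1
  · exact ((continuous_star.comp h1).mul continuous_const).neg
  · exact continuous_const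

lemma dhol_cont (e : Ed d l) (X : Mat N) (x : Fin d → ℤ) (w : List (Stp d)) :
    Continuous fun U : Ed d l → G => dhol L U e X x w := by
  induction w generalizing x with
  | nil => exact continuous_const
  | cons s w ih =>
    refine ((dst_cont e X x s).mul (rhol_cont _ w)).add (Continuous.mul ?_ (ih (nx x s)))
    exact L.cont.comp ((stG_cont x s).comp pe_cont)

lemma wr_cont (a : Lp d) : Continuous fun U : Ed d l → G => wr L (pe U) a :=
  (Continuous.matrix_trace (rhol_cont a.1 a.2)).div_const _

lemma ws_cont (s : List (Lp d)) : Continuous fun U : Ed d l → G => ws L (pe U) s := by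
  induction s with
  | nil => exact continuous_const
  | cons a s ih =>
    have : (fun U : Ed d l → G => ws L (pe U) (a :: s)) =
        fun U => wr L (pe U) a * ws L (pe U) s := by funext U; exact ws_cons _ _ _
    rw [this]
    exact (wr_cont a).mul ih

lemma dws_cont (e : Ed d l) (X : Mat N) (s : List (Lp d)) :
    Continuous fun U : Ed d l → G => dws L U e X s := by
  induction s with
  | nil => exact continuous_const
  | cons a s ih =>
    exact (((Continuous.matrix_trace (dhol_cont e X a.1 a.2)).div_const _).mul (ws_cont s)).add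
      ((wr_cont a).mul ih)

/-! ### complex expectations -/

variable (L) in
/-- unnormalised complex expectations -/
def Jz (β : ℝ) (F : (Ed d l → G) → ℂ) : ℂ :=
  ∫ U, F U * (Real.exp (-(β * act L U)) : ℂ) ∂ME μ (Ed d l)

variable (L) in
/-- complex expectations -/
def ez (β : ℝ) (F : (Ed d l → G) → ℂ) : ℂ := Jz μ L β F / (Zt μ L β (fun _ : Ed d l → G => 1) : ℂ)

lemma expc_cont (β : ℝ) :
    Continuous fun U : Ed d l → G => ((Real.exp (-(β * act L U)) : ℝ) : ℂ) :=
  Complex.continuous_ofReal.comp (Real.continuous_exp.comp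
    (continuous_const.mul (act_cont : Continuous (act L : (Ed d l → G) → ℝ))).neg)

lemma Jz_add {β : ℝ} {F H : (Ed d l → G) → ℂ} (hF : Continuous F) (hH : Continuous H) :
    Jz μ L β (fun U => F U + H U) = Jz μ L β F + Jz μ L β H := by
  have h1 := integral_add (intC μ (hF.mul (expc_cont (L := L) β)))
    (intC μ (hH.mul (expc_cont (L := L) β)))
  have h2 : Jz μ L β (fun U => F U + H U) = ∫ U, ((F U * (Real.exp (-(β * act L U)) : ℂ)) +
      H U * (Real.exp (-(β * act L U)) : ℂ)) ∂ME μ (Ed d l) := by
    unfold Jz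
    exact integral_congr_ae (Eventually.of_forall fun U => by
      show (F U + H U) * _ = F U * _ + H U * _
      ring)
  rw [h2]
  exact h1

lemma Jz_smul {β : ℝ} (c : ℂ) (F : (Ed d l → G) → ℂ) :
    Jz μ L β (fun U => c * F U) = c * Jz μ L β F := by
  unfold Jz
  rw [← integral_const_mul]
  exact integral_congr_ae (Eventually.of_forall fun U => by
    show c * F U * _ = c * (F U * _); ring)

lemma ez_add {β : ℝ} {F H : (Ed d l → G) → ℂ} (hF : Continuous F) (hH : Continuous H) :
    ez μ L β (fun U => F U + H U) = ez μ L β F + ez μ L β H := by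
  unfold ez; rw [Jz_add μ hF hH, add_div]

lemma ez_smul {β : ℝ} (c : ℂ) (F : (Ed d l → G) → ℂ) :
    ez μ L β (fun U => c * F U) = c * ez μ L β F := by
  unfold ez; rw [Jz_smul, mul_div_assoc]

lemma Jz_one (β : ℝ) : Jz μ L β (fun _ : Ed d l → G => 1) =
    (Zt μ L β (fun _ : Ed d l → G => 1) : ℂ) := by
  unfold Jz Zt
  rw [← integral_complex_ofReal]
  refine integral_congr_ae (Eventually.of_forall fun U => ?_)
  simp

lemma ez_one (β : ℝ) : ez μ L β (fun _ : Ed d l → G => 1) = 1 := by
  unfold ez
  rw [Jz_one]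
  exact div_self (by exact_mod_cast (Zt_pos μ β).ne')

lemma norm_Jz {β : ℝ} {F : (Ed d l → G) → ℂ} {C : ℝ} (hF : ∀ U, ‖F U‖ ≤ C) :
    ‖Jz μ L β F‖ ≤ C * Zt μ L β (fun _ : Ed d l → G => 1) := by
  unfold Jz Zt
  rw [← integral_const_mul]
  refine norm_integral_le_of_norm_le ?_ (Eventually.of_forall fun U => ?_)
  · refine (integrable_cont μ ?_).const_mul C
    exact continuous_const.mul (Real.continuous_exp.comp
      (continuous_const.mul (act_cont : Continuous (act L : (Ed d l → G) → ℝ))).neg)
  · rw [norm_mul, Complex.norm_real, Real.norm_of_nonneg (Real.exp_pos _).le, one_mul]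
    exact mul_le_mul_of_nonneg_right (hF U) (Real.exp_pos _).le

lemma norm_ez {β : ℝ} {F : (Ed d l → G) → ℂ} {C : ℝ} (hF : ∀ U, ‖F U‖ ≤ C) :
    ‖ez μ L β F‖ ≤ C := by
  unfold ez
  have h1 : 0 < Zt μ L β (fun _ : Ed d l → G => 1) := Zt_pos μ β
  rw [norm_div, Complex.norm_real, Real.norm_of_nonneg h1.le, div_le_iff₀ h1]
  exact norm_Jz μ hF

/-! ### the equation -/

section eqn

lemma trace_list (M : Mat N) (s : List (Mat N)) : trace (M * s.sum) = (s.map fun A => trace (M * A)).sum := by
  induction s with
  | nil => simp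
  | cons a s ih => rw [List.sum_cons, mul_add, trace_add, ih, List.map_cons, List.sum_cons]

/-- the plaquette terms -/
def plS (L : LD G N n) (V : LZ d → G) (x : Fin d → ℤ) (k : Fin d) (w : List (Stp d)) : ℂ :=
  ((plq k).map fun p => -wr L V (x, w ++ p) + wr L V (x, w ++ rf p) +
    wr L V (x, w) * wr L V (x, p) - wr L V (x, w) * wr L V (x, rf p)).sum

lemma re_tr_skew {X S : Mat N} (hX : Xᴴ = -X) :
    (((trace (X * S)).re : ℝ) : ℂ) = (1 / 2) * (trace (X * S) - trace (X * Sᴴ)) := by
  have h1 : trace (X * Sᴴ) = -(starRingEnd ℂ) (trace (X * S)) := by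
    rw [starRingEnd_apply, ← trace_conjTranspose, conjTranspose_mul, hX, mul_neg, trace_neg,
      neg_neg, trace_mul_comm]
  rw [h1, Complex.re_eq_add_conj]
  ring

lemma act_sum (hN : 0 < N) (U : Ed d l → G) (x : Fin d → ℤ) (k : Fin d) (w : List (Stp d))
    (hw : cs l (en x w) = cs l x) :
    ∑ q : Qi N, (cw q : ℂ) * (trace (gX q * L.rho (hol (pe U) x w)) *
      (((trace (gX q * LN.stS L (cs l x, k) U)).re : ℝ) : ℂ)) = 2 * N * plS L (pe U) x k w := by
  have hN' : (N : ℂ) ≠ 0 := by exact_mod_cast hN.ne'
  set S := LN.stS L (cs l x, k) U with hS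
  set W := L.rho (hol (pe U) x w) with hW
  have e1 : ∑ q : Qi N, (cw q : ℂ) * (trace (gX q * W) * (((trace (gX q * S)).re : ℝ) : ℂ)) =
      (1 / 2) * (∑ q : Qi N, (cw q : ℂ) * (trace (gX q * W) * trace (gX q * S)) -
        ∑ q : Qi N, (cw q : ℂ) * (trace (gX q * W) * trace (gX q * Sᴴ))) := by
    rw [← Finset.sum_sub_distrib, Finset.mul_sum]
    refine Finset.sum_congr rfl fun q _ => ?_
    rw [re_tr_skew (gX_skew q)]
    ring
  rw [e1, comp_tr hN, comp_tr hN]
  have t1 : trace (W * S) = N * ((plq k).map fun p => wr L (pe U) (x, w ++ p)).sum := by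
    rw [hS, stS_plq, trace_list, List.map_map, ← List.sum_map_mul_left]
    congr 1
    refine List.map_congr_left fun p _ => ?_
    rw [Function.comp_apply, ← wr_mul hN, hW, ← map_mul]
    rw [hol_append, hol_per U hw p]
  have t2 : trace (W * Sᴴ) = N * ((plq k).map fun p => wr L (pe U) (x, w ++ rf p)).sum := by
    rw [hS, stS_plq_ct, trace_list, List.map_map, ← List.sum_map_mul_left]
    congr 1
    refine List.map_congr_left fun p _ => ?_
    rw [Function.comp_apply, ← wr_mul hN, hW, ← map_mul]
    rw [hol_append, hol_per U hw (rf p)]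
  have t3 : trace S = N * ((plq k).map fun p => wr L (pe U) (x, p)).sum := by
    have := trace_list 1 ((plq k).map fun p => L.rho (hol (pe U) x p))
    rw [one_mul] at this
    rw [hS, stS_plq, this, List.map_map, ← List.sum_map_mul_left]
    congr 1
    refine List.map_congr_left fun p _ => ?_
    rw [Function.comp_apply, one_mul, ← wr_mul hN]
  have t4 : trace Sᴴ = N * ((plq k).map fun p => wr L (pe U) (x, rf p)).sum := by
    have := trace_list 1 ((plq k).map fun p => L.rho (hol (pe U) x (rf p)))
    rw [one_mul] at this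
    rw [hS, stS_plq_ct, this, List.map_map, ← List.sum_map_mul_left]
    congr 1
    refine List.map_congr_left fun p _ => ?_
    rw [Function.comp_apply, one_mul, ← wr_mul hN]
  have t5 : trace W = N * wr L (pe U) (x, w) := by rw [← wr_mul hN]
  rw [t1, t2, t3, t4, t5]
  have t6 : plS L (pe U) x k w = -((plq k).map fun p => wr L (pe U) (x, w ++ p)).sum +
      ((plq k).map fun p => wr L (pe U) (x, w ++ rf p)).sum +
      wr L (pe U) (x, w) * ((plq k).map fun p => wr L (pe U) (x, p)).sum -
      wr L (pe U) (x, w) * ((plq k).map fun p => wr L (pe U) (x, rf p)).sum := by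
    unfold plS
    generalize plq k = s
    induction s with
    | nil => simp
    | cons p s ih =>
      simp only [List.map_cons, List.sum_cons]
      rw [ih]
      ring
  rw [t6]
  field_simp
  ring

variable {μ}

/-- the functional of the loops -/
def ph (μ : Measure G) (L : LD G N n) (l : ℕ) [NeZero l] (b : ℝ) (s : List (Lp d)) : ℂ :=
  ez μ L (N * b) fun U : Ed d l → G => ws L (pe U) s

lemma sd_int (hN : 0 < N) (hg : HG L) (b : ℝ) (x : Fin d → ℤ) (k : Fin d) (A : List (Stp d))
    (r : List (Lp d)) (hcl : Cl l (x, (k, true) :: A)) :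
    ‖Jz μ L (N * b) (fun U : Ed d l → G => (-wr L (pe U) (x, (k, true) :: A) +
      spS L (pe U) (spls l x k A) + (b / 2 : ℂ) * plS L (pe U) x k ((k, true) :: A)) *
        ws L (pe U) r)‖ ≤ (A.length + 2 * len r + 1) / (N : ℝ) ^ 2 *
          Zt μ L (N * b) (fun _ : Ed d l → G => 1) := by
  have hN' : (N : ℂ) ≠ 0 := by exact_mod_cast hN.ne'
  have hNr : (0 : ℝ) < N := by exact_mod_cast hN
  obtain ⟨w, hw⟩ : ∃ w, w = (k, true) :: A := ⟨_, rfl⟩
  obtain ⟨e, he⟩ : ∃ e : Ed d l, e = (cs l x, k) := ⟨_, rfl⟩
  have hcl' : cs l (en x w) = cs l x := by rw [hw]; exact (cl_iff _).1 hcl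
  -- the derivatives
  obtain ⟨F', hF'⟩ : ∃ F' : Qi N → (Ed d l → G) → ℂ, F' = fun q U =>
      (trace (gX q * dhol L U e (gX q) x w) * ws L (pe U) r +
        trace (gX q * L.rho (hol (pe U) x w)) * dws L U e (gX q) r +
        trace (gX q * L.rho (hol (pe U) x w)) * ws L (pe U) r *
          (((N * b) * (trace (gX q * LN.stS L e U)).re : ℝ) : ℂ)) := ⟨_, rfl⟩
  have hF'c : ∀ q, Continuous (F' q) := by
    intro q
    rw [hF']
    have c1 : Continuous fun U : Ed d l → G => trace (gX q * dhol L U e (gX q) x w) :=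
      Continuous.matrix_trace (continuous_const.mul (dhol_cont e (gX q) x w))
    have c2 : Continuous fun U : Ed d l → G => trace (gX q * L.rho (hol (pe U) x w)) :=
      Continuous.matrix_trace (continuous_const.mul (rhol_cont x w))
    have c3 : Continuous fun U : Ed d l → G =>
        (((N * b) * (trace (gX q * LN.stS L e U)).re : ℝ) : ℂ) :=
      Complex.continuous_ofReal.comp (continuous_const.mul (Complex.continuous_re.comp
        (Continuous.matrix_trace (continuous_const.mul (LN.stS_cont L e)))))
    exact ((c1.mul (ws_cont r)).add (c2.mul (dws_cont e (gX q) r))).add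
      ((c2.mul (ws_cont r)).mul c3)
  have hint : ∀ q : Qi N, cw q ≠ 0 → ∫ U, F' q U * (Real.exp (-(N * b * act L U)) : ℂ)
      ∂ME μ (Ed d l) = 0 := by
    intro q hq
    obtain ⟨c, hc1, hc2⟩ := hg q hq
    have c0 : c 0 = 1 := by
      have := hc1 0 0
      rw [add_zero] at this
      exact (mul_eq_left.mp this.symm)
    refine ibpC μ hc1 e (F := fun U => trace (gX q * L.rho (hol (pe U) x w)) * ws L (pe U) r *
      (Real.exp (-(N * b * act L U)) : ℂ)) ?_ ((hF'c q).mul (expc_cont (N * b))) ?_
    · exact ((Continuous.matrix_trace (continuous_const.mul (rhol_cont x w))).mul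
        (ws_cont r)).mul (expc_cont (N * b))
    · intro U
      have hs : LN.sh e (c 0) U = U := by rw [c0, LN.sh_one]
      have d1 : HasDerivAt (fun t => trace (gX q * L.rho (hol (pe (LN.sh e (c t) U)) x w)))
          (trace (gX q * dhol L U e (gX q) x w)) 0 :=
        tr_deriv ((dhol_deriv c0 (gX_skew q) hc2 e U x w).const_mul (gX q))
      have d2 := ws_deriv c0 (gX_skew q) hc2 e U r
      have d3 := LN.act_deriv c0 hc2 e U
      have d4 : HasDerivAt (fun t => ((Real.exp (-(N * b * act L (LN.sh e (c t) U))) : ℝ) : ℂ))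
          (((Real.exp (-(N * b * act L U)) * ((N * b) * (trace (gX q * LN.stS L e U)).re) : ℝ)) : ℂ)
          0 := by
        have d5 := ((d3.const_mul (N * b)).neg).exp
        simp only [Pi.neg_apply, hs] at d5
        have d6 := d5.ofReal_comp
        refine d6.congr_deriv ?_
        push_cast
        ring
      have d7 := (d1.mul d2).mul d4
      simp only [Pi.mul_apply, hs] at d7
      rw [hF']
      refine d7.congr_deriv ?_
      push_cast
      ring
  -- the sum over the generators
  have hsum : ∫ U, (∑ q : Qi N, (cw q : ℂ) * F' q U) * (Real.exp (-(N * b * act L U)) : ℂ)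
      ∂ME μ (Ed d l) = 0 := by
    have e1 : ∀ U : Ed d l → G, (∑ q : Qi N, (cw q : ℂ) * F' q U) *
        (Real.exp (-(N * b * act L U)) : ℂ) = ∑ q : Qi N, (cw q : ℂ) * (F' q U *
          (Real.exp (-(N * b * act L U)) : ℂ)) := by
      intro U
      rw [Finset.sum_mul]
      exact Finset.sum_congr rfl fun q _ => by ring
    simp only [e1]
    rw [integral_finsetSum]
    · refine Finset.sum_eq_zero fun q _ => ?_
      rw [integral_const_mul]
      by_cases hq : cw q = 0
      · rw [hq]; simp
      · rw [hint q hq, mul_zero]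
    · intro q _
      exact (intC μ ((hF'c q).mul (expc_cont (N * b)))).const_mul _
  obtain ⟨R, hR⟩ : ∃ R : (Ed d l → G) → ℂ, R = fun U => (∑ q : Qi N, (cw q : ℂ) * F' q U) -
      4 * (N : ℂ) ^ 2 * ((-wr L (pe U) (x, w) + spS L (pe U) (spls l x k A) +
        (b / 2 : ℂ) * plS L (pe U) x k w) * ws L (pe U) r) := ⟨_, rfl⟩
  have hRb : ∀ U, ‖R U‖ ≤ 4 * (A.length + 2 * len r + 1) := by
    intro U
    have s1 : ∑ q : Qi N, (cw q : ℂ) * F' q U =
        (∑ q : Qi N, (cw q : ℂ) * trace (gX q * dhol L U e (gX q) x w)) * ws L (pe U) r +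
        (∑ q : Qi N, (cw q : ℂ) * (trace (gX q * L.rho (hol (pe U) x w)) *
          dws L U e (gX q) r)) +
        (N * b : ℂ) * (∑ q : Qi N, (cw q : ℂ) * (trace (gX q * L.rho (hol (pe U) x w)) *
          (((trace (gX q * LN.stS L e U)).re : ℝ) : ℂ))) * ws L (pe U) r := by
      rw [hF', Finset.sum_mul, Finset.mul_sum, Finset.sum_mul, ← Finset.sum_add_distrib,
        ← Finset.sum_add_distrib]
      refine Finset.sum_congr rfl fun q _ => ?_
      push_cast
      ring
    have s2 : ∑ q : Qi N, (cw q : ℂ) * trace (gX q * dhol L U e (gX q) x w) =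
        -(4 * N - 4 / N) * (N * wr L (pe U) (x, w)) +
          ∑ q : Qi N, (cw q : ℂ) * trace (gX q * (L.rho (hol (pe U) x ((k, true) :: [])) *
            dhol L U (cs l x, k) (gX q) (x + Pi.single k 1) A)) := by
      rw [← wr_mul hN, ← comp_sq hN, ← Finset.sum_add_distrib]
      refine Finset.sum_congr rfl fun q _ => ?_
      rw [← mul_add, ← trace_add]
      congr 2
      rw [hw, dhol_cons, mul_add, Matrix.mul_assoc (gX q) (gX q)]
      congr 2
      · unfold dst
        have : lkT l x (k, true) = e := by rw [he]; rfl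
        rw [if_pos this]
        simp only [if_true]
        rw [hol_cons, map_mul, stG_true, he]
        simp only [Matrix.mul_assoc]
      · rw [hol_cons, hol_nil, mul_one, he]
        rfl
    have s3 := spl_sum (L := L) hN U x k A (x + Pi.single k 1) [] rfl
    have s4 := mrg (L := L) hN U e (hol (pe U) x w) r
    have s5 := act_sum (L := L) hN U x k w hcl'
    rw [← he] at s5
    have s6 : R U = (∑ q : Qi N, (cw q : ℂ) * trace (gX q * (L.rho (hol (pe U) x ((k, true) :: [])) *
            dhol L U (cs l x, k) (gX q) (x + Pi.single k 1) A)) - 4 * (N : ℂ) ^ 2 *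
              spS L (pe U) (spls l x k A)) * ws L (pe U) r +
        4 * wr L (pe U) (x, w) * ws L (pe U) r +
        ∑ q : Qi N, (cw q : ℂ) * (trace (gX q * L.rho (hol (pe U) x w)) *
          dws L U e (gX q) r) := by
      rw [hR]
      simp only
      rw [s1, s2, s5]
      field_simp
      ring
    rw [s6]
    have h1 := norm_ws (L := L) (pe U) r
    have h2 := norm_wr (L := L) (pe U) (x, w)
    refine (norm_add_le _ _).trans ?_
    refine (add_le_add (norm_add_le _ _) le_rfl).trans ?_
    have h3 : ‖(∑ q : Qi N, (cw q : ℂ) * trace (gX q * (L.rho (hol (pe U) x ((k, true) :: [])) *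
            dhol L U (cs l x, k) (gX q) (x + Pi.single k 1) A)) - 4 * (N : ℂ) ^ 2 *
              spS L (pe U) (spls l x k A)) * ws L (pe U) r‖ ≤ 4 * A.length := by
      rw [norm_mul]
      calc _ ≤ 4 * (A.length : ℝ) * 1 := mul_le_mul s3 h1 (norm_nonneg _) (by positivity)
        _ = 4 * A.length := by ring
    have h4 : ‖4 * wr L (pe U) (x, w) * ws L (pe U) r‖ ≤ 4 := by
      rw [norm_mul, norm_mul]
      calc _ ≤ ‖(4 : ℂ)‖ * 1 * 1 := by gcongr
        _ = 4 := by simp
    linarith
  have hRc : Continuous R := by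
    rw [hR]
    refine (continuous_finsetSum _ fun q _ => continuous_const.mul (hF'c q)).sub
      (continuous_const.mul (Continuous.mul ?_ (ws_cont r)))
    have c1 : Continuous fun U : Ed d l → G => spS L (pe U) (spls l x k A) := by
      unfold spS
      generalize spls l x k A = s
      induction s with
      | nil => simp only [List.map_nil, List.sum_nil]; exact continuous_const
      | cons t s ih =>
        simp only [List.map_cons, List.sum_cons]
        exact (continuous_const.mul ((wr_cont _).mul (wr_cont _))).add ih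
    have c2 : Continuous fun U : Ed d l → G => plS L (pe U) x k w := by
      unfold plS
      generalize plq k = s
      induction s with
      | nil => simp only [List.map_nil, List.sum_nil]; exact continuous_const
      | cons t s ih =>
        simp only [List.map_cons, List.sum_cons]
        exact ((((wr_cont _).neg.add (wr_cont _)).add ((wr_cont _).mul (wr_cont _))).sub
          ((wr_cont _).mul (wr_cont _))).add ih
    exact ((wr_cont _).neg.add c1).add (continuous_const.mul c2)
  have hmain : (4 * (N : ℂ) ^ 2) * Jz μ L (N * b) (fun U : Ed d l → G => (-wr L (pe U) (x, w) +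
      spS L (pe U) (spls l x k A) + (b / 2 : ℂ) * plS L (pe U) x k w) * ws L (pe U) r) =
      Jz μ L (N * b) (fun U => (-1 : ℂ) * R U) := by
    rw [← Jz_smul]
    have h1 : Jz μ L (N * b) (fun U => ∑ q : Qi N, (cw q : ℂ) * F' q U) = 0 := hsum
    have h2 : Jz μ L (N * b) (fun U : Ed d l → G => (4 * (N : ℂ) ^ 2) * ((-wr L (pe U) (x, w) +
      spS L (pe U) (spls l x k A) + (b / 2 : ℂ) * plS L (pe U) x k w) * ws L (pe U) r)) =
        Jz μ L (N * b) (fun U => (∑ q : Qi N, (cw q : ℂ) * F' q U) + (-1 : ℂ) * R U) := by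
      congr 1
      funext U
      rw [hR]
      ring
    have h3 := Jz_add μ (L := L) (β := N * b) (F := fun U => ∑ q : Qi N, (cw q : ℂ) * F' q U)
      (H := fun U => (-1 : ℂ) * R U)
      (continuous_finsetSum _ fun q _ => continuous_const.mul (hF'c q))
      (continuous_const.mul hRc)
    rw [h2, h3, h1, zero_add]
  have hb := norm_Jz μ (L := L) (β := N * b) (F := fun U => (-1 : ℂ) * R U)
    (C := 4 * (A.length + 2 * len r + 1)) (fun U => by
      rw [norm_mul, norm_neg, norm_one, one_mul]; exact hRb U)
  rw [← hmain, norm_mul] at hb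
  have h4 : ‖(4 * (N : ℂ) ^ 2)‖ = 4 * (N : ℝ) ^ 2 := by
    rw [norm_mul, norm_pow, Complex.norm_natCast]; simp
  rw [h4] at hb
  rw [← hw, div_mul_eq_mul_div, le_div_iff₀ (by positivity)]
  linarith

end eqn

end

end Pool.Agent.T2H01.EK
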