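import Mathlib
import Pool.Agent.T2H01.EK.SDb

/-!
# Stability of the equation of Makeenko and Migdal at strong coupling
-/

open MeasureTheory Matrix Filter
open scoped Matrix.Norms.Frobenius Topology
open Pool.Agent.H906R3.YM Pool.Agent.W793.YM Pool.Agent.TH618.YM Pool.Agent.T2H01.YM

namespace Pool.Agent.T2H01.EK

set_option linter.unusedSectionVars false
set_option linter.unusedVariables false

noncomputable section

variable {d : ℕ}

/-! ### the weights -/

/-- the weight of a loop of a given length -/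
def cwt : ℕ → ℝ
  | 0 => 1
  | n + 1 => 11 / 10 * (2 ^ n * (catalan n : ℝ))

lemma cwt_zero : cwt 0 = 1 := rfl

lemma cwt_succ (n : ℕ) : cwt (n + 1) = 11 / 10 * (2 ^ n * (catalan n : ℝ)) := rfl

lemma cat_rec (n : ℕ) : ((n : ℝ) + 2) * catalan (n + 1) = 2 * (2 * n + 1) * catalan n := by
  have h1 := succ_mul_catalan_eq_centralBinom n
  have h2 := succ_mul_catalan_eq_centralBinom (n + 1)
  have h3 := Nat.succ_mul_centralBinom_succ n
  have h1' : ((n : ℝ) + 1) * catalan n = Nat.centralBinom n := by exact_mod_cast h1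
  have h2' : ((n : ℝ) + 1 + 1) * catalan (n + 1) = Nat.centralBinom (n + 1) := by
    exact_mod_cast h2
  have h3' : ((n : ℝ) + 1) * Nat.centralBinom (n + 1) =
      2 * (2 * n + 1) * Nat.centralBinom n := by exact_mod_cast h3
  have h4 : ((n : ℝ) + 1) ≠ 0 := by positivity
  apply mul_left_cancel₀ h4
  calc ((n : ℝ) + 1) * ((n + 2) * catalan (n + 1)) =
      (n + 1) * ((n + 1 + 1) * catalan (n + 1)) := by ring
    _ = 2 * (2 * n + 1) * ((n + 1) * catalan n) := by rw [h2', h3', h1']
    _ = _ := by ring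

lemma cat_pos (n : ℕ) : (1 : ℝ) ≤ catalan n := by
  induction n with
  | zero => simp
  | succ n ih =>
    have h := cat_rec n
    have hn : (0 : ℝ) ≤ n := Nat.cast_nonneg n
    by_contra hlt
    push Not at hlt
    nlinarith

lemma cat_le (n : ℕ) : (catalan (n + 1) : ℝ) ≤ 4 * catalan n := by
  have h := cat_rec n
  have hn : (0 : ℝ) ≤ n := Nat.cast_nonneg n
  have h1 := cat_pos n
  have h2 := cat_pos (n + 1)
  by_contra hlt
  push Not at hlt
  nlinarith

lemma cat_mono (n : ℕ) : (catalan n : ℝ) ≤ catalan (n + 1) := by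
  have h := cat_rec n
  have hn : (0 : ℝ) ≤ n := Nat.cast_nonneg n
  have h1 := cat_pos n
  have h2 := cat_pos (n + 1)
  by_contra hlt
  push Not at hlt
  nlinarith

lemma cwt_one_le (n : ℕ) : 1 ≤ cwt n := by
  cases n with
  | zero => exact le_rfl
  | succ n =>
    rw [cwt_succ]
    have h1 := cat_pos n
    have h2 : (1 : ℝ) ≤ 2 ^ n := one_le_pow₀ (by norm_num)
    nlinarith

lemma cwt_pos (n : ℕ) : 0 < cwt n := lt_of_lt_of_le one_pos (cwt_one_le n)

lemma cwt_mono (n : ℕ) : cwt n ≤ cwt (n + 1) := by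
  cases n with
  | zero => exact (cwt_one_le 1).trans' le_rfl
  | succ n =>
    rw [cwt_succ, cwt_succ, pow_succ]
    have h1 := cat_mono n
    have h0 := cat_pos n
    have h2 : (0 : ℝ) < 2 ^ n := by positivity
    have h3 : (2 : ℝ) ^ n * catalan n ≤ 2 ^ n * 2 * catalan (n + 1) := by
      nlinarith
    linarith

lemma cwt_plaq (n : ℕ) : cwt (n + 1 + 4) ≤ 4096 * cwt (n + 1) := by
  have h : n + 1 + 4 = (n + 4) + 1 := rfl
  rw [h, cwt_succ, cwt_succ]
  have h1 := cat_le n
  have h2 := cat_le (n + 1)
  have h3 := cat_le (n + 2)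
  have h4 := cat_le (n + 3)
  have h5 : (catalan (n + 4) : ℝ) ≤ 256 * catalan n := by
    have e1 : n + 1 + 1 = n + 2 := rfl
    have e2 : n + 2 + 1 = n + 3 := rfl
    have e3 : n + 3 + 1 = n + 4 := rfl
    rw [e1] at h2; rw [e2] at h3; rw [e3] at h4
    linarith
  have h6 : (0 : ℝ) < 2 ^ n := by positivity
  rw [pow_add]
  nlinarith

lemma cwt_four : cwt 4 = 44 := by
  rw [cwt_succ, catalan_three]
  norm_num

lemma cwt_lower (n : ℕ) : (11 / 10 : ℝ) ^ n ≤ cwt n := by
  cases n with
  | zero => simp [cwt_zero]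
  | succ n =>
    rw [cwt_succ, pow_succ]
    have h1 := cat_pos n
    have h2 : (11 / 10 : ℝ) ^ n ≤ 2 ^ n := pow_le_pow_left₀ (by norm_num) (by norm_num) n
    have h3 : (0 : ℝ) < 2 ^ n := by positivity
    nlinarith

lemma cwt_upper (n : ℕ) : cwt n ≤ 8 ^ n := by
  cases n with
  | zero => simp [cwt_zero]
  | succ n =>
    rw [cwt_succ]
    have h1 : (catalan n : ℝ) ≤ 4 ^ n := by
      induction n with
      | zero => simp
      | succ n ih => rw [pow_succ]; linarith [cat_le n]
    have h2 : (0 : ℝ) < 2 ^ n := by positivity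
    have h3 : (8 : ℝ) ^ (n + 1) = 8 * (2 ^ n * 4 ^ n) := by
      rw [← mul_pow, pow_succ]; norm_num; ring
    rw [h3]
    have h4 : (2 : ℝ) ^ n * catalan n ≤ 2 ^ n * 4 ^ n := mul_le_mul_of_nonneg_left h1 h2.le
    have h5 : (0 : ℝ) < 2 ^ n * 4 ^ n := by positivity
    linarith

lemma cwt_conv (n : ℕ) : ∑ m ∈ Finset.range n, cwt (m + 1) * cwt (n - m) = 11 / 20 * cwt (n + 1)
    ∨ n = 0 := by
  cases n with
  | zero => right; rfl
  | succ n =>
    left
    have h1 : ∀ m ∈ Finset.range (n + 1), cwt (m + 1) * cwt (n + 1 - m) =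
        121 / 100 * 2 ^ n * ((catalan m : ℝ) * catalan (n - m)) := by
      intro m hm
      have hm' : m ≤ n := Nat.lt_succ_iff.1 (Finset.mem_range.1 hm)
      have e : n + 1 - m = (n - m) + 1 := by omega
      rw [e, cwt_succ, cwt_succ]
      have e2 : (2 : ℝ) ^ n = 2 ^ m * 2 ^ (n - m) := by
        rw [← pow_add]; congr 1; omega
      rw [e2]
      ring
    rw [Finset.sum_congr rfl h1, ← Finset.mul_sum, cwt_succ, catalan_succ, pow_succ]
    push_cast
    rw [Finset.sum_range fun m => (catalan m : ℝ) * catalan (n - m)]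
    ring

/-- the weight of a list of loops -/
def WT (s : List (Lp d)) : ℝ := (s.map fun a => cwt a.2.length).prod

lemma WT_nil : WT ([] : List (Lp d)) = 1 := rfl

lemma WT_cons (a : Lp d) (s : List (Lp d)) : WT (a :: s) = cwt a.2.length * WT s := by
  unfold WT; rw [List.map_cons, List.prod_cons]

lemma WT_one_le (s : List (Lp d)) : 1 ≤ WT s := by
  induction s with
  | nil => exact le_rfl
  | cons a s ih => rw [WT_cons]; exact one_le_mul_of_one_le_of_one_le (cwt_one_le _) ih

lemma WT_pos (s : List (Lp d)) : 0 < WT s := lt_of_lt_of_le one_pos (WT_one_le s)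

lemma WT_lower (s : List (Lp d)) : (11 / 10 : ℝ) ^ len s ≤ WT s := by
  induction s with
  | nil => exact le_of_eq rfl
  | cons a s ih =>
    rw [WT_cons, len_cons, pow_add]
    exact mul_le_mul (cwt_lower _) ih (by positivity) (cwt_pos _).le

lemma WT_upper (s : List (Lp d)) : WT s ≤ 8 ^ len s := by
  induction s with
  | nil => exact le_of_eq rfl
  | cons a s ih =>
    rw [WT_cons, len_cons, pow_add]
    exact mul_le_mul (cwt_upper _) ih (WT_pos s).le (by positivity)

lemma len_le_WT (s : List (Lp d)) : (len s : ℝ) ≤ 10 * WT s := by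
  have h1 := WT_lower s
  have h2 := one_add_mul_le_pow (show (-2 : ℝ) ≤ 1 / 10 by norm_num) (len s)
  have h3 : (1 + 1 / 10 : ℝ) = 11 / 10 := by norm_num
  rw [h3] at h2
  linarith

lemma iv_length (a : Lp d) : (iv a).2.length = a.2.length := by
  unfold iv; simp only; rw [rf_length]

lemma WT_iv (s : List (Lp d)) : WT (s.map iv) = WT s := by
  unfold WT
  rw [List.map_map]
  congr 1
  exact List.map_congr_left fun a _ => by rw [Function.comp_apply, iv_length]

lemma len_iv (s : List (Lp d)) : len (s.map iv) = len s := by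
  unfold len
  rw [List.map_map]
  congr 1
  exact List.map_congr_left fun a _ => by rw [Function.comp_apply, iv_length]

/-! ### splittings -/

lemma spl_wt (l : ℕ) (x : Fin d → ℤ) (k : Fin d) (A : List (Stp d)) :
    ∀ (y : Fin d → ℤ) (pre : List (Stp d)),
    ((spl l x k y pre A).map fun t => cwt t.2.1.2.length * cwt t.2.2.2.length).sum ≤
      ∑ m ∈ Finset.range A.length, cwt (pre.length + m + 1) * cwt (A.length - m) := by
  induction A with
  | nil => intro y pre; simp [spl]
  | cons s A ih =>
    intro y pre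
    unfold spl
    rw [List.map_append, List.sum_append, List.length_cons, Finset.sum_range_succ']
    have h1 := ih (nx y s) (pre ++ [s])
    have h2 : ∀ m ∈ Finset.range A.length, cwt ((pre ++ [s]).length + m + 1) *
        cwt (A.length - m) = cwt (pre.length + (m + 1) + 1) * cwt (A.length + 1 - (m + 1)) := by
      intro m _
      rw [List.length_append, List.length_singleton]
      congr 2
      · omega
      · omega
    rw [Finset.sum_congr rfl h2] at h1
    refine (add_comm _ _).le.trans (add_le_add h1 ?_)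
    · rw [add_zero, Nat.sub_zero]
      have p1 := cwt_pos pre.length
      have p2 := cwt_pos A.length
      have p3 := cwt_pos (pre.length + 1)
      have p4 := cwt_pos (A.length + 1)
      have p5 := cwt_mono pre.length
      have p6 := cwt_mono A.length
      split_ifs
      · simp
      · simp only [List.map_cons, List.map_nil, List.sum_cons, List.sum_nil, add_zero]
        exact mul_le_mul p5 p6 p2.le p3.le
      · simp only [List.map_nil, List.sum_nil]
        positivity

lemma spls_wt (l : ℕ) (x : Fin d → ℤ) (k : Fin d) (A : List (Stp d)) :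
    ((spls l x k A).map fun t => cwt t.2.1.2.length * cwt t.2.2.2.length).sum ≤
      11 / 20 * cwt (A.length + 1) := by
  have h1 := spl_wt l x k A (x + Pi.single k 1) []
  unfold spls
  refine h1.trans ?_
  simp only [List.length_nil, zero_add]
  rcases cwt_conv A.length with h | h
  · exact h.le
  · rw [h]; simp only [Finset.range_zero, Finset.sum_empty]
    have := cwt_pos (0 + 1)
    positivity

lemma cl_cs (l : ℕ) (a : Lp d) : Cl l a ↔ (cs l (en a.1 a.2) : Fin d → ZMod l) = cs l a.1 := cl_iff a

lemma spl_cl {l : ℕ} {x : Fin d → ℤ} {k : Fin d} (A : List (Stp d)) :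
    ∀ (y : Fin d → ℤ) (pre : List (Stp d)), en (x + Pi.single k 1) pre = y →
    (cs l (en y A) : Fin d → ZMod l) = cs l x →
    ∀ t ∈ spl l x k y pre A, Cl l t.2.1 ∧ Cl l t.2.2 := by
  induction A with
  | nil => intro y pre _ _ t ht; simp [spl] at ht
  | cons s A ih =>
    intro y pre hy hA t ht
    unfold spl at ht
    rw [List.mem_append] at ht
    rcases ht with ht | ht
    · split_ifs at ht with h1 h2
      · rw [List.mem_singleton] at ht
        obtain ⟨h1a, h1b⟩ := h1
        have hbs : bs y s = y := by unfold bs; rw [if_pos h2]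
        rw [hbs] at h1b
        have hyx : (cs l y : Fin d → ZMod l) = cs l x := by funext i; exact h1b i
        subst ht
        constructor
        · rw [cl_cs]
          show cs l (en x ((k, true) :: pre)) = cs l x
          rw [en_cons, nx_true, hy, hyx]
        · rw [cl_cs]
          show cs l (en y (s :: A)) = cs l y
          rw [hA, hyx]
      · rw [List.mem_singleton] at ht
        obtain ⟨h1a, h1b⟩ := h1
        have hbs : bs y s = nx y s := by unfold bs nx; rw [if_neg h2, if_neg h2]
        have hyx : (cs l (nx y s) : Fin d → ZMod l) = cs l x := by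
          rw [← hbs]; funext i; exact h1b i
        subst ht
        constructor
        · rw [cl_cs]
          show cs l (en (x + Pi.single k 1) pre) = cs l (x + Pi.single k 1)
          rw [hy]
          have h3 : nx y s = y - Pi.single k 1 := by
            unfold nx; rw [if_neg h2, h1a]
          rw [h3, cs_sub] at hyx
          rw [cs_add, ← hyx]
          abel
        · rw [cl_cs]
          show cs l (en (nx y s) A) = cs l (nx y s)
          rw [hyx, ← hA, en_cons]
      · simp at ht
    · refine ih (nx y s) (pre ++ [s]) ?_ ?_ t ht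
      · rw [en_append, hy, en_cons, en_nil]
      · rw [← hA, en_cons]

lemma spls_cl {l : ℕ} {x : Fin d → ℤ} {k : Fin d} {A : List (Stp d)}
    (h : Cl l (x, (k, true) :: A)) : ∀ t ∈ spls l x k A, Cl l t.2.1 ∧ Cl l t.2.2 := by
  refine spl_cl A _ [] rfl ?_
  have h1 := (cl_cs l _).1 h
  simp only [en_cons, nx_true] at h1
  exact h1

lemma rf_closed {p : List (Stp d)} (hp : ∀ x, en x p = x) : ∀ x, en x (rf p) = x := by
  intro x
  have := en_rf x p
  rwa [hp] at this

lemma cl_app {l : ℕ} {a : Lp d} (h : Cl l a) {p : List (Stp d)} (hp : ∀ x, en x p = x) :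
    Cl l (a.1, a.2 ++ p) := by
  rw [cl_cs] at h ⊢
  simp only [en_append, hp]
  exact h

lemma cl_of_closed {l : ℕ} {p : List (Stp d)} (hp : ∀ x, en x p = x) (x : Fin d → ℤ) :
    Cl l (x, p) := by
  rw [cl_cs]
  simp only [hp]

lemma cl_iv {l : ℕ} {a : Lp d} (h : Cl l a) : Cl l (iv a) := by
  rw [cl_cs] at h ⊢
  unfold iv
  simp only [en_rf]
  exact h.symm

lemma cl_neg {l : ℕ} {x : Fin d → ℤ} {k : Fin d} {A : List (Stp d)}
    (h : Cl l (x, (k, false) :: A)) : Cl l (x - Pi.single k 1, (k, true) :: rf A) := by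
  rw [cl_cs] at h ⊢
  simp only [en_cons, nx_false, nx_true] at h ⊢
  have h1 : (x - Pi.single k 1 + Pi.single k 1 : Fin d → ℤ) = x := by abel
  rw [h1]
  have h2 := cs_en (l := l) h (rf A)
  rw [en_rf] at h2
  exact h2.symm

/-! ### the bound of one step -/

lemma norm_lsum {α : Type*} (s : List α) (f : α → ℂ) : ‖(s.map f).sum‖ ≤ (s.map fun a => ‖f a‖).sum := by
  induction s with
  | nil => simp
  | cons a s ih =>
    simp only [List.map_cons, List.sum_cons]
    exact (norm_add_le _ _).trans (add_le_add le_rfl ih)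

lemma lsum_le {α : Type*} (s : List α) (f g : α → ℝ) (h : ∀ a ∈ s, f a ≤ g a) :
    (s.map f).sum ≤ (s.map g).sum := by
  induction s with
  | nil => simp
  | cons a s ih =>
    simp only [List.map_cons, List.sum_cons]
    exact add_le_add (h a (by simp)) (ih fun b hb => h b (by simp [hb]))

lemma plq_count (k : Fin d) : ((plq k).map fun _ => (1 : ℝ)).sum ≤ 2 * d := by
  rw [plq_sum]
  calc ∑ j : Fin d, (if j ≠ k then (1 : ℝ) + 1 else 0) ≤ ∑ _j : Fin d, (2 : ℝ) := by
        refine Finset.sum_le_sum fun j _ => ?_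
        split_ifs <;> norm_num
    _ = 2 * d := by simp; ring

lemma lsum_const {α : Type*} (s : List α) (c : ℝ) : (s.map fun _ => c).sum =
    c * (s.map fun _ => (1 : ℝ)).sum := by
  induction s with
  | nil => simp
  | cons a s ih =>
    simp only [List.map_cons, List.sum_cons]
    rw [ih]; ring

lemma mm_bound {l : ℕ} {b K : ℝ} (hb0 : 0 ≤ b) (hK : 0 ≤ K) {φ : List (Lp d) → ℂ}
    (hφ : ∀ s, (∀ a ∈ s, Cl l a) → ‖φ s‖ ≤ K * WT s) {x : Fin d → ℤ} {k : Fin d}
    {A : List (Stp d)} {r : List (Lp d)} (h : Cl l (x, (k, true) :: A))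
    (hr : ∀ a ∈ r, Cl l a) :
    ‖mm l b φ x k A r‖ ≤ (11 / 20 + 8280 * (b * d)) * (K * WT ((x, (k, true) :: A) :: r)) := by
  unfold mm
  have hcl : ∀ {a c : Lp d}, Cl l a → Cl l c → ∀ t ∈ a :: c :: r, Cl l t := by
    intro a c ha hc t ht
    simp only [List.mem_cons] at ht
    rcases ht with rfl | rfl | ht
    · exact ha
    · exact hc
    · exact hr t ht
  have hcl1 : ∀ {a : Lp d}, Cl l a → ∀ t ∈ a :: r, Cl l t := by
    intro a ha t ht
    simp only [List.mem_cons] at ht
    rcases ht with rfl | ht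
    · exact ha
    · exact hr t ht
  have hW := WT_pos r
  have e0 : WT ((x, (k, true) :: A) :: r) = cwt (A.length + 1) * WT r := by
    rw [WT_cons]; rfl
  have p1 : ‖((spls l x k A).map fun t => sg t.1 * φ (t.2.1 :: t.2.2 :: r)).sum‖ ≤
      11 / 20 * (K * WT ((x, (k, true) :: A) :: r)) := by
    refine (norm_lsum _ _).trans ?_
    refine (lsum_le _ _ (fun t => (K * WT r) * (cwt t.2.1.2.length * cwt t.2.2.2.length))
      fun t ht => ?_).trans ?_
    · obtain ⟨h1, h2⟩ := spls_cl h t ht
      have h3 := hφ (t.2.1 :: t.2.2 :: r) (hcl h1 h2)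
      rw [WT_cons, WT_cons] at h3
      have h4 : ‖sg t.1‖ = 1 := by unfold sg; split_ifs <;> simp
      rw [norm_mul, h4, one_mul]
      refine h3.trans (le_of_eq ?_)
      ring
    · have h5 : ((spls l x k A).map fun t => (K * WT r) *
          (cwt t.2.1.2.length * cwt t.2.2.2.length)).sum = (K * WT r) *
          ((spls l x k A).map fun t => cwt t.2.1.2.length * cwt t.2.2.2.length).sum := by
        rw [List.sum_map_mul_left]
      rw [h5, e0]
      have h6 := mul_le_mul_of_nonneg_left (spls_wt l x k A) (mul_nonneg hK hW.le)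
      refine h6.trans (le_of_eq ?_)
      ring
  have p2 : ‖((plq k).map fun p =>
      -φ ((x, (k, true) :: A ++ p) :: r) + φ ((x, (k, true) :: A ++ rf p) :: r) +
        φ ((x, (k, true) :: A) :: (x, p) :: r) -
          φ ((x, (k, true) :: A) :: (x, rf p) :: r)).sum‖ ≤
      (8280 * (2 * d)) * (K * WT ((x, (k, true) :: A) :: r)) := by
    refine (norm_lsum _ _).trans ?_
    refine (lsum_le _ _ (fun _ => 8280 * (K * WT ((x, (k, true) :: A) :: r)))
      fun p hp => ?_).trans ?_
    · obtain ⟨hp1, hp2⟩ := plq_mem hp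
      have q1 := hφ ((x, (k, true) :: A ++ p) :: r) (hcl1 (cl_app h hp1))
      have q2 := hφ ((x, (k, true) :: A ++ rf p) :: r) (hcl1 (cl_app h (rf_closed hp1)))
      have q3 := hφ ((x, (k, true) :: A) :: (x, p) :: r) (hcl h (cl_of_closed hp1 x))
      have q4 := hφ ((x, (k, true) :: A) :: (x, rf p) :: r)
        (hcl h (cl_of_closed (rf_closed hp1) x))
      have l1 : ((k, true) :: A ++ p).length = A.length + 1 + 4 := by
        rw [List.length_append, List.length_cons, hp2]
      have l2 : ((k, true) :: A ++ rf p).length = A.length + 1 + 4 := by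
        rw [List.length_append, List.length_cons, rf_length, hp2]
      rw [WT_cons] at q1 q2
      rw [WT_cons, WT_cons] at q3 q4
      simp only at q1 q2 q3 q4
      rw [l1] at q1
      rw [l2] at q2
      rw [hp2, cwt_four, List.length_cons] at q3
      rw [rf_length, hp2, cwt_four, List.length_cons] at q4
      have h7 := mul_le_mul_of_nonneg_left (mul_le_mul_of_nonneg_right (cwt_plaq A.length) hW.le)
        hK
      rw [e0]
      have n1 := norm_add_le (-φ ((x, (k, true) :: A ++ p) :: r))
        (φ ((x, (k, true) :: A ++ rf p) :: r))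
      have n2 := norm_add_le (-φ ((x, (k, true) :: A ++ p) :: r) +
        φ ((x, (k, true) :: A ++ rf p) :: r)) (φ ((x, (k, true) :: A) :: (x, p) :: r))
      have n3 := norm_sub_le (-φ ((x, (k, true) :: A ++ p) :: r) +
        φ ((x, (k, true) :: A ++ rf p) :: r) + φ ((x, (k, true) :: A) :: (x, p) :: r))
        (φ ((x, (k, true) :: A) :: (x, rf p) :: r))
      rw [norm_neg] at n1
      have h8 : K * (4096 * cwt (A.length + 1) * WT r) = 4096 * (K * (cwt (A.length + 1) * WT r)) := by
        ring
      have h9 : K * (cwt (A.length + 1) * (44 * WT r)) = 44 * (K * (cwt (A.length + 1) * WT r)) := by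
        ring
      rw [h8] at h7
      rw [h9] at q3 q4
      linarith
    · rw [lsum_const]
      have h1 := plq_count k
      have h2 : 0 ≤ 8280 * (K * WT ((x, (k, true) :: A) :: r)) := by
        have := WT_pos ((x, (k, true) :: A) :: r)
        positivity
      refine (mul_le_mul_of_nonneg_left h1 h2).trans (le_of_eq ?_)
      ring
  refine (norm_add_le _ _).trans ?_
  rw [norm_mul]
  have h3 : ‖(b / 2 : ℂ)‖ = b / 2 := by
    rw [norm_div, Complex.norm_real, Real.norm_of_nonneg hb0]; simp
  rw [h3]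
  have h4 := mul_le_mul_of_nonneg_left p2 (show 0 ≤ b / 2 by linarith)
  refine (add_le_add p1 h4).trans (le_of_eq ?_)
  ring

/-! ### stability -/

/-- stability -/
theorem uniq {l : ℕ} {b δ : ℝ} (hb0 : 0 ≤ b) (hb : b * (20000 * d) ≤ 1) (hδ : 0 ≤ δ)
    {D : Bool → List (Lp d) → ℂ} {M : ℝ} (hM : ∀ i s, (∀ a ∈ s, Cl l a) → ‖D i s‖ ≤ M)
    (h0 : ∀ i, D i [] = 0) (h1 : ∀ i x r, D i ((x, []) :: r) = D i r)
    (h2 : ∀ i x k A r, Cl l (x, (k, true) :: A) → (∀ a ∈ r, Cl l a) →
      ‖D i ((x, (k, true) :: A) :: r) - mm l b (D i) x k A r‖ ≤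
        δ * len ((x, (k, true) :: A) :: r))
    (h3 : ∀ i x k A r, Cl l (x, (k, false) :: A) → (∀ a ∈ r, Cl l a) →
      ‖D i ((x, (k, false) :: A) :: r)‖ =
        ‖D (!i) ((x - Pi.single k 1, (k, true) :: rf A) :: r.map iv)‖) :
    ∀ i s, (∀ a ∈ s, Cl l a) → ‖D i s‖ ≤ 300 * δ * WT s := by
  have hM0 : 0 ≤ M := (norm_nonneg _).trans (hM true [] (by simp))
  obtain ⟨θ, hθ⟩ : ∃ θ : ℝ, θ = 11 / 20 + 8280 * (b * d) := ⟨_, rfl⟩
  have hd : (0 : ℝ) ≤ d := Nat.cast_nonneg d
  have hθ0 : 0 ≤ θ := by rw [hθ]; positivity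
  have hθ1 : θ ≤ 29 / 30 := by
    rw [hθ]; nlinarith
  have step : ∀ K : ℝ, 0 ≤ K → (∀ i s, (∀ a ∈ s, Cl l a) → ‖D i s‖ ≤ K * WT s) →
      ∀ i s, (∀ a ∈ s, Cl l a) → ‖D i s‖ ≤ (θ * K + 10 * δ) * WT s := by
    intro K hK hind
    have pos : ∀ i x k A r, Cl l (x, (k, true) :: A) → (∀ a ∈ r, Cl l a) →
        ‖D i ((x, (k, true) :: A) :: r)‖ ≤
          (θ * K + 10 * δ) * WT ((x, (k, true) :: A) :: r) := by
      intro i x k A r hA hr
      have e1 := h2 i x k A r hA hr
      have e2 := mm_bound hb0 hK (hind i) hA hr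
      have e3 := norm_sub_norm_le (D i ((x, (k, true) :: A) :: r)) (mm l b (D i) x k A r)
      have e4 := mul_le_mul_of_nonneg_left (len_le_WT ((x, (k, true) :: A) :: r)) hδ
      rw [← hθ] at e2
      calc ‖D i ((x, (k, true) :: A) :: r)‖ ≤ θ * (K * WT ((x, (k, true) :: A) :: r)) +
            δ * (10 * WT ((x, (k, true) :: A) :: r)) := by linarith
        _ = _ := by ring
    intro i s
    induction s with
    | nil =>
      intro _
      rw [h0, norm_zero]
      have := WT_pos ([] : List (Lp d))
      positivity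
    | cons a r ih =>
      intro hs
      have hr : ∀ a ∈ r, Cl l a := fun c hc => hs c (by simp [hc])
      obtain ⟨x, w⟩ := a
      have hw : Cl l (x, w) := hs _ (by simp)
      cases w with
      | nil =>
        rw [h1, WT_cons]
        simp only [List.length_nil, cwt_zero, one_mul]
        exact ih hr
      | cons s A =>
        obtain ⟨k, o⟩ := s
        cases o with
        | true => exact pos i x k A r hw hr
        | false =>
          rw [h3 i x k A r hw hr]
          have e1 := pos (!i) (x - Pi.single k 1) k (rf A) (r.map iv) (cl_neg hw) (by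
            intro c hc
            rw [List.mem_map] at hc
            obtain ⟨c', hc', rfl⟩ := hc
            exact cl_iv (hr c' hc'))
          refine e1.trans (le_of_eq ?_)
          rw [WT_cons, WT_cons, WT_iv]
          simp only [List.length_cons, rf_length]
  have iter : ∀ n : ℕ, ∀ i s, (∀ a ∈ s, Cl l a) →
      ‖D i s‖ ≤ ((29 / 30 : ℝ) ^ n * M + 300 * δ) * WT s := by
    intro n
    induction n with
    | zero =>
      intro i s hs
      have h4 := hM i s hs
      have h5 := WT_one_le s
      rw [pow_zero, one_mul]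
      nlinarith
    | succ n ih =>
      intro i s hs
      have h4 : 0 ≤ (29 / 30 : ℝ) ^ n * M + 300 * δ := by positivity
      refine (step _ h4 ih i s hs).trans ?_
      refine mul_le_mul_of_nonneg_right ?_ (WT_pos s).le
      rw [pow_succ]
      nlinarith
  intro i s hs
  have h4 : Tendsto (fun n : ℕ => ((29 / 30 : ℝ) ^ n * M + 300 * δ) * WT s) atTop
      (𝓝 ((0 * M + 300 * δ) * WT s)) := by
    refine Tendsto.mul_const _ (Tendsto.add_const _ (Tendsto.mul_const _ ?_))
    exact tendsto_pow_atTop_nhds_zero_of_lt_one (by norm_num) (by norm_num)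
  rw [zero_mul, zero_add] at h4
  exact ge_of_tendsto h4 (Eventually.of_forall fun n => iter n i s hs)

end

end Pool.Agent.T2H01.EK
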