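import Mathlib
import Pool.Agent.T2H01.EK.SDc
import Pool.Agent.T2H01.EK.Uniq

/-!
# Approximate solutions of the equation of Makeenko and Migdal, and their comparison
-/

open MeasureTheory Matrix Filter
open scoped Matrix.Norms.Frobenius Topology
open Pool.Agent.H906R3.YM Pool.Agent.W793.YM Pool.Agent.TH618.YM Pool.Agent.T2H01.YM

namespace Pool.Agent.T2H01.EK

set_option linter.unusedSectionVars false
set_option linter.unusedVariables false

noncomputable section

variable {d : ℕ}

/-- `φ` satisfies the equation of Makeenko and Migdal up to errors of order `δ` -/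
structure Apx (l : ℕ) (b δ : ℝ) (φ : List (Lp d) → ℂ) : Prop where
  one : φ [] = 1
  bdd : ∀ s, ‖φ s‖ ≤ 1
  emp : ∀ x r, φ ((x, []) :: r) = φ r
  equ : ∀ x k A r, Cl l (x, (k, true) :: A) → (∀ a ∈ r, Cl l a) →
    ‖φ ((x, (k, true) :: A) :: r) - mm l b φ x k A r‖ ≤ δ * len ((x, (k, true) :: A) :: r)
  neg : ∀ x k A r, Cl l (x, (k, false) :: A) → (∀ a ∈ r, Cl l a) →
    φ ((x, (k, false) :: A) :: r) =
      starRingEnd ℂ (φ ((x - Pi.single k 1, (k, true) :: rf A) :: r.map iv))
  cnj : ∀ s, φ (s.map iv) = starRingEnd ℂ (φ s)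

/-! ### linearity -/

lemma mm_sub (l : ℕ) (b : ℝ) (φ ψ : List (Lp d) → ℂ) (x : Fin d → ℤ) (k : Fin d)
    (A : List (Stp d)) (r : List (Lp d)) :
    mm l b (fun s => φ s - ψ s) x k A r = mm l b φ x k A r - mm l b ψ x k A r := by
  unfold mm
  generalize spls l x k A = u
  generalize plq k = v
  have h1 : (u.map fun t => sg t.1 * (φ (t.2.1 :: t.2.2 :: r) - ψ (t.2.1 :: t.2.2 :: r))).sum =
      (u.map fun t => sg t.1 * φ (t.2.1 :: t.2.2 :: r)).sum -
        (u.map fun t => sg t.1 * ψ (t.2.1 :: t.2.2 :: r)).sum := by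
    induction u with
    | nil => simp
    | cons t u ih =>
      simp only [List.map_cons, List.sum_cons]
      rw [ih]; ring
  have h2 : (v.map fun p => -(φ ((x, (k, true) :: A ++ p) :: r) - ψ ((x, (k, true) :: A ++ p) :: r))
      + (φ ((x, (k, true) :: A ++ rf p) :: r) - ψ ((x, (k, true) :: A ++ rf p) :: r)) +
        (φ ((x, (k, true) :: A) :: (x, p) :: r) - ψ ((x, (k, true) :: A) :: (x, p) :: r)) -
        (φ ((x, (k, true) :: A) :: (x, rf p) :: r) -
          ψ ((x, (k, true) :: A) :: (x, rf p) :: r))).sum =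
      (v.map fun p =>
      -φ ((x, (k, true) :: A ++ p) :: r) + φ ((x, (k, true) :: A ++ rf p) :: r) +
        φ ((x, (k, true) :: A) :: (x, p) :: r) - φ ((x, (k, true) :: A) :: (x, rf p) :: r)).sum -
      (v.map fun p =>
      -ψ ((x, (k, true) :: A ++ p) :: r) + ψ ((x, (k, true) :: A ++ rf p) :: r) +
        ψ ((x, (k, true) :: A) :: (x, p) :: r) -
          ψ ((x, (k, true) :: A) :: (x, rf p) :: r)).sum := by
    clear h1
    induction v with
    | nil => simp
    | cons t u ih =>
      simp only [List.map_cons, List.sum_cons]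
      rw [ih]; ring
  rw [h1, h2]
  ring

lemma mm_smul (l : ℕ) (b : ℝ) (c : ℂ) (φ : List (Lp d) → ℂ) (x : Fin d → ℤ) (k : Fin d)
    (A : List (Stp d)) (r : List (Lp d)) :
    mm l b (fun s => φ s * c) x k A r = mm l b φ x k A r * c := by
  unfold mm
  generalize spls l x k A = u
  generalize plq k = v
  have h1 : (u.map fun t => sg t.1 * (φ (t.2.1 :: t.2.2 :: r) * c)).sum =
      (u.map fun t => sg t.1 * φ (t.2.1 :: t.2.2 :: r)).sum * c := by
    induction u with
    | nil => simp
    | cons t u ih =>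
      simp only [List.map_cons, List.sum_cons]
      rw [ih]; ring
  have h2 : (v.map fun p => -(φ ((x, (k, true) :: A ++ p) :: r) * c)
      + (φ ((x, (k, true) :: A ++ rf p) :: r) * c) +
        (φ ((x, (k, true) :: A) :: (x, p) :: r) * c) -
        (φ ((x, (k, true) :: A) :: (x, rf p) :: r) * c)).sum =
      (v.map fun p =>
      -φ ((x, (k, true) :: A ++ p) :: r) + φ ((x, (k, true) :: A ++ rf p) :: r) +
        φ ((x, (k, true) :: A) :: (x, p) :: r) -
          φ ((x, (k, true) :: A) :: (x, rf p) :: r)).sum * c := by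
    clear h1
    induction v with
    | nil => simp
    | cons t u ih =>
      simp only [List.map_cons, List.sum_cons]
      rw [ih]; ring
  rw [h1, h2]
  ring

lemma mm_app (l : ℕ) (b : ℝ) (φ : List (Lp d) → ℂ) (r₀ : List (Lp d)) (x : Fin d → ℤ) (k : Fin d)
    (A : List (Stp d)) (r : List (Lp d)) :
    mm l b (fun s => φ (s ++ r₀)) x k A r = mm l b φ x k A (r ++ r₀) := by
  unfold mm
  simp only [List.cons_append]

lemma len_app (s r : List (Lp d)) : len (s ++ r) = len s + len r := by
  unfold len; rw [List.map_append, List.sum_append]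

/-! ### factorisation -/

lemma fact {l : ℕ} {b δ : ℝ} (hb0 : 0 ≤ b) (hb : b * (20000 * d) ≤ 1) (hδ : 0 ≤ δ)
    {φ : List (Lp d) → ℂ} (h : Apx l b δ φ) {r₀ : List (Lp d)} (hr₀ : ∀ a ∈ r₀, Cl l a)
    {s : List (Lp d)} (hs : ∀ a ∈ s, Cl l a) :
    ‖φ (s ++ r₀) - φ s * φ r₀‖ ≤ 900 * δ * (len r₀ + 1) * WT s := by
  have hlen : (0 : ℝ) ≤ len r₀ := Nat.cast_nonneg _
  obtain ⟨R, hR⟩ : ∃ R : Bool → List (Lp d), R = fun i => if i then r₀ else r₀.map iv := ⟨_, rfl⟩
  have hRc : ∀ i, ∀ a ∈ R i, Cl l a := by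
    intro i a ha
    rw [hR] at ha
    cases i with
    | true => exact hr₀ a ha
    | false =>
      simp only [Bool.false_eq_true, if_false, List.mem_map] at ha
      obtain ⟨c, hc, rfl⟩ := ha
      exact cl_iv (hr₀ c hc)
  have hRl : ∀ i, len (R i) = len r₀ := by
    intro i
    rw [hR]
    cases i with
    | true => rfl
    | false => exact len_iv r₀
  have hRn : ∀ i, R (!i) = (R i).map iv := by
    intro i
    rw [hR]
    cases i with
    | true => rfl
    | false =>
      simp only [Bool.not_false, if_true, Bool.false_eq_true, if_false, List.map_map]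
      symm
      refine (List.map_congr_left fun a _ => ?_).trans (List.map_id r₀)
      show iv (iv a) = a
      exact iv_iv a
  have h2 := uniq (l := l) (b := b) (δ := 3 * δ * (len r₀ + 1)) hb0 hb (by positivity)
    (D := fun i s => φ (s ++ R i) - φ s * φ (R i)) (M := 2) ?_ ?_ ?_ ?_ ?_ true s hs
  · have h3 : R true = r₀ := by rw [hR]; rfl
    simp only [h3] at h2
    refine h2.trans (le_of_eq ?_)
    ring
  · intro i s _
    refine (norm_sub_le _ _).trans ?_
    rw [norm_mul]
    have h3 := h.bdd (s ++ R i)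
    have h4 := h.bdd s
    have h5 := h.bdd (R i)
    have h6 : ‖φ s‖ * ‖φ (R i)‖ ≤ 1 := mul_le_one₀ h4 (norm_nonneg _) h5
    linarith
  · intro i
    simp only [List.nil_append, h.one, one_mul, sub_self]
  · intro i x r
    simp only [List.cons_append, h.emp]
  · intro i x k A r hA hr
    have e1 : mm l b (fun s => φ (s ++ R i) - φ s * φ (R i)) x k A r =
        mm l b φ x k A (r ++ R i) - mm l b φ x k A r * φ (R i) := by
      rw [mm_sub l b (fun s => φ (s ++ R i)) (fun s => φ s * φ (R i)), mm_app, mm_smul]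
    rw [e1]
    have e2 := h.equ x k A (r ++ R i) hA (by
      intro a ha
      rw [List.mem_append] at ha
      rcases ha with ha | ha
      · exact hr a ha
      · exact hRc i a ha)
    have e3 := h.equ x k A r hA hr
    have e4 : φ ((x, (k, true) :: A) :: r ++ R i) - φ ((x, (k, true) :: A) :: r) * φ (R i) -
        (mm l b φ x k A (r ++ R i) - mm l b φ x k A r * φ (R i)) =
        (φ ((x, (k, true) :: A) :: (r ++ R i)) - mm l b φ x k A (r ++ R i)) -
          (φ ((x, (k, true) :: A) :: r) - mm l b φ x k A r) * φ (R i) := by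
      rw [List.cons_append]; ring
    show ‖φ ((x, (k, true) :: A) :: r ++ R i) - φ ((x, (k, true) :: A) :: r) * φ (R i) -
        (mm l b φ x k A (r ++ R i) - mm l b φ x k A r * φ (R i))‖ ≤ _
    rw [e4]
    refine (norm_sub_le _ _).trans ?_
    rw [norm_mul]
    have e5 : ‖φ ((x, (k, true) :: A) :: r) - mm l b φ x k A r‖ * ‖φ (R i)‖ ≤
        δ * len ((x, (k, true) :: A) :: r) * 1 :=
      mul_le_mul e3 (h.bdd _) (norm_nonneg _) (by positivity)
    have e6 : (len ((x, (k, true) :: A) :: (r ++ R i)) : ℝ) =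
        len ((x, (k, true) :: A) :: r) + len r₀ := by
      rw [len_cons, len_cons, len_app, hRl]; push_cast; ring
    rw [e6] at e2
    have e7 : (1 : ℝ) ≤ len ((x, (k, true) :: A) :: r) := by
      rw [len_cons]
      simp only [List.length_cons]
      have : 1 ≤ A.length + 1 + len r := by omega
      exact_mod_cast this
    obtain ⟨t, ht⟩ : ∃ t : ℝ, t = len ((x, (k, true) :: A) :: r) := ⟨_, rfl⟩
    obtain ⟨u, hu⟩ : ∃ u : ℝ, u = len r₀ := ⟨_, rfl⟩
    rw [← ht] at e2 e5 e7 ⊢
    rw [← hu] at e2 hlen ⊢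
    have e8 : t + u + t ≤ 3 * (u + 1) * t := by nlinarith
    have e9 := mul_le_mul_of_nonneg_left e8 hδ
    nlinarith
  · intro i x k A r hA hr
    have e1 := h.neg x k A (r ++ R i) hA (by
      intro a ha
      rw [List.mem_append] at ha
      rcases ha with ha | ha
      · exact hr a ha
      · exact hRc i a ha)
    have e2 := h.neg x k A r hA hr
    have e3 : φ (R i) = starRingEnd ℂ (φ (R (!i))) := by
      rw [hRn, h.cnj, Complex.conj_conj]
    rw [List.map_append, ← hRn] at e1
    show ‖φ ((x, (k, false) :: A) :: (r ++ R i)) - φ ((x, (k, false) :: A) :: r) * φ (R i)‖ = _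
    rw [e1, e2, e3, ← map_mul, ← map_sub, RCLike.norm_conj]
    rfl

/-! ### comparison with the reduced model -/

lemma pos_cl_iff {l : ℕ} {x : Fin d → ℤ} {k : Fin d} {A : List (Stp d)} :
    Cl l (x - Pi.single k 1, (k, true) :: rf A) ↔ Cl l (x, (k, false) :: A) := by
  refine ⟨fun h => ?_, cl_neg⟩
  rw [cl_cs] at h ⊢
  simp only [en_cons, nx_false, nx_true] at h ⊢
  have h1 : (x - Pi.single k 1 + Pi.single k 1 : Fin d → ℤ) = x := by abel
  rw [h1] at h
  have h2 := cs_en (l := l) h A
  have h3 := en_rf x (rf A)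
  rw [rf_rf] at h3
  rw [h3] at h2
  exact h2.symm

lemma cl_iv_iff {l : ℕ} {a : Lp d} : Cl l (iv a) ↔ Cl l a :=
  ⟨fun h => by have := cl_iv h; rwa [iv_iv] at this, cl_iv⟩

lemma cls_iv {l : ℕ} {r : List (Lp d)} : (∀ a ∈ r.map iv, Cl l a) ↔ ∀ a ∈ r, Cl l a := by
  constructor
  · intro h a ha
    exact cl_iv_iff.1 (h (iv a) (List.mem_map_of_mem ha))
  · intro h a ha
    rw [List.mem_map] at ha
    obtain ⟨c, hc, rfl⟩ := ha
    exact cl_iv (h c hc)

open Classical in
/-- the functional of the torus of side `l`, set to zero when a loop is not closed -/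
def res (l : ℕ) (φ : List (Lp d) → ℂ) (s : List (Lp d)) : ℂ := if ∀ a ∈ s, Cl l a then φ s else 0

lemma cls_cons {l : ℕ} {a : Lp d} {r : List (Lp d)} :
    (∀ c ∈ a :: r, Cl l c) ↔ Cl l a ∧ ∀ c ∈ r, Cl l c := by
  simp

lemma res_pos {l : ℕ} {φ : List (Lp d) → ℂ} {s : List (Lp d)} (h : ∀ a ∈ s, Cl l a) :
    res l φ s = φ s := by unfold res; rw [if_pos h]

lemma res_neg {l : ℕ} {φ : List (Lp d) → ℂ} {s : List (Lp d)} (h : ¬∀ a ∈ s, Cl l a) :
    res l φ s = 0 := by unfold res; rw [if_neg h]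

open Classical in
lemma spl_res (l : ℕ) (φ : List (Lp d) → ℂ) (r : List (Lp d)) (x : Fin d → ℤ) (k : Fin d)
    (A : List (Stp d)) : ∀ (y : Fin d → ℤ) (pre : List (Stp d)), en (x + Pi.single k 1) pre = y →
    ((spl 1 x k y pre A).map fun t => sg t.1 * res l φ (t.2.1 :: t.2.2 :: r)).sum =
      if (cs l (en y A) : Fin d → ZMod l) = cs l x ∧ ∀ a ∈ r, Cl l a then
        ((spl l x k y pre A).map fun t => sg t.1 * φ (t.2.1 :: t.2.2 :: r)).sum else 0 := by
  induction A with
  | nil => intro y pre _; simp [spl]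
  | cons s A ih =>
    intro y pre hy
    have hy' : en (x + Pi.single k 1) (pre ++ [s]) = nx y s := by
      rw [en_append, hy, en_cons, en_nil]
    have ih' := ih (nx y s) (pre ++ [s]) hy'
    unfold spl
    rw [List.map_append, List.sum_append, List.map_append, List.sum_append, ih', en_cons]
    have h1 : ∀ i, ((bs y s i : ℤ) : ZMod 1) = ((x i : ℤ) : ZMod 1) := fun i => Subsingleton.elim _ _
    by_cases hk : s.1 = k
    swap
    · have e1 : ¬(s.1 = k ∧ ∀ i, ((bs y s i : ℤ) : ZMod 1) = ((x i : ℤ) : ZMod 1)) :=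
        fun h => hk h.1
      have e2 : ¬(s.1 = k ∧ ∀ i, ((bs y s i : ℤ) : ZMod l) = ((x i : ℤ) : ZMod l)) :=
        fun h => hk h.1
      rw [if_neg e1, if_neg e2]
      simp
    have e1 : s.1 = k ∧ ∀ i, ((bs y s i : ℤ) : ZMod 1) = ((x i : ℤ) : ZMod 1) := ⟨hk, h1⟩
    rw [if_pos e1]
    have e2 : (s.1 = k ∧ ∀ i, ((bs y s i : ℤ) : ZMod l) = ((x i : ℤ) : ZMod l)) ↔
        (cs l (bs y s) : Fin d → ZMod l) = cs l x :=
      ⟨fun h => funext fun i => h.2 i, fun h => ⟨hk, fun i => congrFun h i⟩⟩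
    rw [if_congr e2 rfl rfl]
    rcases hs2 : s.2 with _ | _
    · -- backward
      have hbs : bs y s = nx y s := by unfold bs nx; rw [hs2]; simp
      have hnx : nx y s = y - Pi.single k 1 := by unfold nx; rw [hs2, hk]; simp
      have c1 : Cl l (x + Pi.single k 1, pre) ↔ (cs l (bs y s) : Fin d → ZMod l) = cs l x := by
        rw [cl_cs, hy, hbs, hnx, cs_add, cs_sub, sub_eq_iff_eq_add]
      have c2 : Cl l (nx y s, A) ↔ (cs l (en (nx y s) A) : Fin d → ZMod l) = cs l (bs y s) := by
        rw [cl_cs, hbs]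
      simp only [Bool.false_eq_true, if_false, List.map_cons, List.map_nil, List.sum_cons,
        List.sum_nil, add_zero]
      unfold res
      rw [if_congr (cls_cons.trans (and_congr_right fun _ => cls_cons)) rfl rfl, c1, c2]
      by_cases hb : (cs l (bs y s) : Fin d → ZMod l) = cs l x
      · rw [hb]
        simp only [hk, true_and, if_true]
        by_cases hc : (cs l (en (nx y s) A) : Fin d → ZMod l) = cs l x ∧ ∀ a ∈ r, Cl l a
        · rw [if_pos hc, if_pos hc, if_pos hc]
          simp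
        · rw [if_neg hc, if_neg hc, if_neg hc]
          simp
      · rw [if_neg (fun h => hb h.1), if_neg hb]
        simp
    · -- forward
      have hbs : bs y s = y := by unfold bs; rw [hs2]; simp
      have c1 : Cl l (x, (k, true) :: pre) ↔ (cs l (bs y s) : Fin d → ZMod l) = cs l x := by
        rw [cl_cs, hbs]
        simp only [en_cons, nx_true, hy]
      have c2 : Cl l (y, s :: A) ↔ (cs l (en (nx y s) A) : Fin d → ZMod l) = cs l (bs y s) := by
        rw [cl_cs, hbs, en_cons]
      simp only [if_true, List.map_cons, List.map_nil, List.sum_cons,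
        List.sum_nil, add_zero]
      unfold res
      rw [if_congr (cls_cons.trans (and_congr_right fun _ => cls_cons)) rfl rfl, c1, c2]
      by_cases hb : (cs l (bs y s) : Fin d → ZMod l) = cs l x
      · rw [hb]
        simp only [hk, true_and, if_true]
        by_cases hc : (cs l (en (nx y s) A) : Fin d → ZMod l) = cs l x ∧ ∀ a ∈ r, Cl l a
        · rw [if_pos hc, if_pos hc, if_pos hc]
          simp
        · rw [if_neg hc, if_neg hc, if_neg hc]
          simp
      · rw [if_neg (fun h => hb h.1), if_neg hb]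
        simp

open Classical in
lemma mm_res (l : ℕ) (b : ℝ) (φ : List (Lp d) → ℂ) (x : Fin d → ℤ) (k : Fin d)
    (A : List (Stp d)) (r : List (Lp d)) :
    mm 1 b (res l φ) x k A r =
      if Cl l (x, (k, true) :: A) ∧ ∀ a ∈ r, Cl l a then mm l b φ x k A r else 0 := by
  unfold mm spls
  have h0 := spl_res l φ r x k A (x + Pi.single k 1) [] rfl
  rw [h0]
  have h1 : ((cs l (en (x + Pi.single k 1) A) : Fin d → ZMod l) = cs l x ∧ ∀ a ∈ r, Cl l a) ↔
      (Cl l (x, (k, true) :: A) ∧ ∀ a ∈ r, Cl l a) := by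
    rw [cl_cs]
    simp only [en_cons, nx_true]
  rw [if_congr h1 rfl rfl]
  have h2 : ((plq k).map fun p =>
      -res l φ ((x, (k, true) :: A ++ p) :: r) + res l φ ((x, (k, true) :: A ++ rf p) :: r) +
        res l φ ((x, (k, true) :: A) :: (x, p) :: r) -
          res l φ ((x, (k, true) :: A) :: (x, rf p) :: r)).sum =
      if Cl l (x, (k, true) :: A) ∧ ∀ a ∈ r, Cl l a then
        ((plq k).map fun p =>
          -φ ((x, (k, true) :: A ++ p) :: r) + φ ((x, (k, true) :: A ++ rf p) :: r) +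
        φ ((x, (k, true) :: A) :: (x, p) :: r) -
          φ ((x, (k, true) :: A) :: (x, rf p) :: r)).sum else 0 := by
    have h3 : ∀ p ∈ plq k, (-res l φ ((x, (k, true) :: A ++ p) :: r) +
        res l φ ((x, (k, true) :: A ++ rf p) :: r) +
        res l φ ((x, (k, true) :: A) :: (x, p) :: r) -
          res l φ ((x, (k, true) :: A) :: (x, rf p) :: r)) =
        if Cl l (x, (k, true) :: A) ∧ ∀ a ∈ r, Cl l a then
          (-φ ((x, (k, true) :: A ++ p) :: r) + φ ((x, (k, true) :: A ++ rf p) :: r) +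
        φ ((x, (k, true) :: A) :: (x, p) :: r) -
          φ ((x, (k, true) :: A) :: (x, rf p) :: r)) else 0 := by
      intro p hp
      obtain ⟨hp1, hp2⟩ := plq_mem hp
      have q1 : ∀ p' : List (Stp d), (∀ x, en x p' = x) →
          (Cl l (x, (k, true) :: A ++ p') ↔ Cl l (x, (k, true) :: A)) := by
        intro p' hp'
        rw [cl_cs, cl_cs]
        simp only [en_append, hp']
      have q2 := q1 p hp1
      have q3 := q1 (rf p) (rf_closed hp1)
      have q4 : Cl l (x, p) := cl_of_closed hp1 x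
      have q5 : Cl l (x, rf p) := cl_of_closed (rf_closed hp1) x
      by_cases hc : Cl l (x, (k, true) :: A) ∧ ∀ a ∈ r, Cl l a
      · rw [if_pos hc]
        rw [res_pos, res_pos, res_pos, res_pos]
        · rw [cls_cons, cls_cons]; exact ⟨hc.1, q5, hc.2⟩
        · rw [cls_cons, cls_cons]; exact ⟨hc.1, q4, hc.2⟩
        · rw [cls_cons, q3]; exact hc
        · rw [cls_cons, q2]; exact hc
      · rw [if_neg hc]
        rw [res_neg, res_neg, res_neg, res_neg]
        · ring
        · rw [cls_cons, cls_cons]; exact fun h => hc ⟨h.1, h.2.2⟩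
        · rw [cls_cons, cls_cons]; exact fun h => hc ⟨h.1, h.2.2⟩
        · rw [cls_cons, q3]; exact hc
        · rw [cls_cons, q2]; exact hc
    rw [List.map_congr_left h3]
    by_cases hc : Cl l (x, (k, true) :: A) ∧ ∀ a ∈ r, Cl l a
    · simp only [if_pos hc]
    · simp only [if_neg hc]
      simp
  rw [h2]
  by_cases hc : Cl l (x, (k, true) :: A) ∧ ∀ a ∈ r, Cl l a
  · simp only [if_pos hc]
  · simp only [if_neg hc]
    simp

/-- comparison with the reduced model -/
lemma comp_red {l : ℕ} {b δ : ℝ} (hb0 : 0 ≤ b) (hb : b * (20000 * d) ≤ 1) (hδ : 0 ≤ δ)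
    {φ φ' : List (Lp d) → ℂ} (h : Apx 1 b δ φ) (h' : Apx l b δ φ') (s : List (Lp d)) :
    ‖φ s - res l φ' s‖ ≤ 600 * δ * WT s := by
  have c1 : ∀ a : Lp d, Cl 1 a := fun a i => Subsingleton.elim _ _
  have h2 := uniq (l := 1) (b := b) (δ := 2 * δ) hb0 hb (by positivity)
    (D := fun i s => φ s - res l φ' s) (M := 2) ?_ ?_ ?_ ?_ ?_ true s (fun a _ => c1 a)
  · refine h2.trans (le_of_eq ?_)
    ring
  · intro i s _
    refine (norm_sub_le _ _).trans ?_
    have h3 := h.bdd s
    have h4 : ‖res l φ' s‖ ≤ 1 := by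
      unfold res
      split_ifs
      · exact h'.bdd s
      · rw [norm_zero]; exact zero_le_one
    linarith
  · intro i
    rw [res_pos (by simp), h.one, h'.one, sub_self]
  · intro i x r
    have h3 : res l φ' ((x, []) :: r) = res l φ' r := by
      have h4 : Cl l (x, []) := cl_of_closed (fun x => rfl) x
      by_cases hc : ∀ a ∈ r, Cl l a
      · rw [res_pos hc, res_pos (cls_cons.2 ⟨h4, hc⟩), h'.emp]
      · rw [res_neg hc, res_neg (fun h => hc (cls_cons.1 h).2)]
    simp only [h.emp, h3]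
  · intro i x k A r hA hr
    rw [mm_sub 1 b φ (res l φ'), mm_res]
    have e1 := h.equ x k A r hA hr
    show ‖φ ((x, (k, true) :: A) :: r) - res l φ' ((x, (k, true) :: A) :: r) - _‖ ≤ _
    by_cases hc : Cl l (x, (k, true) :: A) ∧ ∀ a ∈ r, Cl l a
    · rw [if_pos hc, res_pos (cls_cons.2 hc)]
      have e2 := h'.equ x k A r hc.1 hc.2
      have e3 : φ ((x, (k, true) :: A) :: r) - φ' ((x, (k, true) :: A) :: r) -
          (mm 1 b φ x k A r - mm l b φ' x k A r) =
          (φ ((x, (k, true) :: A) :: r) - mm 1 b φ x k A r) -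
            (φ' ((x, (k, true) :: A) :: r) - mm l b φ' x k A r) := by ring
      rw [e3]
      refine (norm_sub_le _ _).trans ?_
      linarith
    · rw [if_neg hc, res_neg (fun h => hc (cls_cons.1 h)), sub_zero, sub_zero]
      refine e1.trans ?_
      have : (0 : ℝ) ≤ len ((x, (k, true) :: A) :: r) := Nat.cast_nonneg _
      nlinarith
  · intro i x k A r hA hr
    have e1 := h.neg x k A r hA hr
    have e2 : res l φ' ((x, (k, false) :: A) :: r) = starRingEnd ℂ
        (res l φ' ((x - Pi.single k 1, (k, true) :: rf A) :: r.map iv)) := by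
      by_cases hc : Cl l (x, (k, false) :: A) ∧ ∀ a ∈ r, Cl l a
      · rw [res_pos (cls_cons.2 hc), h'.neg x k A r hc.1 hc.2,
          res_pos (cls_cons.2 ⟨pos_cl_iff.2 hc.1, cls_iv.2 hc.2⟩)]
      · rw [res_neg (fun h => hc (cls_cons.1 h)), res_neg, map_zero]
        intro h
        have := cls_cons.1 h
        exact hc ⟨pos_cl_iff.1 this.1, cls_iv.1 this.2⟩
    show ‖φ ((x, (k, false) :: A) :: r) - res l φ' ((x, (k, false) :: A) :: r)‖ = _
    rw [e1, e2, ← map_sub, RCLike.norm_conj]

end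

end Pool.Agent.T2H01.EK
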