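import Mathlib
import Pool.Agent.T2H01.EK.Sol

/-!
# The theories on the tori and their limits satisfy the equation approximately
-/

open MeasureTheory Matrix Filter
open scoped Matrix.Norms.Frobenius Topology
open Pool.Agent.H906R3.YM Pool.Agent.W793.YM Pool.Agent.TH618.YM Pool.Agent.T2H01.YM

namespace Pool.Agent.T2H01.EK

set_option linter.unusedSectionVars false
set_option linter.unusedVariables false

noncomputable section

variable {G : Type*} [Group G] [TopologicalSpace G] [IsTopologicalGroup G] [CompactSpace G]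
  [SecondCountableTopology G] [MeasurableSpace G] [BorelSpace G] (μ : Measure G)
  [IsProbabilityMeasure μ] [μ.IsMulLeftInvariant] [μ.IsMulRightInvariant] [μ.IsInvInvariant]
  {N n d l : ℕ} [NeZero l] {L : LD G N n}

section torus

lemma spS_cont (u : List (Bool × Lp d × Lp d)) :
    Continuous fun U : Ed d l → G => spS L (pe U) u := by
  unfold spS
  induction u with
  | nil => simp only [List.map_nil, List.sum_nil]; exact continuous_const
  | cons t s ih =>
    simp only [List.map_cons, List.sum_cons]
    exact (continuous_const.mul ((wr_cont _).mul (wr_cont _))).add ih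

/-- a plaquette term -/
def plT (L : LD G N n) (V : LZ d → G) (x : Fin d → ℤ) (w p : List (Stp d)) : ℂ :=
  -wr L V (x, w ++ p) + wr L V (x, w ++ rf p) + wr L V (x, w) * wr L V (x, p) -
    wr L V (x, w) * wr L V (x, rf p)

lemma plT_cont (x : Fin d → ℤ) (w p : List (Stp d)) :
    Continuous fun U : Ed d l → G => plT L (pe U) x w p :=
  ((((wr_cont _).neg.add (wr_cont _)).add ((wr_cont _).mul (wr_cont _))).sub
          ((wr_cont _).mul (wr_cont _)))

lemma plTs_cont (x : Fin d → ℤ) (w : List (Stp d)) (v : List (List (Stp d))) :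
    Continuous fun U : Ed d l → G => (v.map fun p => plT L (pe U) x w p).sum := by
  induction v with
  | nil => simp only [List.map_nil, List.sum_nil]; exact continuous_const
  | cons t s ih =>
    simp only [List.map_cons, List.sum_cons]
    exact (plT_cont _ _ _).add ih

lemma ez_spS {β : ℝ} (r : List (Lp d)) (u : List (Bool × Lp d × Lp d)) :
    (u.map fun t => sg t.1 * ez μ L β (fun U : Ed d l → G =>
      ws L (pe U) (t.2.1 :: t.2.2 :: r))).sum =
      ez μ L β (fun U : Ed d l → G => spS L (pe U) u * ws L (pe U) r) := by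
  induction u with
  | nil =>
    have h1 := ez_smul μ (L := L) (β := β) 0 (fun U : Ed d l → G => ws L (pe U) r)
    simp only [List.map_nil, List.sum_nil, spS_nil]
    rw [h1, zero_mul]
  | cons t u ih =>
    rw [List.map_cons, List.sum_cons, ih, ← ez_smul, ← ez_add]
    · congr 1
      funext U
      rw [ws_cons, ws_cons, spS_cons]
      ring
    · exact continuous_const.mul (ws_cont _)
    · exact (spS_cont u).mul (ws_cont r)

lemma ez_neg {β : ℝ} (F : (Ed d l → G) → ℂ) :
    ez μ L β (fun U => -F U) = -ez μ L β F := by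
  have h1 := ez_smul μ (L := L) (β := β) (-1) F
  simp only [neg_one_mul] at h1
  exact h1

lemma ez_sub {β : ℝ} {F H : (Ed d l → G) → ℂ} (hF : Continuous F) (hH : Continuous H) :
    ez μ L β (fun U => F U - H U) = ez μ L β F - ez μ L β H := by
  have h1 := ez_add μ (L := L) (β := β) (F := F) (H := fun U => -H U) hF hH.neg
  simp only [sub_eq_add_neg]
  rw [h1, ez_neg]

lemma ez_plT {β : ℝ} (r : List (Lp d)) (x : Fin d → ℤ) (w p : List (Stp d)) :
    -ez μ L β (fun U : Ed d l → G => ws L (pe U) ((x, w ++ p) :: r)) +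
      ez μ L β (fun U : Ed d l → G => ws L (pe U) ((x, w ++ rf p) :: r)) +
        ez μ L β (fun U : Ed d l → G => ws L (pe U) ((x, w) :: (x, p) :: r)) -
          ez μ L β (fun U : Ed d l → G => ws L (pe U) ((x, w) :: (x, rf p) :: r)) =
      ez μ L β (fun U : Ed d l → G => plT L (pe U) x w p * ws L (pe U) r) := by
  rw [← ez_neg, ← ez_add, ← ez_add, ← ez_sub]
  · congr 1
    funext U
    unfold plT
    simp only [ws_cons]
    ring
  · exact ((ws_cont _).neg.add (ws_cont _)).add (ws_cont _)
  · exact ws_cont _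
  · exact (ws_cont _).neg.add (ws_cont _)
  · exact ws_cont _
  · exact (ws_cont _).neg
  · exact ws_cont _

lemma ez_plS {β : ℝ} (r : List (Lp d)) (x : Fin d → ℤ) (w : List (Stp d))
    (v : List (List (Stp d))) :
    (v.map fun p => -ez μ L β (fun U : Ed d l → G => ws L (pe U) ((x, w ++ p) :: r)) +
      ez μ L β (fun U : Ed d l → G => ws L (pe U) ((x, w ++ rf p) :: r)) +
        ez μ L β (fun U : Ed d l → G => ws L (pe U) ((x, w) :: (x, p) :: r)) -
          ez μ L β (fun U : Ed d l → G => ws L (pe U) ((x, w) :: (x, rf p) :: r))).sum =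
      ez μ L β (fun U : Ed d l → G => (v.map fun p => plT L (pe U) x w p).sum *
        ws L (pe U) r) := by
  induction v with
  | nil =>
    have h1 := ez_smul μ (L := L) (β := β) 0 (fun U : Ed d l → G => ws L (pe U) r)
    simp only [List.map_nil, List.sum_nil]
    rw [h1, zero_mul]
  | cons p v ih =>
    rw [List.map_cons, List.sum_cons, ih, ez_plT, ← ez_add]
    · congr 1
      funext U
      rw [List.map_cons, List.sum_cons]
      ring
    · exact (plT_cont _ _ _).mul (ws_cont r)
    · exact (plTs_cont _ _ _).mul (ws_cont r)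

lemma ph_equ (hN : 0 < N) (hg : HG L) (b : ℝ) (x : Fin d → ℤ) (k : Fin d) (A : List (Stp d))
    (r : List (Lp d)) (hcl : Cl l (x, (k, true) :: A)) :
    ‖ph μ L l b ((x, (k, true) :: A) :: r) - mm l b (ph μ L l b) x k A r‖ ≤
      2 / (N : ℝ) ^ 2 * len ((x, (k, true) :: A) :: r) := by
  have h1 := sd_int (μ := μ) hN hg b x k A r hcl
  have hZ : 0 < Zt μ L (N * b) (fun _ : Ed d l → G => 1) := Zt_pos μ _
  have hNr : (0 : ℝ) < N := by exact_mod_cast hN
  have h2 : ph μ L l b ((x, (k, true) :: A) :: r) - mm l b (ph μ L l b) x k A r =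
      -ez μ L (N * b) (fun U : Ed d l → G => (-wr L (pe U) (x, (k, true) :: A) +
      spS L (pe U) (spls l x k A) + (b / 2 : ℂ) * plS L (pe U) x k ((k, true) :: A)) *
        ws L (pe U) r) := by
    have h3 : mm l b (ph μ L l b) x k A r = ez μ L (N * b) (fun U : Ed d l → G =>
        spS L (pe U) (spls l x k A) * ws L (pe U) r) + (b / 2 : ℂ) *
        ez μ L (N * b) (fun U : Ed d l → G =>
          ((plq k).map fun p => plT L (pe U) x ((k, true) :: A) p).sum * ws L (pe U) r) := by
      unfold mm ph
      rw [ez_spS, ez_plS]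
    have c1 : Continuous fun U : Ed d l → G => spS L (pe U) (spls l x k A) * ws L (pe U) r :=
      (spS_cont _).mul (ws_cont _)
    have c2 : Continuous fun U : Ed d l → G => (b / 2 : ℂ) *
        (((plq k).map fun p => plT L (pe U) x ((k, true) :: A) p).sum * ws L (pe U) r) :=
      continuous_const.mul ((plTs_cont _ _ _).mul (ws_cont _))
    rw [h3, ← ez_smul, ← ez_add μ c1 c2]
    unfold ph
    have h4 := ez_sub μ (L := L) (β := N * b)
      (F := fun U : Ed d l → G => ws L (pe U) ((x, (k, true) :: A) :: r))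
      (H := fun U : Ed d l → G => spS L (pe U) (spls l x k A) * ws L (pe U) r +
        (b / 2 : ℂ) * (((plq k).map fun p => plT L (pe U) x ((k, true) :: A) p).sum *
          ws L (pe U) r)) (ws_cont _) (c1.add c2)
    rw [← h4, ← ez_neg]
    congr 1
    funext U
    rw [ws_cons]
    unfold plS plT
    ring
  rw [h2, norm_neg]
  unfold ez
  rw [norm_div, Complex.norm_real, Real.norm_of_nonneg hZ.le, div_le_iff₀ hZ]
  refine h1.trans (mul_le_mul_of_nonneg_right ?_ hZ.le)
  rw [div_mul_eq_mul_div]
  refine div_le_div_of_nonneg_right ?_ (by positivity)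
  rw [len_cons]
  simp only [List.length_cons]
  push_cast
  have : (0 : ℝ) ≤ A.length := Nat.cast_nonneg _
  linarith

lemma wr_iv (V : LZ d → G) (a : Lp d) : wr L V (iv a) = starRingEnd ℂ (wr L V a) := by
  unfold wr iv
  simp only
  rw [hol_rf, L.rho_inv, trace_conjTranspose, map_div₀]
  simp

lemma ws_iv (V : LZ d → G) (s : List (Lp d)) :
    ws L V (s.map iv) = starRingEnd ℂ (ws L V s) := by
  induction s with
  | nil => simp [ws_nil]
  | cons a s ih => rw [List.map_cons, ws_cons, ws_cons, ih, wr_iv, map_mul]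

lemma Jz_conj {β : ℝ} (F : (Ed d l → G) → ℂ) :
    Jz μ L β (fun U => starRingEnd ℂ (F U)) = starRingEnd ℂ (Jz μ L β F) := by
  unfold Jz
  rw [← integral_conj]
  refine integral_congr_ae (Eventually.of_forall fun U => ?_)
  show _ = starRingEnd ℂ (F U * ((Real.exp (-(β * act L U)) : ℝ) : ℂ))
  rw [map_mul, Complex.conj_ofReal]

lemma ez_conj {β : ℝ} (F : (Ed d l → G) → ℂ) :
    ez μ L β (fun U => starRingEnd ℂ (F U)) = starRingEnd ℂ (ez μ L β F) := by
  unfold ez
  rw [Jz_conj, map_div₀]
  simp

lemma wr_neg (U : Ed d l → G) {x : Fin d → ℤ} {k : Fin d} {A : List (Stp d)}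
    (h : Cl l (x, (k, false) :: A)) :
    wr L (pe U) (x, (k, false) :: A) =
      starRingEnd ℂ (wr L (pe U) (x - Pi.single k 1, (k, true) :: rf A)) := by
  have h1 : (cs l (en (x - Pi.single k 1) A) : Fin d → ZMod l) = cs l x := by
    have := (cl_cs l _).1 h
    simp only [en_cons, nx_false] at this
    exact this
  have h2 : hol (pe U) (x - Pi.single k 1) ((k, true) :: rf A) =
      stG (pe U) (x - Pi.single k 1) (k, true) * (hol (pe U) (x - Pi.single k 1) A)⁻¹ := by
    rw [hol_cons, nx_true]
    have h3 : (x - Pi.single k 1 + Pi.single k 1 : Fin d → ℤ) = x := by abel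
    rw [h3, hol_per U h1.symm, hol_rf]
  have h4 : hol (pe U) x ((k, false) :: A) =
      (stG (pe U) (x - Pi.single k 1) (k, true))⁻¹ * hol (pe U) (x - Pi.single k 1) A := by
    rw [hol_cons, nx_false]
    congr 1
  unfold wr
  rw [map_div₀, starRingEnd_apply, ← trace_conjTranspose, ← L.rho_inv]
  simp only [h2, h4, _root_.mul_inv_rev, inv_inv, map_mul, map_natCast]
  rw [trace_mul_comm]

lemma ph_one (b : ℝ) : ph μ L l b ([] : List (Lp d)) = 1 := by
  unfold ph
  simp only [ws_nil]
  exact ez_one μ _

lemma ph_apx (hN : 0 < N) (hg : HG L) (b : ℝ) :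
    Apx l b (2 / (N : ℝ) ^ 2) (ph μ L l b : List (Lp d) → ℂ) := by
  have hNc : (N : ℂ) ≠ 0 := by exact_mod_cast hN.ne'
  constructor
  · exact ph_one μ b
  · intro s
    unfold ph
    exact norm_ez μ fun U => norm_ws _ _
  · intro x r
    unfold ph
    congr 1
    funext U
    rw [ws_cons]
    have : wr L (pe U) (x, []) = 1 := by
      unfold wr
      simp only [hol_nil, map_one, trace_one, Fintype.card_fin]
      exact div_self hNc
    rw [this, one_mul]
  · intro x k A r hA hr
    exact ph_equ μ hN hg b x k A r hA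
  · intro x k A r hA hr
    unfold ph
    rw [← ez_conj]
    congr 1
    funext U
    rw [ws_cons, ws_cons, map_mul, wr_neg U hA, ws_iv, Complex.conj_conj]
  · intro s
    unfold ph
    rw [← ez_conj]
    congr 1
    funext U
    exact ws_iv _ _

end torus

end

end Pool.Agent.T2H01.EK
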