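import Mathlib
import Pool.Agent.T2H01.EK.SDd

/-!
# The infinite volume limits satisfy the equation approximately
-/

open MeasureTheory Matrix Filter
open scoped Matrix.Norms.Frobenius Topology
open Pool.Agent.H906R3.YM Pool.Agent.W793.YM Pool.Agent.TH618.YM Pool.Agent.T2H01.YM

namespace Pool.Agent.T2H01.EK

set_option linter.unusedSectionVars false
set_option linter.unusedVariables false

noncomputable section

/-! ### large tori -/

section large

variable {d : ℕ}

lemma nx_dist (x : Fin d → ℤ) (s : Stp d) (i : Fin d) : |nx x s i - x i| ≤ 1 := by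
  unfold nx
  split_ifs
  · simp only [Pi.add_apply, Pi.single_apply]
    split_ifs <;> simp
  · simp only [Pi.sub_apply, Pi.single_apply]
    split_ifs <;> simp

lemma bs_dist (x : Fin d → ℤ) (s : Stp d) (i : Fin d) : |bs x s i - x i| ≤ 1 := by
  unfold bs
  split_ifs
  · simp
  · simp only [Pi.sub_apply, Pi.single_apply]
    split_ifs <;> simp

lemma en_dist (w : List (Stp d)) : ∀ (x : Fin d → ℤ) (i : Fin d), |en x w i - x i| ≤ w.length := by
  induction w with
  | nil => intro x i; simp [en_nil]
  | cons s w ih =>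
    intro x i
    rw [en_cons, List.length_cons]
    push_cast
    have h1 := ih (nx x s) i
    have h2 := nx_dist x s i
    have h3 : en (nx x s) w i - x i = (en (nx x s) w i - nx x s i) + (nx x s i - x i) := by ring
    rw [h3]
    exact (abs_add_le _ _).trans (add_le_add h1 h2)

lemma zmod_eq {l : ℕ} {z z' : ℤ} (h : |z - z'| < l) :
    ((z : ℤ) : ZMod l) = ((z' : ℤ) : ZMod l) ↔ z = z' := by
  constructor
  · intro h1
    rw [ZMod.intCast_eq_intCast_iff_dvd_sub] at h1
    have h2 : |z' - z| < (l : ℤ) := by rwa [abs_sub_comm]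
    have := Int.eq_zero_of_abs_lt_dvd h1 h2
    omega
  · rintro rfl; rfl

lemma zmod_zero {l : ℕ} (hl : l = 0) {z z' : ℤ} :
    ((z : ℤ) : ZMod l) = ((z' : ℤ) : ZMod l) ↔ z = z' := by
  rw [ZMod.intCast_eq_intCast_iff_dvd_sub, hl]
  constructor
  · intro h
    have : z' - z = 0 := by simpa using h
    omega
  · rintro rfl; simp

open Classical in
lemma spl_large {l : ℕ} (x : Fin d → ℤ) (k : Fin d) (A : List (Stp d)) :
    ∀ (y : Fin d → ℤ) (pre : List (Stp d)), en (x + Pi.single k 1) pre = y →
    pre.length + A.length + 2 < l → spl l x k y pre A = spl 0 x k y pre A := by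
  induction A with
  | nil => intro y pre _ _; simp [spl]
  | cons s A ih =>
    intro y pre hy hl
    rw [List.length_cons] at hl
    have hy' : en (x + Pi.single k 1) (pre ++ [s]) = nx y s := by
      rw [en_append, hy, en_cons, en_nil]
    have ih' := ih (nx y s) (pre ++ [s]) hy' (by
      rw [List.length_append, List.length_singleton]; omega)
    unfold spl
    rw [ih']
    congr 1
    have h1 : ∀ l' : ℕ, l' = 0 →
        ((s.1 = k ∧ ∀ i, ((bs y s i : ℤ) : ZMod l) = ((x i : ℤ) : ZMod l)) ↔
        (s.1 = k ∧ ∀ i, ((bs y s i : ℤ) : ZMod l') = ((x i : ℤ) : ZMod l'))) := by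
      intro l' hl'
      refine and_congr_right fun _ => forall_congr' fun i => ?_
      rw [zmod_zero hl', zmod_eq]
      obtain ⟨u, hu⟩ : ∃ u : Fin d → ℤ, u = x + Pi.single k 1 := ⟨_, rfl⟩
      have e1 := bs_dist y s i
      have e2 := en_dist pre (x + Pi.single k 1) i
      have e3 := nx_dist x (k, true) i
      rw [nx_true] at e3
      rw [hy] at e2
      rw [← hu] at e2 e3
      have e4 : bs y s i - x i = (bs y s i - y i) + ((y i - u i) + (u i - x i)) := by ring
      rw [e4]
      have e5 := abs_add_le (bs y s i - y i) ((y i - u i) + (u i - x i))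
      have e6 := abs_add_le (y i - u i) (u i - x i)
      have e7 : ((pre.length : ℕ) : ℤ) + 2 < l := by omega
      omega
    exact if_congr (h1 0 rfl) rfl rfl

lemma mm_large {l : ℕ} {b : ℝ} {φ : List (Lp d) → ℂ} {x : Fin d → ℤ} {k : Fin d}
    {A : List (Stp d)} {r : List (Lp d)} (hl : A.length + 2 < l) :
    mm l b φ x k A r = mm 0 b φ x k A r := by
  unfold mm spls
  rw [spl_large x k A (x + Pi.single k 1) [] rfl (by simpa using hl)]

lemma cl_zero {a : Lp d} : Cl 0 a ↔ en a.1 a.2 = a.1 := by
  unfold Cl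
  constructor
  · intro h; funext i; exact (zmod_zero rfl).1 (h i)
  · intro h i; rw [h]

lemma cl_zero_all {a : Lp d} (h : Cl 0 a) (l : ℕ) : Cl l a := by
  rw [cl_zero] at h
  intro i
  rw [h]

/-- a loop which is not closed on the lattice is not closed modulo a large `l` -/
lemma cl_large {a : Lp d} {l : ℕ} (hl : a.2.length < l) : Cl l a ↔ Cl 0 a := by
  refine forall_congr' fun i => ?_
  have h1 := zmod_zero (l := 0) rfl (z := en a.1 a.2 i) (z' := a.1 i)
  have h2 := zmod_eq (l := l) (z := en a.1 a.2 i) (z' := a.1 i) (by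
    have := en_dist a.2 a.1 i
    omega)
  exact h2.trans h1.symm

lemma tendsto_lsum {α ι : Type*} {F : Filter ι} (s : List α) {f : ι → α → ℂ} {g : α → ℂ}
    (h : ∀ a ∈ s, Tendsto (fun j => f j a) F (𝓝 (g a))) :
    Tendsto (fun j => (s.map (f j)).sum) F (𝓝 (s.map g).sum) := by
  induction s with
  | nil => simp only [List.map_nil, List.sum_nil]; exact tendsto_const_nhds
  | cons a s ih =>
    simp only [List.map_cons, List.sum_cons]
    exact (h a (by simp)).add (ih fun b hb => h b (by simp [hb]))

lemma tendsto_mm {ι : Type*} {F : Filter ι} {f : ι → List (Lp d) → ℂ} {g : List (Lp d) → ℂ}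
    (h : ∀ s, Tendsto (fun j => f j s) F (𝓝 (g s))) (l : ℕ) (b : ℝ) (x : Fin d → ℤ) (k : Fin d)
    (A : List (Stp d)) (r : List (Lp d)) :
    Tendsto (fun j => mm l b (f j) x k A r) F (𝓝 (mm l b g x k A r)) := by
  unfold mm
  refine Tendsto.add ?_ (Tendsto.const_mul _ ?_)
  · exact tendsto_lsum _ fun t _ => (h _).const_mul _
  · exact tendsto_lsum _ fun p _ => (((h _).neg.add (h _)).add (h _)).sub (h _)

end large

variable {G : Type*} [Group G] [TopologicalSpace G] [IsTopologicalGroup G] [CompactSpace G]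
  [SecondCountableTopology G] [MeasurableSpace G] [BorelSpace G] (μ : Measure G)
  [IsProbabilityMeasure μ] [μ.IsMulLeftInvariant] [μ.IsMulRightInvariant] [μ.IsInvInvariant]
  {N n d : ℕ} {L : LD G N n}

lemma wrV_cont (a : Lp d) : Continuous fun V : LZ d → G => wr L V a :=
  (Continuous.matrix_trace (L.cont.comp (hol_cont a.1 a.2))).div_const _

lemma wsV_cont (s : List (Lp d)) : Continuous fun V : LZ d → G => ws L V s := by
  induction s with
  | nil => exact continuous_const
  | cons a s ih =>
    have : (fun V : LZ d → G => ws L V (a :: s)) = fun V => wr L V a * ws L V s := by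
      funext V; exact ws_cons _ _ _
    rw [this]
    exact (wrV_cont a).mul ih

lemma ez_parts {l : ℕ} [NeZero l] {β : ℝ} {F : (Ed d l → G) → ℂ} (hF : Continuous F) :
    ez μ L β F = (EX μ L β (fun U => (F U).re) : ℂ) + (EX μ L β (fun U => (F U).im) : ℂ) *
      Complex.I := by
  unfold ez EX
  have h1 : Jz μ L β F = (Zt μ L β (fun U => (F U).re) : ℂ) +
      (Zt μ L β (fun U => (F U).im) : ℂ) * Complex.I := by
    unfold Jz Zt
    have h2 := integral_re_add_im (intC μ (hF.mul (expc_cont (L := L) β)))
    refine h2.symm.trans ?_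
    congr 1
    · congr 1
      refine integral_congr_ae (Eventually.of_forall fun U => ?_)
      show (F U * ((Real.exp (-(β * act L U)) : ℝ) : ℂ)).re = (F U).re * _
      rw [Complex.re_mul_ofReal]
    · congr 2
      refine integral_congr_ae (Eventually.of_forall fun U => ?_)
      show (F U * ((Real.exp (-(β * act L U)) : ℝ) : ℂ)).im = (F U).im * _
      rw [Complex.im_mul_ofReal]
  rw [h1]
  push_cast
  ring

/-- the functional of the loops for a measure on the configurations of `ℤ^d` -/
def phv (L : LD G N n) (ν : Measure (LZ d → G)) (s : List (Lp d)) : ℂ := ∫ V, ws L V s ∂ν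

lemma ph_tendsto {b : ℝ} {ν : Measure (LZ d → G)} (hν : IV μ L (N * b) ν) :
    ∃ s : ℕ → ℕ, Tendsto s atTop atTop ∧ ∀ r : List (Lp d),
      Tendsto (fun j => ph μ L (2 * (s j + 1)) b r) atTop (𝓝 (phv L ν r)) := by
  obtain ⟨s, hs, hlim⟩ := hν.lim
  have := hν.prob
  refine ⟨s, hs, fun r => ?_⟩
  have h1 := hlim (fun V => (ws L V r).re) (Complex.continuous_re.comp (wsV_cont r))
  have h2 := hlim (fun V => (ws L V r).im) (Complex.continuous_im.comp (wsV_cont r))
  have h3 : phv L ν r = ((∫ V, (ws L V r).re ∂ν : ℝ) : ℂ) +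
      ((∫ V, (ws L V r).im ∂ν : ℝ) : ℂ) * Complex.I := by
    unfold phv
    have hi : Integrable (fun V => ws L V r) ν :=
      (wsV_cont r).integrable_of_hasCompactSupport (HasCompactSupport.of_compactSpace _)
    exact (integral_re_add_im hi).symm
  rw [h3]
  have h4 := (Complex.continuous_ofReal.tendsto _).comp h1
  have h5 := ((Complex.continuous_ofReal.tendsto _).comp h2).mul_const Complex.I
  refine (h4.add h5).congr fun j => ?_
  unfold ph
  rw [ez_parts μ (ws_cont r)]
  rfl

lemma phv_apx (hN : 0 < N) (hg : HG L) {b : ℝ} {ν : Measure (LZ d → G)}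
    (hν : IV μ L (N * b) ν) : Apx 0 b (2 / (N : ℝ) ^ 2) (phv L ν) := by
  obtain ⟨s, hs, hlim⟩ := ph_tendsto μ hν
  have hl : Tendsto (fun j => 2 * (s j + 1)) atTop atTop :=
    tendsto_atTop_mono (fun j => by show s j ≤ 2 * (s j + 1); omega) hs
  have hA : ∀ j, Apx (2 * (s j + 1)) b (2 / (N : ℝ) ^ 2)
      (ph μ L (2 * (s j + 1)) b : List (Lp d) → ℂ) := fun j => ph_apx μ hN hg b
  constructor
  · refine tendsto_nhds_unique (hlim []) ?_
    simp only [(hA _).one]
    exact tendsto_const_nhds
  · intro r
    exact le_of_tendsto (hlim r).norm (Eventually.of_forall fun j => (hA j).bdd r)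
  · intro x r
    refine tendsto_nhds_unique (hlim _) ((hlim r).congr fun j => ?_)
    rw [(hA j).emp]
  · intro x k A r h1 h2
    refine le_of_tendsto ((hlim _).sub (tendsto_mm hlim 0 b x k A r)).norm ?_
    filter_upwards [hl.eventually_gt_atTop (A.length + 2)] with j hj
    have h3 := (hA j).equ x k A r (cl_zero_all h1 _) fun a ha => cl_zero_all (h2 a ha) _
    rwa [mm_large hj] at h3
  · intro x k A r h1 h2
    refine tendsto_nhds_unique (hlim _) ?_
    refine (((Complex.continuous_conj.tendsto _).comp (hlim _))).congr fun j => ?_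
    exact ((hA j).neg x k A r (cl_zero_all h1 _) fun a ha => cl_zero_all (h2 a ha) _).symm
  · intro r
    refine tendsto_nhds_unique (hlim _) ?_
    refine (((Complex.continuous_conj.tendsto _).comp (hlim _))).congr fun j => ?_
    exact ((hA j).cnj r).symm

end

end Pool.Agent.T2H01.EK
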