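import Mathlib
import Pool.Agent.T2H01.EK.Lim
import Pool.Agent.T2H01.EK.Ode

/-!
# The free energy at strong coupling does not depend on the volume
-/

open MeasureTheory Matrix Filter
open scoped Matrix.Norms.Frobenius Topology
open Pool.Agent.H906R3.YM Pool.Agent.W793.YM Pool.Agent.TH618.YM Pool.Agent.T2H01.YM

namespace Pool.Agent.T2H01.EK

set_option linter.unusedSectionVars false
set_option linter.unusedVariables false

noncomputable section

variable {G : Type*} [Group G] [TopologicalSpace G] [IsTopologicalGroup G] [CompactSpace G]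
  [SecondCountableTopology G] [MeasurableSpace G] [BorelSpace G] (μ : Measure G)
  [IsProbabilityMeasure μ] [μ.IsMulLeftInvariant] [μ.IsMulRightInvariant] [μ.IsInvInvariant]
  {N n d : ℕ} {L : LD G N n}

/-- the free energy per site and per degree of freedom -/
def fe (μ : Measure G) (L : LD G N n) (d l : ℕ) [NeZero l] (b : ℝ) : ℝ :=
  Real.log (Zt μ L (N * b) (fun _ : Ed d l → G => 1)) / ((N : ℝ) ^ 2 * (l : ℝ) ^ d)

/-! ### the action as a sum over the elementary squares -/

/-- the elementary square in the directions `i`, `j` -/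
def sq4 (i j : Fin d) : List (Stp d) := [(i, true), (j, true), (i, false), (j, false)]

/-- a lift of a point of the torus -/
def lft {l : ℕ} (X : Fin d → ZMod l) : Fin d → ℤ := fun i => ((X i).val : ℤ)

lemma cs_lft {l : ℕ} [NeZero l] (X : Fin d → ZMod l) : cs l (lft X) = X := by
  funext i
  unfold cs lft
  rw [Int.cast_natCast, ZMod.natCast_zmod_val]

lemma cl_sq4 (l : ℕ) (x : Fin d → ℤ) (i j : Fin d) : Cl l (x, sq4 i j) :=
  cl_of_closed (fun x => (sq_en x i j).1) x

lemma WT_sq4 (x : Fin d → ℤ) (i j : Fin d) : WT [((x, sq4 i j) : Lp d)] = 44 := by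
  rw [WT_cons, WT_nil, mul_one]
  show cwt 4 = 44
  rw [cwt_succ, catalan_three]
  norm_num

lemma we_sq4 (hN : 0 < N) {l : ℕ} (U : Ed d l → G) (x : Fin d → ℤ) (i j : Fin d) :
    we L (plqT U (cs l x) i j) = N * (1 - (ws L (pe U) [(x, sq4 i j)]).re) := by
  have hN' : (N : ℝ) ≠ 0 := by exact_mod_cast hN.ne'
  have h1 : L.rho (hol (pe U) x (sq4 i j)) = L.rho (plqT U (cs l x) i j) := sq_pos U x i j
  rw [we_tr, ws_cons, ws_nil, mul_one]
  unfold wr
  simp only [h1]
  rw [Complex.div_natCast_re]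
  field_simp

lemma act_sq4 (hN : 0 < N) {l : ℕ} [NeZero l] (U : Ed d l → G) :
    act L U = N * ∑ X : Fin d → ZMod l, ∑ i, ∑ j,
      if i < j then (1 - (ws L (pe U) [(lft X, sq4 i j)]).re) else 0 := by
  unfold act
  simp only [Finset.mul_sum]
  refine Finset.sum_congr rfl fun X _ => Finset.sum_congr rfl fun i _ =>
    Finset.sum_congr rfl fun j _ => ?_
  split_ifs with h
  · rw [← we_sq4 hN, cs_lft]
  · rw [mul_zero]

lemma ph_re {l : ℕ} [NeZero l] (b : ℝ) (s : List (Lp d)) :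
    (ph μ L l b s).re = EX μ L (N * b) (fun U : Ed d l → G => (ws L (pe U) s).re) := by
  unfold ph
  rw [ez_parts μ (ws_cont s)]
  simp

lemma EX_act (hN : 0 < N) {l : ℕ} [NeZero l] (b : ℝ) :
    EX μ L (N * b) (act L : (Ed d l → G) → ℝ) = N * ∑ X : Fin d → ZMod l, ∑ i, ∑ j,
      if i < j then (1 - (ph μ L l b [(lft X, sq4 i j)]).re) else 0 := by
  have h1 : (act L : (Ed d l → G) → ℝ) = fun U => N * ∑ X : Fin d → ZMod l, ∑ i, ∑ j,
      if i < j then (1 - (ws L (pe U) [(lft X, sq4 i j)]).re) else 0 :=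
    funext fun U => act_sq4 hN U
  have hc : ∀ (X : Fin d → ZMod l) (i j : Fin d), Continuous fun U : Ed d l → G =>
      (1 - (ws L (pe U) [(lft X, sq4 i j)]).re) := fun X i j =>
    continuous_const.sub (Complex.continuous_re.comp (ws_cont _))
  have hc' : ∀ (X : Fin d → ZMod l) (i j : Fin d), Continuous fun U : Ed d l → G =>
      if i < j then (1 - (ws L (pe U) [(lft X, sq4 i j)]).re) else 0 := by
    intro X i j
    split_ifs
    · exact hc X i j
    · exact continuous_const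
  rw [h1, EX_smul]
  congr 1
  rw [EX_sum μ _ fun X _ => continuous_finsetSum _ fun i _ => continuous_finsetSum _
    fun j _ => hc' X i j]
  refine Finset.sum_congr rfl fun X _ => ?_
  rw [EX_sum μ _ fun i _ => continuous_finsetSum _ fun j _ => hc' X i j]
  refine Finset.sum_congr rfl fun i _ => ?_
  rw [EX_sum μ _ fun j _ => hc' X i j]
  refine Finset.sum_congr rfl fun j _ => ?_
  split_ifs with h
  · have h2 := EX_sub μ (L := L) (β := N * b) (F := fun _ : Ed d l → G => 1)
      (H := fun U : Ed d l → G => (ws L (pe U) [(lft X, sq4 i j)]).re) continuous_const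
      (Complex.continuous_re.comp (ws_cont _))
    rw [EX_one] at h2
    rw [ph_re]
    exact h2
  · exact EX_const μ 0

/-! ### the derivative of the free energy -/

lemma Zt_hd {l : ℕ} [NeZero l] (b : ℝ) :
    HasDerivAt (fun b : ℝ => Zt μ L (N * b) (fun _ : Ed d l → G => 1))
      (-(N * Zt μ L (N * b) (act L : (Ed d l → G) → ℝ))) b := by
  have h := int_exp_deriv (N := N) (μ := ME μ (Ed d l)) (q := (act L : (Ed d l → G) → ℝ))
    act_cont b
  unfold Zt
  simp only [one_mul]
  exact h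

lemma fe_hd (hN : 0 < N) (l : ℕ) [NeZero l] (b : ℝ) :
    HasDerivAt (fe μ L d l) (-(∑ X : Fin d → ZMod l, ∑ i, ∑ j,
      if i < j then (1 - (ph μ L l b [(lft X, sq4 i j)]).re) else 0) / (l : ℝ) ^ d) b := by
  have hNr : (N : ℝ) ≠ 0 := by exact_mod_cast hN.ne'
  have hl : (l : ℝ) ≠ 0 := by exact_mod_cast NeZero.ne l
  have hZ : 0 < Zt μ L (N * b) (fun _ : Ed d l → G => 1) := Zt_pos μ _
  have h1 := ((Zt_hd (d := d) (l := l) (L := L) μ b).log hZ.ne').div_const
    ((N : ℝ) ^ 2 * (l : ℝ) ^ d)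
  refine h1.congr_deriv ?_
  have h2 := EX_act (d := d) (l := l) (L := L) μ hN b
  unfold EX at h2
  rw [neg_div, mul_div_assoc, h2]
  field_simp

/-- the difference of the densities of the free energies -/
def dif (μ : Measure G) (L : LD G N n) (d l : ℕ) [NeZero l] (b : ℝ) : ℝ :=
  fe μ L d l b - fe μ L d 1 b

lemma ph_one_base (b : ℝ) (x y : Fin d → ℤ) (w : List (Stp d)) :
    ph μ L 1 b [(x, w)] = ph μ L 1 b [(y, w)] := by
  unfold ph
  congr 1
  funext U
  have h : cs 1 x = cs 1 y := Subsingleton.elim _ _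
  rw [ws_cons, ws_cons]
  unfold wr
  simp only [hol_per U h]

lemma ph_dist (hN : 0 < N) (hg : HG L) {b : ℝ} (hb0 : 0 ≤ b) (hb : b * (20000 * d) ≤ 1)
    (l : ℕ) [NeZero l] (x y : Fin d → ℤ) (i j : Fin d) :
    |(ph μ L 1 b [(y, sq4 i j)]).re - (ph μ L l b [(x, sq4 i j)]).re| ≤ 52800 / (N : ℝ) ^ 2 := by
  have hd : (0 : ℝ) ≤ 2 / (N : ℝ) ^ 2 := by positivity
  have h := comp_red hb0 hb hd (ph_apx (l := 1) μ hN hg b) (ph_apx (l := l) μ hN hg b)
    [(x, sq4 i j)]
  rw [res_pos (by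
    intro a ha
    rw [List.mem_singleton] at ha
    rw [ha]
    exact cl_sq4 l x i j), WT_sq4, ph_one_base μ b x y] at h
  rw [← Complex.sub_re]
  refine (Complex.abs_re_le_norm _).trans (h.trans (le_of_eq ?_))
  ring

lemma dif_hd (hN : 0 < N) (l : ℕ) [NeZero l] (b : ℝ) :
    HasDerivAt (dif μ L d l) (∑ X : Fin d → ZMod l, (∑ i, ∑ j,
      if i < j then ((ph μ L l b [(lft X, sq4 i j)]).re - (ph μ L 1 b [(0, sq4 i j)]).re)
        else 0) / (l : ℝ) ^ d) b := by
  have hl : (l : ℝ) ≠ 0 := by exact_mod_cast NeZero.ne l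
  have h1 := (fe_hd (d := d) (L := L) μ hN l b).sub (fe_hd (d := d) (L := L) μ hN 1 b)
  refine h1.congr_deriv ?_
  have e1 : ∑ X : Fin d → ZMod 1, ∑ i, ∑ j,
      (if i < j then (1 - (ph μ L 1 b [(lft X, sq4 i j)]).re) else 0) =
      ∑ i, ∑ j, (if i < j then (1 - (ph μ L 1 b [((0 : Fin d → ℤ), sq4 i j)]).re) else 0) := by
    rw [Fintype.sum_unique]
    refine Finset.sum_congr rfl fun i _ => Finset.sum_congr rfl fun j _ => ?_
    rw [ph_one_base μ b _ 0]
  have e2 : ∑ i, ∑ j, (if i < j then (1 - (ph μ L 1 b [((0 : Fin d → ℤ), sq4 i j)]).re)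
      else 0) = ∑ X : Fin d → ZMod l, (∑ i, ∑ j,
        (if i < j then (1 - (ph μ L 1 b [((0 : Fin d → ℤ), sq4 i j)]).re) else 0)) /
          (l : ℝ) ^ d := by
    rw [Finset.sum_const, Finset.card_univ, Fintype.card_fun, ZMod.card, Fintype.card_fin,
      nsmul_eq_mul]
    push_cast
    field_simp
  rw [e1, Nat.cast_one, one_pow, div_one, e2, neg_div, Finset.sum_div, ← Finset.sum_neg_distrib,
    ← Finset.sum_neg_distrib, ← Finset.sum_sub_distrib]
  refine Finset.sum_congr rfl fun X _ => ?_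
  rw [← neg_div, ← neg_div, div_sub_div_same]
  congr 1
  simp only [← Finset.sum_neg_distrib, ← Finset.sum_sub_distrib]
  refine Finset.sum_congr rfl fun i _ => Finset.sum_congr rfl fun j _ => ?_
  split_ifs
  · ring
  · ring

lemma dif_zero (l : ℕ) [NeZero l] : dif μ L d l 0 = 0 := by
  have h : ∀ (m : ℕ) [NeZero m], fe μ L d m 0 = 0 := by
    intro m _
    unfold fe Zt
    simp
  unfold dif
  rw [h, h, sub_zero]

/-- volume independence of the free energy at strong coupling -/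
theorem free_strong (hN : 0 < N) (hg : HG L) {b : ℝ} (hb0 : 0 ≤ b) (hb : b * (20000 * d) ≤ 1)
    (l : ℕ) [NeZero l] :
    |fe μ L d l b - fe μ L d 1 b| ≤ 10 ^ 6 * (d : ℝ) ^ 2 * b / (N : ℝ) ^ 2 := by
  have hNr : (0 : ℝ) < N := by exact_mod_cast hN
  have hl : (0 : ℝ) < l := by exact_mod_cast Nat.pos_of_ne_zero (NeZero.ne l)
  have hbd : ∀ t ∈ Set.Icc (0 : ℝ) b, ‖(∑ X : Fin d → ZMod l, (∑ i, ∑ j,
      if i < j then ((ph μ L l t [(lft X, sq4 i j)]).re -
        (ph μ L 1 t [((0 : Fin d → ℤ), sq4 i j)]).re) else 0) / (l : ℝ) ^ d)‖ ≤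
        10 ^ 6 * (d : ℝ) ^ 2 / (N : ℝ) ^ 2 := by
    intro t ht
    have ht2 : t * (20000 * d) ≤ 1 :=
      (mul_le_mul_of_nonneg_right ht.2 (by positivity)).trans hb
    have h1 : ∀ X : Fin d → ZMod l, ‖(∑ i, ∑ j,
      if i < j then ((ph μ L l t [(lft X, sq4 i j)]).re -
        (ph μ L 1 t [((0 : Fin d → ℤ), sq4 i j)]).re) else 0) / (l : ℝ) ^ d‖ ≤
        (d : ℝ) ^ 2 * (52800 / (N : ℝ) ^ 2) / (l : ℝ) ^ d := by
      intro X
      rw [norm_div, norm_pow, Real.norm_of_nonneg hl.le]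
      refine div_le_div_of_nonneg_right ?_ (by positivity)
      refine (norm_sum_le _ _).trans ?_
      have h2 : ∀ i ∈ (Finset.univ : Finset (Fin d)), ‖∑ j, if i < j then
          ((ph μ L l t [(lft X, sq4 i j)]).re -
            (ph μ L 1 t [((0 : Fin d → ℤ), sq4 i j)]).re) else 0‖ ≤
          (d : ℝ) * (52800 / (N : ℝ) ^ 2) := by
        intro i _
        refine (norm_sum_le _ _).trans ?_
        have h3 : ∀ j ∈ (Finset.univ : Finset (Fin d)), ‖if i < j then
            ((ph μ L l t [(lft X, sq4 i j)]).re -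
              (ph μ L 1 t [((0 : Fin d → ℤ), sq4 i j)]).re) else 0‖ ≤
            52800 / (N : ℝ) ^ 2 := by
          intro j _
          split_ifs with h
          · rw [Real.norm_eq_abs, abs_sub_comm]
            exact ph_dist μ hN hg ht.1 ht2 l _ _ i j
          · rw [norm_zero]; positivity
        refine (Finset.sum_le_sum h3).trans (le_of_eq ?_)
        rw [Finset.sum_const, Finset.card_univ, Fintype.card_fin, nsmul_eq_mul]
      refine (Finset.sum_le_sum h2).trans (le_of_eq ?_)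
      rw [Finset.sum_const, Finset.card_univ, Fintype.card_fin, nsmul_eq_mul]
      ring
    refine (norm_sum_le _ _).trans ((Finset.sum_le_sum fun X _ => h1 X).trans ?_)
    rw [Finset.sum_const, Finset.card_univ, Fintype.card_fun, ZMod.card, Fintype.card_fin,
      nsmul_eq_mul]
    push_cast
    have h4 : (l : ℝ) ^ d * ((d : ℝ) ^ 2 * (52800 / (N : ℝ) ^ 2) / (l : ℝ) ^ d) =
        52800 * (d : ℝ) ^ 2 / (N : ℝ) ^ 2 := by
      field_simp
    rw [h4]
    refine div_le_div_of_nonneg_right ?_ (by positivity)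
    nlinarith [sq_nonneg (d : ℝ)]
  have h := Convex.norm_image_sub_le_of_norm_hasDerivWithin_le (f := dif μ L d l)
    (fun t ht => (dif_hd (d := d) (L := L) μ hN l t).hasDerivWithinAt) hbd (convex_Icc 0 b)
    (Set.left_mem_Icc.2 hb0) (Set.right_mem_Icc.2 hb0)
  rw [dif_zero, sub_zero, sub_zero, Real.norm_eq_abs, Real.norm_of_nonneg hb0] at h
  refine h.trans (le_of_eq ?_)
  ring

end

end Pool.Agent.T2H01.EK
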