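import Mathlib
import Pool.Agent.T2H01.EK.Lim
import Pool.Agent.T2H01.EK.WkD

/-!
# Strong coupling: factorisation, reduction and the symmetry of the centre
-/

open MeasureTheory Matrix Filter
open scoped Matrix.Norms.Frobenius Topology
open Pool.Agent.H906R3.YM Pool.Agent.W793.YM Pool.Agent.TH618.YM Pool.Agent.T2H01.YM

namespace Pool.Agent.T2H01.EK

set_option linter.unusedSectionVars false
set_option linter.unusedVariables false

noncomputable section

section abs

variable {d : ℕ}

lemma add_le_mul' {x y : ℝ} (hx : 2 ≤ x) (hy : 2 ≤ y) : x + y ≤ x * y := by nlinarith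

lemma cl_one (a : Lp d) : Cl 1 a := fun i => Subsingleton.elim _ _

/-- factorisation into single loops -/
lemma fact_all {b δ : ℝ} (hb0 : 0 ≤ b) (hb : b * (20000 * d) ≤ 1) (hδ : 0 ≤ δ)
    {φ : List (Lp d) → ℂ} (h : Apx 1 b δ φ) (s : List (Lp d)) :
    ‖φ s - (s.map fun a => φ [a]).prod‖ ≤ 900 * δ * ((len s + 1) * 8 ^ len s) := by
  induction s with
  | nil =>
    rw [h.one]
    simp only [List.map_nil, List.prod_nil, sub_self, norm_zero]
    positivity
  | cons a r ih =>
    obtain ⟨x, w⟩ := a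
    cases w with
    | nil =>
      have e1 : φ [(x, [])] = 1 := by rw [h.emp, h.one]
      have e2 : len ((x, ([] : List (Stp d))) :: r) = len r := by
        rw [len_cons]; simp
      rw [h.emp, List.map_cons, List.prod_cons, e1, one_mul, e2]
      exact ih
    | cons st A =>
      have h1 := fact hb0 hb hδ h (r₀ := r) (s := [(x, st :: A)]) (fun a _ => cl_one a)
        (fun a _ => cl_one a)
      have h2 : WT [(x, st :: A)] ≤ 8 ^ (A.length + 1) := by
        have := WT_upper [(x, st :: A)]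
        have e3 : len [(x, st :: A)] = A.length + 1 := by
          rw [len_cons]; simp [len]
        rwa [e3] at this
      have e4 : len ((x, st :: A) :: r) = (A.length + 1) + len r := by
        rw [len_cons]; simp
      rw [List.map_cons, List.prod_cons, e4]
      have e5 : φ ((x, st :: A) :: r) - φ [(x, st :: A)] * (r.map fun a => φ [a]).prod =
          (φ ([(x, st :: A)] ++ r) - φ [(x, st :: A)] * φ r) +
            φ [(x, st :: A)] * (φ r - (r.map fun a => φ [a]).prod) := by
        rw [List.singleton_append]; ring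
      rw [e5]
      refine (norm_add_le _ _).trans ?_
      rw [norm_mul]
      have e6 : ‖φ [(x, st :: A)]‖ * ‖φ r - (r.map fun a => φ [a]).prod‖ ≤
          1 * (900 * δ * ((len r + 1) * 8 ^ len r)) :=
        mul_le_mul (h.bdd _) ih (norm_nonneg _) zero_le_one
      have e7 : 900 * δ * (len r + 1) * WT [(x, st :: A)] ≤
          900 * δ * (len r + 1) * 8 ^ (A.length + 1) :=
        mul_le_mul_of_nonneg_left h2 (by positivity)
      have e8 : ((len r : ℝ) + 1) * 8 ^ (A.length + 1) + (len r + 1) * 8 ^ len r ≤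
          (((A.length + 1 + len r : ℕ) : ℝ) + 1) * 8 ^ (A.length + 1 + len r) := by
        push_cast
        have p1 : (8 : ℝ) ≤ 8 ^ (A.length + 1) := by
          calc (8 : ℝ) = 8 ^ 1 := (pow_one _).symm
            _ ≤ 8 ^ (A.length + 1) := pow_le_pow_right₀ (by norm_num) (by omega)
        have pA : (0 : ℝ) ≤ A.length := Nat.cast_nonneg _
        rcases Nat.eq_zero_or_pos (len r) with h0 | h0
        · rw [h0]
          push_cast
          rw [pow_zero, add_zero]
          nlinarith
        · have p2 : (8 : ℝ) ≤ 8 ^ len r := by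
            calc (8 : ℝ) = 8 ^ 1 := (pow_one _).symm
              _ ≤ 8 ^ len r := pow_le_pow_right₀ (by norm_num) h0
          have p3 := add_le_mul' (show (2 : ℝ) ≤ 8 ^ (A.length + 1) by linarith)
            (show (2 : ℝ) ≤ 8 ^ len r by linarith)
          have p4 : (0 : ℝ) ≤ (len r : ℝ) + 1 := by positivity
          rw [pow_add (8 : ℝ) (A.length + 1) (len r)]
          have p5 := mul_le_mul_of_nonneg_left p3 p4
          have p6 : 0 ≤ ((A.length : ℝ) + 1) * (8 ^ (A.length + 1) * 8 ^ len r) := by positivity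
          linarith
      have e9 := mul_le_mul_of_nonneg_left e8 (show 0 ≤ 900 * δ by positivity)
      linarith

/-- reduction -/
lemma reduction {l : ℕ} {b δ : ℝ} (hb0 : 0 ≤ b) (hb : b * (20000 * d) ≤ 1) (hδ : 0 ≤ δ)
    {φ φ' : List (Lp d) → ℂ} (h : Apx 1 b δ φ) (h' : Apx l b δ φ') {s : List (Lp d)}
    (hs : ∀ a ∈ s, Cl l a) :
    ‖φ' s - (s.map fun a => φ [a]).prod‖ ≤ 1500 * δ * ((len s + 1) * 8 ^ len s) := by
  have h1 := comp_red hb0 hb hδ h h' s
  rw [res_pos hs, norm_sub_rev] at h1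
  have h2 := fact_all hb0 hb hδ h s
  have h3 := mul_le_mul_of_nonneg_left (WT_upper s) (show 0 ≤ 600 * δ by positivity)
  have h4 : (8 : ℝ) ^ len s ≤ (len s + 1) * 8 ^ len s := by
    have p : (0 : ℝ) < 8 ^ len s := by positivity
    have p2 : (0 : ℝ) ≤ len s := Nat.cast_nonneg _
    nlinarith
  have h5 := mul_le_mul_of_nonneg_left h4 (show 0 ≤ 600 * δ by positivity)
  have e : φ' s - (s.map fun a => φ [a]).prod = (φ' s - φ s) +
    (φ s - (s.map fun a => φ [a]).prod) := by ring
  rw [e]
  refine (norm_add_le _ _).trans ?_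
  linarith

end abs

variable {G : Type} [Group G] [TopologicalSpace G] [IsTopologicalGroup G] [CompactSpace G]
  [SecondCountableTopology G] [MeasurableSpace G] [BorelSpace G] (μ : Measure G)
  [IsProbabilityMeasure μ] [μ.IsMulLeftInvariant] [μ.IsMulRightInvariant] [μ.IsInvInvariant]
  {N n d l K : ℕ} {L : LD G N n}

/-- a loop which is not closed on `ℤ^d` -/
lemma open_small (hN : 0 < N) (hg : HG L) {b : ℝ} (hb0 : 0 ≤ b) (hb : b * (20000 * d) ≤ 1)
    {a : Lp d} (ha : ¬Cl 0 a) :
    ‖ph μ L 1 b [a]‖ ≤ 1200 / (N : ℝ) ^ 2 * 8 ^ a.2.length := by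
  have hN' : (0 : ℝ) < N := by exact_mod_cast hN
  have h1 := comp_red hb0 hb (show 0 ≤ 2 / (N : ℝ) ^ 2 by positivity)
    (ph_apx μ (L := L) (d := d) (l := 1) hN hg b)
    (ph_apx μ (L := L) (d := d) (l := a.2.length + 1) hN hg b) [a]
  rw [res_neg (l := a.2.length + 1), sub_zero] at h1
  · refine h1.trans ?_
    have h2 := WT_upper [a]
    have e3 : len [a] = a.2.length := by
      rw [len_cons]; simp [len]
    rw [e3] at h2
    have h3 := mul_le_mul_of_nonneg_left h2 (show 0 ≤ 600 * (2 / (N : ℝ) ^ 2) by positivity)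
    refine h3.trans (le_of_eq ?_)
    ring
  · intro h
    have h2 := h a (by simp)
    rw [cl_large (by omega)] at h2
    exact ha h2

/-! ### the lines around the torus -/

/-- the line of `m` steps in the direction `i` from the origin -/
def pl (d : ℕ) (i : Fin d) (m : ℕ) : Lp d := (0, List.replicate m (i, true))

lemma hol_line (V : LZ d → G) (i : Fin d) (m : ℕ) (x : Fin d → ℤ) :
    hol V x (List.replicate m (i, true)) = LN.lnZ V i m x := by
  induction m generalizing x with
  | zero => rfl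
  | succ m ih =>
    rw [List.replicate_succ, hol_cons, ih]
    rfl

lemma en_line (i : Fin d) (m : ℕ) (x : Fin d → ℤ) :
    en x (List.replicate m (i, true)) = x + Pi.single i (m : ℤ) := by
  induction m generalizing x with
  | zero => simp [en_nil]
  | succ m ih =>
    rw [List.replicate_succ, en_cons, ih, nx_true, add_assoc, ← LN.single_add']
    congr 2
    push_cast
    ring

lemma pl_closed [NeZero l] (i : Fin d) (k : ℕ) : Cl l (pl d i (k * l)) := by
  rw [cl_cs]
  unfold pl
  simp only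
  rw [en_line, zero_add]
  funext j
  unfold Pool.Agent.T2H01.YM.cs
  by_cases hj : j = i
  · subst hj
    simp
  · simp [Pi.single_eq_of_ne hj]

lemma pl_open [NeZero l] (i : Fin d) {k : ℕ} (hk : 0 < k) : ¬Cl 0 (pl d i (k * l)) := by
  rw [cl_zero]
  unfold pl
  simp only
  rw [en_line, zero_add]
  intro h
  have := congrFun h i
  rw [Pi.single_eq_same, Pi.zero_apply] at this
  have h2 : k * l = 0 := by exact_mod_cast this
  have h3 := NeZero.pos l
  have : 0 < k * l := Nat.mul_pos hk h3
  omega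

lemma ln_add (U : Ed d l → G) (i : Fin d) (m k : ℕ) (x : Fin d → ZMod l) :
    ln U i (m + k) x = ln U i m x * ln U i k (x + m • eT i) := by
  induction m generalizing x with
  | zero => simp [ln]
  | succ m ih =>
    rw [Nat.succ_add]
    show U (x, i) * ln U i (m + k) (x + eT i) = U (x, i) * ln U i m (x + eT i) * _
    rw [ih, mul_assoc, add_assoc]
    congr 4
    rw [add_smul, one_smul, add_comm]

lemma ln_pow [NeZero l] (U : Ed d l → G) (i : Fin d) (k : ℕ) : ln U i (k * l) 0 = pol U i ^ k := by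
  induction k with
  | zero => simp [ln]
  | succ k ih =>
    have h1 : (k + 1) * l = l + k * l := by ring
    rw [h1, ln_add, l_eT, add_zero, ih, pow_succ']
    rfl

lemma wr_pl [NeZero l] (U : Ed d l → G) (i : Fin d) (k : ℕ) :
    wr L (pe U) (pl d i (k * l)) = trace (L.rho (pol U i ^ k)) / N := by
  unfold wr pl
  simp only
  rw [hol_line, LN.lnZ_pe]
  have h0 : (cs l (0 : Fin d → ℤ) : Fin d → ZMod l) = 0 := by
    funext k; simp [Pool.Agent.T2H01.YM.cs]
  rw [h0, ln_pow]

lemma tr_pq (P : G) {p q : ℕ} (h : p ≤ q) :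
    trace ((L.rho (P ^ p))ᴴ * L.rho (P ^ q)) = trace (L.rho (P ^ (q - p))) := by
  rw [← L.rho_inv, ← map_mul]
  congr 2
  rw [← pow_sub_mul_pow P h, inv_mul_eq_iff_eq_mul, ← pow_add, ← pow_add]
  congr 1
  omega

lemma norm_pq (P : G) (p q : ℕ) :
    ‖trace ((L.rho (P ^ p))ᴴ * L.rho (P ^ q)) / N‖ =
      ‖trace (L.rho (P ^ (max p q - min p q))) / N‖ := by
  rcases le_total p q with h | h
  · rw [tr_pq P h, max_eq_right h, min_eq_left h]
  · rw [max_eq_left h, min_eq_right h, ← tr_pq P h]
    have e1 : trace ((L.rho (P ^ p))ᴴ * L.rho (P ^ q)) =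
        starRingEnd ℂ (trace ((L.rho (P ^ q))ᴴ * L.rho (P ^ p))) := by
      rw [starRingEnd_apply, ← trace_conjTranspose, conjTranspose_mul,
        conjTranspose_conjTranspose]
    rw [e1, norm_div, norm_div, RCLike.norm_conj]

lemma ez_norm_le [NeZero l] {β c : ℝ} {F : (Ed d l → G) → ℝ} (hF : Continuous F) (a : Lp d)
    (h : ∀ U, F U = ‖wr L (pe U) a‖ ^ 2) : EX μ L β F ≤
      ‖ez μ L β (fun U : Ed d l → G => ws L (pe U) [a, iv a])‖ := by
  have h1 : ∀ U : Ed d l → G, (ws L (pe U) [a, iv a]).re = F U := by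
    intro U
    rw [ws_cons, ws_cons, ws_nil, mul_one, wr_iv, Complex.mul_conj, Complex.ofReal_re, h,
      Complex.normSq_eq_norm_sq]
  have h2 := ez_parts μ (L := L) (β := β) (ws_cont (l := l) (L := L) [a, iv a])
  simp only [h1] at h2
  have h3 := Complex.abs_re_le_norm (ez μ L β (fun U : Ed d l → G => ws L (pe U) [a, iv a]))
  rw [h2] at h3 ⊢
  refine le_trans ?_ h3
  simp
  exact le_abs_self _

/-- the constant -/
def c4 (l K : ℕ) : ℝ := 4200 * ((2 * (K * l) + 1) * 8 ^ (2 * (K * l)))

/-- the symmetry of the centre at strong coupling -/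
theorem strong_sym [NeZero l] (hN : 0 < N) (hg : HG L) {b : ℝ} (hb0 : 0 ≤ b)
    (hb : b * (20000 * d) ≤ 1) (hK : 0 < K) (i : Fin d) :
    EX μ L (N * b) (fun U : Ed d l → G => cl2 L K (pol U i)) ≤
      1 / K + c4 l K / (N : ℝ) ^ 2 := by
  have hN' : (0 : ℝ) < N := by exact_mod_cast hN
  have hK' : (0 : ℝ) < K := by exact_mod_cast hK
  have hpc : Continuous fun U : Ed d l → G => pol U i := pol_cont i
  have hfc : ∀ m : ℕ, Continuous fun U : Ed d l → G =>
      ‖trace (L.rho (pol U i ^ m)) / N‖ ^ 2 := by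
    intro m
    exact (((Continuous.matrix_trace (L.cont.comp (hpc.pow m))).div_const _).norm).pow 2
  -- one term
  have h1 : ∀ m : ℕ, 0 < m → m < K →
      EX μ L (N * b) (fun U : Ed d l → G => ‖trace (L.rho (pol U i ^ m)) / N‖ ^ 2) ≤
        c4 l K / (N : ℝ) ^ 2 := by
    intro m hm hmK
    have e1 := ez_norm_le μ (L := L) (β := N * b) (c := 0) (hfc m) (pl d i (m * l)) (fun U => by
      rw [wr_pl])
    refine e1.trans ?_
    have hcl : ∀ a ∈ [pl d i (m * l), iv (pl d i (m * l))], Cl l a := by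
      intro a ha
      simp only [List.mem_cons, List.not_mem_nil, or_false] at ha
      rcases ha with rfl | rfl
      · exact pl_closed i m
      · exact cl_iv (pl_closed i m)
    have e2 := reduction hb0 hb (show 0 ≤ 2 / (N : ℝ) ^ 2 by positivity)
      (ph_apx μ (L := L) (d := d) (l := 1) hN hg b) (ph_apx μ (L := L) (d := d) (l := l) hN hg b)
      hcl
    have e3 := open_small μ (L := L) hN hg hb0 hb (pl_open (l := l) i hm)
    have e4 := (ph_apx μ (L := L) (d := d) (l := 1) hN hg b).bdd [iv (pl d i (m * l))]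
    have hlen : (pl d i (m * l)).2.length = m * l := by unfold pl; simp
    have hlen2 : len [pl d i (m * l), iv (pl d i (m * l))] = 2 * (m * l) := by
      rw [len_cons, len_cons, iv_length, hlen]
      simp [len]
      ring
    rw [hlen2] at e2
    rw [hlen] at e3
    simp only [List.map_cons, List.map_nil, List.prod_cons, List.prod_nil, mul_one] at e2
    have e5 : ‖ph μ L 1 b [pl d i (m * l)] * ph μ L 1 b [iv (pl d i (m * l))]‖ ≤
        1200 / (N : ℝ) ^ 2 * 8 ^ (m * l) := by
      rw [norm_mul]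
      calc _ ≤ 1200 / (N : ℝ) ^ 2 * 8 ^ (m * l) * 1 :=
            mul_le_mul e3 e4 (norm_nonneg _) (by positivity)
        _ = _ := mul_one _
    have e6 : ‖ph μ L l b [pl d i (m * l), iv (pl d i (m * l))]‖ ≤
        1500 * (2 / (N : ℝ) ^ 2) * (((2 * (m * l) : ℕ) + 1) * 8 ^ (2 * (m * l))) +
          1200 / (N : ℝ) ^ 2 * 8 ^ (m * l) := by
      have := norm_add_le (ph μ L l b [pl d i (m * l), iv (pl d i (m * l))] -
        ph μ L 1 b [pl d i (m * l)] * ph μ L 1 b [iv (pl d i (m * l))])
        (ph μ L 1 b [pl d i (m * l)] * ph μ L 1 b [iv (pl d i (m * l))])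
      rw [sub_add_cancel] at this
      linarith
    refine e6.trans ?_
    unfold c4
    have hml : m * l ≤ K * l := Nat.mul_le_mul_right l hmK.le
    have hmlr : ((m : ℝ) * l) ≤ K * l := by exact_mod_cast hml
    have q1 : (8 : ℝ) ^ (2 * (m * l)) ≤ 8 ^ (2 * (K * l)) :=
      pow_le_pow_right₀ (by norm_num) (by omega)
    have q2 : (8 : ℝ) ^ (m * l) ≤ 8 ^ (2 * (K * l)) :=
      pow_le_pow_right₀ (by norm_num) (by omega)
    have q3 : (((2 * (m * l) : ℕ) : ℝ) + 1) * 8 ^ (2 * (m * l)) ≤
        (2 * (K * l) + 1) * 8 ^ (2 * (K * l)) := by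
      refine mul_le_mul ?_ q1 (by positivity) (by positivity)
      push_cast
      linarith
    have q4 : (8 : ℝ) ^ (m * l) ≤ (2 * (K * l) + 1) * 8 ^ (2 * (K * l)) := by
      refine q2.trans ?_
      have : (0 : ℝ) ≤ 2 * (K * l) := by positivity
      have p : (0 : ℝ) < 8 ^ (2 * (K * l)) := by positivity
      nlinarith
    have q5 : 1500 * (2 / (N : ℝ) ^ 2) * ((((2 * (m * l) : ℕ) : ℝ) + 1) * 8 ^ (2 * (m * l))) +
          1200 / (N : ℝ) ^ 2 * 8 ^ (m * l) =
        (3000 * ((((2 * (m * l) : ℕ) : ℝ) + 1) * 8 ^ (2 * (m * l))) + 1200 * 8 ^ (m * l)) /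
          (N : ℝ) ^ 2 := by ring
    rw [q5]
    refine div_le_div_of_nonneg_right ?_ (by positivity)
    linarith
  have hone : EX μ L (N * b) (fun _ : Ed d l → G => 1) = 1 := EX_one μ
  have h2 : ∀ p q : Fin K, EX μ L (N * b) (fun U : Ed d l → G =>
      ‖trace ((L.rho (pol U i ^ (p : ℕ)))ᴴ * L.rho (pol U i ^ (q : ℕ))) / N‖ ^ 2) ≤
        (if p = q then 1 else 0) + c4 l K / (N : ℝ) ^ 2 := by
    intro p q
    simp only [norm_pq]
    by_cases hpq : p = q
    · subst hpq
      rw [if_pos rfl, max_self, min_self, Nat.sub_self]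
      have e1 : ∀ U : Ed d l → G, ‖trace (L.rho (pol U i ^ 0)) / (N : ℂ)‖ ^ 2 = 1 := by
        intro U
        rw [pow_zero, map_one, trace_one, Fintype.card_fin, div_self (by exact_mod_cast hN.ne')]
        simp
      simp only [e1]
      rw [hone]
      have : 0 ≤ c4 l K / (N : ℝ) ^ 2 := by unfold c4; positivity
      linarith
    · rw [if_neg hpq, zero_add]
      have hne : (p : ℕ) ≠ q := fun h => hpq (Fin.ext h)
      refine h1 _ ?_ ?_
      · rcases lt_or_gt_of_ne hne with h | h
        · rw [max_eq_right h.le, min_eq_left h.le]; omega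
        · rw [max_eq_left h.le, min_eq_right h.le]; omega
      · have := p.2
        have := q.2
        have : max (p : ℕ) q < K := max_lt p.2 q.2
        omega
  -- the sum
  have hsum : EX μ L (N * b) (fun U : Ed d l → G => cl2 L K (pol U i)) =
      1 / (K : ℝ) ^ 2 * ∑ p : Fin K, ∑ q : Fin K, EX μ L (N * b) (fun U : Ed d l → G =>
      ‖trace ((L.rho (pol U i ^ (p : ℕ)))ᴴ * L.rho (pol U i ^ (q : ℕ))) / N‖ ^ 2) := by
    unfold cl2 clp
    have hc : ∀ p q : Fin K, Continuous fun U : Ed d l → G =>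
        ‖trace ((L.rho (pol U i ^ (p : ℕ)))ᴴ * L.rho (pol U i ^ (q : ℕ))) / N‖ ^ 2 := by
      intro p q
      simp only [norm_pq]
      exact hfc _
    rw [EX_smul]
    congr 1
    rw [EX_sum μ _ fun p _ => continuous_finsetSum _ fun q _ => hc p q]
    refine Finset.sum_congr rfl fun p _ => ?_
    rw [EX_sum μ _ fun q _ => hc p q]
  rw [hsum]
  have h3 : ∑ p : Fin K, ∑ q : Fin K, EX μ L (N * b) (fun U : Ed d l → G =>
      ‖trace ((L.rho (pol U i ^ (p : ℕ)))ᴴ * L.rho (pol U i ^ (q : ℕ))) / N‖ ^ 2) ≤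
      ∑ p : Fin K, ∑ q : Fin K, ((if p = q then 1 else 0) + c4 l K / (N : ℝ) ^ 2) :=
    Finset.sum_le_sum fun p _ => Finset.sum_le_sum fun q _ => h2 p q
  have h4 : ∑ p : Fin K, ∑ q : Fin K, ((if p = q then (1 : ℝ) else 0) + c4 l K / (N : ℝ) ^ 2) =
      K + K ^ 2 * (c4 l K / (N : ℝ) ^ 2) := by
    simp only [Finset.sum_add_distrib, Finset.sum_ite_eq, Finset.mem_univ, if_true,
      Finset.sum_const, Finset.card_univ, Fintype.card_fin, nsmul_eq_mul, mul_one]
    ring
  rw [h4] at h3
  have h5 := mul_le_mul_of_nonneg_left h3 (show 0 ≤ 1 / (K : ℝ) ^ 2 by positivity)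
  refine h5.trans (le_of_eq ?_)
  field_simp

end

end Pool.Agent.T2H01.EK
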